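import Pool.Agent.Helper21.SB.QDefs

namespace SB

/-- The entrywise norm of a matrix. -/
private noncomputable def nm {d : ℕ} (A : Matrix (Fin d) (Fin d) ℂ) : ℝ := ∑ i, ∑ j, ‖A i j‖

private theorem nm_nonneg {d : ℕ} (A : Matrix (Fin d) (Fin d) ℂ) : 0 ≤ nm A :=
  Finset.sum_nonneg fun _ _ => Finset.sum_nonneg fun _ _ => norm_nonneg _

private theorem nm_eq_zero {d : ℕ} {A : Matrix (Fin d) (Fin d) ℂ} (h : nm A = 0) : A = 0 := by
  ext i j
  have h1 := (Finset.sum_eq_zero_iff_of_nonneg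
    (fun i _ => Finset.sum_nonneg fun j _ => norm_nonneg (A i j))).1 h i (Finset.mem_univ i)
  have h2 := (Finset.sum_eq_zero_iff_of_nonneg (fun j _ => norm_nonneg (A i j))).1 h1 j
    (Finset.mem_univ j)
  exact norm_eq_zero.1 h2

private theorem nm_sub {d : ℕ} (A B : Matrix (Fin d) (Fin d) ℂ) : nm (A - B) ≤ nm A + nm B := by
  unfold nm
  rw [← Finset.sum_add_distrib]
  refine Finset.sum_le_sum fun i _ => ?_
  rw [← Finset.sum_add_distrib]
  exact Finset.sum_le_sum fun j _ => norm_sub_le _ _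

private theorem nm_two {d : ℕ} (A : Matrix (Fin d) (Fin d) ℂ) : nm (A + A) = 2 * nm A := by
  unfold nm
  rw [Finset.mul_sum]
  refine Finset.sum_congr rfl fun i _ => ?_
  rw [Finset.mul_sum]
  refine Finset.sum_congr rfl fun j _ => ?_
  rw [Matrix.add_apply, ← two_mul, norm_mul]
  simp

private theorem nm_mul {d : ℕ} (A B : Matrix (Fin d) (Fin d) ℂ) : nm (A * B) ≤ nm A * nm B := by
  have h1 : nm (A * B) ≤ ∑ i, ∑ j, ∑ k, ‖A i k‖ * ‖B k j‖ := by
    refine Finset.sum_le_sum fun i _ => Finset.sum_le_sum fun j _ => ?_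
    rw [Matrix.mul_apply]
    refine (norm_sum_le _ _).trans (le_of_eq ?_)
    exact Finset.sum_congr rfl fun k _ => norm_mul _ _
  refine h1.trans ?_
  have h2 : (∑ i, ∑ j, ∑ k, ‖A i k‖ * ‖B k j‖) = ∑ i, ∑ k, ‖A i k‖ * ∑ j, ‖B k j‖ := by
    refine Finset.sum_congr rfl fun i _ => ?_
    rw [Finset.sum_comm]
    exact Finset.sum_congr rfl fun k _ => (Finset.mul_sum _ _ _).symm
  rw [h2]
  unfold nm
  rw [Finset.sum_mul]
  refine Finset.sum_le_sum fun i _ => ?_
  rw [Finset.sum_mul]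
  refine Finset.sum_le_sum fun k _ => mul_le_mul_of_nonneg_left ?_ (norm_nonneg _)
  exact Finset.single_le_sum (f := fun k => ∑ j, ‖B k j‖)
    (fun k _ => Finset.sum_nonneg fun j _ => norm_nonneg (B k j)) (Finset.mem_univ k)

/-- A matrix whose powers are all close to one is the identity. -/
private theorem pow_close {d : ℕ} (A : Matrix (Fin d) (Fin d) ℂ)
    (h : ∀ n : ℕ, nm (A ^ n - 1) ≤ 1 / 2) : A = 1 := by
  have key : ∀ k : ℕ, ∀ n : ℕ, nm (A ^ n - 1) ≤ (2 / 3) ^ k * (1 / 2) := by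
    intro k
    induction k with
    | zero => intro n; simpa using h n
    | succ k ih =>
      intro n
      have h1 := ih (2 * n)
      have h2 := h n
      have h0 := nm_nonneg (A ^ n - 1)
      have e : (A ^ n - 1) + (A ^ n - 1) = (A ^ (2 * n) - 1) - (A ^ n - 1) * (A ^ n - 1) := by
        rw [two_mul, pow_add]
        noncomm_ring
      have h3 : 2 * nm (A ^ n - 1) ≤ nm (A ^ (2 * n) - 1) + nm (A ^ n - 1) * nm (A ^ n - 1) := by
        rw [← nm_two, e]
        exact (nm_sub _ _).trans (add_le_add le_rfl (nm_mul _ _))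
      have h4 : nm (A ^ n - 1) * nm (A ^ n - 1) ≤ (1 / 2) * nm (A ^ n - 1) :=
        mul_le_mul_of_nonneg_right h2 h0
      rw [pow_succ]
      linarith
  have hlim : Filter.Tendsto (fun k : ℕ => ((2 : ℝ) / 3) ^ k * (1 / 2)) Filter.atTop (nhds 0) := by
    have := (tendsto_pow_atTop_nhds_zero_of_lt_one (r := (2 : ℝ) / 3) (by norm_num)
      (by norm_num)).mul_const (1 / 2)
    simpa using this
  have h5 : nm (A ^ 1 - 1) ≤ 0 := ge_of_tendsto' hlim fun k => key k 1
  have h6 := nm_eq_zero (le_antisymm h5 (nm_nonneg _))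
  rw [pow_one] at h6
  exact sub_eq_zero.1 h6

theorem cont_ker {d : ℕ} (ρ : GQ →* Matrix.GeneralLinearGroup (Fin d) ℂ) (h : Continuous ρ) :
    ∃ K : IntermediateField ℚ Qb, FiniteDimensional ℚ K ∧ Normal ℚ K ∧
      ∀ g ∈ K.fixingSubgroup, ρ g = 1 := by
  have hc : Continuous fun g : GQ => (ρ g : Matrix (Fin d) (Fin d) ℂ) :=
    Units.continuous_val.comp h
  have hc2 : Continuous fun g : GQ => nm ((ρ g : Matrix (Fin d) (Fin d) ℂ) - 1) := by
    unfold nm
    refine continuous_finset_sum _ fun i _ => continuous_finset_sum _ fun j _ => ?_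
    exact ((hc.matrix_elem i j).sub continuous_const).norm
  have h1 : {g : GQ | nm ((ρ g : Matrix (Fin d) (Fin d) ℂ) - 1) < 1 / 2} ∈ nhds (1 : GQ) := by
    apply (isOpen_lt hc2 continuous_const).mem_nhds
    simp [nm]
  obtain ⟨K, hK, hn, hsub⟩ := (krullTopology_mem_nhds_one_iff_of_normal ℚ Qb _).1 h1
  refine ⟨K, hK, ?_, ?_⟩
  · have e : (DivisionRing.toRatAlgebra : Algebra ℚ K) = K.algebra' := Subsingleton.elim _ _
    rw [e]
    exact hn
  · intro g hg
    have h2 : (ρ g : Matrix (Fin d) (Fin d) ℂ) = 1 := by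
      apply pow_close
      intro n
      have h3 : g ^ n ∈ K.fixingSubgroup := K.fixingSubgroup.pow_mem hg n
      have h4 := hsub h3
      have h5 : nm ((ρ (g ^ n) : Matrix (Fin d) (Fin d) ℂ) - 1) < 1 / 2 := h4
      rw [map_pow, Units.val_pow_eq_pow_val] at h5
      exact h5.le
    exact Units.ext h2

end SB
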