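import Pool.Agent.Helper21.SB.QDefs

namespace SB

theorem cont_of_ker {d : ℕ} (ρ : GQ →* Matrix.GeneralLinearGroup (Fin d) ℂ)
    (K : IntermediateField ℚ Qb) (hK : FiniteDimensional ℚ K)
    (h : ∀ g ∈ K.fixingSubgroup, ρ g = 1) : Continuous ρ := by
  apply continuous_of_continuousAt_one
  have h1 : IsOpen (K.fixingSubgroup : Set GQ) := IntermediateField.fixingSubgroup_isOpen K
  have h2 : (K.fixingSubgroup : Set GQ) ∈ nhds (1 : GQ) := h1.mem_nhds K.fixingSubgroup.one_mem
  have h3 : (fun _ : GQ => (1 : Matrix.GeneralLinearGroup (Fin d) ℂ)) =ᶠ[nhds (1 : GQ)] ρ := by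
    filter_upwards [h2] with g hg
    exact (h g hg).symm
  exact (continuousAt_const (y := (1 : Matrix.GeneralLinearGroup (Fin d) ℂ))).congr h3

end SB
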