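import Pool.Agent.Helper21.SB.QDefs

namespace SB

namespace C1

variable {Γ : Type*} [Group Γ]

theorem ext_mul_right (U : Subgroup Γ) (χ : U →* ℂˣ) (x : Γ) {u : Γ} (hu : u ∈ U) :
    ext U χ (x * u) = ext U χ x * ext U χ u := by
  by_cases hx : x ∈ U
  · rw [ext_mem χ (U.mul_mem hx hu), ext_mem χ hx, ext_mem χ hu]
    have : (⟨x * u, U.mul_mem hx hu⟩ : U) = ⟨x, hx⟩ * ⟨u, hu⟩ := rfl
    rw [this, map_mul, Units.val_mul]
  · have h1 : x * u ∉ U := fun h => hx (by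
      have := U.mul_mem h (U.inv_mem hu)
      rwa [mul_inv_cancel_right] at this)
    rw [ext_not_mem χ h1, ext_not_mem χ hx, zero_mul]

theorem out_mem (U : Subgroup Γ) (x : Γ) : (QuotientGroup.mk x : Γ ⧸ U).out⁻¹ * x ∈ U := by
  rw [← QuotientGroup.eq, QuotientGroup.out_eq']

/-- The monomial matrices. -/
noncomputable def mat (U : Subgroup Γ) (χ : U →* ℂˣ) {d : ℕ} (e : Γ ⧸ U ≃ Fin d) (g : Γ) :
    Matrix (Fin d) (Fin d) ℂ :=
  fun i j => ext U χ ((e.symm i).out⁻¹ * g * (e.symm j).out)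

theorem mat_mul (U : Subgroup Γ) (χ : U →* ℂˣ) {d : ℕ} (e : Γ ⧸ U ≃ Fin d) (g h : Γ) :
    mat U χ e (g * h) = mat U χ e g * mat U χ e h := by
  ext i j
  rw [Matrix.mul_apply]
  have hm := out_mem U (h * (e.symm j).out)
  rw [Finset.sum_eq_single (e (QuotientGroup.mk (h * (e.symm j).out)))]
  · unfold mat
    rw [Equiv.symm_apply_apply, mul_assoc (QuotientGroup.mk (h * (e.symm j).out) : Γ ⧸ U).out⁻¹,
      ← ext_mul_right U χ _ hm]
    congr 1
    group
  · intro k _ hk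
    unfold mat
    rw [ext_not_mem χ (g := (e.symm k).out⁻¹ * h * (e.symm j).out), mul_zero]
    intro hh
    apply hk
    rw [mul_assoc, ← QuotientGroup.eq, QuotientGroup.out_eq'] at hh
    rw [← hh, Equiv.apply_symm_apply]
  · intro hk
    exact absurd (Finset.mem_univ _) hk

theorem mat_one (U : Subgroup Γ) (χ : U →* ℂˣ) {d : ℕ} (e : Γ ⧸ U ≃ Fin d) (M : Subgroup Γ)
    (hM : M.Normal) (hMU : M ≤ U) (hχ : ∀ g (h : g ∈ U), g ∈ M → χ ⟨g, h⟩ = 1) {g : Γ} (hg : g ∈ M) :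
    mat U χ e g = 1 := by
  have key : ∀ x : Γ, x⁻¹ * g * x ∈ M := fun x => by
    have := hM.conj_mem g hg x⁻¹
    rwa [inv_inv] at this
  ext i j
  unfold mat
  by_cases hij : i = j
  · subst hij
    rw [Matrix.one_apply_eq, ext_mem χ (hMU (key _)), hχ _ _ (key _), Units.val_one]
  · rw [Matrix.one_apply_ne hij]
    apply ext_not_mem
    intro hh
    apply hij
    have h1 : (e.symm i).out⁻¹ * g * (e.symm j).out =
        ((e.symm i).out⁻¹ * g * (e.symm i).out) * ((e.symm i).out⁻¹ * (e.symm j).out) := by group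
    rw [h1] at hh
    have h2 := (U.mul_mem_cancel_left (hMU (key _))).1 hh
    rw [← QuotientGroup.eq, QuotientGroup.out_eq', QuotientGroup.out_eq'] at h2
    exact e.symm.injective h2

end C1

open C1 in
theorem exists_indRep (M U : Subgroup GQ) (hM : M.Normal) (hMU : M ≤ U) (hU : U.FiniteIndex) (χ : U →* ℂˣ)
    (hχ : ∀ g (h : g ∈ U), g ∈ M → χ ⟨g, h⟩ = 1) :
    ∃ (d : ℕ) (ρ : GQ →* Matrix.GeneralLinearGroup (Fin d) ℂ), (∀ g ∈ M, ρ g = 1) ∧
      ∀ g, trm ρ g = Ind U (ext U χ) g := by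
  have : Finite (GQ ⧸ U) := Subgroup.finite_quotient_of_finiteIndex
  obtain ⟨d, ⟨e⟩⟩ := Finite.exists_equiv_fin (GQ ⧸ U)
  let f : GQ →* Matrix (Fin d) (Fin d) ℂ :=
    { toFun := mat U χ e
      map_one' := mat_one U χ e M hM hMU hχ M.one_mem
      map_mul' := mat_mul U χ e }
  refine ⟨d, MonoidHom.toHomUnits f, fun g hg => ?_, fun g => ?_⟩
  · apply Units.ext
    exact mat_one U χ e M hM hMU hχ hg
  · haveI : Fintype (GQ ⧸ U) := Fintype.ofFinite _
    unfold trm Ind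
    rw [finsum_eq_sum_of_fintype]
    have h1 : Matrix.trace ((MonoidHom.toHomUnits f) g : Matrix (Fin d) (Fin d) ℂ) =
        ∑ i, ext U χ ((e.symm i).out⁻¹ * g * (e.symm i).out) := rfl
    rw [h1, e.symm.sum_comp (fun q => ext U χ (q.out⁻¹ * g * q.out))]

end SB
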