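import Pool.Agent.Helper21.SB.QDefs

/-!
Project SB, module C2: invariants of Artin representations and signatures.
-/

namespace SB

namespace C2

/-- block sum of two matrices, as a homomorphism -/
noncomputable def blk (d d' : ℕ) :
    (Matrix (Fin d) (Fin d) ℂ × Matrix (Fin d') (Fin d') ℂ) →*
      Matrix (Fin (d + d')) (Fin (d + d')) ℂ where
  toFun x := Matrix.reindex finSumFinEquiv finSumFinEquiv (Matrix.fromBlocks x.1 0 0 x.2)
  map_one' := by
    change Matrix.reindex finSumFinEquiv finSumFinEquiv (Matrix.fromBlocks 1 0 0 1) = 1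
    rw [Matrix.fromBlocks_one, Matrix.reindex_apply, Matrix.submatrix_one_equiv]
  map_mul' x y := by
    change Matrix.reindex finSumFinEquiv finSumFinEquiv
      (Matrix.fromBlocks (x.1 * y.1) 0 0 (x.2 * y.2)) = _
    rw [Matrix.reindex_apply, Matrix.reindex_apply, Matrix.reindex_apply,
      Matrix.submatrix_mul_equiv, Matrix.fromBlocks_multiply]
    simp

theorem blk_apply (d d' : ℕ) (x : Matrix (Fin d) (Fin d) ℂ × Matrix (Fin d') (Fin d') ℂ) :
    blk d d' x = Matrix.reindex finSumFinEquiv finSumFinEquiv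
      (Matrix.fromBlocks x.1 0 0 x.2) := rfl

theorem blk_cont (d d' : ℕ) : Continuous (blk d d') := by
  have h : Continuous fun x : Matrix (Fin d) (Fin d) ℂ × Matrix (Fin d') (Fin d') ℂ =>
      (Matrix.fromBlocks x.1 0 0 x.2).submatrix finSumFinEquiv.symm finSumFinEquiv.symm :=
    (Continuous.matrix_fromBlocks continuous_fst continuous_const continuous_const
      continuous_snd).matrix_submatrix _ _
  exact h

theorem blk_trace (d d' : ℕ) (x : Matrix (Fin d) (Fin d) ℂ × Matrix (Fin d') (Fin d') ℂ) :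
    Matrix.trace (blk d d' x) = Matrix.trace x.1 + Matrix.trace x.2 := by
  rw [blk_apply, Matrix.reindex_apply]
  have h1 : Matrix.trace ((Matrix.fromBlocks x.1 0 0 x.2).submatrix
      (finSumFinEquiv (m := d) (n := d')).symm finSumFinEquiv.symm) =
      Matrix.trace (Matrix.fromBlocks x.1 0 0 x.2) := by
    unfold Matrix.trace
    exact Equiv.sum_comp (finSumFinEquiv (m := d) (n := d')).symm
      (fun i => Matrix.diag (Matrix.fromBlocks x.1 0 0 x.2) i)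
  rw [h1]
  unfold Matrix.trace
  rw [Fintype.sum_sum_type]
  rfl

/-- the direct sum of two representations -/
noncomputable def dsum {d d' : ℕ} (ρ : GQ →* Matrix.GeneralLinearGroup (Fin d) ℂ)
    (ρ' : GQ →* Matrix.GeneralLinearGroup (Fin d') ℂ) :
    GQ →* Matrix.GeneralLinearGroup (Fin (d + d')) ℂ :=
  (Units.map (blk d d')).comp
    ((MulEquiv.prodUnits.symm : _ ≃* _).toMonoidHom.comp (ρ.prod ρ'))

theorem dsum_val {d d' : ℕ} (ρ : GQ →* Matrix.GeneralLinearGroup (Fin d) ℂ)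
    (ρ' : GQ →* Matrix.GeneralLinearGroup (Fin d') ℂ) (g : GQ) :
    ((dsum ρ ρ' g : Matrix.GeneralLinearGroup (Fin (d + d')) ℂ) :
      Matrix (Fin (d + d')) (Fin (d + d')) ℂ) = blk d d' ((ρ g : Matrix _ _ ℂ), (ρ' g :
        Matrix _ _ ℂ)) := rfl

theorem dsum_inv_val {d d' : ℕ} (ρ : GQ →* Matrix.GeneralLinearGroup (Fin d) ℂ)
    (ρ' : GQ →* Matrix.GeneralLinearGroup (Fin d') ℂ) (g : GQ) :
    (((dsum ρ ρ' g)⁻¹ : Matrix.GeneralLinearGroup (Fin (d + d')) ℂ) :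
      Matrix (Fin (d + d')) (Fin (d + d')) ℂ) =
      blk d d' ((((ρ g)⁻¹ : Matrix.GeneralLinearGroup (Fin d) ℂ) : Matrix _ _ ℂ),
        (((ρ' g)⁻¹ : Matrix.GeneralLinearGroup (Fin d') ℂ) : Matrix _ _ ℂ)) := rfl

theorem dsum_cont {d d' : ℕ} {ρ : GQ →* Matrix.GeneralLinearGroup (Fin d) ℂ}
    {ρ' : GQ →* Matrix.GeneralLinearGroup (Fin d') ℂ} (h : Continuous ρ) (h' : Continuous ρ') :
    Continuous (dsum ρ ρ') := by
  rw [Units.continuous_iff] at h h' ⊢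
  refine ⟨?_, ?_⟩
  · exact (blk_cont d d').comp (h.1.prodMk h'.1)
  · exact (blk_cont d d').comp (h.2.prodMk h'.2)

theorem dsum_trm {d d' : ℕ} (ρ : GQ →* Matrix.GeneralLinearGroup (Fin d) ℂ)
    (ρ' : GQ →* Matrix.GeneralLinearGroup (Fin d') ℂ) (g : GQ) :
    trm (dsum ρ ρ') g = trm ρ g + trm ρ' g := by
  unfold trm
  rw [dsum_val, blk_trace]

variable {A : Type*} [CommGroup A] (L : ∀ d : ℕ, (GQ →* Matrix.GeneralLinearGroup (Fin d) ℂ) → A)

/-- `φ` is the character of a continuous representation with invariant `a` -/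
def RR (φ : GQ → ℂ) (a : A) : Prop :=
  ∃ (d : ℕ) (ρ : GQ →* Matrix.GeneralLinearGroup (Fin d) ℂ), Continuous ρ ∧
    (∀ g, trm ρ g = φ g) ∧ L d ρ = a

variable {L}

theorem zero_cont : Continuous (1 : GQ →* Matrix.GeneralLinearGroup (Fin 0) ℂ) :=
  continuous_const

theorem zero_trm (g : GQ) : trm (1 : GQ →* Matrix.GeneralLinearGroup (Fin 0) ℂ) g = 0 := by
  unfold trm
  exact Matrix.trace_fin_zero _

theorem L_zero (hmul : IsMult L) : L 0 1 = 1 := by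
  have h := hmul 0 0 0 1 1 1 zero_cont zero_cont zero_cont (fun g => by
    rw [zero_trm, add_zero])
  exact (mul_eq_left.1 h.symm)

theorem RR_zero (hmul : IsMult L) : RR L (fun _ => 0) 1 :=
  ⟨0, 1, zero_cont, zero_trm, L_zero hmul⟩

theorem RR_unique (hmul : IsMult L) {φ : GQ → ℂ} {a b : A} (h : RR L φ a) (h' : RR L φ b) :
    a = b := by
  obtain ⟨d, ρ, hc, ht, rfl⟩ := h
  obtain ⟨d', ρ', hc', ht', rfl⟩ := h'
  have h1 := hmul d d' 0 ρ ρ' 1 hc hc' zero_cont (fun g => by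
    rw [ht, ht', zero_trm, add_zero])
  rw [h1, L_zero hmul, mul_one]

theorem RR_add (hmul : IsMult L) {φ ψ : GQ → ℂ} {a b : A} (h : RR L φ a) (h' : RR L ψ b) :
    RR L (fun g => φ g + ψ g) (a * b) := by
  obtain ⟨d, ρ, hc, ht, rfl⟩ := h
  obtain ⟨d', ρ', hc', ht', rfl⟩ := h'
  refine ⟨d + d', dsum ρ ρ', dsum_cont hc hc', fun g => by rw [dsum_trm, ht, ht'], ?_⟩
  exact hmul _ _ _ _ _ _ (dsum_cont hc hc') hc hc' (fun g => dsum_trm ρ ρ' g)

theorem RR_nsmul (hmul : IsMult L) {φ : GQ → ℂ} {a : A} (h : RR L φ a) (k : ℕ) :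
    RR L (fun g => (k : ℂ) * φ g) (a ^ k) := by
  induction k with
  | zero =>
    simp only [Nat.cast_zero, zero_mul, pow_zero]
    exact RR_zero hmul
  | succ k ih =>
    have h2 := RR_add hmul ih h
    rw [pow_succ]
    have e : (fun g => ((k + 1 : ℕ) : ℂ) * φ g) = fun g => (k : ℂ) * φ g + φ g := by
      funext g
      push_cast
      ring
    rw [e]
    exact h2

theorem RR_sum (hmul : IsMult L) {ι : Type*} (s : Finset ι) (φ : ι → GQ → ℂ) (a : ι → A)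
    (h : ∀ i ∈ s, RR L (φ i) (a i)) : RR L (fun g => ∑ i ∈ s, φ i g) (∏ i ∈ s, a i) := by
  classical
  induction s using Finset.induction_on with
  | empty =>
    simp only [Finset.sum_empty, Finset.prod_empty]
    exact RR_zero hmul
  | insert i s hi ih =>
    rw [Finset.prod_insert hi]
    have e : (fun g => ∑ j ∈ insert i s, φ j g) = fun g => φ i g + ∑ j ∈ s, φ j g := by
      funext g
      rw [Finset.sum_insert hi]
    rw [e]
    exact RR_add hmul (h i (Finset.mem_insert_self i s))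
      (ih fun j hj => h j (Finset.mem_insert_of_mem hj))

end C2

open C2 in
/-- SB-C2 -/
theorem inv_main {A : Type*} [CommGroup A] (L : ∀ d : ℕ, (GQ →* Matrix.GeneralLinearGroup (Fin d) ℂ) → A)
    (hmul : IsMult L) (hsig : IsSigInv L)
    (hind : ∀ (M U : Subgroup GQ), M.Normal → M ≤ U → U.FiniteIndex → ∀ (χ : U →* ℂˣ),
      (∀ g (h : g ∈ U), g ∈ M → χ ⟨g, h⟩ = 1) →
      ∃ (d : ℕ) (ρ : GQ →* Matrix.GeneralLinearGroup (Fin d) ℂ), (∀ g ∈ M, ρ g = 1) ∧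
        ∀ g, trm ρ g = Ind U (ext U χ) g)
    (hcont : ∀ {d : ℕ} (ρ : GQ →* Matrix.GeneralLinearGroup (Fin d) ℂ) (K : IntermediateField ℚ Qb),
      FiniteDimensional ℚ K → (∀ g ∈ K.fixingSubgroup, ρ g = 1) → Continuous ρ)
    (hN : ∀ M ∈ NAll, M.Normal ∧ M.FiniteIndex)
    {d : ℕ} (ρ₁ ρ₂ : GQ →* Matrix.GeneralLinearGroup (Fin d) ℂ) (h₁ : Continuous ρ₁) (h₂ : Continuous ρ₂)
    (K' : IntermediateField ℚ Qb) (hK : FiniteDimensional ℚ K') (hn : Normal ℚ K') (P : Subgroup GQ → Prop)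
    (hfam : FamQ K' P (fun g => trm ρ₁ g - trm ρ₂ g)) : L d ρ₁ = L d ρ₂ := by
  obtain ⟨m, n, U, χ, χ', -, hU, hK1, hsg, hv⟩ := hfam
  obtain ⟨hMn, hMf⟩ := hN K'.fixingSubgroup ⟨K', hK, hn, rfl⟩
  have hUf : ∀ i, (U i).FiniteIndex := fun i => Subgroup.finiteIndex_of_le (hU i)
  have hpair : ∀ i, ∃ s : A, RR L (Ind (U i) (ext (U i) (χ i))) s ∧
      RR L (Ind (U i) (ext (U i) (χ' i))) s := by
    intro i
    obtain ⟨e, σ, hσ1, hσ2⟩ := hind K'.fixingSubgroup (U i) hMn (hU i) (hUf i) (χ i)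
      (fun g h hg => (hK1 i ⟨g, h⟩ hg).1)
    obtain ⟨e', σ', hσ1', hσ2'⟩ := hind K'.fixingSubgroup (U i) hMn (hU i) (hUf i) (χ' i)
      (fun g h hg => (hK1 i ⟨g, h⟩ hg).2)
    have hc := hcont σ K' hK hσ1
    have hc' := hcont σ' K' hK hσ1'
    refine ⟨L e σ, ⟨e, σ, hc, hσ2, rfl⟩, ⟨e', σ', hc', hσ2', ?_⟩⟩
    exact (hsig e e' σ σ' K' (U i) (χ i) (χ' i) hc hc' hK (hU i) (hK1 i) (hsg i) hσ2 hσ2').symm
  choose s hs hs' using hpair
  have R1 : RR L (fun g => trm ρ₁ g + ∑ i, (((n i).toNat : ℂ) * Ind (U i) (ext (U i) (χ' i)) g +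
      ((-(n i)).toNat : ℂ) * Ind (U i) (ext (U i) (χ i)) g))
      (L d ρ₁ * ∏ i, (s i ^ (n i).toNat * s i ^ (-(n i)).toNat)) :=
    RR_add hmul ⟨d, ρ₁, h₁, fun _ => rfl, rfl⟩ (RR_sum hmul _ _ _ fun i _ =>
      RR_add hmul (RR_nsmul hmul (hs' i) _) (RR_nsmul hmul (hs i) _))
  have R2 : RR L (fun g => trm ρ₂ g + ∑ i, (((n i).toNat : ℂ) * Ind (U i) (ext (U i) (χ i)) g +
      ((-(n i)).toNat : ℂ) * Ind (U i) (ext (U i) (χ' i)) g))
      (L d ρ₂ * ∏ i, (s i ^ (n i).toNat * s i ^ (-(n i)).toNat)) :=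
    RR_add hmul ⟨d, ρ₂, h₂, fun _ => rfl, rfl⟩ (RR_sum hmul _ _ _ fun i _ =>
      RR_add hmul (RR_nsmul hmul (hs i) _) (RR_nsmul hmul (hs' i) _))
  have hz : ∀ z : ℤ, (z : ℂ) = (z.toNat : ℂ) - ((-z).toNat : ℂ) := by
    intro z
    have h1 : z = (z.toNat : ℤ) - ((-z).toNat : ℤ) := by omega
    exact_mod_cast congrArg (Int.cast : ℤ → ℂ) h1
  have hfun : (fun g => trm ρ₁ g + ∑ i, (((n i).toNat : ℂ) * Ind (U i) (ext (U i) (χ' i)) g +
      ((-(n i)).toNat : ℂ) * Ind (U i) (ext (U i) (χ i)) g)) =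
      fun g => trm ρ₂ g + ∑ i, (((n i).toNat : ℂ) * Ind (U i) (ext (U i) (χ i)) g +
      ((-(n i)).toNat : ℂ) * Ind (U i) (ext (U i) (χ' i)) g) := by
    funext g
    have h1 : trm ρ₁ g - trm ρ₂ g = ∑ i, (n i : ℂ) * (Ind (U i) (ext (U i) (χ i)) g -
      Ind (U i) (ext (U i) (χ' i)) g) := hv g
    have h2 : (∑ i, (n i : ℂ) * (Ind (U i) (ext (U i) (χ i)) g -
        Ind (U i) (ext (U i) (χ' i)) g)) =
        (∑ i, (((n i).toNat : ℂ) * Ind (U i) (ext (U i) (χ i)) g +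
        ((-(n i)).toNat : ℂ) * Ind (U i) (ext (U i) (χ' i)) g)) -
        ∑ i, (((n i).toNat : ℂ) * Ind (U i) (ext (U i) (χ' i)) g +
        ((-(n i)).toNat : ℂ) * Ind (U i) (ext (U i) (χ i)) g) := by
      rw [← Finset.sum_sub_distrib]
      refine Finset.sum_congr rfl fun i _ => ?_
      rw [hz (n i)]
      ring
    rw [h2] at h1
    linear_combination h1
  rw [hfun] at R1
  exact mul_right_cancel (RR_unique hmul R1 R2)

end SB
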