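import Pool.Agent.Helper21.SB.Fin
import Pool.Agent.Helper21.SB.C0
import Pool.Agent.Helper21.SB.C0b
import Pool.Agent.Helper21.SB.C1
import Pool.Agent.Helper21.SB.C2

namespace SB

/-- The linear representation attached to a matrix representation. -/
noncomputable def lrep {d : ℕ} (ρ : GQ →* Matrix.GeneralLinearGroup (Fin d) ℂ) :
    GQ →* ((Fin d → ℂ) →ₗ[ℂ] (Fin d → ℂ)) where
  toFun g := Matrix.toLin' (ρ g : Matrix (Fin d) (Fin d) ℂ)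
  map_one' := by simp [Matrix.toLin'_one, Module.End.one_eq_id]
  map_mul' a b := by
    simp [Matrix.toLin'_mul, Module.End.mul_eq_comp]

theorem trace_lrep {d : ℕ} (ρ : GQ →* Matrix.GeneralLinearGroup (Fin d) ℂ) (g : GQ) :
    LinearMap.trace ℂ (Fin d → ℂ) (lrep ρ g) = trm ρ g := by
  simp [lrep, trm, Matrix.trace_toLin'_eq]

theorem lrep_one {d : ℕ} (ρ : GQ →* Matrix.GeneralLinearGroup (Fin d) ℂ) (g : GQ) (h : ρ g = 1) : lrep ρ g = 1 := by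
  show Matrix.toLin' (ρ g : Matrix (Fin d) (Fin d) ℂ) = 1
  rw [h]
  simp [Matrix.toLin'_one, Module.End.one_eq_id]

/-- The field cut out by two continuous representations. -/
theorem exists_K {d : ℕ} (ρ₁ ρ₂ : GQ →* Matrix.GeneralLinearGroup (Fin d) ℂ) (h₁ : Continuous ρ₁)
    (h₂ : Continuous ρ₂) : ρ₁.ker ⊓ ρ₂.ker ∈ NAll := by
  obtain ⟨K₁, hf₁, hn₁, hK₁⟩ := cont_ker ρ₁ h₁
  obtain ⟨K₂, hf₂, hn₂, hK₂⟩ := cont_ker ρ₂ h₂
  refine nAll_up (nAll_inf ⟨K₁, hf₁, hn₁, rfl⟩ ⟨K₂, hf₂, hn₂, rfl⟩) inferInstance ?_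
  intro g hg
  exact ⟨hK₁ g hg.1, hK₂ g hg.2⟩

/-- Solvability and nilpotency of the quotient by the common kernel. -/
theorem quot_sol {d : ℕ} (ρ₁ ρ₂ : GQ →* Matrix.GeneralLinearGroup (Fin d) ℂ) (M : Subgroup GQ)
    (hM : M = ρ₁.ker ⊓ ρ₂.ker) (hn : M.Normal) :
    (Group.IsSolvable ρ₁.range → Group.IsSolvable ρ₂.range → Group.IsSolvable (GQ ⧸ M)) ∧
    (Group.IsNilpotent ρ₁.range → Group.IsNilpotent ρ₂.range → Group.IsNilpotent (GQ ⧸ M)) := by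
  let f : GQ →* ρ₁.range × ρ₂.range := (ρ₁.rangeRestrict).prod (ρ₂.rangeRestrict)
  have hker : f.ker = M := by
    rw [hM]
    ext g
    simp only [f, MonoidHom.mem_ker, MonoidHom.prod_apply, Prod.mk_eq_one, Subgroup.mem_inf]
    constructor
    · rintro ⟨h1, h2⟩
      exact ⟨congrArg Subtype.val h1, congrArg Subtype.val h2⟩
    · rintro ⟨h1, h2⟩
      exact ⟨Subtype.ext h1, Subtype.ext h2⟩
  let F : GQ ⧸ M →* ρ₁.range × ρ₂.range := QuotientGroup.lift M f (fun g hg => by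
    rw [← hker] at hg; exact hg)
  have hF : Function.Injective F := by
    rw [injective_iff_map_eq_one]
    intro x hx
    obtain ⟨g, rfl⟩ := QuotientGroup.mk_surjective x
    have h1 : f g = 1 := hx
    rw [QuotientGroup.eq_one_iff, ← hker]
    exact h1
  constructor
  · intro s1 s2
    exact Group.isSolvable_of_isSolvable_injective hF
  · intro s1 s2
    exact Subgroup.isNilpotent_of_ker_le_center F (by rw [(MonoidHom.ker_eq_bot_iff F).2 hF]; exact bot_le)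

theorem part_one {d : ℕ} (ρ₁ ρ₂ : GQ →* Matrix.GeneralLinearGroup (Fin d) ℂ) (h₁ : Continuous ρ₁)
    (h₂ : Continuous ρ₂) (hc : ∀ c ∈ CC, trm ρ₁ c = trm ρ₂ c) :
    ∃ K' : IntermediateField ℚ Qb, FiniteDimensional ℚ K' ∧ Normal ℚ K' ∧
      (Group.IsSolvable ρ₁.range → Group.IsSolvable ρ₂.range → Group.IsSolvable (K' ≃ₐ[ℚ] K')) ∧
      (Group.IsNilpotent ρ₁.range → Group.IsNilpotent ρ₂.range → Group.IsNilpotent (K' ≃ₐ[ℚ] K')) ∧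
      FamQ K' (fun _ => True) (fun g => trm ρ₁ g - trm ρ₂ g) := by
  have hM := exists_K ρ₁ ρ₂ h₁ h₂
  obtain ⟨K, hK, hn, hKM⟩ := hM
  have hnormM : (K.fixingSubgroup).Normal := nAll_normal ⟨K, hK, hn, rfl⟩
  have hker₁ : ∀ g ∈ K.fixingSubgroup, ρ₁ g = 1 := fun g hg => by
    rw [← hKM] at hg; exact hg.1
  have hker₂ : ∀ g ∈ K.fixingSubgroup, ρ₂ g = 1 := fun g hg => by
    rw [← hKM] at hg; exact hg.2
  obtain ⟨K', hle, hfd, hnorm, hsol, hnil, hfam⟩ := main_general K hK hn (lrep ρ₁) (lrep ρ₂)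
    (fun g hg => lrep_one ρ₁ g (hker₁ g hg)) (fun g hg => lrep_one ρ₂ g (hker₂ g hg)) rfl
    (fun c hcc => by rw [trace_lrep, trace_lrep]; exact hc c hcc)
  have hq := quot_sol ρ₁ ρ₂ K.fixingSubgroup hKM.symm hnormM
  have hiff := sol_iff K hK hn
  refine ⟨K', hfd, hnorm, fun s1 s2 => hsol (hiff.1.1 ⟨⟨K, hK, hn, rfl⟩, hnormM, hq.1 s1 s2⟩),
    fun s1 s2 => hnil (hiff.2.1 ⟨⟨K, hK, hn, rfl⟩, hnormM, hq.2 s1 s2⟩), ?_⟩
  simpa only [trace_lrep] using hfam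

theorem part_two {d : ℕ} (ρ₁ ρ₂ : GQ →* Matrix.GeneralLinearGroup (Fin d) ℂ) (h₁ : Continuous ρ₁)
    (h₂ : Continuous ρ₂) (hc : ∀ c ∈ CC, trm ρ₁ c = trm ρ₂ c)
    (C : Subgroup GQ) (hC : C.Normal) (n : ℕ) (hidx : C.index = 2 ^ n)
    (hab : ∀ a ∈ C, ∀ b ∈ C, ρ₁ a * ρ₁ b = ρ₁ b * ρ₁ a ∧ ρ₂ a * ρ₂ b = ρ₂ b * ρ₂ a) :
    ∃ K' : IntermediateField ℚ Qb, FiniteDimensional ℚ K' ∧ Normal ℚ K' ∧
      FamQ K' TwoChain (fun g => trm ρ₁ g - trm ρ₂ g) := by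
  have hM := exists_K ρ₁ ρ₂ h₁ h₂
  have hMn : (ρ₁.ker ⊓ ρ₂.ker).Normal := nAll_normal hM
  have hab2 : ∀ a ∈ C ⊔ (ρ₁.ker ⊓ ρ₂.ker), ∀ b ∈ C ⊔ (ρ₁.ker ⊓ ρ₂.ker),
      ρ₁ a * ρ₁ b = ρ₁ b * ρ₁ a ∧ ρ₂ a * ρ₂ b = ρ₂ b * ρ₂ a := by
    intro a ha b hb
    obtain ⟨a1, ha1, a2, ha2, rfl⟩ := Subgroup.mem_sup_of_normal_right.1 ha
    obtain ⟨b1, hb1, b2, hb2, rfl⟩ := Subgroup.mem_sup_of_normal_right.1 hb
    have e1 : ρ₁ a2 = 1 := ha2.1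
    have e2 : ρ₂ a2 = 1 := ha2.2
    have e3 : ρ₁ b2 = 1 := hb2.1
    have e4 : ρ₂ b2 = 1 := hb2.2
    simp only [map_mul, e1, e2, e3, e4, mul_one]
    exact hab a1 ha1 b1 hb1
  have hE : AbExt 2 (ρ₁.ker ⊓ ρ₂.ker) (C ⊔ (ρ₁.ker ⊓ ρ₂.ker)) ⊤ := by
    refine ⟨le_sup_right, le_top, fun u _ c hc => ?_, fun a ha b hb => ?_, ?_⟩
    · exact (inferInstance : (C ⊔ (ρ₁.ker ⊓ ρ₂.ker)).Normal).conj_mem c hc u
    · obtain ⟨e1, e2⟩ := hab2 a ha b hb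
      constructor
      · show ρ₁ _ = 1
        rw [map_mul, map_mul, map_mul, map_inv, map_inv, e1]
        group
      · show ρ₂ _ = 1
        rw [map_mul, map_mul, map_mul, map_inv, map_inv, e2]
        group
    · rw [Subgroup.relIndex_top_right]
      have hd : (C ⊔ (ρ₁.ker ⊓ ρ₂.ker)).index ∣ 2 ^ n := by
        rw [← hidx]
        exact Subgroup.index_dvd_of_le le_sup_left
      obtain ⟨m, -, hm⟩ := (Nat.dvd_prime_pow Nat.prime_two).1 hd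
      exact ⟨m, hm⟩
  have hM' : (ρ₁.ker ⊓ ρ₂.ker) ∈ sysAll.N := hM
  have hfam := famTwo sysAll hM' hE TwoChain (fun W U t h hU => TwoChain.step hU h.le (relIndex_of_isStep_two h))
    TwoChain.top (lrep ρ₁) (lrep ρ₂) (fun g hg => lrep_one ρ₁ g hg.1) (fun g hg => lrep_one ρ₂ g hg.2) rfl
    (fun c hcc => by rw [trace_lrep, trace_lrep]; exact hc c hcc)
  obtain ⟨K, hK, hn, hKM⟩ := hM
  obtain ⟨K', -, hfd, hnorm, -, hfam'⟩ := famQ_of_fam sysAll rfl (fun M hM => hM) (K := K)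
    (by rw [← hKM]; exact hM') hfam
  refine ⟨K', hfd, hnorm, ?_⟩
  simpa only [trace_lrep] using hfam'

theorem part_three {A : Type*} [CommGroup A] (L : ∀ d : ℕ, (GQ →* Matrix.GeneralLinearGroup (Fin d) ℂ) → A)
    (hmul : IsMult L) (hsig : IsSigInv L) {d : ℕ} (ρ₁ ρ₂ : GQ →* Matrix.GeneralLinearGroup (Fin d) ℂ)
    (h₁ : Continuous ρ₁) (h₂ : Continuous ρ₂) (hc : ∀ c ∈ CC, trm ρ₁ c = trm ρ₂ c) : L d ρ₁ = L d ρ₂ := by
  obtain ⟨K', hfd, hnorm, -, -, hfam⟩ := part_one ρ₁ ρ₂ h₁ h₂ hc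
  exact inv_main L hmul hsig (fun M U hM hMU hU χ hχ => exists_indRep M U hM hMU hU χ hχ)
    (fun ρ K hK h => cont_of_ker ρ K hK h) (fun M hM => ⟨nAll_normal hM, nAll_fin hM⟩) ρ₁ ρ₂ h₁ h₂ K' hfd hnorm
    (fun _ => True) hfam

end SB
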