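import Pool.Agent.Helper21.SB.St

set_option linter.unusedVariables false

/-!
# Project SB, module L2: a square root with prescribed behaviour under the conjugations
-/

namespace SB

namespace L2aux

theorem isAlg : Algebra.IsAlgebraic ℚ Qb := by
  have h : @Algebra.IsAlgebraic ℚ Qb _ _ (AlgebraicClosure.instAlgebra ℚ) :=
    AlgebraicClosure.isAlgebraic ℚ
  convert h
  exact Subsingleton.elim _ _

theorem isNormal : Normal ℚ Qb := by
  have := isAlg
  have h : IsAlgClosure ℚ Qb := ⟨inferInstance, isAlg⟩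
  infer_instance

/-- Two embeddings of the field of algebraic numbers differ by an automorphism. -/
theorem exists_aut (φ₁ φ₂ : Qb →+* ℂ) : ∃ u : GQ, ∀ x, φ₁ (u x) = φ₂ x := by
  have := isNormal
  let : Algebra Qb ℂ := φ₁.toAlgebra
  have : IsScalarTower ℚ Qb ℂ := IsScalarTower.of_algebraMap_eq' (Subsingleton.elim _ _)
  refine ⟨AlgHom.restrictNormal' (RingHom.toRatAlgHom φ₂) Qb, fun x => ?_⟩
  exact AlgHom.restrictNormal_commutes (RingHom.toRatAlgHom φ₂) Qb x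

/-- The value of a polynomial at a real conjugate. -/
theorem map_aeval_real (φ : Qb →+* ℂ) (t : Qb) (r : ℝ) (h : φ t = (r : ℂ)) (q : Polynomial ℚ) :
    φ (Polynomial.aeval t q) = ((Polynomial.aeval r q : ℝ) : ℂ) := by
  have h1 : φ (Polynomial.aeval t q) = Polynomial.aeval (φ t) q := by
    have := Polynomial.aeval_algHom_apply (RingHom.toRatAlgHom φ) t q
    exact this.symm
  rw [h1, h]
  exact Polynomial.aeval_algebraMap_apply ℂ r q

/-- The real conjugates are finite in number. -/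
theorem fin_real (t : Qb) : {r : ℝ | ∃ φ : Qb →+* ℂ, φ t = (r : ℂ)}.Finite := by
  have hint : IsIntegral ℚ t := (isAlg.isAlgebraic t).isIntegral
  apply ((minpoly ℚ t).rootSet_finite ℝ).subset
  rintro r ⟨φ, hφ⟩
  rw [Polynomial.mem_rootSet]
  refine ⟨minpoly.ne_zero hint, ?_⟩
  have h1 := map_aeval_real φ t r hφ (minpoly ℚ t)
  rw [minpoly.aeval, map_zero] at h1
  exact_mod_cast h1.symm

/-- Embeddings which agree on a primitive element agree. -/
theorem agree (F : IntermediateField ℚ Qb) [FiniteDimensional ℚ F] (θ : F)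
    (hθ : IntermediateField.adjoin ℚ {θ} = ⊤) (φ₁ φ₂ : Qb →+* ℂ)
    (h : φ₁ (θ : Qb) = φ₂ (θ : Qb)) (x : Qb) (hx : x ∈ F) : φ₁ x = φ₂ x := by
  have h1 := (Field.primitive_element_iff_algHom_eq_of_eval' ℚ ℂ
    (fun x : F => IsAlgClosed.splits _) θ).1 hθ
  have h2 : (RingHom.toRatAlgHom φ₁).comp F.val = (RingHom.toRatAlgHom φ₂).comp F.val := h1 h
  exact DFunLike.congr_fun h2 ⟨x, hx⟩

/-- A conjugation which fixes `t`: the image of `t` is real. -/
theorem real_of_fix (s : GQ) (φ : Qb →+* ℂ) (hφ : ∀ x, φ (s x) = (starRingEnd ℂ) (φ x)) (t : Qb)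
    (ht : s t = t) : φ t = (((φ t).re : ℝ) : ℂ) := by
  have h := hφ t
  rw [ht] at h
  exact (Complex.conj_eq_iff_re.1 h.symm).symm

/-- The square of `w` is the real number `c`. -/
theorem sq_real (w : ℂ) (c : ℝ) (h : w ^ 2 = (c : ℂ)) :
    (c < 0 → (starRingEnd ℂ) w = -w) ∧ ((starRingEnd ℂ) w = -w → c ≤ 0) := by
  have h1 := congrArg Complex.re h
  have h2 := congrArg Complex.im h
  rw [pow_two, Complex.mul_re, Complex.ofReal_re] at h1
  rw [pow_two, Complex.mul_im, Complex.ofReal_im] at h2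
  constructor
  · intro hc
    have h3 : w.im ≠ 0 := by
      intro h4
      rw [h4] at h1
      nlinarith [mul_self_nonneg w.re]
    have h4 : w.re = 0 := by
      have h5 : w.re * w.im = 0 := by linarith
      rcases mul_eq_zero.1 h5 with h6 | h6
      · exact h6
      · exact absurd h6 h3
    apply Complex.ext
    · rw [Complex.conj_re, Complex.neg_re, h4, neg_zero]
    · rw [Complex.conj_im, Complex.neg_im]
  · intro hc
    have h3 := congrArg Complex.re hc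
    rw [Complex.conj_re, Complex.neg_re] at h3
    have h4 : w.re = 0 := by linarith
    rw [h4] at h1
    nlinarith [mul_self_nonneg w.im]

end L2aux

open L2aux in
theorem nt_sqrt (hsgn : StSgn) (F : IntermediateField ℚ Qb) (hF : FiniteDimensional ℚ F)
    (κ : Set GQ) (hκ : κ ⊆ CC) (hκF : ∀ s ∈ κ, s ∈ F.fixingSubgroup)
    (hinv : ∀ s ∈ κ, ∀ u ∈ F.fixingSubgroup, u * s * u⁻¹ ∈ κ) :
    ∃ β : Qb, β ≠ 0 ∧ β ^ 2 ∈ F ∧ ∀ s ∈ CC, s ∈ F.fixingSubgroup → (s β = -β ↔ s ∈ κ) := by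
  by_cases hex : ∃ s ∈ CC, s ∈ F.fixingSubgroup
  swap
  · exact ⟨1, one_ne_zero, by rw [one_pow]; exact F.one_mem,
      fun s hs hsF => absurd ⟨s, hs, hsF⟩ hex⟩
  obtain ⟨θ, hθ⟩ := Field.exists_primitive_element ℚ F
  let A : Set ℝ := {r | ∃ s ∈ κ, ∃ φ : Qb →+* ℂ, (∀ x, φ (s x) = (starRingEnd ℂ) (φ x)) ∧
    φ (θ : Qb) = (r : ℂ)}
  let B : Set ℝ := {r | ∃ s ∈ CC, s ∈ F.fixingSubgroup ∧ s ∉ κ ∧ ∃ φ : Qb →+* ℂ,
    (∀ x, φ (s x) = (starRingEnd ℂ) (φ x)) ∧ φ (θ : Qb) = (r : ℂ)}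
  have hA : A.Finite := (fin_real (θ : Qb)).subset (by
    rintro r ⟨s, _, φ, _, hφ⟩
    exact ⟨φ, hφ⟩)
  have hB : B.Finite := (fin_real (θ : Qb)).subset (by
    rintro r ⟨s, _, _, _, φ, _, hφ⟩
    exact ⟨φ, hφ⟩)
  have hAB : Disjoint A B := by
    rw [Set.disjoint_left]
    rintro r ⟨s₁, hs₁, φ₁, h1, hr1⟩ ⟨s₂, hs₂, hs₂F, hs₂κ, φ₂, h2, hr2⟩
    apply hs₂κ
    obtain ⟨u, hu⟩ := exists_aut φ₁ φ₂
    have hag := agree F θ hθ φ₁ φ₂ (hr1.trans hr2.symm)
    have huF : u ∈ F.fixingSubgroup := by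
      rw [IntermediateField.mem_fixingSubgroup_iff]
      intro x hx
      apply φ₁.injective
      rw [hu x, hag x hx]
    have hcomm : ∀ x, u (s₂ x) = s₁ (u x) := by
      intro x
      apply φ₁.injective
      rw [hu, h2, h1, hu]
    have h3 : s₂ = u⁻¹ * s₁ * (u⁻¹)⁻¹ := by
      have h4 : u * s₂ = s₁ * u := by
        ext x
        exact hcomm x
      rw [inv_inv, mul_assoc, ← h4, inv_mul_cancel_left]
    rw [h3]
    exact hinv s₁ hs₁ u⁻¹ (F.fixingSubgroup.inv_mem huF)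
  obtain ⟨q, hqA, hqB⟩ := hsgn A B hA hB hAB
  obtain ⟨β, hβ⟩ := IsAlgClosed.exists_pow_nat_eq (Polynomial.aeval (θ : Qb) q) (n := 2) (by norm_num)
  have hmain : ∀ s ∈ CC, s ∈ F.fixingSubgroup → ∃ φ : Qb →+* ℂ, ∃ c : ℝ,
      (∀ x, φ (s x) = (starRingEnd ℂ) (φ x)) ∧ (φ β) ^ 2 = (c : ℂ) ∧ (s ∈ κ → c < 0) ∧
      (s ∉ κ → 0 < c) := by
    intro s hs hsF
    obtain ⟨φ, hφ⟩ := hs
    have hsθ : s (θ : Qb) = θ := (IntermediateField.mem_fixingSubgroup_iff F s).1 hsF _ θ.2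
    have hr := real_of_fix s φ hφ _ hsθ
    refine ⟨φ, Polynomial.aeval (φ (θ : Qb)).re q, hφ, ?_, ?_, ?_⟩
    · rw [← map_pow, hβ]
      exact map_aeval_real φ _ _ hr q
    · intro hsκ
      exact hqA _ ⟨s, hsκ, φ, hφ, hr⟩
    · intro hsκ
      exact hqB _ ⟨s, ⟨φ, hφ⟩, hsF, hsκ, φ, hφ, hr⟩
  refine ⟨β, ?_, ?_, ?_⟩
  · obtain ⟨s, hs, hsF⟩ := hex
    obtain ⟨φ, c, _, hc, hc1, hc2⟩ := hmain s hs hsF
    intro h0
    rw [h0, map_zero, zero_pow (by norm_num)] at hc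
    have hc0 : c = 0 := by exact_mod_cast hc.symm
    by_cases hsκ : s ∈ κ
    · have := hc1 hsκ
      linarith
    · have := hc2 hsκ
      linarith
  · rw [hβ]
    have h1 : Polynomial.aeval (θ : Qb) q = ((Polynomial.aeval θ q : F) : Qb) :=
      Polynomial.aeval_algebraMap_apply Qb θ q
    rw [h1]
    exact (Polynomial.aeval θ q : F).2
  · intro s hs hsF
    obtain ⟨φ, c, hφ, hc, hc1, hc2⟩ := hmain s hs hsF
    obtain ⟨h1, h2⟩ := sq_real (φ β) c hc
    constructor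
    · intro h
      by_contra hsκ
      have h3 := h2 (by rw [← hφ, h, map_neg])
      have h4 := hc2 hsκ
      linarith
    · intro hsκ
      apply φ.injective
      rw [hφ, map_neg]
      exact h1 (hc1 hsκ)

end SB
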