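import Pool.Agent.Helper21.SB.St

namespace SB

/-! Subgroups of finite index and fixing subgroups. -/

instance isAlgebraic_Qb : Algebra.IsAlgebraic ℚ Qb := by
  have h : (DivisionRing.toRatAlgebra : Algebra ℚ Qb) = AlgebraicClosure.instAlgebra ℚ :=
    Subsingleton.elim _ _
  rw [h]
  exact AlgebraicClosure.isAlgebraic ℚ

instance isGalois_Qb : IsGalois ℚ Qb := by
  have hn : Normal ℚ Qb := by
    rw [normal_iff]
    intro x
    exact ⟨Algebra.IsIntegral.isIntegral x, IsAlgClosed.splits _⟩
  exact IsGalois.mk

/-- The two algebra structures of a number field in `Qb` over the rational numbers agree. -/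
theorem alg_eq (K : IntermediateField ℚ Qb) :
    (DivisionRing.toRatAlgebra : Algebra ℚ K) = K.algebra' := Subsingleton.elim _ _

/-- Normality for the two algebra structures. -/
theorem normal_conv (K : IntermediateField ℚ Qb) :
    @Normal ℚ K _ _ DivisionRing.toRatAlgebra ↔ @Normal ℚ K _ _ K.algebra' := by
  rw [alg_eq K]

/-- A subgroup containing the fixing subgroup of a number field is a fixing subgroup. -/
theorem open_eq (K : IntermediateField ℚ Qb) (hK : FiniteDimensional ℚ K) (U : Subgroup GQ)
    (h : K.fixingSubgroup ≤ U) :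
    ∃ F : IntermediateField ℚ Qb, FiniteDimensional ℚ F ∧ F ≤ K ∧ U = F.fixingSubgroup := by
  have hopen : IsOpen (K.fixingSubgroup : Set GQ) := IntermediateField.fixingSubgroup_isOpen K
  have hUo : IsOpen (U : Set GQ) := Subgroup.isOpen_mono h hopen
  have hUc : IsClosed (U : Set GQ) := U.isClosed_of_isOpen hUo
  have hle : IntermediateField.fixedField U ≤ K := by
    have := IntermediateField.fixedField_le h
    rwa [InfiniteGalois.fixedField_fixingSubgroup] at this
  refine ⟨IntermediateField.fixedField U, ?_, hle, ?_⟩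
  · exact FiniteDimensional.of_injective (IntermediateField.inclusion hle).toLinearMap
      (IntermediateField.inclusion hle).injective
  · exact (InfiniteGalois.fixingSubgroup_fixedField ⟨U, hUc⟩).symm

theorem nAll_normal {M : Subgroup GQ} (h : M ∈ NAll) : M.Normal := by
  obtain ⟨K, hK, hn, rfl⟩ := h
  have hn' := (normal_conv K).1 hn
  rw [InfiniteGalois.normal_iff_isGalois]
  exact IsGalois.mk

theorem nAll_fin {M : Subgroup GQ} (h : M ∈ NAll) : M.FiniteIndex := by
  obtain ⟨K, hK, hn, rfl⟩ := h
  have hopen : IsOpen (K.fixingSubgroup : Set GQ) := IntermediateField.fixingSubgroup_isOpen K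
  have := Subgroup.quotient_finite_of_isOpen K.fixingSubgroup hopen
  exact Subgroup.finiteIndex_of_finite_quotient

theorem nAll_inf {M M' : Subgroup GQ} (h : M ∈ NAll) (h' : M' ∈ NAll) : M ⊓ M' ∈ NAll := by
  obtain ⟨K, hK, hn, rfl⟩ := h
  obtain ⟨K', hK', hn', rfl⟩ := h'
  have h1 := (normal_conv K).1 hn
  have h2 := (normal_conv K').1 hn'
  exact ⟨K ⊔ K', IntermediateField.finiteDimensional_sup K K',
    (normal_conv _).2 (IntermediateField.normal_sup ℚ Qb K K'),
    IntermediateField.fixingSubgroup_sup.symm⟩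

theorem nAll_up {M M' : Subgroup GQ} (h : M ∈ NAll) (h' : M'.Normal) (hle : M ≤ M') :
    M' ∈ NAll := by
  obtain ⟨K, hK, hn, rfl⟩ := h
  obtain ⟨F, hF, -, rfl⟩ := open_eq K hK M' hle
  have := (InfiniteGalois.normal_iff_isGalois F).1 h'
  exact ⟨F, hF, (normal_conv F).2 this.to_normal, rfl⟩

end SB
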