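import Pool.Agent.Helper21.SB.St

/-!
# SB-L5: complex conjugations in the absolute Galois group
-/

set_option autoImplicit false

namespace SB

theorem cc_conj {s : GQ} (hs : s ∈ CC) (g : GQ) : g * s * g⁻¹ ∈ CC := by
  obtain ⟨φ, hφ⟩ := hs
  refine ⟨φ.comp ((g⁻¹ : GQ) : Qb →+* Qb), fun x => ?_⟩
  have h1 : (g⁻¹ : GQ) ((g * s * g⁻¹ : GQ) x) = s ((g⁻¹ : GQ) x) := by
    rw [AlgEquiv.mul_apply, AlgEquiv.mul_apply]
    exact g.symm_apply_apply _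
  change φ ((g⁻¹ : GQ) ((g * s * g⁻¹ : GQ) x)) = (starRingEnd ℂ) (φ ((g⁻¹ : GQ) x))
  rw [h1, hφ]

/-- two embeddings of the field of algebraic numbers differ by an automorphism -/
theorem emb_L5 (φ φ' : Qb →+* ℂ) : ∃ u : GQ, ∀ x, φ (u x) = φ' x := by
  let f : Qb →ₐ[ℚ] ℂ := φ.toRatAlgHom
  let f' : Qb →ₐ[ℚ] ℂ := φ'.toRatAlgHom
  let e : Qb ≃ₐ[ℚ] f.fieldRange := AlgEquiv.ofInjectiveField f
  let e' : Qb ≃ₐ[ℚ] f'.fieldRange := AlgEquiv.ofInjectiveField f'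
  have hN2 : @Normal ℚ f.fieldRange _ _ f.fieldRange.algebra' := Normal.of_algEquiv e
  have h1 : (f'.comp (e.symm : f.fieldRange →ₐ[ℚ] Qb)).fieldRange = f.fieldRange :=
    @AlgHom.fieldRange_of_normal ℚ ℂ _ _ _ f.fieldRange hN2 _
  have h2 : f'.fieldRange = f.fieldRange := by
    rw [← h1]
    ext z
    constructor
    · rintro ⟨x, rfl⟩
      exact ⟨e x, by simp⟩
    · rintro ⟨x, rfl⟩
      exact ⟨e.symm x, rfl⟩
  refine ⟨(e'.trans (IntermediateField.equivOfEq h2)).trans e.symm, fun x => ?_⟩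
  have h3 : ∀ y : f.fieldRange, φ (e.symm y) = (y : ℂ) := by
    intro y
    have h4 : (e (e.symm y) : ℂ) = y := by rw [e.apply_symm_apply]
    exact h4
  change φ (e.symm (IntermediateField.equivOfEq h2 (e' x))) = φ' x
  rw [h3]
  rfl

theorem cc_one {s s' : GQ} (hs : s ∈ CC) (hs' : s' ∈ CC) : ∃ g : GQ, s' = g * s * g⁻¹ := by
  obtain ⟨φ, hφ⟩ := hs
  obtain ⟨φ', hφ'⟩ := hs'
  obtain ⟨u, hu⟩ := emb_L5 φ φ'
  have h1 : u * s' = s * u := by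
    ext x
    apply φ.injective
    rw [AlgEquiv.mul_apply, AlgEquiv.mul_apply, hu, hφ', hφ, hu]
  refine ⟨u⁻¹, ?_⟩
  rw [inv_inv, mul_assoc, ← h1, inv_mul_cancel_left]

theorem cc_sq {s : GQ} (hs : s ∈ CC) : s * s = 1 := by
  obtain ⟨φ, hφ⟩ := hs
  ext x
  apply φ.injective
  rw [AlgEquiv.mul_apply, hφ, hφ, Complex.conj_conj]
  rfl

end SB
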