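import Pool.Agent.Helper21.SB.St

/-!
# SB-L6: quadratic characters with prescribed values at the complex conjugations
-/

set_option autoImplicit false

namespace SB

open IntermediateField

theorem alg_eq_L6 (K : IntermediateField ℚ Qb) :
    (DivisionRing.toRatAlgebra : Algebra ℚ K) = K.algebra' := Subsingleton.elim _ _

theorem normal_conv_L6 (K : IntermediateField ℚ Qb) :
    @Normal ℚ K _ _ DivisionRing.toRatAlgebra ↔ @Normal ℚ K _ _ K.algebra' := by
  rw [alg_eq_L6 K]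

/-- the normal closure of a simple extension -/
theorem gen_L6 {F Ω : Type*} [Field F] [Field Ω] [Algebra F Ω] [Normal F Ω] (β : Ω) :
    ∃ L : IntermediateField F Ω, FiniteDimensional F L ∧ Normal F L ∧
      (∀ h : Ω ≃ₐ[F] Ω, h β ∈ L) ∧
      ∀ g : Ω ≃ₐ[F] Ω, (∀ h : Ω ≃ₐ[F] Ω, g (h β) = h β) → g ∈ L.fixingSubgroup := by
  have hint : IsIntegral F β := Normal.isIntegral inferInstance β
  have hfd : FiniteDimensional F F⟮β⟯ := adjoin.finiteDimensional hint
  refine ⟨normalClosure F F⟮β⟯ Ω, inferInstance, inferInstance, ?_, ?_⟩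
  · intro h
    rw [normalClosure_def'']
    have h1 : (F⟮β⟯).map (h : Ω →ₐ[F] Ω) ≤ ⨆ f : Gal(Ω/F), (F⟮β⟯).map (f : Ω →ₐ[F] Ω) :=
      le_iSup (fun f : Gal(Ω/F) => (F⟮β⟯).map (f : Ω →ₐ[F] Ω)) h
    exact h1 ⟨β, mem_adjoin_simple_self F β, rfl⟩
  · intro g hg
    have h1 : normalClosure F F⟮β⟯ Ω ≤ fixedField (Subgroup.zpowers g) := by
      rw [normalClosure_def'', iSup_le_iff]
      intro f
      rw [adjoin_map, Set.image_singleton, adjoin_simple_le_iff, mem_fixedField_iff]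
      have h2 : Subgroup.zpowers g ≤ MulAction.stabilizer (Ω ≃ₐ[F] Ω) (f β) := by
        rw [Subgroup.zpowers_le, MulAction.mem_stabilizer_iff]
        exact hg f
      intro τ hτ
      exact h2 hτ
    exact (le_iff_le _ _).1 h1 (Subgroup.mem_zpowers g)

theorem nt_all (hsq : StSqrt) (hop : StOpen) (hn : StNAll) {M : Subgroup GQ} (hM : M ∈ NAll)
    (U : Subgroup GQ) (hU : M ≤ U) (κ : Set GQ) (hκ : κ ⊆ CC)
    (hκU : ∀ s ∈ κ, s ∈ U) (hinv : ∀ s ∈ κ, ∀ u ∈ U, u * s * u⁻¹ ∈ κ) :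
    ∃ M' ∈ NAll, M' ≤ M ∧ (∀ a ∈ M, a * a ∈ M') ∧ (∀ a ∈ M, ∀ b ∈ M, a * b * a⁻¹ * b⁻¹ ∈ M') ∧
      ∃ x : U →* ℤˣ, (∀ g (h : g ∈ U), g ∈ M' → x ⟨g, h⟩ = 1) ∧
        ∀ s (h : s ∈ U), s ∈ CC → (x ⟨s, h⟩ = -1 ↔ s ∈ κ) := by
  classical
  have hMn : M.Normal := hn.1 M hM
  obtain ⟨K, hK, hKn, rfl⟩ := id hM
  obtain ⟨F, hF, hFK, rfl⟩ := hop K hK U hU
  obtain ⟨β, hβ0, hβF, hβ⟩ := hsq F hF κ hκ hκU hinv
  have hneg : (-β : Qb) ≠ β := by
    intro h
    apply hβ0
    have h2 : (2 : Qb) * β = 0 := by linear_combination -h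
    rcases mul_eq_zero.1 h2 with h3 | h3
    · exact absurd h3 two_ne_zero
    · exact h3
  -- the normal closure of `ℚ(β)`
  obtain ⟨L, hLfd, hLn, hLmem, hLfix⟩ := gen_L6 (F := ℚ) (Ω := Qb) β
  have hL : L.fixingSubgroup ∈ NAll := ⟨L, hLfd, (normal_conv_L6 _).2 hLn, rfl⟩
  -- signs
  have hsgn : ∀ a ∈ K.fixingSubgroup, ∀ h : GQ, a (h β) = h β ∨ a (h β) = -(h β) := by
    intro a ha h
    have h1 : h⁻¹ * a * h ∈ K.fixingSubgroup := by
      have := hMn.conj_mem a ha h⁻¹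
      rwa [inv_inv] at this
    have h2 : (h⁻¹ * a * h : GQ) (β ^ 2) = β ^ 2 :=
      (mem_fixingSubgroup_iff K _).1 h1 _ (hFK hβF)
    have h3 : (h⁻¹ * a * h : GQ) β ^ 2 = β ^ 2 := by rw [← map_pow, h2]
    have h4 : ∀ y : Qb, h ((h⁻¹ * a * h : GQ) y) = a (h y) := by
      intro y
      rw [AlgEquiv.mul_apply, AlgEquiv.mul_apply]
      exact h.apply_symm_apply _
    rcases sq_eq_sq_iff_eq_or_eq_neg.1 h3 with h5 | h5
    · left
      rw [← h4, h5]
    · right
      rw [← h4, h5, map_neg]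
  have hU2 : ∀ u ∈ F.fixingSubgroup, u β = β ∨ u β = -β := by
    intro u hu
    have h2 : u (β ^ 2) = β ^ 2 := (mem_fixingSubgroup_iff F _).1 hu _ hβF
    have h3 : (u β) ^ 2 = β ^ 2 := by rw [← map_pow, h2]
    exact sq_eq_sq_iff_eq_or_eq_neg.1 h3
  refine ⟨K.fixingSubgroup ⊓ L.fixingSubgroup,
    hn.2.2.1 _ hM _ hL, inf_le_left, ?_, ?_, ?_⟩
  · intro a ha
    refine ⟨mul_mem ha ha, hLfix _ fun h => ?_⟩
    rw [AlgEquiv.mul_apply]
    rcases hsgn a ha h with h1 | h1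
    · rw [h1, h1]
    · rw [h1, map_neg, h1, neg_neg]
  · intro a ha b hb
    refine ⟨Subgroup.mul_mem _ (Subgroup.mul_mem _ (Subgroup.mul_mem _ ha hb) (Subgroup.inv_mem _ ha))
      (Subgroup.inv_mem _ hb),
      hLfix _ fun h => ?_⟩
    have key : (a * b * a⁻¹ * b⁻¹ : GQ) (h β) = h β := by
      have h0 : a * b * a⁻¹ * b⁻¹ * (b * a) = a * b := by group
      have hab : ∀ (c d : GQ), c ∈ K.fixingSubgroup → d ∈ K.fixingSubgroup →
          (c * d) (h β) = (d * c) (h β) := by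
        intro c d hc hd
        rw [AlgEquiv.mul_apply, AlgEquiv.mul_apply]
        rcases hsgn c hc h with h1 | h1 <;> rcases hsgn d hd h with h2 | h2 <;>
          simp only [h1, h2, map_neg, neg_neg]
      have h3 : (a * b * a⁻¹ * b⁻¹ : GQ) ((b * a) (h β)) = (a * b) (h β) := by
        rw [← AlgEquiv.mul_apply, h0]
      rw [hab a b ha hb] at h3
      have hba : b * a ∈ K.fixingSubgroup := mul_mem hb ha
      rcases hsgn _ hba h with h1 | h1
      · rw [h1] at h3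
        exact h3
      · rw [h1, map_neg, neg_inj] at h3
        exact h3
    exact key
  · refine ⟨{ toFun := fun u => if (u : GQ) β = β then 1 else -1
              map_one' := by simp
              map_mul' := ?_ }, ?_, ?_⟩
    · intro u v
      simp only [Subgroup.coe_mul, AlgEquiv.mul_apply]
      rcases hU2 u u.2 with h1 | h1 <;> rcases hU2 v v.2 with h2 | h2 <;>
        simp [h1, h2, hneg]
    · intro g h hg
      have h1 : g (((1 : GQ)) β) = ((1 : GQ)) β :=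
        (mem_fixingSubgroup_iff _ _).1 hg.2 _ (hLmem 1)
      have h2 : g β = β := h1
      simp [h2]
    · intro s h hs
      rw [← hβ s hs h]
      change (if s β = β then (1 : ℤˣ) else -1) = -1 ↔ _
      rcases hU2 s h with h1 | h1
      · rw [if_pos h1]
        constructor
        · intro h2
          exact absurd h2 (by decide)
        · intro h2
          rw [h1] at h2
          exact absurd h2.symm hneg
      · rw [h1, if_neg hneg]
        simp

end SB

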