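import Pool.Agent.Helper21.SB.St

/-!
Project SB, module M2: the odd part of a finite nilpotent group.
-/

namespace SB

private theorem eq_one_of_pow {H : Type*} [Group H] {c : H} {m n : ℕ} (h1 : c ^ m = 1)
    (h2 : c ^ n = 1) (h : m.Coprime n) : c = 1 := by
  have e1 := orderOf_dvd_of_pow_eq_one h1
  have e2 := orderOf_dvd_of_pow_eq_one h2
  have e3 : orderOf c ∣ 1 := by
    rw [← Nat.Coprime.gcd_eq_one h]
    exact Nat.dvd_gcd e1 e2
  exact orderOf_eq_one_iff.1 (Nat.dvd_one.1 e3)

/-- SB-M2 -/
theorem odd_part (G : Type*) [Group G] [Finite G] (h : Group.IsNilpotent G) :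
    ∃ O : Subgroup G, O.Normal ∧ Odd (Nat.card O) ∧ (∃ k, ∀ g : G, g ^ (2 ^ k) ∈ O) ∧
      ∀ g ∈ O, ∀ s : G, s * s = 1 → g * s = s * g := by
  obtain ⟨e⟩ := ((Group.isNilpotent_of_finite_tfae (G := G)).out 0 4).1 h
  -- components at the odd primes of elements of order at most two
  have hodd : ∀ s : G, s * s = 1 → ∀ (p : (Nat.card G).primeFactors), (p : ℕ) ≠ 2 →
      ∀ P : Sylow p G, e.symm s p P = 1 := by
    intro s hs p hp P
    have hpp : (p : ℕ).Prime := Nat.prime_of_mem_primeFactors p.2
    obtain ⟨k, hk⟩ := P.isPGroup' (e.symm s p P)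
    have h1 : (e.symm s p P) ^ 2 = 1 := by
      have h2 : e.symm s * e.symm s = 1 := by
        rw [← map_mul, hs, map_one]
      have h3 := congrFun (congrFun h2 p) P
      rw [pow_two]
      exact h3
    refine eq_one_of_pow h1 hk ?_
    exact Nat.Coprime.pow_right k ((Nat.coprime_primes Nat.prime_two hpp).2 (Ne.symm hp))
  refine ⟨{ carrier := {g | ∀ p : (Nat.card G).primeFactors, (p : ℕ) = 2 →
              ∀ P : Sylow p G, e.symm g p P = 1}
            one_mem' := by
              intro p _ P
              rw [map_one]
              rfl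
            mul_mem' := by
              intro a b ha hb p hp P
              rw [map_mul]
              have h1 := ha p hp P
              have h2 := hb p hp P
              change e.symm a p P * e.symm b p P = 1
              rw [h1, h2, one_mul]
            inv_mem' := by
              intro a ha p hp P
              rw [map_inv]
              have h1 := ha p hp P
              change (e.symm a p P)⁻¹ = 1
              rw [h1, inv_one] }, ⟨?_⟩, ?_, ?_, ?_⟩
  · intro n hn g p hp P
    have h1 := hn p hp P
    rw [map_mul, map_mul, map_inv]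
    change e.symm g p P * e.symm n p P * (e.symm g p P)⁻¹ = 1
    rw [h1, mul_one, mul_inv_cancel]
  · rw [← Nat.not_even_iff_odd]
    intro hev
    have h2 : 2 ∣ Nat.card _ := hev.two_dvd
    obtain ⟨x, hx⟩ := exists_prime_orderOf_dvd_card' 2 h2
    have hx2 : (x : G) * x = 1 := by
      have h3 := pow_orderOf_eq_one x
      rw [hx, pow_two] at h3
      exact congrArg Subtype.val h3
    have hx1 : e.symm (x : G) = 1 := by
      funext p P
      by_cases hp : (p : ℕ) = 2
      · exact x.2 p hp P
      · exact hodd _ hx2 p hp P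
    have hx0 : (x : G) = 1 := e.symm.injective (hx1.trans (map_one e.symm).symm)
    have hx3 : x = 1 := Subtype.ext hx0
    rw [hx3, orderOf_one] at hx
    omega
  · refine ⟨(Nat.card G).factorization 2, fun g p hp P => ?_⟩
    rw [map_pow]
    change (e.symm g p P) ^ (2 ^ (Nat.card G).factorization 2) = 1
    have hpp : (p : ℕ).Prime := Nat.prime_of_mem_primeFactors p.2
    have hf : Fact (p : ℕ).Prime := ⟨hpp⟩
    have hc := Sylow.card_eq_multiplicity P
    have hc2 : 2 ^ (Nat.card G).factorization 2 = Nat.card P := by
      rw [hc]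
      exact (congrArg (fun n : ℕ => n ^ (Nat.card G).factorization n) hp).symm
    rw [hc2]
    exact pow_card_eq_one'
  · intro g hg s hs
    apply e.symm.injective
    rw [map_mul, map_mul]
    funext p P
    change e.symm g p P * e.symm s p P = e.symm s p P * e.symm g p P
    by_cases hp : (p : ℕ) = 2
    · rw [hg p hp P, one_mul, mul_one]
    · rw [hodd s hs p hp P, one_mul, mul_one]

end SB
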