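import Pool.Agent.Helper21.SB.St

namespace SB

theorem nt_nil (hn : StNAll) (hnt : StNtAll) (hcc : StCC) (hinf : StInf) (hodd : StOdd)
    {M : Subgroup GQ} (hM : M ∈ NNil) (U : Subgroup GQ) (hU : M ≤ U) (κ : Set GQ) (hκ : κ ⊆ CC)
    (hκU : ∀ s ∈ κ, s ∈ U) (hinv : ∀ s ∈ κ, ∀ u ∈ U, u * s * u⁻¹ ∈ κ)
    (hsat : ∀ s ∈ κ, ∀ s' ∈ CC, s⁻¹ * s' ∈ M → s' ∈ κ) :
    ∃ M' ∈ NNil, M' ≤ M ∧ ∃ x : U →* ℤˣ, (∀ g (h : g ∈ U), g ∈ M' → x ⟨g, h⟩ = 1) ∧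
        ∀ s (h : s ∈ U), s ∈ CC → (x ⟨s, h⟩ = -1 ↔ s ∈ κ) := by
  obtain ⟨hMA, hMn, hnil⟩ := hM
  obtain ⟨hn1, hn2, hn3, hn4⟩ := hn
  obtain ⟨hc1, hc2, hc3⟩ := hcc
  have hfi : M.FiniteIndex := hn2 M hMA
  have : Finite (GQ ⧸ M) := inferInstance
  obtain ⟨O, hOn, hOodd, ⟨k, hk⟩, hOc⟩ := hodd (GQ ⧸ M) hnil
  set M₂ : Subgroup GQ := O.comap (QuotientGroup.mk' M) with hM₂
  have hMM₂ : M ≤ M₂ := by
    intro m hm
    rw [hM₂, Subgroup.mem_comap]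
    have : QuotientGroup.mk' M m = 1 := by
      rw [QuotientGroup.mk'_apply, QuotientGroup.eq_one_iff]; exact hm
    rw [this]; exact O.one_mem
  have hM₂n : M₂.Normal := by rw [hM₂]; infer_instance
  have hM₂A : M₂ ∈ NAll := hn4 M hMA M₂ hM₂n hMM₂
  -- images commute
  have hcomm : ∀ m ∈ M₂, ∀ s : GQ, s * s = 1 →
      QuotientGroup.mk' M m * QuotientGroup.mk' M s = QuotientGroup.mk' M s * QuotientGroup.mk' M m := by
    intro m hm s hs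
    apply hOc _ (by simpa [hM₂] using hm)
    rw [← map_mul, hs, map_one]
  have hMmem : ∀ g : GQ, QuotientGroup.mk' M g = 1 → g ∈ M := by
    intro g hg
    rw [QuotientGroup.mk'_apply, QuotientGroup.eq_one_iff] at hg
    exact hg
  -- (a)
  have ha : ∀ s ∈ κ, ∀ u ∈ U ⊔ M₂, u * s * u⁻¹ ∈ κ := by
    intro s hs u hu
    rw [Subgroup.mem_sup_of_normal_right] at hu
    obtain ⟨u1, hu1, m, hm, rfl⟩ := hu
    have h1 : m * s * m⁻¹ ∈ κ := by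
      apply hsat s hs _ (hc1 s (hκ hs) m)
      apply hMmem
      have h2 := hcomm m hm s (hc3 s (hκ hs))
      rw [map_mul, map_mul, map_mul, map_inv, map_inv, h2]
      group
    have h3 := hinv _ h1 u1 hu1
    have h4 : u1 * m * s * (u1 * m)⁻¹ = u1 * (m * s * m⁻¹) * u1⁻¹ := by group
    rw [h4]; exact h3
  -- (c)
  obtain ⟨M₂', hM₂'A, hM₂'le, hsq, hcom, x₂, hx1, hx2⟩ := hnt M₂ hM₂A (U ⊔ M₂) le_sup_right κ hκ
    (fun s hs => Subgroup.mem_sup_left (hκU s hs)) ha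
  have hM₂'n : M₂'.Normal := hn1 _ hM₂'A
  have : M₂'.FiniteIndex := hn2 _ hM₂'A
  have hM₂'nil : M₂' ∈ NNil := by
    refine ⟨hM₂'A, hM₂'n, ?_⟩
    have hp : IsPGroup 2 (GQ ⧸ M₂') := by
      intro g
      obtain ⟨g, rfl⟩ := QuotientGroup.mk'_surjective M₂' g
      refine ⟨k + 1, ?_⟩
      rw [← map_pow, QuotientGroup.mk'_apply, QuotientGroup.eq_one_iff, pow_succ, pow_mul, pow_two]
      apply hsq
      rw [hM₂, Subgroup.mem_comap, map_pow]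
      exact hk _
    have : Fact (Nat.Prime 2) := ⟨Nat.prime_two⟩
    exact hp.isNilpotent
  refine ⟨M ⊓ M₂', hinf.2.1 M ⟨hMA, hMn, hnil⟩ M₂' hM₂'nil, inf_le_left,
    x₂.comp (Subgroup.inclusion le_sup_left), ?_, ?_⟩
  · intro g h hg
    exact hx1 g (Subgroup.mem_sup_left h) hg.2
  · intro s h hs
    exact hx2 s (Subgroup.mem_sup_left h) hs

end SB
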