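import Pool.Agent.Helper21.SB.St

namespace SB

theorem normal_Qb_M4 : Normal ℚ Qb := by
  have h : @Normal ℚ Qb _ _ (AlgebraicClosure.instAlgebra ℚ) :=
    @IsAlgClosure.normal ℚ Qb _ _ (AlgebraicClosure.instAlgebra ℚ) _
  have e : (DivisionRing.toRatAlgebra : Algebra ℚ Qb) = AlgebraicClosure.instAlgebra ℚ :=
    Subsingleton.elim _ _
  rw [← e] at h
  exact h

theorem sol_iff (K : IntermediateField ℚ Qb) (hK : FiniteDimensional ℚ K) (hn : Normal ℚ K) :
    (K.fixingSubgroup ∈ NSol ↔ Group.IsSolvable (K ≃ₐ[ℚ] K)) ∧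
      (K.fixingSubgroup ∈ NNil ↔ Group.IsNilpotent (K ≃ₐ[ℚ] K)) := by
  have hn' : @Normal ℚ K _ _ (IntermediateField.algebra' K) := hn
  have hQ : Normal ℚ Qb := normal_Qb_M4
  have hker : (AlgEquiv.restrictNormalHom K : GQ →* (K ≃ₐ[ℚ] K)).ker = K.fixingSubgroup :=
    IntermediateField.restrictNormalHom_ker K
  have hN : K.fixingSubgroup.Normal := by rw [← hker]; infer_instance
  have hA : K.fixingSubgroup ∈ NAll := ⟨K, hK, hn, rfl⟩
  have hsurj : Function.Surjective (AlgEquiv.restrictNormalHom K : GQ →* (K ≃ₐ[ℚ] K)) :=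
    AlgEquiv.restrictNormalHom_surjective Qb
  let e : (GQ ⧸ K.fixingSubgroup) ≃* (K ≃ₐ[ℚ] K) :=
    (QuotientGroup.quotientMulEquivOfEq hker.symm).trans
      (QuotientGroup.quotientKerEquivOfSurjective _ hsurj)
  constructor
  · constructor
    · rintro ⟨_, _, h⟩
      exact Group.isSolvable_of_surjective (f := e.toMonoidHom) e.surjective
    · intro h
      exact ⟨hA, hN, Group.isSolvable_of_surjective (f := e.symm.toMonoidHom) e.symm.surjective⟩
  · constructor
    · rintro ⟨_, _, h⟩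
      exact (Group.isNilpotent_congr e).1 h
    · intro h
      exact ⟨hA, hN, (Group.isNilpotent_congr e).2 h⟩

end SB
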