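import Pool.Agent.Helper21.SB.St

namespace SB

/-- The homomorphism to the product of the two quotients. -/
private noncomputable def prM1 {G : Type*} [Group G] (M M' : Subgroup G) [M.Normal] [M'.Normal]
    [(M ⊓ M').Normal] : G ⧸ (M ⊓ M') →* (G ⧸ M) × (G ⧸ M') :=
  QuotientGroup.lift (M ⊓ M') ((QuotientGroup.mk' M).prod (QuotientGroup.mk' M')) (by
    intro x hx
    change ((x : G ⧸ M), (x : G ⧸ M')) = 1
    rw [(QuotientGroup.eq_one_iff x).2 hx.1, (QuotientGroup.eq_one_iff x).2 hx.2]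
    rfl)

private theorem prM1_inj {G : Type*} [Group G] (M M' : Subgroup G) [M.Normal] [M'.Normal]
    [(M ⊓ M').Normal] : Function.Injective (prM1 M M') := by
  rw [injective_iff_map_eq_one]
  intro x hx
  obtain ⟨g, rfl⟩ := QuotientGroup.mk_surjective x
  have h1 : ((g : G ⧸ M), (g : G ⧸ M')) = 1 := hx
  rw [QuotientGroup.eq_one_iff]
  exact ⟨(QuotientGroup.eq_one_iff g).1 (congrArg Prod.fst h1),
    (QuotientGroup.eq_one_iff g).1 (congrArg Prod.snd h1)⟩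

theorem nSol_inf (hn : StNAll) {M M' : Subgroup GQ} (h : M ∈ NSol) (h' : M' ∈ NSol) :
    M ⊓ M' ∈ NSol := by
  obtain ⟨hM, hMn, hMs⟩ := h
  obtain ⟨hM', hMn', hMs'⟩ := h'
  have hI : M ⊓ M' ∈ NAll := hn.2.2.1 M hM M' hM'
  have hIn : (M ⊓ M').Normal := hn.1 _ hI
  exact ⟨hI, hIn, Group.isSolvable_of_isSolvable_injective (prM1_inj M M')⟩

theorem nNil_inf (hn : StNAll) {M M' : Subgroup GQ} (h : M ∈ NNil) (h' : M' ∈ NNil) :
    M ⊓ M' ∈ NNil := by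
  obtain ⟨hM, hMn, hMs⟩ := h
  obtain ⟨hM', hMn', hMs'⟩ := h'
  have hI : M ⊓ M' ∈ NAll := hn.2.2.1 M hM M' hM'
  have hIn : (M ⊓ M').Normal := hn.1 _ hI
  refine ⟨hI, hIn, ?_⟩
  exact (Group.isNilpotent_congr (MonoidHom.ofInjective (prM1_inj M M'))).2 inferInstance

theorem nSol_ext (hn : StNAll) {M M' : Subgroup GQ} (h : M ∈ NSol) (h' : M' ∈ NAll) (hle : M' ≤ M)
    (hc : ∀ a ∈ M, ∀ b ∈ M, a * b * a⁻¹ * b⁻¹ ∈ M') : M' ∈ NSol := by
  obtain ⟨hM, hMn, hMs⟩ := h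
  have hn' : M'.Normal := hn.1 _ h'
  refine ⟨h', hn', ?_⟩
  let N : Subgroup (GQ ⧸ M') := M.map (QuotientGroup.mk' M')
  have hN : Group.IsSolvable N := by
    refine Group.isSolvable_of_comm ?_
    rintro ⟨_, a, ha, rfl⟩ ⟨_, b, hb, rfl⟩
    apply Subtype.ext
    change ((a * b : GQ) : GQ ⧸ M') = ((b * a : GQ) : GQ ⧸ M')
    rw [eq_comm, QuotientGroup.eq]
    have h1 := hc a⁻¹ (M.inv_mem ha) b⁻¹ (M.inv_mem hb)
    have h2 : (b * a)⁻¹ * (a * b) = a⁻¹ * b⁻¹ * a⁻¹⁻¹ * b⁻¹⁻¹ := by group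
    rw [h2]
    exact h1
  refine Group.isSolvable_of_ker_le_range N.subtype (QuotientGroup.map M' M (MonoidHom.id GQ) hle) ?_
  intro x hx
  obtain ⟨g, rfl⟩ := QuotientGroup.mk_surjective x
  have h1 : ((g : GQ) : GQ ⧸ M) = 1 := hx
  have h2 : g ∈ M := (QuotientGroup.eq_one_iff g).1 h1
  exact ⟨⟨_, g, h2, rfl⟩, rfl⟩

end SB
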