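import Pool.Agent.Helper21.SB.L1
import Pool.Agent.Helper21.SB.L2
import Pool.Agent.Helper21.SB.L34
import Pool.Agent.Helper21.SB.L5
import Pool.Agent.Helper21.SB.L6
import Pool.Agent.Helper21.SB.NM1
import Pool.Agent.Helper21.SB.M2
import Pool.Agent.Helper21.SB.M3
import Pool.Agent.Helper21.SB.M4

namespace SB

theorem gSgn : StSgn := fun A B hA hB h => sgn_poly A B hA hB h

theorem gSqrt : StSqrt := fun F hF κ hκ hκF hinv => nt_sqrt gSgn F hF κ hκ hκF hinv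

theorem gOpen : StOpen := fun K hK U h => open_eq K hK U h

theorem gNAll : StNAll :=
  ⟨fun _ h => nAll_normal h, fun _ h => nAll_fin h, fun _ h _ h' => nAll_inf h h', fun _ h _ h' hle => nAll_up h h' hle⟩

theorem gCC : StCC := ⟨fun _ hs g => cc_conj hs g, fun _ hs _ hs' => cc_one hs hs', fun _ hs => cc_sq hs⟩

theorem gNtAll : StNtAll := fun _ hM U hU κ hκ hκU hinv => nt_all gSqrt gOpen gNAll hM U hU κ hκ hκU hinv

theorem gInf : StInf := ⟨fun _ h _ h' => nSol_inf gNAll h h', fun _ h _ h' => nNil_inf gNAll h h',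
  fun _ h _ h' hle hc => nSol_ext gNAll h h' hle hc⟩

theorem gOdd : StOdd := fun G _ _ h => odd_part G h

theorem gNtNil {M : Subgroup GQ} (hM : M ∈ NNil) (U : Subgroup GQ) (hU : M ≤ U) (κ : Set GQ) (hκ : κ ⊆ CC)
    (hκU : ∀ s ∈ κ, s ∈ U) (hinv : ∀ s ∈ κ, ∀ u ∈ U, u * s * u⁻¹ ∈ κ)
    (hsat : ∀ s ∈ κ, ∀ s' ∈ CC, s⁻¹ * s' ∈ M → s' ∈ κ) :
    ∃ M' ∈ NNil, M' ≤ M ∧ ∃ x : U →* ℤˣ, (∀ g (h : g ∈ U), g ∈ M' → x ⟨g, h⟩ = 1) ∧
        ∀ s (h : s ∈ U), s ∈ CC → (x ⟨s, h⟩ = -1 ↔ s ∈ κ) :=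
  nt_nil gNAll gNtAll gCC gInf gOdd hM U hU κ hκ hκU hinv hsat

end SB
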