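import Pool.Agent.Helper21.SB.NBase

namespace SB

/-- The conclusion over the rational numbers. -/
def FamQ (K' : IntermediateField ℚ Qb) (P : Subgroup GQ → Prop) (v : GQ → ℂ) : Prop :=
  ∃ (m : ℕ) (n : Fin m → ℤ) (U : Fin m → Subgroup GQ) (χ χ' : ∀ i, U i →* ℂˣ),
    (∀ i, P (U i)) ∧ (∀ i, K'.fixingSubgroup ≤ U i) ∧
    (∀ i (g : U i), (g : GQ) ∈ K'.fixingSubgroup → χ i g = 1 ∧ χ' i g = 1) ∧
    (∀ i (c : U i), (c : GQ) ∈ CC → χ i c = χ' i c) ∧
    ∀ g, v g = ∑ i, (n i : ℂ) * (Ind (U i) (ext (U i) (χ i)) g - Ind (U i) (ext (U i) (χ' i)) g)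

/-- Subgroups reached from the whole group by a chain of subgroups of index two. -/
inductive TwoChain {Γ : Type*} [Group Γ] : Subgroup Γ → Prop
  | top : TwoChain ⊤
  | step {W U : Subgroup Γ} : TwoChain U → W ≤ U → W.relIndex U = 2 → TwoChain W

/-- The character of a complex matrix representation of the absolute Galois group. -/
noncomputable def trm {d : ℕ} (ρ : GQ →* Matrix.GeneralLinearGroup (Fin d) ℂ) (g : GQ) : ℂ :=
  Matrix.trace (ρ g : Matrix (Fin d) (Fin d) ℂ)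

/-- A family of invariants of Artin representations, multiplicative for direct sums (of characters). -/
def IsMult {A : Type*} [CommGroup A] (L : ∀ d : ℕ, (GQ →* Matrix.GeneralLinearGroup (Fin d) ℂ) → A) : Prop :=
  ∀ (d d' d'' : ℕ) (ρ : GQ →* Matrix.GeneralLinearGroup (Fin d) ℂ)
    (ρ' : GQ →* Matrix.GeneralLinearGroup (Fin d') ℂ) (ρ'' : GQ →* Matrix.GeneralLinearGroup (Fin d'') ℂ),
    Continuous ρ → Continuous ρ' → Continuous ρ'' → (∀ g, trm ρ g = trm ρ' g + trm ρ'' g) →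
    L d ρ = L d' ρ' * L d'' ρ''

/-- The invariants of two representations induced from finite order characters of the same number field
with the same signature agree. -/
def IsSigInv {A : Type*} [CommGroup A] (L : ∀ d : ℕ, (GQ →* Matrix.GeneralLinearGroup (Fin d) ℂ) → A) : Prop :=
  ∀ (d d' : ℕ) (ρ : GQ →* Matrix.GeneralLinearGroup (Fin d) ℂ) (ρ' : GQ →* Matrix.GeneralLinearGroup (Fin d') ℂ)
    (K : IntermediateField ℚ Qb) (U : Subgroup GQ) (χ χ' : U →* ℂˣ),
    Continuous ρ → Continuous ρ' → FiniteDimensional ℚ K → K.fixingSubgroup ≤ U →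
    (∀ g : U, (g : GQ) ∈ K.fixingSubgroup → χ g = 1 ∧ χ' g = 1) →
    (∀ c : U, (c : GQ) ∈ CC → χ c = χ' c) →
    (∀ g, trm ρ g = Ind U (ext U χ) g) → (∀ g, trm ρ' g = Ind U (ext U χ') g) →
    L d ρ = L d' ρ'

end SB
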