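import Pool.Agent.Helper21.SB.Asm
import Pool.Agent.Helper21.SB.NGlue
import Pool.Agent.Helper21.SB.QDefs

namespace SB

universe v

/-- All Galois number fields. -/
noncomputable def sysAll : Sys GQ where
  S := CC
  N := NAll
  normal := fun _ hM => nAll_normal hM
  fin := fun _ hM => nAll_fin hM
  inf := fun _ hM _ hM' => nAll_inf hM hM'
  conj := fun _ hs g => cc_conj hs g
  sq := fun _ hs => cc_sq hs
  nt := fun M hM U hU κ hκ hκU hinv _ => by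
    obtain ⟨M', hM', hle, -, -, x, hx1, hx2⟩ := gNtAll _ hM U hU κ hκ hκU hinv
    exact ⟨M', hM', hle, x, hx1, hx2⟩

/-- Solvable number fields. -/
noncomputable def sysSol : Sys GQ where
  S := CC
  N := NSol
  normal := fun _ hM => nAll_normal hM.1
  fin := fun _ hM => nAll_fin hM.1
  inf := fun _ hM _ hM' => nSol_inf gNAll hM hM'
  conj := fun _ hs g => cc_conj hs g
  sq := fun _ hs => cc_sq hs
  nt := fun M hM U hU κ hκ hκU hinv _ => by
    obtain ⟨M', hM', hle, -, hc, x, hx1, hx2⟩ := gNtAll _ hM.1 U hU κ hκ hκU hinv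
    exact ⟨M', nSol_ext gNAll hM hM' hle hc, hle, x, hx1, hx2⟩

/-- Nilpotent number fields. -/
noncomputable def sysNil : Sys GQ where
  S := CC
  N := NNil
  normal := fun _ hM => nAll_normal hM.1
  fin := fun _ hM => nAll_fin hM.1
  inf := fun _ hM _ hM' => nNil_inf gNAll hM hM'
  conj := fun _ hs g => cc_conj hs g
  sq := fun _ hs => cc_sq hs
  nt := fun _ hM U hU κ hκ hκU hinv hsat => gNtNil hM U hU κ hκ hκU hinv hsat

theorem exists_common {Γ : Type*} [Group Γ] (D : Sys Γ) {M : Subgroup Γ} (hM : M ∈ D.N) {m : ℕ}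
    (f : Fin m → Subgroup Γ) (hf : ∀ i, f i ∈ D.N) : ∃ M' ∈ D.N, M' ≤ M ∧ ∀ i, M' ≤ f i := by
  induction m with
  | zero => exact ⟨M, hM, le_rfl, fun i => i.elim0⟩
  | succ m ih =>
    obtain ⟨M', hM', h1, h2⟩ := ih (fun i => f i.castSucc) fun i => hf _
    refine ⟨M' ⊓ f (Fin.last m), D.inf _ hM' _ (hf _), inf_le_left.trans h1, fun i => ?_⟩
    refine Fin.lastCases ?_ (fun j => ?_) i
    · exact inf_le_right
    · exact inf_le_left.trans (h2 j)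

theorem famQ_of_fam (D : Sys GQ) (hS : D.S = CC) (hN : D.N ⊆ NAll) {K : IntermediateField ℚ Qb}
    (hK : K.fixingSubgroup ∈ D.N) {P : Subgroup GQ → Prop} {v : GQ → ℂ} (h : Fam D P v) :
    ∃ K' : IntermediateField ℚ Qb, K ≤ K' ∧ FiniteDimensional ℚ K' ∧ Normal ℚ K' ∧ K'.fixingSubgroup ∈ D.N ∧
      FamQ K' P v := by
  obtain ⟨m, n, U, χ, χ', hP, h1, h2, h3, h4⟩ := h
  choose M1 hM1 hM1U hM1χ using h1
  choose M2 hM2 hM2U hM2χ using h2
  obtain ⟨M', hM', hle, hcom⟩ := exists_common D hK (fun i => M1 i ⊓ M2 i) fun i => D.inf _ (hM1 i) _ (hM2 i)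
  obtain ⟨K', hfd, hnorm, rfl⟩ := hN hM'
  refine ⟨K', ?_, hfd, hnorm, hM', m, n, U, χ, χ', hP, fun i => (hcom i).trans (inf_le_left.trans (hM1U i)),
    fun i g hg => ⟨hM1χ i g g.2 (hcom i hg).1, hM2χ i g g.2 (hcom i hg).2⟩,
    fun i c hc => h3 i c c.2 (hS ▸ hc), h4⟩
  have e1 := InfiniteGalois.fixedField_fixingSubgroup K
  have e2 := InfiniteGalois.fixedField_fixingSubgroup K'
  rw [← e1, ← e2]
  exact IntermediateField.fixedField_antitone hle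

variable {V₁ : Type v} [AddCommGroup V₁] [Module ℂ V₁] [FiniteDimensional ℂ V₁]
    {V₂ : Type v} [AddCommGroup V₂] [Module ℂ V₂] [FiniteDimensional ℂ V₂]

theorem main_general (K : IntermediateField ℚ Qb) (hK : FiniteDimensional ℚ K) (hn : Normal ℚ K)
    (ρ₁ : GQ →* (V₁ →ₗ[ℂ] V₁)) (ρ₂ : GQ →* (V₂ →ₗ[ℂ] V₂))
    (h₁ : ∀ g ∈ K.fixingSubgroup, ρ₁ g = 1) (h₂ : ∀ g ∈ K.fixingSubgroup, ρ₂ g = 1)
    (hdim : Module.finrank ℂ V₁ = Module.finrank ℂ V₂)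
    (htr : ∀ c ∈ CC, LinearMap.trace ℂ V₁ (ρ₁ c) = LinearMap.trace ℂ V₂ (ρ₂ c)) :
    ∃ K' : IntermediateField ℚ Qb, K ≤ K' ∧ FiniteDimensional ℚ K' ∧ Normal ℚ K' ∧
      (Group.IsSolvable (K ≃ₐ[ℚ] K) → Group.IsSolvable (K' ≃ₐ[ℚ] K')) ∧
      (Group.IsNilpotent (K ≃ₐ[ℚ] K) → Group.IsNilpotent (K' ≃ₐ[ℚ] K')) ∧
      FamQ K' (fun _ => True) (fun g => LinearMap.trace ℂ V₁ (ρ₁ g) - LinearMap.trace ℂ V₂ (ρ₂ g)) := by
  by_cases hnil : Group.IsNilpotent (K ≃ₐ[ℚ] K)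
  · have hM : K.fixingSubgroup ∈ sysNil.N := (sol_iff K hK hn).2.2 hnil
    obtain ⟨K', hle, hfd, hnorm, hN, hfam⟩ := famQ_of_fam sysNil rfl (fun M hM => hM.1) hM
      (famGeneral sysNil hM ρ₁ ρ₂ h₁ h₂ hdim htr)
    have hnil' := (sol_iff K' hfd hnorm).2.1 hN
    exact ⟨K', hle, hfd, hnorm, fun _ => inferInstance, fun _ => hnil', hfam⟩
  · by_cases hsol : Group.IsSolvable (K ≃ₐ[ℚ] K)
    · have hM : K.fixingSubgroup ∈ sysSol.N := (sol_iff K hK hn).1.2 hsol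
      obtain ⟨K', hle, hfd, hnorm, hN, hfam⟩ := famQ_of_fam sysSol rfl (fun M hM => hM.1) hM
        (famGeneral sysSol hM ρ₁ ρ₂ h₁ h₂ hdim htr)
      exact ⟨K', hle, hfd, hnorm, fun _ => (sol_iff K' hfd hnorm).1.1 hN, fun h => absurd h hnil, hfam⟩
    · have hM : K.fixingSubgroup ∈ sysAll.N := ⟨K, hK, hn, rfl⟩
      obtain ⟨K', hle, hfd, hnorm, hN, hfam⟩ := famQ_of_fam sysAll rfl (fun M hM => hM) hM
        (famGeneral sysAll hM ρ₁ ρ₂ h₁ h₂ hdim htr)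
      exact ⟨K', hle, hfd, hnorm, fun h => absurd h hsol, fun h => absurd h hnil, hfam⟩

theorem relIndex_of_isStep_two {Γ : Type*} [Group Γ] {W U : Subgroup Γ} {t : Γ} (h : IsStep 2 W U t) :
    W.relIndex U = 2 := by
  rw [Subgroup.relIndex, Subgroup.index_eq_two_iff]
  refine ⟨⟨t, h.mem⟩, fun b => ?_⟩
  have ht : t ∉ W := fun h' => one_ne_zero (h.inj 1 (by norm_num) (by simpa using h'))
  have htt : t * t ∈ W := by simpa [sq] using h.pow_mem
  rw [Subgroup.mem_subgroupOf, Subgroup.mem_subgroupOf]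
  obtain ⟨k, hk, hkW⟩ := h.cover b b.2
  have hnorm := h.norm
  have ht' : t ∉ W := ht
  interval_cases k
  · have hb : (b : Γ) ∈ W := by simpa using hkW
    right
    refine ⟨hb, fun h' => ht ?_⟩
    have := W.mul_mem (W.inv_mem hb) h'
    simpa [mul_assoc] using this
  · left
    have h1 : t⁻¹ * (b : Γ) ∈ W := by simpa using hkW
    have h2 : (b : Γ) * t ∈ W := by
      have e : (b : Γ) * t = t * (t⁻¹ * b) * t⁻¹ * (t * t) := by group
      rw [e]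
      exact W.mul_mem (hnorm t h.mem _ h1) htt
    refine ⟨h2, fun h' => ht ?_⟩
    have e : t = (b : Γ) * (t⁻¹ * (b : Γ))⁻¹ := by group
    rw [e]
    exact W.mul_mem h' (W.inv_mem h1)

theorem main_two (K : IntermediateField ℚ Qb) (hK : FiniteDimensional ℚ K) (hn : Normal ℚ K)
    (A : Subgroup (K ≃ₐ[ℚ] K)) (hA : A.Normal) (hAc : ∀ a ∈ A, ∀ b ∈ A, a * b = b * a) (hA2 : ∃ n, A.index = 2 ^ n)
    (ρ₁ : GQ →* (V₁ →ₗ[ℂ] V₁)) (ρ₂ : GQ →* (V₂ →ₗ[ℂ] V₂))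
    (h₁ : ∀ g ∈ K.fixingSubgroup, ρ₁ g = 1) (h₂ : ∀ g ∈ K.fixingSubgroup, ρ₂ g = 1)
    (hdim : Module.finrank ℂ V₁ = Module.finrank ℂ V₂)
    (htr : ∀ c ∈ CC, LinearMap.trace ℂ V₁ (ρ₁ c) = LinearMap.trace ℂ V₂ (ρ₂ c)) :
    ∃ K' : IntermediateField ℚ Qb, K ≤ K' ∧ FiniteDimensional ℚ K' ∧ Normal ℚ K' ∧
      FamQ K' TwoChain (fun g => LinearMap.trace ℂ V₁ (ρ₁ g) - LinearMap.trace ℂ V₂ (ρ₂ g)) := by
  have hM : K.fixingSubgroup ∈ sysAll.N := ⟨K, hK, hn, rfl⟩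
  have := hn
  let r : GQ →* (K ≃ₐ[ℚ] K) := AlgEquiv.restrictNormalHom K
  have hr : Function.Surjective r := AlgEquiv.restrictNormalHom_surjective Qb
  have hcomm : ∀ (g : GQ) (x : K), ((r g x : K) : Qb) = g (x : Qb) := fun g x =>
    AlgEquiv.restrictNormal_commutes g K x
  have hker : r.ker = K.fixingSubgroup := by
    ext g
    rw [MonoidHom.mem_ker, IntermediateField.mem_fixingSubgroup_iff]
    constructor
    · intro h x hx
      rw [← hcomm g ⟨x, hx⟩, h]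
      rfl
    · intro h
      apply AlgEquiv.ext
      intro x
      apply Subtype.ext
      rw [hcomm g x, h x x.2]
      rfl
  have hC : AbExt 2 K.fixingSubgroup (A.comap r) ⊤ := by
    refine ⟨?_, le_top, ?_, ?_, ?_⟩
    · rw [← hker]; exact Subgroup.ker_le_comap r A
    · intro u _ c hc
      rw [Subgroup.mem_comap] at hc ⊢
      rw [map_mul, map_mul, map_inv]
      exact hA.conj_mem _ hc _
    · intro a ha b hb
      rw [Subgroup.mem_comap] at ha hb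
      rw [← hker, MonoidHom.mem_ker, map_mul, map_mul, map_mul, map_inv, map_inv, hAc _ ha _ hb]
      group
    · obtain ⟨n, hn⟩ := hA2
      refine ⟨n, ?_⟩
      rw [Subgroup.relIndex_top_right, Subgroup.index_comap_of_surjective A hr, hn]
  obtain ⟨K', hle, hfd, hnorm, -, hfam⟩ := famQ_of_fam sysAll rfl (fun M hM => hM) hM
    (famTwo sysAll hM hC TwoChain (fun W U t h hU => TwoChain.step hU h.le (relIndex_of_isStep_two h)) TwoChain.top
      ρ₁ ρ₂ h₁ h₂ hdim htr)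
  exact ⟨K', hle, hfd, hnorm, hfam⟩

end SB
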