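import Pool.Agent.Helper21.SB.NBase

namespace SB

/-! The definitions used in the statement of the theorem. -/

section General

variable {Γ : Type*} [Group Γ]

/-- Complex matrix representations of degree `d`. -/
abbrev Rp (Γ : Type*) [Group Γ] (d : ℕ) : Type _ := Γ →* Matrix.GeneralLinearGroup (Fin d) ℂ

/-- The character of a matrix representation. -/
noncomputable def chr {d : ℕ} (ρ : Rp Γ d) (g : Γ) : ℂ := Matrix.trace (ρ g : Matrix (Fin d) (Fin d) ℂ)

/-- The character induced from the linear character `χ` of the subgroup `U`. -/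
noncomputable def IndChr (U : Subgroup Γ) (χ : U →* ℂˣ) : Γ → ℂ := Ind U (ext U χ)

/-- The linear character `χ` of `U` is trivial on the elements of `N` in `U`. -/
def TrivOn (N : Subgroup Γ) {U : Subgroup Γ} (χ : U →* ℂˣ) : Prop := ∀ g (h : g ∈ U), g ∈ N → χ ⟨g, h⟩ = 1

/-- The linear characters `χ, χ'` of `U` are equal at all elements of `S` in `U`. -/
def SameOn (S : Set Γ) {U : Subgroup Γ} (χ χ' : U →* ℂˣ) : Prop := ∀ c (h : c ∈ U), c ∈ S → χ ⟨c, h⟩ = χ' ⟨c, h⟩

/-- `χ, χ'` are linear characters of `U ≥ N`, trivial on `N`, which are equal at all elements of `S` in `U`. -/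
def SigPair (S : Set Γ) (N U : Subgroup Γ) (χ χ' : U →* ℂˣ) : Prop :=
  N ≤ U ∧ TrivOn N χ ∧ TrivOn N χ' ∧ SameOn S χ χ'

/-- The difference of the characters of `ρ₁, ρ₂` is a finite sum `∑ nᵢ (Ind χᵢ - Ind χᵢ')` with integers `nᵢ`, and
`χᵢ, χᵢ'` linear characters of subgroups `Uᵢ` with property `P`, as in `SigPair`. -/
def Decomp (S : Set Γ) (N : Subgroup Γ) (P : Subgroup Γ → Prop) {d : ℕ} (ρ₁ ρ₂ : Rp Γ d) : Prop :=
  ∃ (m : ℕ) (n : Fin m → ℤ) (U : Fin m → Subgroup Γ) (χ χ' : ∀ i, U i →* ℂˣ),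
    (∀ i, P (U i) ∧ SigPair S N (U i) (χ i) (χ' i)) ∧
    ∀ g, chr ρ₁ g - chr ρ₂ g = ∑ i, (n i : ℂ) * (IndChr (U i) (χ i) g - IndChr (U i) (χ' i) g)

/-- Subgroups reached from the whole group by a chain of subgroups of index two. -/
inductive TwoSteps : Subgroup Γ → Prop
  | top : TwoSteps ⊤
  | step {W U : Subgroup Γ} : TwoSteps U → W ≤ U → W.relIndex U = 2 → TwoSteps W

/-- The representation `ρ` is commutative on the subgroup `C`. -/
def AbOn (C : Subgroup Γ) {d : ℕ} (ρ : Rp Γ d) : Prop := ∀ a ∈ C, ∀ b ∈ C, ρ a * ρ b = ρ b * ρ a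

/-- The image of `ρ` is solvable. -/
def SolIm {d : ℕ} (ρ : Rp Γ d) : Prop := Group.IsSolvable ρ.range

/-- The image of `ρ` is nilpotent. -/
def NilIm {d : ℕ} (ρ : Rp Γ d) : Prop := Group.IsNilpotent ρ.range

variable [TopologicalSpace Γ]

/-- `ρ₁, ρ₂` are continuous and their characters are equal at the elements of `S`. -/
def EqAt (S : Set Γ) {d : ℕ} (ρ₁ ρ₂ : Rp Γ d) : Prop :=
  Continuous ρ₁ ∧ Continuous ρ₂ ∧ ∀ c ∈ S, chr ρ₁ c = chr ρ₂ c

/-- The invariant `L` of continuous representations is multiplicative for sums of characters. -/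
def Mult {A : Type*} [CommGroup A] (L : ∀ d : ℕ, Rp Γ d → A) : Prop :=
  ∀ (d d' d'' : ℕ) (ρ : Rp Γ d) (ρ' : Rp Γ d') (ρ'' : Rp Γ d''),
    Continuous ρ → Continuous ρ' → Continuous ρ'' → (∀ g, chr ρ g = chr ρ' g + chr ρ'' g) →
    L d ρ = L d' ρ' * L d'' ρ''

/-- The invariant `L` is equal on `Ind χ` and `Ind χ'` for all linear characters `χ, χ'` of an open subgroup, trivial on
an open subgroup, which are equal at the elements of `S`. -/
def SigInv (S : Set Γ) {A : Type*} (L : ∀ d : ℕ, Rp Γ d → A) : Prop :=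
  ∀ (d d' : ℕ) (ρ : Rp Γ d) (ρ' : Rp Γ d') (N U : Subgroup Γ) (χ χ' : U →* ℂˣ),
    Continuous ρ → Continuous ρ' → IsOpen (N : Set Γ) → SigPair S N U χ χ' →
    (∀ g, chr ρ g = IndChr U χ g) → (∀ g, chr ρ' g = IndChr U χ' g) → L d ρ = L d' ρ'

end General

/-- The absolute Galois group of the rational numbers. -/
def Gal : Type := GQ

noncomputable instance instGroupGal : Group Gal := @AlgEquiv.aut ℚ Qb _ _ _

noncomputable instance instTopGal : TopologicalSpace Gal := krullTopology ℚ Qb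

/-- The complex conjugations. -/
def Conj : Set Gal := CC

/-- The subgroup `Gal(Qb/K)`. -/
noncomputable def GalOver (K : IntermediateField ℚ Qb) : Subgroup Gal := (K.fixingSubgroup : Subgroup GQ)

/-- `K` is a finite Galois extension of `F`. -/
def FinGal (F K : Type*) [Field F] [Field K] [Algebra F K] : Prop := FiniteDimensional F K ∧ IsGalois F K

/-- The Galois group of `K` over `F` is solvable. -/
def SolGal (F K : Type*) [Field F] [Field K] [Algebra F K] : Prop := Group.IsSolvable (K ≃ₐ[F] K)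

/-- The Galois group of `K` over `F` is nilpotent. -/
def NilGal (F K : Type*) [Field F] [Field K] [Algebra F K] : Prop := Group.IsNilpotent (K ≃ₐ[F] K)

end SB
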