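import Pool.Agent.Helper21.SB.Parts
import Pool.Agent.Helper21.SB.Stmt

namespace SB

theorem twoSteps_of_chain {Γ : Type*} [Group Γ] {U : Subgroup Γ} (h : TwoChain U) : TwoSteps U := by
  induction h with
  | top => exact TwoSteps.top
  | step _ hle hidx ih => exact TwoSteps.step ih hle hidx

theorem decomp_of_famQ {d : ℕ} (K : IntermediateField ℚ Qb) (P P' : Subgroup GQ → Prop) (hP : ∀ U, P U → P' U)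
    (ρ₁ ρ₂ : GQ →* Matrix.GeneralLinearGroup (Fin d) ℂ)
    (h : FamQ K P (fun g => trm ρ₁ g - trm ρ₂ g)) :
    Decomp (Γ := GQ) CC K.fixingSubgroup P' ρ₁ ρ₂ := by
  obtain ⟨m, n, U, χ, χ', h1, h2, h3, h4, h5⟩ := h
  refine ⟨m, n, U, χ, χ', fun i => ⟨hP _ (h1 i), h2 i, fun g hg hN => (h3 i ⟨g, hg⟩ hN).1,
    fun g hg hN => (h3 i ⟨g, hg⟩ hN).2, fun c hc hS => h4 i ⟨c, hc⟩ hS⟩, fun g => h5 g⟩

theorem sol_one (d : ℕ) (ρ₁ ρ₂ : Rp GQ d) (h : EqAt CC ρ₁ ρ₂) :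
    ∃ K : IntermediateField ℚ Qb, FinGal ℚ K ∧ (SolIm ρ₁ → SolIm ρ₂ → SolGal ℚ K) ∧
      (NilIm ρ₁ → NilIm ρ₂ → NilGal ℚ K) ∧
      Decomp (Γ := GQ) CC K.fixingSubgroup (fun _ => True) ρ₁ ρ₂ := by
  obtain ⟨K', hfd, hn, hs, hnil, hfam⟩ := part_one ρ₁ ρ₂ h.1 h.2.1 h.2.2
  exact ⟨K', ⟨hfd, isGalois_iff.2 ⟨inferInstance, hn⟩⟩, hs, hnil, decomp_of_famQ K' _ _ (fun _ h => h) ρ₁ ρ₂ hfam⟩

theorem sol_two (d : ℕ) (ρ₁ ρ₂ : Rp GQ d) (h : EqAt CC ρ₁ ρ₂) (C : Subgroup GQ) (n : ℕ) (hC : C.Normal)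
    (hidx : C.index = 2 ^ n) (h1 : AbOn C ρ₁) (h2 : AbOn C ρ₂) :
    ∃ K : IntermediateField ℚ Qb, FinGal ℚ K ∧ Decomp (Γ := GQ) CC K.fixingSubgroup TwoSteps ρ₁ ρ₂ := by
  obtain ⟨K', hfd, hn, hfam⟩ := part_two ρ₁ ρ₂ h.1 h.2.1 h.2.2 C hC n hidx
    (fun a ha b hb => ⟨h1 a ha b hb, h2 a ha b hb⟩)
  exact ⟨K', ⟨hfd, isGalois_iff.2 ⟨inferInstance, hn⟩⟩,
    decomp_of_famQ K' _ _ (fun _ h => twoSteps_of_chain h) ρ₁ ρ₂ hfam⟩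

theorem sol_three (A : Type) [CommGroup A] (L : ∀ d : ℕ, Rp GQ d → A) (hmul : Mult L) (hsig : SigInv CC L)
    (d : ℕ) (ρ₁ ρ₂ : Rp GQ d) (h : EqAt CC ρ₁ ρ₂) : L d ρ₁ = L d ρ₂ := by
  refine part_three L hmul ?_ ρ₁ ρ₂ h.1 h.2.1 h.2.2
  intro d d' ρ ρ' K U χ χ' c1 c2 hfd hKU htriv hcc e1 e2
  exact hsig d d' ρ ρ' K.fixingSubgroup U χ χ' c1 c2 (IntermediateField.fixingSubgroup_isOpen K)
    ⟨hKU, fun g hg hN => (htriv ⟨g, hg⟩ hN).1, fun g hg hN => (htriv ⟨g, hg⟩ hN).2,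
      fun c hc hS => hcc ⟨c, hc⟩ hS⟩ e1 e2

end SB
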