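import Pool.Agent.Helper21.SB.St

namespace SB

variable {Γ : Type*} [Group Γ]

theorem IsStep.uniq_A1 {p : ℕ} {W U : Subgroup Γ} {t : Γ} (h : IsStep p W U t) {j k : ℕ}
    (hj : j < p) (hk : k < p) (hjk : (t ^ j)⁻¹ * t ^ k ∈ W) : j = k := by
  rcases le_total j k with h1 | h1
  · have h2 : (t ^ j)⁻¹ * t ^ k = t ^ (k - j) := by
      rw [inv_mul_eq_iff_eq_mul, ← pow_add]
      congr 1
      omega
    rw [h2] at hjk
    have := h.inj (k - j) (by omega) hjk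
    omega
  · have h2 : ((t ^ j)⁻¹ * t ^ k)⁻¹ = t ^ (j - k) := by
      rw [mul_inv_rev, inv_inv, inv_mul_eq_iff_eq_mul, ← pow_add]
      congr 1
      omega
    have h3 := W.inv_mem hjk
    rw [h2] at h3
    have := h.inj (j - k) (by omega) h3
    omega

theorem cls_coset_A1 {W : Subgroup Γ} {φ : Γ → ℂ} (hφ : Cls W φ) {x y : Γ} (hxy : x⁻¹ * y ∈ W)
    (g : Γ) : φ (y⁻¹ * g * y) = φ (x⁻¹ * g * x) := by
  have h1 := hφ.2 _ hxy (x⁻¹ * g * x)
  rw [← h1]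
  congr 1
  group

theorem sum_cj_A1 {p : ℕ} (t : Γ) (φ : Γ → ℂ) (g : Γ) :
    (∑ k ∈ Finset.range p, cj (t ^ k) φ) g =
      ∑ k ∈ Finset.range p, φ ((t ^ k)⁻¹ * g * t ^ k) := by
  rw [Finset.sum_apply]
  rfl

theorem cls_step {p : ℕ} (hp : 0 < p) {W U : Subgroup Γ} {t : Γ} (h : IsStep p W U t)
    {φ : Γ → ℂ} (hφ : Cls W φ) : Cls U (∑ k ∈ Finset.range p, cj (t ^ k) φ) := by
  refine ⟨fun g hg => ?_, fun u hu g => ?_⟩
  · rw [sum_cj_A1]
    refine Finset.sum_eq_zero fun k _ => hφ.1 _ fun hk => hg ?_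
    have ht : t ^ k ∈ U := U.pow_mem h.mem k
    have h1 : g = t ^ k * ((t ^ k)⁻¹ * g * t ^ k) * (t ^ k)⁻¹ := by group
    rw [h1]
    exact U.mul_mem (U.mul_mem ht (h.le hk)) (U.inv_mem ht)
  · rw [sum_cj_A1, sum_cj_A1]
    have hcov : ∀ k : ℕ, ∃ m < p, (t ^ m)⁻¹ * (u * t ^ k) ∈ W := fun k =>
      h.cover _ (U.mul_mem hu (U.pow_mem h.mem k))
    choose σ hσ1 hσ2 using hcov
    have hinj : ∀ j ∈ Finset.range p, ∀ k ∈ Finset.range p, σ j = σ k → j = k := by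
      intro j hj k hk hjk
      refine h.uniq_A1 (Finset.mem_range.1 hj) (Finset.mem_range.1 hk) ?_
      have h1 := W.mul_mem (W.inv_mem (hσ2 j)) (hσ2 k)
      rw [hjk] at h1
      have h2 : ((t ^ σ k)⁻¹ * (u * t ^ j))⁻¹ * ((t ^ σ k)⁻¹ * (u * t ^ k)) =
          (t ^ j)⁻¹ * t ^ k := by group
      rwa [h2] at h1
    have himg : (Finset.range p).image σ = Finset.range p := by
      refine Finset.eq_of_subset_of_card_le ?_ ?_
      · intro m hm
        obtain ⟨k, _, rfl⟩ := Finset.mem_image.1 hm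
        exact Finset.mem_range.2 (hσ1 k)
      · rw [Finset.card_image_of_injOn (fun j hj k hk hjk =>
          hinj j (Finset.mem_coe.1 hj) k (Finset.mem_coe.1 hk) hjk)]
    calc ∑ k ∈ Finset.range p, φ ((t ^ k)⁻¹ * (u⁻¹ * g * u) * t ^ k)
        = ∑ k ∈ Finset.range p, φ ((t ^ σ k)⁻¹ * g * t ^ σ k) := by
          refine Finset.sum_congr rfl fun k _ => ?_
          have h1 := cls_coset_A1 hφ (hσ2 k) g
          rw [← h1]
          congr 1
          group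
      _ = ∑ m ∈ (Finset.range p).image σ, φ ((t ^ m)⁻¹ * g * t ^ m) := by
          rw [Finset.sum_image hinj]
      _ = ∑ m ∈ Finset.range p, φ ((t ^ m)⁻¹ * g * t ^ m) := by rw [himg]

theorem finiteIndex_step {p : ℕ} {W U : Subgroup Γ} {t : Γ} (h : IsStep p W U t)
    (hU : U.FiniteIndex) : W.FiniteIndex := by
  have hfin : Finite (U ⧸ W.subgroupOf U) := by
    refine Finite.of_surjective (fun k : Fin p =>
      (QuotientGroup.mk (⟨t ^ (k : ℕ), U.pow_mem h.mem k⟩ : U) : U ⧸ W.subgroupOf U)) ?_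
    intro q
    obtain ⟨⟨u, hu⟩, rfl⟩ := QuotientGroup.mk_surjective q
    obtain ⟨k, hk, hk2⟩ := h.cover u hu
    refine ⟨⟨k, hk⟩, ?_⟩
    rw [QuotientGroup.eq, Subgroup.mem_subgroupOf]
    exact hk2
  have h1 : (W.subgroupOf U).index ≠ 0 := Subgroup.index_ne_zero_of_finite
  refine ⟨?_⟩
  rw [← Subgroup.relIndex_mul_index h.le]
  exact mul_ne_zero h1 hU.index_ne_zero

theorem Ind_step {p : ℕ} (hp : 0 < p) {W U : Subgroup Γ} (hU : U.FiniteIndex) {t : Γ}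
    (h : IsStep p W U t) {φ : Γ → ℂ} (hφ : Cls W φ) :
    Ind U (∑ k ∈ Finset.range p, cj (t ^ k) φ) = Ind W φ := by
  have hW : W.FiniteIndex := finiteIndex_step h hU
  have hfU : Finite (Γ ⧸ U) := inferInstance
  have hfW : Finite (Γ ⧸ W) := inferInstance
  have hfintU : Fintype (Γ ⧸ U) := Fintype.ofFinite _
  funext g
  have hbij : Function.Bijective (fun x : (Γ ⧸ U) × Fin p =>
      (QuotientGroup.mk (x.1.out * t ^ (x.2 : ℕ)) : Γ ⧸ W)) := by
    constructor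
    · rintro ⟨q, k⟩ ⟨q', k'⟩ hqk
      have h1 : (q.out * t ^ (k : ℕ))⁻¹ * (q'.out * t ^ (k' : ℕ)) ∈ W :=
        QuotientGroup.eq.1 hqk
      have hk1 : t ^ (k : ℕ) ∈ U := U.pow_mem h.mem _
      have hk2 : t ^ (k' : ℕ) ∈ U := U.pow_mem h.mem _
      have hq : q = q' := by
        rw [← QuotientGroup.out_eq' q, ← QuotientGroup.out_eq' q', QuotientGroup.eq]
        have h2 : q.out⁻¹ * q'.out = t ^ (k : ℕ) *
            ((q.out * t ^ (k : ℕ))⁻¹ * (q'.out * t ^ (k' : ℕ))) * (t ^ (k' : ℕ))⁻¹ := by group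
        rw [h2]
        exact U.mul_mem (U.mul_mem hk1 (h.le h1)) (U.inv_mem hk2)
      subst hq
      have h3 : (q.out * t ^ (k : ℕ))⁻¹ * (q.out * t ^ (k' : ℕ)) =
          (t ^ (k : ℕ))⁻¹ * t ^ (k' : ℕ) := by group
      rw [h3] at h1
      have h4 := h.uniq_A1 k.2 k'.2 h1
      rw [Prod.mk.injEq]
      exact ⟨rfl, Fin.ext h4⟩
    · intro r
      obtain ⟨x, rfl⟩ := QuotientGroup.mk_surjective r
      have h1 : (QuotientGroup.mk x : Γ ⧸ U).out⁻¹ * x ∈ U := by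
        rw [← QuotientGroup.eq, QuotientGroup.out_eq']
      obtain ⟨k, hk, hk2⟩ := h.cover _ h1
      refine ⟨⟨QuotientGroup.mk x, ⟨k, hk⟩⟩, ?_⟩
      rw [QuotientGroup.eq]
      have h2 : ((QuotientGroup.mk x : Γ ⧸ U).out * t ^ k)⁻¹ * x =
          (t ^ k)⁻¹ * ((QuotientGroup.mk x : Γ ⧸ U).out⁻¹ * x) := by group
      simp only
      rw [h2]
      exact hk2
  have h2 : Ind W φ g = ∑ᶠ x : (Γ ⧸ U) × Fin p,
      φ ((x.1.out * t ^ (x.2 : ℕ))⁻¹ * g * (x.1.out * t ^ (x.2 : ℕ))) := by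
    unfold Ind
    refine (finsum_eq_of_bijective _ hbij fun x => ?_).symm
    symm
    refine cls_coset_A1 hφ ?_ g
    obtain ⟨w, hw⟩ := QuotientGroup.mk_out_eq_mul W (x.1.out * t ^ (x.2 : ℕ))
    rw [hw, inv_mul_cancel_left]
    exact w.2
  rw [h2]
  unfold Ind
  rw [finsum_eq_sum_of_fintype, finsum_eq_sum_of_fintype, Fintype.sum_prod_type]
  refine Finset.sum_congr rfl fun q _ => ?_
  rw [sum_cj_A1, Finset.sum_range]
  refine Finset.sum_congr rfl fun k _ => ?_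
  congr 1
  group

end SB
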