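import Pool.Agent.Helper21.SB.St

namespace SB

variable {Γ : Type*} [Group Γ]

theorem fam_of_fintype_A2 (D : Sys Γ) (P : Subgroup Γ → Prop) {v : Γ → ℂ} {ι : Type} [Fintype ι]
    (n : ι → ℤ) (U : ι → Subgroup Γ) (χ χ' : ∀ i, U i →* ℂˣ)
    (h1 : ∀ i, P (U i)) (h2 : ∀ i, OpC D (U i) (χ i)) (h3 : ∀ i, OpC D (U i) (χ' i))
    (h4 : ∀ i, Sig D (U i) (χ i) (χ' i))
    (h5 : ∀ g, v g = ∑ i, (n i : ℂ) *
      (Ind (U i) (ext (U i) (χ i)) g - Ind (U i) (ext (U i) (χ' i)) g)) : Fam D P v := by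
  refine ⟨Fintype.card ι, fun i => n ((Fintype.equivFin ι).symm i),
    fun i => U ((Fintype.equivFin ι).symm i), fun i => χ ((Fintype.equivFin ι).symm i),
    fun i => χ' ((Fintype.equivFin ι).symm i), fun i => h1 _, fun i => h2 _, fun i => h3 _,
    fun i => h4 _, fun g => ?_⟩
  rw [h5]
  exact (Equiv.sum_comp (Fintype.equivFin ι).symm (fun i => (n i : ℂ) *
      (Ind (U i) (ext (U i) (χ i)) g - Ind (U i) (ext (U i) (χ' i)) g))).symm

/-- SB-A2 -/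
theorem fam_add (D : Sys Γ) (P : Subgroup Γ → Prop) {v w : Γ → ℂ} (hv : Fam D P v)
    (hw : Fam D P w) : Fam D P (fun g => v g + w g) := by
  obtain ⟨m1, n1, U1, χ1, χ1', a1, b1, c1, d1, e1⟩ := hv
  obtain ⟨m2, n2, U2, χ2, χ2', a2, b2, c2, d2, e2⟩ := hw
  refine fam_of_fintype_A2 D P (ι := Fin m1 ⊕ Fin m2) (Sum.elim n1 n2) (Sum.elim U1 U2)
    (fun i => match i with
      | Sum.inl i => χ1 i
      | Sum.inr i => χ2 i)
    (fun i => match i with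
      | Sum.inl i => χ1' i
      | Sum.inr i => χ2' i) ?_ ?_ ?_ ?_ ?_
  · rintro (i | i)
    · exact a1 i
    · exact a2 i
  · rintro (i | i)
    · exact b1 i
    · exact b2 i
  · rintro (i | i)
    · exact c1 i
    · exact c2 i
  · rintro (i | i)
    · exact d1 i
    · exact d2 i
  · intro g
    rw [Fintype.sum_sum_type, e1, e2]
    rfl

/-- SB-A2 -/
theorem fam_zmul (D : Sys Γ) (P : Subgroup Γ → Prop) {v : Γ → ℂ} (n : ℤ) (hv : Fam D P v) :
    Fam D P (fun g => (n : ℂ) * v g) := by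
  obtain ⟨m1, n1, U1, χ1, χ1', a1, b1, c1, d1, e1⟩ := hv
  refine ⟨m1, fun i => n * n1 i, U1, χ1, χ1', a1, b1, c1, d1, fun g => ?_⟩
  show (n : ℂ) * v g = _
  rw [e1, Finset.mul_sum]
  refine Finset.sum_congr rfl fun i _ => ?_
  push_cast
  ring

/-- SB-A2 -/
theorem fam_zero (D : Sys Γ) (P : Subgroup Γ → Prop) : Fam D P (fun _ => 0) :=
  fam_of_fintype_A2 D P (ι := Empty) (fun i => i.elim) (fun i => i.elim) (fun i => i.elim)
    (fun i => i.elim) (fun i => i.elim) (fun i => i.elim) (fun i => i.elim) (fun i => i.elim)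
    (fun g => by simp)

theorem Ind_add_A2 {U : Subgroup Γ} (hU : U.FiniteIndex) (φ ψ : Γ → ℂ) (g : Γ) :
    Ind U (φ + ψ) g = Ind U φ g + Ind U ψ g := by
  unfold Ind
  haveI : Finite (Γ ⧸ U) := U.finite_quotient_of_finiteIndex
  rw [← finsum_add_distrib (Set.toFinite _) (Set.toFinite _)]
  rfl

theorem Ind_neg_A2 {U : Subgroup Γ} (φ : Γ → ℂ) (g : Γ) :
    Ind U (-φ) g = - Ind U φ g := by
  unfold Ind
  rw [← finsum_neg_distrib]
  rfl

theorem Ind_zero_A2 {U : Subgroup Γ} (g : Γ) : Ind U (0 : Γ → ℂ) g = 0 := by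
  unfold Ind
  exact finsum_zero

theorem Ind_sub_A2 {U : Subgroup Γ} (hU : U.FiniteIndex) (φ ψ : Γ → ℂ) (g : Γ) :
    Ind U (φ - ψ) g = Ind U φ g - Ind U ψ g := by
  rw [sub_eq_add_neg, Ind_add_A2 hU, Ind_neg_A2, ← sub_eq_add_neg]

theorem cls_add_A2 {U : Subgroup Γ} {φ ψ : Γ → ℂ} (h : Cls U φ) (h' : Cls U ψ) :
    Cls U (φ + ψ) :=
  ⟨fun g hg => by rw [Pi.add_apply, h.1 g hg, h'.1 g hg, add_zero],
   fun u hu g => by rw [Pi.add_apply, Pi.add_apply, h.2 u hu g, h'.2 u hu g]⟩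

theorem cls_neg_A2 {U : Subgroup Γ} {φ : Γ → ℂ} (h : Cls U φ) : Cls U (-φ) :=
  ⟨fun g hg => by rw [Pi.neg_apply, h.1 g hg, neg_zero],
   fun u hu g => by rw [Pi.neg_apply, Pi.neg_apply, h.2 u hu g]⟩

theorem cls_of_tow_A2 (hcls : StCls Γ) (D : Sys Γ) {p : ℕ} (hp : 0 < p) {M U : Subgroup Γ}
    {φ : Γ → ℂ} (h : Tow p M (BI D) U φ) : Cls U φ := by
  induction h with
  | base h =>
    obtain ⟨χ, χ', -, -, -, rfl⟩ := h
    rw [sub_eq_add_neg]
    exact cls_add_A2 (cls_ext _ _) (cls_neg_A2 (cls_ext _ _))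
  | zero U => exact ⟨fun _ _ => rfl, fun _ _ _ => rfl⟩
  | add _ _ ih1 ih2 => exact cls_add_A2 ih1 ih2
  | neg _ ih => exact cls_neg_A2 ih
  | step t hs _ _ ih => exact hcls hp hs ih

/-- SB-A2 -/
theorem fam_of_tow (hcls : StCls Γ) (hfin : StFin Γ) (hind : StInd Γ)
    (D : Sys Γ) {p : ℕ} (hp : 0 < p) {M : Subgroup Γ} (P : Subgroup Γ → Prop)
    (hP : ∀ W U t, IsStep p W U t → P U → P W) {U : Subgroup Γ} (hU : U.FiniteIndex) (hPU : P U)
    {φ : Γ → ℂ} (h : Tow p M (BI D) U φ) : Fam D P (Ind U φ) := by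
  induction h with
  | base h =>
    obtain ⟨χ, χ', h1, h2, h3, rfl⟩ := h
    refine fam_of_fintype_A2 D P (ι := Unit) (fun _ => 1) (fun _ => _) (fun _ => χ) (fun _ => χ')
      (fun _ => hPU) (fun _ => h1) (fun _ => h2) (fun _ => h3) (fun g => ?_)
    rw [Ind_sub_A2 hU]
    simp
  | zero U =>
    have h0 : Ind U (0 : Γ → ℂ) = fun _ => 0 := funext fun g => Ind_zero_A2 g
    rw [h0]
    exact fam_zero D P
  | @add U φ ψ _ _ ih1 ih2 =>
    have h0 : Ind U (φ + ψ) = fun g => Ind U φ g + Ind U ψ g :=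
      funext fun g => Ind_add_A2 hU φ ψ g
    rw [h0]
    exact fam_add D P (ih1 hU hPU) (ih2 hU hPU)
  | @neg U φ _ ih =>
    have h0 : Ind U (-φ) = fun g => ((-1 : ℤ) : ℂ) * Ind U φ g :=
      funext fun g => by rw [Ind_neg_A2]; push_cast; ring
    rw [h0]
    exact fam_zmul D P (-1) (ih hU hPU)
  | @step W U φ t hs _ hW ih =>
    rw [hind hp hU hs (cls_of_tow_A2 hcls D hp hW)]
    exact ih (hfin hs hU) (hP W U t hs hPU)

end SB
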