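import Pool.Agent.Helper21.SB.St

namespace SB

variable {Γ : Type*} [Group Γ] {V : Type*} [AddCommGroup V] [Module ℂ V]

theorem trf_ind [FiniteDimensional ℂ V] {p : ℕ} (hp : 0 < p) {W U : Subgroup Γ} {t : Γ} (h : IsStep p W U t)
    (ρ : U →* (V →ₗ[ℂ] V)) (N : Submodule ℂ V) (hN : ∀ w (hw : w ∈ W), ∀ v ∈ N, ρ ⟨w, h.le hw⟩ v ∈ N)
    (hint : DirectSum.IsInternal (fun k : Fin p => N.map (ρ (⟨t, h.mem⟩ ^ (k : ℕ))))) :
    trf U ρ = ∑ k ∈ Finset.range p, cj (t ^ k) (trf W (subRep h.le ρ N hN)) := by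
  classical
  -- values of the trace function
  have hval : ∀ (g : Γ) (hg : g ∈ W),
      trf W (subRep h.le ρ N hN) g = LinearMap.trace ℂ N (subRep h.le ρ N hN ⟨g, hg⟩) := by
    intro g hg
    simp only [trf, dif_pos hg]
  have hval0 : ∀ g : Γ, g ∉ W → trf W (subRep h.le ρ N hN) g = 0 := by
    intro g hg
    simp only [trf, dif_neg hg]
  have hmul : ∀ a b : U, ∀ v : V, ρ a (ρ b v) = ρ (a * b) v := by
    intro a b v
    rw [map_mul]; rfl
  -- moving a vector of `N`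
  have hmove : ∀ (g : U) (j k : ℕ) (hw : (t ^ j)⁻¹ * ((g : Γ) * t ^ k) ∈ W) (v : V),
      ρ g (ρ (⟨t, h.mem⟩ ^ k) v) = ρ (⟨t, h.mem⟩ ^ j) (ρ ⟨(t ^ j)⁻¹ * ((g : Γ) * t ^ k), h.le hw⟩ v) := by
    intro g j k hw v
    rw [hmul, hmul]
    congr 2
    apply Subtype.ext
    change (g : Γ) * ((⟨t, h.mem⟩ ^ k : U) : Γ) =
      ((⟨t, h.mem⟩ ^ j : U) : Γ) * ((t ^ j)⁻¹ * ((g : Γ) * t ^ k))
    rw [SubmonoidClass.coe_pow, SubmonoidClass.coe_pow, mul_inv_cancel_left]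
  funext g
  rw [Finset.sum_apply]
  simp only [cj_apply]
  by_cases hgU : g ∈ U
  · have hL : trf U ρ g = LinearMap.trace ℂ V (ρ ⟨g, hgU⟩) := by
      simp only [trf, dif_pos hgU]
    rw [hL]
    by_cases hgW : g ∈ W
    · have hc : ∀ k : ℕ, (t ^ k)⁻¹ * g * t ^ k ∈ W := by
        intro k
        have h1 := h.norm ((t ^ k)⁻¹) (U.inv_mem (U.pow_mem h.mem k)) g hgW
        rwa [inv_inv] at h1
      have hc' : ∀ k : ℕ, (t ^ k)⁻¹ * (g * t ^ k) ∈ W := by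
        intro k
        rw [← mul_assoc]
        exact hc k
      have hmaps : ∀ k : Fin p, Set.MapsTo (ρ ⟨g, hgU⟩)
          (N.map (ρ (⟨t, h.mem⟩ ^ (k : ℕ)))) (N.map (ρ (⟨t, h.mem⟩ ^ (k : ℕ)))) := by
        rintro k _ ⟨v, hv, rfl⟩
        rw [hmove ⟨g, hgU⟩ k k (hc' k) v]
        exact Submodule.mem_map_of_mem (hN _ (hc' k) v hv)
      rw [LinearMap.trace_eq_sum_trace_restrict hint hmaps, Finset.sum_range]
      refine Finset.sum_congr rfl fun k _ => ?_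
      rw [hval _ (hc k)]
      have hinj : Function.Injective (ρ (⟨t, h.mem⟩ ^ (k : ℕ))) := by
        intro a b hab
        have h1 := congrArg (ρ (⟨t, h.mem⟩ ^ (k : ℕ))⁻¹) hab
        rw [hmul, hmul, inv_mul_cancel, map_one] at h1
        exact h1
      rw [← LinearMap.trace_conj' (subRep h.le ρ N hN ⟨(t ^ (k : ℕ))⁻¹ * g * t ^ (k : ℕ), hc k⟩)
        (Submodule.equivMapOfInjective (ρ (⟨t, h.mem⟩ ^ (k : ℕ))) hinj N)]
      congr 1
      apply LinearMap.ext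
      intro x
      obtain ⟨y, rfl⟩ := (Submodule.equivMapOfInjective (ρ (⟨t, h.mem⟩ ^ (k : ℕ))) hinj N).surjective x
      rw [LinearEquiv.conj_apply_apply, LinearEquiv.symm_apply_apply]
      apply Subtype.ext
      rw [LinearMap.coe_restrict_apply, Submodule.coe_equivMapOfInjective_apply,
        Submodule.coe_equivMapOfInjective_apply, hmove ⟨g, hgU⟩ k k (hc' k)]
      have e : (⟨(t ^ (k : ℕ))⁻¹ * (g * t ^ (k : ℕ)), h.le (hc' k)⟩ : U) =
          ⟨(t ^ (k : ℕ))⁻¹ * g * t ^ (k : ℕ), h.le (hc k)⟩ := Subtype.ext (mul_assoc _ _ _).symm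
      rw [e]
      rfl
    · have hnc : ∀ k : ℕ, (t ^ k)⁻¹ * g * t ^ k ∉ W := by
        intro k hk
        apply hgW
        have h1 := h.norm (t ^ k) (U.pow_mem h.mem k) _ hk
        have h2 : t ^ k * ((t ^ k)⁻¹ * g * t ^ k) * (t ^ k)⁻¹ = g := by group
        rwa [h2] at h1
      rw [Finset.sum_eq_zero fun k _ => hval0 _ (hnc k)]
      have hex : ∀ k : Fin p, ∃ j : Fin p, (t ^ (j : ℕ))⁻¹ * (g * t ^ (k : ℕ)) ∈ W := by
        intro k
        obtain ⟨j, hj, hj2⟩ := h.cover (g * t ^ (k : ℕ)) (U.mul_mem hgU (U.pow_mem h.mem _))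
        exact ⟨⟨j, hj⟩, hj2⟩
      choose σ hσ using hex
      refine LinearMap.trace_eq_zero_of_mapsTo_ne hint σ ?_ ?_
      · intro k hk
        have h1 := hσ k
        rw [hk, ← mul_assoc] at h1
        exact hnc k h1
      · rintro k _ ⟨v, hv, rfl⟩
        rw [hmove ⟨g, hgU⟩ (σ k) k (hσ k) v]
        exact Submodule.mem_map_of_mem (hN _ (hσ k) v hv)
  · have hL : trf U ρ g = 0 := by
      simp only [trf, dif_neg hgU]
    rw [hL]
    symm
    refine Finset.sum_eq_zero fun k _ => hval0 _ ?_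
    intro hk
    apply hgU
    have h1 := U.mul_mem (U.mul_mem (U.pow_mem h.mem k) (h.le hk)) (U.inv_mem (U.pow_mem h.mem k))
    have h2 : t ^ k * ((t ^ k)⁻¹ * g * t ^ k) * (t ^ k)⁻¹ = g := by group
    rwa [h2] at h1

end SB
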