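import Pool.Agent.Helper21.SB.St

/-!
# SB-H3a: a large abelian-modulo-kernel normal subgroup
-/

set_option autoImplicit false

namespace SB

variable {Γ : Type*} [Group Γ] {V : Type*} [AddCommGroup V] [Module ℂ V]

/-- The subgroup of elements acting by scalars. -/
def scalGrpH3a [Nontrivial V] {U : Subgroup Γ} (ρ : U →* (V →ₗ[ℂ] V)) : Subgroup U where
  carrier := {u | ∃ c : ℂ, ρ u = c • 1}
  one_mem' := ⟨1, by rw [map_one, one_smul]⟩
  mul_mem' := by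
    rintro a b ⟨c, hc⟩ ⟨d, hd⟩
    exact ⟨c * d, by rw [map_mul, hc, hd, smul_mul_smul_comm, one_mul]⟩
  inv_mem' := by
    rintro a ⟨c, hc⟩
    have h1 : ρ a⁻¹ * ρ a = 1 := by rw [← map_mul, inv_mul_cancel, map_one]
    rw [hc, mul_smul_comm, mul_one] at h1
    have hc0 : c ≠ 0 := by
      rintro rfl
      rw [zero_smul] at h1
      exact zero_ne_one h1
    exact ⟨c⁻¹, by rw [← h1, smul_smul, inv_mul_cancel₀ hc0, one_smul]⟩

theorem mem_scalGrpH3a [Nontrivial V] {U : Subgroup Γ} {ρ : U →* (V →ₗ[ℂ] V)} {u : U} :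
    u ∈ scalGrpH3a ρ ↔ ∃ c : ℂ, ρ u = c • 1 := Iff.rfl

theorem scalGrpH3a_normal [Nontrivial V] {U : Subgroup Γ} (ρ : U →* (V →ₗ[ℂ] V)) :
    (scalGrpH3a ρ).Normal := by
  constructor
  rintro a ⟨c, hc⟩ g
  refine ⟨c, ?_⟩
  rw [map_mul, map_mul, hc, mul_smul_comm, mul_one, smul_mul_assoc, ← map_mul, mul_inv_cancel,
    map_one]

theorem exists_A [FiniteDimensional ℂ V] {p : ℕ} (hp : p.Prime) {M C U : Subgroup Γ} (hM : M.Normal) (h : AbExt p M C U)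
    (ρ : U →* (V →ₗ[ℂ] V)) (hρ : ∀ g (h : g ∈ U), g ∈ M → ρ ⟨g, h⟩ = 1)
    (hirr : ∀ N : Submodule ℂ V, (∀ u : U, ∀ v ∈ N, ρ u v ∈ N) → N = ⊥ ∨ N = ⊤) (hV : 1 < Module.finrank ℂ V) :
    ∃ A : Subgroup Γ, C ≤ A ∧ A ≤ U ∧ (∀ u ∈ U, ∀ a ∈ A, u * a * u⁻¹ ∈ A) ∧
      (∀ a b : U, (a : Γ) ∈ A → (b : Γ) ∈ A → ρ a * ρ b = ρ b * ρ a) ∧
      ∃ a : U, (a : Γ) ∈ A ∧ ∀ c : ℂ, ρ a ≠ c • 1 := by
  classical
  haveI : Fact p.Prime := ⟨hp⟩
  haveI : Nontrivial V := Module.nontrivial_of_finrank_pos (R := ℂ) (by omega)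
  by_cases hC : ∃ a : U, (a : Γ) ∈ C ∧ ∀ c : ℂ, ρ a ≠ c • 1
  · refine ⟨C, le_rfl, h.cu, h.norm, ?_, hC⟩
    intro a b ha hb
    have h1 := hρ _ (a * b * a⁻¹ * b⁻¹ : U).2 (h.comm a ha b hb)
    have h2 : ρ (a * b * a⁻¹ * b⁻¹) = 1 := h1
    have h3 : a * b = (a * b * a⁻¹ * b⁻¹) * (b * a) := by group
    rw [← map_mul, h3, map_mul, h2, one_mul, map_mul]
  · push Not at hC
    set Z := scalGrpH3a ρ with hZ
    haveI hZn : Z.Normal := scalGrpH3a_normal ρ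
    have hCZ : C.subgroupOf U ≤ Z := fun a ha => hC a (Subgroup.mem_subgroupOf.1 ha)
    -- not everything is scalar
    have hZtop : Z ≠ ⊤ := by
      intro hT
      obtain ⟨v, hv⟩ := exists_ne (0 : V)
      rcases hirr (Submodule.span ℂ {v}) (by
        intro u w hw
        have hu : u ∈ Z := hT ▸ Subgroup.mem_top u
        obtain ⟨c, hc⟩ := hu
        rw [hc]
        exact Submodule.smul_mem _ c hw) with h1 | h1
      · exact hv (Submodule.span_singleton_eq_bot.1 h1)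
      · have h2 := finrank_span_singleton (K := ℂ) hv
        rw [h1, finrank_top] at h2
        omega
    -- the quotient is a nontrivial finite p-group
    obtain ⟨n, hn⟩ := h.idx
    have hdvd : Z.index ∣ p ^ n := by
      rw [← hn]
      exact Subgroup.index_dvd_of_le hCZ
    obtain ⟨m, -, hm⟩ := (Nat.dvd_prime_pow hp).1 hdvd
    have hcard : Nat.card (U ⧸ Z) = p ^ m := hm
    haveI : Finite (U ⧸ Z) := Nat.finite_of_card_ne_zero (by rw [hcard]; exact (pow_pos hp.pos m).ne')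
    have hPG : IsPGroup p (U ⧸ Z) := IsPGroup.of_card hcard
    haveI : Nontrivial (U ⧸ Z) := by
      obtain ⟨u, hu⟩ : ∃ u : U, u ∉ Z := by
        by_contra hcon
        push Not at hcon
        exact hZtop (eq_top_iff.2 fun u _ => hcon u)
      exact ⟨⟨(u : U ⧸ Z), 1, fun h1 => hu ((QuotientGroup.eq_one_iff u).1 h1)⟩⟩
    haveI := hPG.center_nontrivial
    obtain ⟨⟨q, hq⟩, hq1⟩ := exists_ne (1 : Subgroup.center (U ⧸ Z))
    obtain ⟨a, rfl⟩ := QuotientGroup.mk_surjective q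
    have haZ : a ∉ Z := by
      intro ha
      apply hq1
      apply Subtype.ext
      exact (QuotientGroup.eq_one_iff a).2 ha
    have hform : ∀ b : U, (b : U ⧸ Z) ∈ Subgroup.zpowers (a : U ⧸ Z) →
        ∃ (k : ℤ) (c : ℂ), ρ b = c • ρ (a ^ k) := by
      intro b hb
      obtain ⟨k, hk⟩ := Subgroup.mem_zpowers_iff.1 hb
      have h1 : (a ^ k)⁻¹ * b ∈ Z := by
        rw [← QuotientGroup.eq]
        exact hk
      obtain ⟨c, hc⟩ := h1
      refine ⟨k, c, ?_⟩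
      have h2 : b = a ^ k * ((a ^ k)⁻¹ * b) := by group
      rw [h2, map_mul, hc, mul_smul_comm, mul_one]
    refine ⟨((Subgroup.zpowers (a : U ⧸ Z)).comap (QuotientGroup.mk' Z)).map U.subtype,
      ?_, ?_, ?_, ?_, ?_⟩
    · intro c hc
      refine ⟨⟨c, h.cu hc⟩, ?_, rfl⟩
      have h1 : (⟨c, h.cu hc⟩ : U) ∈ Z := hCZ (Subgroup.mem_subgroupOf.2 hc)
      show ((⟨c, h.cu hc⟩ : U) : U ⧸ Z) ∈ Subgroup.zpowers (a : U ⧸ Z)
      rw [(QuotientGroup.eq_one_iff _).2 h1]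
      exact Subgroup.one_mem _
    · rintro x ⟨y, -, rfl⟩
      exact y.2
    · rintro u hu x ⟨y, hy, rfl⟩
      refine ⟨⟨u, hu⟩ * y * ⟨u, hu⟩⁻¹, ?_, rfl⟩
      have hy' : (y : U ⧸ Z) ∈ Subgroup.zpowers (a : U ⧸ Z) := hy
      obtain ⟨k, hk⟩ := Subgroup.mem_zpowers_iff.1 hy'
      show (((⟨u, hu⟩ * y * ⟨u, hu⟩⁻¹ : U)) : U ⧸ Z) ∈ Subgroup.zpowers (a : U ⧸ Z)
      have h1 : (((⟨u, hu⟩ * y * ⟨u, hu⟩⁻¹ : U)) : U ⧸ Z) = (y : U ⧸ Z) := by
        have hyc : (y : U ⧸ Z) ∈ Subgroup.center (U ⧸ Z) := by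
          rw [← hk]
          exact Subgroup.zpow_mem _ hq k
        have h2 := Subgroup.mem_center_iff.1 hyc (((⟨u, hu⟩ : U)) : U ⧸ Z)
        show (((⟨u, hu⟩ : U)) : U ⧸ Z) * (y : U ⧸ Z) * (((⟨u, hu⟩ : U)) : U ⧸ Z)⁻¹ = (y : U ⧸ Z)
        rw [h2, mul_inv_cancel_right]
      rw [h1]
      exact hy'
    · rintro b c ⟨b', hb, hbb⟩ ⟨c', hc, hcc⟩
      have e1 : b' = b := Subtype.ext hbb
      have e2 : c' = c := Subtype.ext hcc
      subst e1 e2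
      obtain ⟨k, x, hk⟩ := hform b' hb
      obtain ⟨l, y, hl⟩ := hform c' hc
      rw [hk, hl, smul_mul_smul_comm, smul_mul_smul_comm, ← map_mul, ← map_mul,
        ← zpow_add, ← zpow_add, mul_comm x y, add_comm k l]
    · refine ⟨a, ⟨a, Subgroup.mem_zpowers _, rfl⟩, ?_⟩
      intro c hc
      exact haZ ⟨c, hc⟩

end SB
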