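import Pool.Agent.Helper21.SB.St

set_option autoImplicit false
set_option linter.style.haveILetI false

namespace SB

variable {Γ : Type*} [Group Γ]

theorem exists_W_step {p : ℕ} (hp : p.Prime) {U : Subgroup Γ} {R : Type*} [Group R] (φ : U →* R)
    (hcard : Nat.card R = p) (t : U) (ht : φ t ≠ 1) :
    IsStep p (φ.ker.map U.subtype) U (t : Γ) := by
  haveI : Fact p.Prime := ⟨hp⟩
  have hord : orderOf (φ t) = p := by
    have h1 : orderOf (φ t) ∣ p := by
      rw [← hcard]; exact orderOf_dvd_natCard _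
    rcases (Nat.dvd_prime hp).1 h1 with h | h
    · exact absurd (orderOf_eq_one_iff.1 h) ht
    · exact h
  have hmem : ∀ g : U, ((g : Γ) ∈ φ.ker.map U.subtype) ↔ φ g = 1 := by
    intro g
    rw [Subgroup.mem_map]
    constructor
    · rintro ⟨x, hx, hxg⟩
      have : x = g := Subtype.ext hxg
      rw [← this]; exact hx
    · intro h
      exact ⟨g, h, rfl⟩
  refine ⟨?_, t.2, ?_, ?_, ?_⟩
  · exact Subgroup.map_subtype_le _
  · intro u hu w hw
    rw [Subgroup.mem_map] at hw
    obtain ⟨x, hx, rfl⟩ := hw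
    have h1 := (hmem (⟨u, hu⟩ * x * ⟨u, hu⟩⁻¹)).2 (by
      rw [map_mul, map_mul, MonoidHom.mem_ker.1 hx, mul_one, map_inv, mul_inv_cancel])
    exact h1
  · intro u hu
    haveI : Finite R := Nat.finite_of_card_ne_zero (by rw [hcard]; exact hp.ne_zero)
    have htop : Subgroup.zpowers (φ t) = ⊤ := by
      apply Subgroup.eq_top_of_card_eq
      rw [Nat.card_zpowers, hord, hcard]
    have h1 : φ ⟨u, hu⟩ ∈ Subgroup.zpowers (φ t) := by rw [htop]; exact Subgroup.mem_top _
    rw [← mem_powers_iff_mem_zpowers] at h1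
    obtain ⟨k, hk⟩ := (Submonoid.mem_powers_iff _ _).1 h1
    refine ⟨k % p, Nat.mod_lt _ hp.pos, ?_⟩
    have h3 := (hmem ((t ^ (k % p))⁻¹ * ⟨u, hu⟩)).2 (by
      have h4 : φ t ^ (k % p) = φ t ^ k := by
        have := pow_mod_orderOf (φ t) k
        rw [hord] at this
        exact this
      rw [map_mul, map_inv, map_pow, h4, hk, inv_mul_cancel])
    exact h3
  · intro k hk h
    have h1 : φ (t ^ k) = 1 := (hmem (t ^ k)).1 h
    rw [map_pow] at h1
    have h2 := orderOf_dvd_of_pow_eq_one h1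
    rw [hord] at h2
    exact Nat.eq_zero_of_dvd_of_lt h2 hk

theorem exists_W {p : ℕ} (hp : p.Prime) {C T U : Subgroup Γ} (hCT : C ≤ T) (hTU : T ≤ U) (hne : T ≠ U)
    (hn : ∀ u ∈ U, ∀ c ∈ C, u * c * u⁻¹ ∈ C) (hidx : ∃ n, C.relIndex U = p ^ n) :
    ∃ (W : Subgroup Γ) (t : Γ), IsStep p W U t ∧ T ≤ W := by
  haveI : Fact p.Prime := ⟨hp⟩
  obtain ⟨n, hn'⟩ := hidx
  haveI hnor : (C.subgroupOf U).Normal := by
    constructor
    intro c hc u
    rw [Subgroup.mem_subgroupOf] at hc ⊢
    exact hn u u.2 c hc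
  have hcard : Nat.card (U ⧸ C.subgroupOf U) = p ^ n := hn'
  haveI : Finite (U ⧸ C.subgroupOf U) :=
    Nat.finite_of_card_ne_zero (by rw [hcard]; exact pow_ne_zero _ hp.ne_zero)
  have hpg : IsPGroup p (U ⧸ C.subgroupOf U) := IsPGroup.of_card hcard
  have hT' : (T.subgroupOf U).map (QuotientGroup.mk' (C.subgroupOf U)) ≠ ⊤ := by
    intro h
    apply hne
    apply le_antisymm hTU
    intro u hu
    have h1 : QuotientGroup.mk' (C.subgroupOf U) ⟨u, hu⟩ ∈
        (T.subgroupOf U).map (QuotientGroup.mk' (C.subgroupOf U)) := by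
      rw [h]; exact Subgroup.mem_top _
    obtain ⟨x, hx, hxu⟩ := Subgroup.mem_map.1 h1
    have h2 : x⁻¹ * ⟨u, hu⟩ ∈ C.subgroupOf U := QuotientGroup.eq.1 hxu
    have h3 : (x : Γ)⁻¹ * u ∈ C := h2
    have h4 : (x : Γ) ∈ T := hx
    have h5 := T.mul_mem h4 (hCT h3)
    rwa [mul_inv_cancel_left] at h5
  obtain ⟨K, hK, hTK⟩ := (eq_top_or_exists_le_coatom _).resolve_left hT'
  haveI : Group.IsNilpotent (U ⧸ C.subgroupOf U) := hpg.isNilpotent
  haveI hKn : K.Normal :=
    Subgroup.NormalizerCondition.normal_of_coatom K Group.normalizerCondition_of_isNilpotent hK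
  have hpgR : IsPGroup p ((U ⧸ C.subgroupOf U) ⧸ K) := hpg.to_quotient K
  have hKtop : K ≠ ⊤ := hK.1
  have hnt : ∃ x : U ⧸ C.subgroupOf U, x ∉ K := by
    by_contra h
    push Not at h
    exact hKtop (by rw [eq_top_iff]; intro x _; exact h x)
  haveI : Nontrivial ((U ⧸ C.subgroupOf U) ⧸ K) := by
    obtain ⟨x, hx⟩ := hnt
    refine ⟨⟨(QuotientGroup.mk' K x), 1, ?_⟩⟩
    intro h
    exact hx ((QuotientGroup.eq_one_iff x).1 h)
  have hcR : Nat.card ((U ⧸ C.subgroupOf U) ⧸ K) = p := by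
    obtain ⟨m, hm⟩ := IsPGroup.iff_card.1 hpgR
    have hm0 : m ≠ 0 := by
      intro h0
      rw [h0, pow_zero] at hm
      have := Finite.one_lt_card (α := (U ⧸ C.subgroupOf U) ⧸ K)
      omega
    have hdvd : p ∣ Nat.card ((U ⧸ C.subgroupOf U) ⧸ K) := by
      rw [hm]; exact dvd_pow_self p hm0
    obtain ⟨x, hx⟩ := exists_prime_orderOf_dvd_card' p hdvd
    have hlt : K < (Subgroup.zpowers x).comap (QuotientGroup.mk' K) := by
      rw [SetLike.lt_iff_le_and_exists]
      constructor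
      · intro y hy
        rw [Subgroup.mem_comap]
        have : QuotientGroup.mk' K y = 1 := (QuotientGroup.eq_one_iff y).2 hy
        rw [this]
        exact Subgroup.one_mem _
      · obtain ⟨y, hy⟩ := QuotientGroup.mk'_surjective K x
        refine ⟨y, ?_, ?_⟩
        · rw [Subgroup.mem_comap, hy]
          exact Subgroup.mem_zpowers x
        · intro hyK
          have : QuotientGroup.mk' K y = 1 := (QuotientGroup.eq_one_iff y).2 hyK
          rw [hy] at this
          rw [this, orderOf_one] at hx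
          exact hp.one_lt.ne hx
    have htop := hK.2 _ hlt
    have htop' : Subgroup.zpowers x = ⊤ := by
      rw [eq_top_iff]
      intro y _
      obtain ⟨w, hw⟩ := QuotientGroup.mk'_surjective K y
      have : w ∈ (Subgroup.zpowers x).comap (QuotientGroup.mk' K) := by rw [htop]; exact Subgroup.mem_top _
      rw [Subgroup.mem_comap, hw] at this
      exact this
    rw [← hx, ← Nat.card_zpowers, htop', Subgroup.card_top]
  obtain ⟨x, hx⟩ := hnt
  obtain ⟨t, ht⟩ := QuotientGroup.mk'_surjective (C.subgroupOf U) x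
  refine ⟨_, t, exists_W_step hp ((QuotientGroup.mk' K).comp (QuotientGroup.mk' (C.subgroupOf U))) hcR t ?_, ?_⟩
  · rw [MonoidHom.comp_apply, ht]
    intro h
    exact hx ((QuotientGroup.eq_one_iff x).1 h)
  · intro g hg
    rw [Subgroup.mem_map]
    refine ⟨⟨g, hTU hg⟩, ?_, rfl⟩
    rw [MonoidHom.mem_ker, MonoidHom.comp_apply]
    apply (QuotientGroup.eq_one_iff _).2
    apply hTK
    exact Subgroup.mem_map_of_mem _ hg

end SB
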