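import Pool.Agent.Helper21.SB.St

namespace SB

variable {Γ : Type*} [Group Γ] {V : Type*} [AddCommGroup V] [Module ℂ V]

/-- Joint eigenspaces of the elements of `A`. -/
def h3E {U : Subgroup Γ} (A : Subgroup Γ) (ρ : U →* (V →ₗ[ℂ] V)) (l : {a : U // (a : Γ) ∈ A} → ℂ) :
    Submodule ℂ V :=
  ⨅ a : {a : U // (a : Γ) ∈ A}, Module.End.eigenspace (ρ a) (l a)

theorem h3E_mem {U : Subgroup Γ} (A : Subgroup Γ) (ρ : U →* (V →ₗ[ℂ] V)) (l : {a : U // (a : Γ) ∈ A} → ℂ)
    (v : V) : v ∈ h3E A ρ l ↔ ∀ a : {a : U // (a : Γ) ∈ A}, ρ a v = l a • v := by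
  simp [h3E]

/-- Some joint eigenspace is nonzero. -/
theorem h3_exists [FiniteDimensional ℂ V] {A U : Subgroup Γ} (ρ : U →* (V →ₗ[ℂ] V))
    (hV : 1 < Module.finrank ℂ V)
    (hc : ∀ a b : U, (a : Γ) ∈ A → (b : Γ) ∈ A → ρ a * ρ b = ρ b * ρ a) :
    ∃ l : {a : U // (a : Γ) ∈ A} → ℂ, h3E A ρ l ≠ ⊥ := by
  have hnt : Nontrivial V := Module.nontrivial_of_finrank_pos (R := ℂ) (by omega)
  let Z : Set (Submodule ℂ V) := {N | N ≠ ⊥ ∧ ∀ a : U, (a : Γ) ∈ A → ∀ v ∈ N, ρ a v ∈ N}
  have hZ : Z.Nonempty := ⟨⊤, top_ne_bot, fun _ _ _ _ => Submodule.mem_top⟩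
  obtain ⟨N, hN, hmin⟩ := WellFounded.has_min (wellFounded_lt (α := Submodule ℂ V)) Z hZ
  have key : ∀ a : {a : U // (a : Γ) ∈ A}, ∃ c : ℂ, ∀ v ∈ N, ρ a v = c • v := by
    intro a
    have hNn : Nontrivial N := Submodule.nontrivial_iff_ne_bot.2 hN.1
    let f : N →ₗ[ℂ] N := (ρ a).restrict (hN.2 a a.2)
    obtain ⟨c, hcc⟩ := Module.End.exists_eigenvalue f
    obtain ⟨w, hw⟩ := hcc.exists_hasEigenvector
    refine ⟨c, ?_⟩
    let N' : Submodule ℂ V := N ⊓ Module.End.eigenspace (ρ a) c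
    have hN' : N' ∈ Z := by
      refine ⟨?_, ?_⟩
      · intro hbot
        have h1 : (w : V) ∈ N' := by
          refine ⟨w.2, ?_⟩
          rw [SetLike.mem_coe, Module.End.mem_eigenspace_iff]
          have h2 := hw.apply_eq_smul
          exact congrArg Subtype.val h2
        rw [hbot, Submodule.mem_bot] at h1
        exact hw.2 (Subtype.ext h1)
      · intro b hb v hv
        refine ⟨hN.2 b hb v hv.1, ?_⟩
        have h2 := hv.2
        rw [SetLike.mem_coe, Module.End.mem_eigenspace_iff] at h2 ⊢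
        have h3 := congrArg (fun F => F v) (hc a b a.2 hb)
        simp only [Module.End.mul_apply] at h3
        rw [h3, h2, map_smul]
    have hle : N ≤ N' := by
      by_contra hcon
      apply hmin N' hN'
      exact lt_of_le_of_ne inf_le_left (fun h => hcon (h ▸ le_rfl))
    intro v hv
    exact Module.End.mem_eigenspace_iff.1 (hle hv).2
  choose l hl using key
  refine ⟨l, ?_⟩
  intro hbot
  apply hN.1
  rw [eq_bot_iff, ← hbot]
  intro v hv
  rw [h3E_mem]
  exact fun a => hl a v hv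

theorem h3_map_mul {U : Subgroup Γ} (ρ : U →* (V →ₗ[ℂ] V)) (a b : U) (N : Submodule ℂ V) :
    N.map (ρ (a * b)) = (N.map (ρ b)).map (ρ a) := by
  rw [map_mul, Module.End.mul_eq_comp, Submodule.map_comp]

theorem h3_map_one {U : Subgroup Γ} (ρ : U →* (V →ₗ[ℂ] V)) (N : Submodule ℂ V) :
    N.map (ρ 1) = N := by
  rw [map_one, Module.End.one_eq_id, Submodule.map_id]

/-- Joint eigenspaces are independent. -/
theorem h3_indep {A U : Subgroup Γ} (ρ : U →* (V →ₗ[ℂ] V))
    (hc : ∀ a b : U, (a : Γ) ∈ A → (b : Γ) ∈ A → ρ a * ρ b = ρ b * ρ a) :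
    iSupIndep (fun l : {a : U // (a : Γ) ∈ A} → ℂ => h3E A ρ l) := by
  let f : {a : U // (a : Γ) ∈ A} → Module.End ℂ V := fun a => ρ a
  have h0 : ∀ i j : {a : U // (a : Γ) ∈ A}, ∀ φ : ℂ,
      Set.MapsTo (f i) ((f j).maxGenEigenspace φ) ((f j).maxGenEigenspace φ) := by
    intro i j φ
    have hcm : Commute (f j) (f i) := hc j i j.2 i.2
    exact Module.End.mapsTo_maxGenEigenspace_of_comm hcm φ
  have h1 := Module.End.independent_iInf_maxGenEigenspace_of_forall_mapsTo f h0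
  refine h1.mono ?_
  intro l
  refine iInf_mono fun a => ?_
  exact Module.End.genEigenspace_le_maximal _ _ _

theorem decomp [FiniteDimensional ℂ V] {p : ℕ} (hp : p.Prime) {A U : Subgroup Γ} (hAU : A ≤ U)
    (hn : ∀ u ∈ U, ∀ a ∈ A, u * a * u⁻¹ ∈ A) (ρ : U →* (V →ₗ[ℂ] V))
    (hirr : ∀ N : Submodule ℂ V, (∀ u : U, ∀ v ∈ N, ρ u v ∈ N) → N = ⊥ ∨ N = ⊤) (hV : 1 < Module.finrank ℂ V)
    (hc : ∀ a b : U, (a : Γ) ∈ A → (b : Γ) ∈ A → ρ a * ρ b = ρ b * ρ a)
    (hs : ∃ a : U, (a : Γ) ∈ A ∧ ∀ c : ℂ, ρ a ≠ c • 1) :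
    ∃ T : Subgroup Γ, A ≤ T ∧ T ≤ U ∧ T ≠ U ∧ ∀ (W : Subgroup Γ) (t : Γ) (h : IsStep p W U t), T ≤ W →
      ∃ N : Submodule ℂ V, (∀ w (hw : w ∈ W), ∀ v ∈ N, ρ ⟨w, h.le hw⟩ v ∈ N) ∧
        DirectSum.IsInternal (fun k : Fin p => N.map (ρ (⟨t, h.mem⟩ ^ (k : ℕ)))) := by
  obtain ⟨l, hl⟩ := h3_exists ρ hV hc
  set E := h3E A ρ l with hE
  -- conjugates of the eigenvalue function
  have hconj : ∀ (u : U) (a : {a : U // (a : Γ) ∈ A}), ((u⁻¹ * a * u : U) : Γ) ∈ A := by
    intro u a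
    have := hn _ (U.inv_mem u.2) _ a.2
    rwa [inv_inv] at this
  let lc : U → {a : U // (a : Γ) ∈ A} → ℂ := fun u a => l ⟨u⁻¹ * a * u, hconj u a⟩
  have hEmap : ∀ u : U, E.map (ρ u) ≤ h3E A ρ (lc u) := by
    intro u
    rw [Submodule.map_le_iff_le_comap]
    intro v hv
    rw [Submodule.mem_comap, h3E_mem]
    intro a
    have h1 := (h3E_mem A ρ l v).1 hv ⟨u⁻¹ * a * u, hconj u a⟩
    have h2 : ρ a (ρ u v) = ρ u (ρ (u⁻¹ * a * u) v) := by
      rw [← Module.End.mul_apply, ← Module.End.mul_apply, ← map_mul, ← map_mul]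
      congr 2
      group
    rw [h2, h1, map_smul]
  -- the stabilizer
  let T' : Subgroup U :=
    { carrier := {u | E.map (ρ u) = E}
      one_mem' := h3_map_one ρ E
      mul_mem' := by
        intro a b ha hb
        change E.map (ρ (a * b)) = E
        rw [h3_map_mul, hb, ha]
      inv_mem' := by
        intro a ha
        change E.map (ρ a⁻¹) = E
        have h1 : (E.map (ρ a)).map (ρ a⁻¹) = E := by
          rw [← h3_map_mul, inv_mul_cancel, h3_map_one]
        rwa [show E.map (ρ a) = E from ha] at h1 }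
  have hT'mem : ∀ u : U, u ∈ T' ↔ E.map (ρ u) = E := fun u => Iff.rfl
  have hAT' : ∀ a : U, (a : Γ) ∈ A → a ∈ T' := by
    have h1 : ∀ a : U, (a : Γ) ∈ A → E.map (ρ a) ≤ E := by
      intro a ha
      rw [Submodule.map_le_iff_le_comap]
      intro v hv
      rw [Submodule.mem_comap, (h3E_mem A ρ l v).1 hv ⟨a, ha⟩]
      exact E.smul_mem _ hv
    intro a ha
    rw [hT'mem]
    refine le_antisymm (h1 a ha) ?_
    have h2 := Submodule.map_mono (f := ρ a) (h1 a⁻¹ (A.inv_mem ha))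
    rwa [← h3_map_mul, mul_inv_cancel, h3_map_one] at h2
  have hstab : ∀ u : U, lc u = l → u ∈ T' := by
    intro u hu
    have h1 : ∀ v : U, lc v = l → E.map (ρ v) ≤ E := by
      intro v hv
      have := hEmap v
      rwa [hv] at this
    have hu' : lc u⁻¹ = l := by
      funext a
      have h2 : lc u ⟨u * a * u⁻¹, hn u u.2 a a.2⟩ = l ⟨u * a * u⁻¹, hn u u.2 a a.2⟩ := by rw [hu]
      have h3 : lc u⁻¹ a = l ⟨u * a * u⁻¹, hn u u.2 a a.2⟩ := by
        change l _ = l _
        congr 1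
        apply Subtype.ext
        change u⁻¹⁻¹ * (a : U) * u⁻¹ = u * a * u⁻¹
        rw [inv_inv]
      have h4 : lc u ⟨u * a * u⁻¹, hn u u.2 a a.2⟩ = l a := by
        change l _ = l _
        congr 1
        apply Subtype.ext
        change u⁻¹ * (u * (a : U) * u⁻¹) * u = a
        group
      rw [h3, ← h2, h4]
    rw [hT'mem]
    refine le_antisymm (h1 u hu) ?_
    have h2 := Submodule.map_mono (f := ρ u) (h1 u⁻¹ hu')
    rwa [← h3_map_mul, mul_inv_cancel, h3_map_one] at h2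
  refine ⟨T'.map U.subtype, ?_, ?_, ?_, ?_⟩
  · intro a ha
    exact ⟨⟨a, hAU ha⟩, hAT' ⟨a, hAU ha⟩ ha, rfl⟩
  · rintro _ ⟨u, _, rfl⟩
    exact u.2
  · intro hTU
    have hall : ∀ u : U, u ∈ T' := by
      intro u
      have h1 : (u : Γ) ∈ T'.map U.subtype := hTU.symm ▸ u.2
      obtain ⟨u', hu', he⟩ := h1
      have h2 : u' = u := Subtype.ext he
      rwa [h2] at hu'
    rcases hirr E (fun u v hv => by
      have h1 : ρ u v ∈ E.map (ρ u) := Submodule.mem_map_of_mem hv
      rwa [(hT'mem u).1 (hall u)] at h1) with h1 | h1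
    · exact hl h1
    · obtain ⟨a, ha, hna⟩ := hs
      apply hna (l ⟨a, ha⟩)
      ext v
      have hv : v ∈ E := h1 ▸ Submodule.mem_top
      exact (h3E_mem A ρ l v).1 hv ⟨a, ha⟩
  · intro W t h hTW
    let τ : U := ⟨t, h.mem⟩
    let ι : W → U := fun w => ⟨w, h.le w.2⟩
    let N : Submodule ℂ V := ⨆ w : W, E.map (ρ (ι w))
    have hNW : ∀ w : W, N.map (ρ (ι w)) ≤ N := by
      intro w
      rw [Submodule.map_iSup]
      refine iSup_le fun w' => ?_
      rw [← h3_map_mul]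
      exact le_iSup (fun w : W => E.map (ρ (ι w))) (w * w')
    have hEN : E ≤ N := by
      have h1 := le_iSup (fun w : W => E.map (ρ (ι w))) 1
      have h2 : ι 1 = 1 := rfl
      simp only [h2, h3_map_one] at h1
      exact h1
    refine ⟨N, ?_, ?_⟩
    · intro w hw v hv
      exact hNW ⟨w, hw⟩ (Submodule.mem_map_of_mem hv)
    · rw [DirectSum.isInternal_submodule_iff_iSupIndep_and_iSup_eq_top]
      constructor
      · -- independence
        let B : Fin p → Set ({a : U // (a : Γ) ∈ A} → ℂ) := fun k => {m | ∃ w : W, m = lc (τ ^ (k : ℕ) * ι w)}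
        have hle : ∀ k : Fin p, N.map (ρ (τ ^ (k : ℕ))) ≤ ⨆ m ∈ B k, h3E A ρ m := by
          intro k
          rw [Submodule.map_iSup]
          refine iSup_le fun w => ?_
          rw [← h3_map_mul]
          exact (hEmap _).trans (le_iSup₂_of_le (lc (τ ^ (k : ℕ) * ι w)) ⟨w, rfl⟩ le_rfl)
        have hdis : ∀ j k : Fin p, j ≠ k → Disjoint (B j) (B k) := by
          intro j k hjk
          rw [Set.disjoint_left]
          rintro m ⟨w, hw⟩ ⟨w', hw'⟩
          -- lc (x) = lc (y) implies x⁻¹ y stabilizes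
          have hxy : lc (τ ^ (j : ℕ) * ι w) = lc (τ ^ (k : ℕ) * ι w') := hw.symm.trans hw'
          set x := τ ^ (j : ℕ) * ι w with hx
          set y := τ ^ (k : ℕ) * ι w' with hy
          have h1 : lc (x⁻¹ * y) = l := by
            funext a
            have hxa : ((x * a * x⁻¹ : U) : Γ) ∈ A := hn x x.2 a a.2
            have h2 := congrFun hxy ⟨x * a * x⁻¹, hxa⟩
            have h3 : lc x ⟨x * a * x⁻¹, hxa⟩ = l a := by
              change l _ = l _
              congr 1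
              apply Subtype.ext
              change x⁻¹ * (x * (a : U) * x⁻¹) * x = a
              group
            have h4 : lc y ⟨x * a * x⁻¹, hxa⟩ = lc (x⁻¹ * y) a := by
              change l _ = l _
              congr 1
              apply Subtype.ext
              change y⁻¹ * (x * (a : U) * x⁻¹) * y = (x⁻¹ * y)⁻¹ * a * (x⁻¹ * y)
              group
            rw [← h4, ← h2, h3]
          have h2 : ((x⁻¹ * y : U) : Γ) ∈ W := hTW ⟨x⁻¹ * y, hstab _ h1, rfl⟩
          have h3 : ((x⁻¹ * y : U) : Γ) = (w : Γ)⁻¹ * ((t ^ (j : ℕ))⁻¹ * t ^ (k : ℕ)) * w' := by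
            change (t ^ (j : ℕ) * (w : Γ))⁻¹ * (t ^ (k : ℕ) * (w' : Γ)) = _
            group
          rw [h3] at h2
          have h4 : (t ^ (j : ℕ))⁻¹ * t ^ (k : ℕ) ∈ W := by
            have h5 := W.mul_mem (W.mul_mem w.2 h2) (W.inv_mem w'.2)
            have h6 : (w : Γ) * ((w : Γ)⁻¹ * ((t ^ (j : ℕ))⁻¹ * t ^ (k : ℕ)) * w') * (w' : Γ)⁻¹ =
                (t ^ (j : ℕ))⁻¹ * t ^ (k : ℕ) := by group
            rwa [h6] at h5
          have hpow : ∀ a b : ℕ, a ≤ b → b < p → (t ^ a)⁻¹ * t ^ b ∈ W → a = b := by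
            intro a b hab hb hm
            have h5 : (t ^ a)⁻¹ * t ^ b = t ^ (b - a) := by
              rw [inv_mul_eq_iff_eq_mul, ← pow_add]
              congr 1
              omega
            rw [h5] at hm
            have := h.inj (b - a) (by omega) hm
            omega
          apply hjk
          apply Fin.ext
          rcases le_total (j : ℕ) (k : ℕ) with h5 | h5
          · exact hpow _ _ h5 k.2 h4
          · refine (hpow _ _ h5 j.2 ?_).symm
            have h6 := W.inv_mem h4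
            rwa [mul_inv_rev, inv_inv] at h6
        intro k
        have h1 : (⨆ j, ⨆ (_ : j ≠ k), N.map (ρ (τ ^ (j : ℕ)))) ≤
            ⨆ m ∈ (⋃ j ∈ {j : Fin p | j ≠ k}, B j), h3E A ρ m := by
          refine iSup₂_le fun j hj => (hle j).trans ?_
          refine iSup₂_le fun m hm => ?_
          refine le_iSup₂_of_le m ?_ le_rfl
          exact Set.mem_biUnion (show j ∈ {j : Fin p | j ≠ k} from hj) hm
        refine Disjoint.mono (hle k) h1 ?_
        apply iSupIndep.disjoint_biSup_biSup (h3_indep ρ hc)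
        rw [Set.disjoint_iUnion₂_right]
        intro j hj
        exact hdis k j (Ne.symm hj)
      · -- the sum is everything
        have hst : ∀ u : U, ∀ v ∈ (⨆ k : Fin p, N.map (ρ (τ ^ (k : ℕ)))),
            ρ u v ∈ (⨆ k : Fin p, N.map (ρ (τ ^ (k : ℕ)))) := by
          intro u v hv
          have h1 : ρ u v ∈ (⨆ k : Fin p, N.map (ρ (τ ^ (k : ℕ)))).map (ρ u) := Submodule.mem_map_of_mem hv
          rw [Submodule.map_iSup] at h1
          refine (iSup_le fun k => ?_ : (⨆ k : Fin p, (N.map (ρ (τ ^ (k : ℕ)))).map (ρ u)) ≤ _) h1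
          obtain ⟨j, hj, hjW⟩ := h.cover ((u : Γ) * t ^ (k : ℕ)) (U.mul_mem u.2 (U.pow_mem h.mem k))
          have h2 : u * τ ^ (k : ℕ) = τ ^ j * ι ⟨_, hjW⟩ := by
            apply Subtype.ext
            change (u : Γ) * t ^ (k : ℕ) = t ^ j * ((t ^ j)⁻¹ * ((u : Γ) * t ^ (k : ℕ)))
            rw [mul_inv_cancel_left]
          rw [← h3_map_mul, h2, h3_map_mul]
          exact (Submodule.map_mono (hNW _)).trans
            (le_iSup (fun k : Fin p => N.map (ρ (τ ^ (k : ℕ)))) ⟨j, hj⟩)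
        rcases hirr _ hst with h1 | h1
        · exfalso
          apply hl
          rw [eq_bot_iff, ← h1]
          have h2 := le_iSup (fun k : Fin p => N.map (ρ (τ ^ (k : ℕ)))) ⟨0, hp.pos⟩
          simp only [pow_zero, h3_map_one] at h2
          exact hEN.trans h2
        · exact h1

end SB
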