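import Pool.Agent.Helper21.SB.H1
import Pool.Agent.Helper21.SB.H2
import Pool.Agent.Helper21.SB.H3a
import Pool.Agent.Helper21.SB.H3b
import Pool.Agent.Helper21.SB.H3c

namespace SB

universe u v

variable {Γ : Type u} [Group Γ]

theorem trf_zero_dim {V : Type v} [AddCommGroup V] [Module ℂ V] [FiniteDimensional ℂ V] {U : Subgroup Γ}
    (ρ : U →* (V →ₗ[ℂ] V)) (hd : Module.finrank ℂ V = 0) : trf U ρ = 0 := by
  have : Subsingleton V := Module.finrank_zero_iff.1 hd
  funext g
  unfold trf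
  split_ifs with h
  · have : ρ ⟨g, h⟩ = 0 := by
      ext v
      exact Subsingleton.elim _ _
    rw [this]; simp
  · rfl

/-- In dimension one every endomorphism is its trace. -/
theorem eq_trace_smul {V : Type v} [AddCommGroup V] [Module ℂ V] [FiniteDimensional ℂ V]
    (hd : Module.finrank ℂ V = 1) (f : V →ₗ[ℂ] V) : f = LinearMap.trace ℂ V f • 1 := by
  obtain ⟨v, hv, hspan⟩ := finrank_eq_one_iff'.1 hd
  obtain ⟨c, hc⟩ := hspan (f v)
  have hf : f = c • (1 : V →ₗ[ℂ] V) := by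
    ext w
    obtain ⟨a, rfl⟩ := hspan w
    rw [map_smul, ← hc]
    simp [smul_smul, mul_comm]
  have ht : LinearMap.trace ℂ V f = c := by
    rw [hf]
    simp [LinearMap.trace_one, hd]
  rw [ht]
  exact hf

theorem trf_one_dim {V : Type v} [AddCommGroup V] [Module ℂ V] [FiniteDimensional ℂ V] {M U : Subgroup Γ}
    (hMU : M ≤ U) (ρ : U →* (V →ₗ[ℂ] V)) (hρ : ∀ g (h : g ∈ U), g ∈ M → ρ ⟨g, h⟩ = 1)
    (hd : Module.finrank ℂ V = 1) : BM M U (trf U ρ) := by
  let f : U →* ℂ :=
    { toFun := fun u => LinearMap.trace ℂ V (ρ u)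
      map_one' := by rw [map_one, LinearMap.trace_one, hd]; simp
      map_mul' := fun a b => by
        rw [map_mul]
        conv_lhs => rw [eq_trace_smul hd (ρ a), eq_trace_smul hd (ρ b)]
        simp [LinearMap.trace_one, hd, mul_comm] }
  refine ⟨hMU, f.toHomUnits, fun g h hg => ?_, ?_⟩
  · apply Units.ext
    rw [MonoidHom.coe_toHomUnits]
    show LinearMap.trace ℂ V (ρ ⟨g, h⟩) = 1
    rw [hρ g h hg, LinearMap.trace_one, hd]; simp
  · funext g
    by_cases h : g ∈ U
    · rw [ext_mem _ h, MonoidHom.coe_toHomUnits]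
      simp [trf, h, f]
    · rw [ext_not_mem _ h]
      simp [trf, h]

theorem not_mem_of_isStep {p : ℕ} (hp : p.Prime) {W U : Subgroup Γ} {t : Γ} (h : IsStep p W U t) : t ∉ W := by
  intro ht
  have := h.inj 1 hp.one_lt (by simpa using ht)
  exact one_ne_zero this

theorem mono_aux {p : ℕ} (hp : p.Prime) {M C : Subgroup Γ} (hM : M.Normal) :
    ∀ (n : ℕ) {U : Subgroup Γ} (_ : AbExt p M C U) (_ : C.relIndex U = p ^ n) (d : ℕ)
      {V : Type v} [AddCommGroup V] [Module ℂ V] [FiniteDimensional ℂ V] (_ : Module.finrank ℂ V = d)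
      (ρ : U →* (V →ₗ[ℂ] V)) (_ : ∀ g (h : g ∈ U), g ∈ M → ρ ⟨g, h⟩ = 1), Tow p M (BM M) U (trf U ρ) := by
  intro n
  induction n using Nat.strong_induction_on with
  | _ n ihn =>
  intro U h hidx d
  induction d using Nat.strong_induction_on with
  | _ d ihd =>
  intro V _ _ _ hd ρ hρ
  by_cases hirr : ∀ N : Submodule ℂ V, (∀ u : U, ∀ v ∈ N, ρ u v ∈ N) → N = ⊥ ∨ N = ⊤
  · rcases Nat.lt_or_ge 1 d with h1 | h1
    · -- irreducible of dimension > 1
      obtain ⟨A, hCA, hAU, hAn, hAc, hAs⟩ := exists_A hp hM h ρ hρ hirr (hd ▸ h1)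
      obtain ⟨T, hAT, hTU, hTne, hT⟩ := decomp hp hAU hAn ρ hirr (hd ▸ h1) hAc hAs
      obtain ⟨W, t, hW, hTW⟩ := exists_W hp (hCA.trans hAT) hTU hTne h.norm h.idx
      obtain ⟨N, hN, hint⟩ := hT W t hW hTW
      rw [trf_ind hp.pos hW ρ N hN hint]
      have hCW : C ≤ W := hCA.trans (hAT.trans hTW)
      have hdiv : C.relIndex W ∣ p ^ n := by
        rw [← hidx]
        exact Dvd.intro _ (Subgroup.relIndex_mul_relIndex C W U hCW hW.le)
      obtain ⟨m, hmn, hm⟩ := (Nat.dvd_prime_pow hp).1 hdiv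
      have hmn' : m < n := by
        rcases Nat.lt_or_ge m n with h' | h'
        · exact h'
        · exfalso
          have hmn2 : m = n := le_antisymm hmn h'
          subst hmn2
          have hmul := Subgroup.relIndex_mul_relIndex C W U hCW hW.le
          rw [hm, hidx] at hmul
          have hp0 : p ^ m ≠ 0 := pow_ne_zero _ hp.ne_zero
          have h1 : W.relIndex U = 1 := by
            have : p ^ m * W.relIndex U = p ^ m * 1 := by rw [hmul, mul_one]
            exact Nat.eq_of_mul_eq_mul_left (Nat.pos_of_ne_zero hp0) this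
          have h2 : U ≤ W := Subgroup.relIndex_eq_one.1 h1
          exact not_mem_of_isStep hp hW (h2 hW.mem)
      refine Tow.step t hW (h.mc.trans hCW) ?_
      refine ihn m hmn' ⟨h.mc, hCW, fun u hu c hc => h.norm u (hW.le hu) c hc, h.comm, ⟨m, hm⟩⟩ hm _ rfl _ ?_
      intro g hg hgM
      ext v
      show ρ ⟨g, _⟩ (v : V) = v
      rw [hρ g (hW.le hg) hgM]
      rfl
    · rcases Nat.eq_zero_or_pos d with h0 | h0
      · rw [trf_zero_dim ρ (hd.trans h0)]
        exact Tow.zero U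
      · exact Tow.base (trf_one_dim (h.mc.trans h.cu) ρ hρ (by omega))
  · push Not at hirr
    obtain ⟨N, hN, hN1, hN2⟩ := hirr
    rw [trf_split ρ N hN]
    refine (ihd _ ?_ rfl _ ?_).add (ihd _ ?_ rfl _ ?_)
    · rw [← hd]; exact Submodule.finrank_lt hN2
    · intro g hg hgM
      ext v
      show ρ ⟨g, _⟩ (v : V) = v
      rw [hρ g hg hgM]
      rfl
    · rw [← hd]
      have h1 := Submodule.finrank_quotient_add_finrank N
      have h2 : 0 < Module.finrank ℂ N := by
        rw [Module.finrank_pos_iff]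
        exact Submodule.nontrivial_iff_ne_bot.2 hN1
      omega
    · intro g hg hgM
      apply Submodule.linearMap_qext
      ext v
      show Submodule.Quotient.mk (ρ ⟨g, hg⟩ v) = _
      rw [hρ g hg hgM]
      rfl

theorem mono {p : ℕ} (hp : p.Prime) {M C U : Subgroup Γ} (hM : M.Normal) (h : AbExt p M C U)
    {V : Type v} [AddCommGroup V] [Module ℂ V] [FiniteDimensional ℂ V] (ρ : U →* (V →ₗ[ℂ] V))
    (hρ : ∀ g (h : g ∈ U), g ∈ M → ρ ⟨g, h⟩ = 1) : Tow p M (BM M) U (trf U ρ) := by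
  obtain ⟨n, hn⟩ := h.idx
  exact mono_aux hp hM n h hn _ rfl ρ hρ

end SB
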