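import Pool.Agent.Helper21.SB.Glue
import Pool.Agent.Helper21.SB.Mono

namespace SB

universe u v

variable {Γ : Type u} [Group Γ]

theorem fam_sum (D : Sys Γ) (P : Subgroup Γ → Prop) {m : ℕ} (a : Fin m → ℤ) (w : Fin m → Γ → ℂ)
    (h : ∀ i, Fam D P (w i)) : Fam D P (fun g => ∑ i, (a i : ℂ) * w i g) := by
  induction m with
  | zero => simpa using fam_zero D P
  | succ m ih =>
    simp only [Fin.sum_univ_castSucc]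
    exact fam_add D P (ih (fun i => a i.castSucc) (fun i => w i.castSucc) fun i => h _)
      (fam_zmul D P (a (Fin.last m)) (h (Fin.last m)))

variable {V₁ : Type v} [AddCommGroup V₁] [Module ℂ V₁] [FiniteDimensional ℂ V₁]
    {V₂ : Type v} [AddCommGroup V₂] [Module ℂ V₂] [FiniteDimensional ℂ V₂]

theorem ind_eq_trf (ρ₁ : Γ →* (V₁ →ₗ[ℂ] V₁)) (ρ₂ : Γ →* (V₂ →ₗ[ℂ] V₂)) (U : Subgroup Γ) :
    Set.indicator (U : Set Γ) (fun g => LinearMap.trace ℂ V₁ (ρ₁ g) - LinearMap.trace ℂ V₂ (ρ₂ g)) =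
      trf U (ρ₁.comp U.subtype) - trf U (ρ₂.comp U.subtype) := by
  funext g
  by_cases h : g ∈ U
  · simp [trf, h]
  · simp [trf, h]

theorem tr_conj {V : Type v} [AddCommGroup V] [Module ℂ V] [FiniteDimensional ℂ V]
    (ρ : Γ →* (V →ₗ[ℂ] V)) (g x : Γ) : LinearMap.trace ℂ V (ρ (x⁻¹ * g * x)) = LinearMap.trace ℂ V (ρ g) := by
  rw [map_mul, LinearMap.trace_mul_comm, ← map_mul]
  congr 2
  group

/-- Data for the piece `U`. -/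
theorem tow_piece (D : Sys Γ) {M : Subgroup Γ} (hM : M ∈ D.N) (ρ₁ : Γ →* (V₁ →ₗ[ℂ] V₁)) (ρ₂ : Γ →* (V₂ →ₗ[ℂ] V₂))
    (h₁ : ∀ g ∈ M, ρ₁ g = 1) (h₂ : ∀ g ∈ M, ρ₂ g = 1) {p : ℕ} (hp : p.Prime) {C U : Subgroup Γ}
    (h : AbExt p M C U) :
    Tow p M (BM M) U (Set.indicator (U : Set Γ)
      (fun g => LinearMap.trace ℂ V₁ (ρ₁ g) - LinearMap.trace ℂ V₂ (ρ₂ g))) := by
  rw [ind_eq_trf]
  exact (mono hp (D.normal M hM) h _ fun g _ hg => h₁ g hg).sub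
    (mono hp (D.normal M hM) h _ fun g _ hg => h₂ g hg)

theorem v_one (ρ₁ : Γ →* (V₁ →ₗ[ℂ] V₁)) (ρ₂ : Γ →* (V₂ →ₗ[ℂ] V₂))
    (hdim : Module.finrank ℂ V₁ = Module.finrank ℂ V₂) (U : Subgroup Γ) :
    Set.indicator (U : Set Γ)
      (fun g => LinearMap.trace ℂ V₁ (ρ₁ g) - LinearMap.trace ℂ V₂ (ρ₂ g)) 1 = 0 := by
  rw [Set.indicator_of_mem (U.one_mem : (1 : Γ) ∈ (U : Set Γ))]
  simp [LinearMap.trace_one, hdim]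

theorem v_s (D : Sys Γ) (ρ₁ : Γ →* (V₁ →ₗ[ℂ] V₁)) (ρ₂ : Γ →* (V₂ →ₗ[ℂ] V₂))
    (htr : ∀ s ∈ D.S, LinearMap.trace ℂ V₁ (ρ₁ s) = LinearMap.trace ℂ V₂ (ρ₂ s)) (U : Subgroup Γ) :
    ∀ s ∈ D.S, s ∈ U → Set.indicator (U : Set Γ)
      (fun g => LinearMap.trace ℂ V₁ (ρ₁ g) - LinearMap.trace ℂ V₂ (ρ₂ g)) s = 0 := by
  intro s hs hU
  rw [Set.indicator_of_mem (show s ∈ (U : Set Γ) from hU)]
  simp [htr s hs]

theorem fin_of_le (D : Sys Γ) {M U : Subgroup Γ} (hM : M ∈ D.N) (h : M ≤ U) : U.FiniteIndex :=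
  haveI := D.fin M hM
  Subgroup.finiteIndex_of_le h

theorem famGeneral (D : Sys Γ) {M : Subgroup Γ} (hM : M ∈ D.N)
    (ρ₁ : Γ →* (V₁ →ₗ[ℂ] V₁)) (ρ₂ : Γ →* (V₂ →ₗ[ℂ] V₂))
    (h₁ : ∀ g ∈ M, ρ₁ g = 1) (h₂ : ∀ g ∈ M, ρ₂ g = 1)
    (hdim : Module.finrank ℂ V₁ = Module.finrank ℂ V₂)
    (htr : ∀ s ∈ D.S, LinearMap.trace ℂ V₁ (ρ₁ s) = LinearMap.trace ℂ V₂ (ρ₂ s)) :
    Fam D (fun _ => True) (fun g => LinearMap.trace ℂ V₁ (ρ₁ g) - LinearMap.trace ℂ V₂ (ρ₂ g)) := by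
  obtain ⟨m, a, p, U, C, hp, hab, hz, hcop, hsum⟩ := gSolPull M (D.normal M hM) (D.fin M hM)
  have key := hsum (fun g => LinearMap.trace ℂ V₁ (ρ₁ g) - LinearMap.trace ℂ V₂ (ρ₂ g))
    (fun g x => by simp only [tr_conj])
  have : (fun g => LinearMap.trace ℂ V₁ (ρ₁ g) - LinearMap.trace ℂ V₂ (ρ₂ g)) = fun g =>
      ∑ i, (a i : ℂ) * Ind (U i) (Set.indicator (U i : Set Γ)
        (fun g => LinearMap.trace ℂ V₁ (ρ₁ g) - LinearMap.trace ℂ V₂ (ρ₂ g))) g := funext key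
  rw [this]
  refine fam_sum D _ a _ fun i => ?_
  have hMU : M ≤ U i := (hab i).mc.trans (hab i).cu
  have hfin := fin_of_le D hM hMU
  have ht := tow_piece D hM ρ₁ ρ₂ h₁ h₂ (hp i) (hab i)
  by_cases h2 : p i = 2
  · have hab2 := hab i
    rw [h2] at ht hab2
    exact gFam D (by norm_num) _ (fun _ _ _ _ _ => trivial) hfin trivial
      (gEven D hM ht (v_one ρ₁ ρ₂ hdim (U i)) (v_s D ρ₁ ρ₂ htr (U i)))
  · exact gFam D (hp i).pos _ (fun _ _ _ _ _ => trivial) hfin trivial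
      (odd_red D (hp i) h2 hM ht (const_sig D (hp i) h2 hM (hab i) (hz i)) (v_one ρ₁ ρ₂ hdim (U i))
        (v_s D ρ₁ ρ₂ htr (U i)))

theorem Ind_top {v : Γ → ℂ} (hv : ∀ g x, v (x⁻¹ * g * x) = v g) : Ind (⊤ : Subgroup Γ) v = v := by
  funext g
  unfold Ind
  have : Subsingleton (Γ ⧸ (⊤ : Subgroup Γ)) := QuotientGroup.subsingleton_quotient_top
  have : Unique (Γ ⧸ (⊤ : Subgroup Γ)) := ⟨⟨((1 : Γ) : Γ ⧸ (⊤ : Subgroup Γ))⟩, fun a => Subsingleton.elim _ _⟩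
  rw [finsum_unique]
  exact hv g _

theorem famTwo (D : Sys Γ) {M C : Subgroup Γ} (hM : M ∈ D.N) (hC : AbExt 2 M C ⊤)
    (P : Subgroup Γ → Prop) (hP : ∀ W U t, IsStep 2 W U t → P U → P W) (hPt : P ⊤)
    (ρ₁ : Γ →* (V₁ →ₗ[ℂ] V₁)) (ρ₂ : Γ →* (V₂ →ₗ[ℂ] V₂))
    (h₁ : ∀ g ∈ M, ρ₁ g = 1) (h₂ : ∀ g ∈ M, ρ₂ g = 1)
    (hdim : Module.finrank ℂ V₁ = Module.finrank ℂ V₂)
    (htr : ∀ s ∈ D.S, LinearMap.trace ℂ V₁ (ρ₁ s) = LinearMap.trace ℂ V₂ (ρ₂ s)) :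
    Fam D P (fun g => LinearMap.trace ℂ V₁ (ρ₁ g) - LinearMap.trace ℂ V₂ (ρ₂ g)) := by
  have ht := tow_piece D hM ρ₁ ρ₂ h₁ h₂ Nat.prime_two hC
  have hfin := fin_of_le D hM (le_top (a := M))
  have h := gFam D (by norm_num) P hP hfin hPt
      (gEven D hM ht (v_one ρ₁ ρ₂ hdim ⊤) (v_s D ρ₁ ρ₂ htr ⊤))
  rw [Subgroup.coe_top, Set.indicator_univ, Ind_top (fun g x => by simp only [tr_conj])] at h
  exact h

end SB
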