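import Mathlib

namespace SB

variable {Γ : Type*} [Group Γ]

/-- The conjugate of a function on a group. -/
def cj (t : Γ) (φ : Γ → ℂ) : Γ → ℂ := fun g => φ (t⁻¹ * g * t)

open Classical in
/-- Extension by zero of a linear character of a subgroup. -/
noncomputable def ext (U : Subgroup Γ) (χ : U →* ℂˣ) : Γ → ℂ :=
  fun g => if h : g ∈ U then ((χ ⟨g, h⟩ : ℂˣ) : ℂ) else 0

/-- Induction to the whole group: `Σ_{q ∈ Γ/U} φ(q⁻¹ g q)`. -/
noncomputable def Ind (U : Subgroup Γ) (φ : Γ → ℂ) : Γ → ℂ :=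
  fun g => ∑ᶠ q : Γ ⧸ U, φ (q.out⁻¹ * g * q.out)

/-- `φ` is supported on `U` and invariant under conjugation by `U`. -/
def Cls (U : Subgroup Γ) (φ : Γ → ℂ) : Prop :=
  (∀ g, g ∉ U → φ g = 0) ∧ ∀ u ∈ U, ∀ g, φ (u⁻¹ * g * u) = φ g

/-- `W` is normal of index `p` in `U` and `1, t, ..., t^(p-1)` are coset representatives. -/
structure IsStep (p : ℕ) (W U : Subgroup Γ) (t : Γ) : Prop where
  le : W ≤ U
  mem : t ∈ U
  norm : ∀ u ∈ U, ∀ w ∈ W, u * w * u⁻¹ ∈ W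
  cover : ∀ u ∈ U, ∃ k < p, (t ^ k)⁻¹ * u ∈ W
  inj : ∀ k < p, t ^ k ∈ W → k = 0

/-- Functions obtained from the base functions `B` by sums, negation and induction along normal steps
of index `p` between subgroups containing `M`. -/
inductive Tow (p : ℕ) (M : Subgroup Γ) (B : Subgroup Γ → (Γ → ℂ) → Prop) : Subgroup Γ → (Γ → ℂ) → Prop
  | base {U : Subgroup Γ} {φ : Γ → ℂ} : B U φ → Tow p M B U φ
  | zero (U : Subgroup Γ) : Tow p M B U 0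
  | add {U : Subgroup Γ} {φ ψ : Γ → ℂ} : Tow p M B U φ → Tow p M B U ψ → Tow p M B U (φ + ψ)
  | neg {U : Subgroup Γ} {φ : Γ → ℂ} : Tow p M B U φ → Tow p M B U (-φ)
  | step {W U : Subgroup Γ} {φ : Γ → ℂ} (t : Γ) (h : IsStep p W U t) (hM : M ≤ W) :
      Tow p M B W φ → Tow p M B U (∑ k ∈ Finset.range p, cj (t ^ k) φ)

/-- A group with a set `S`, stable under conjugation, of elements of order at most two (complex conjugations) and a
set `N` of normal subgroups of finite index, such that quadratic characters with prescribed values on `S` exist. -/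
structure Sys (Γ : Type*) [Group Γ] where
  S : Set Γ
  N : Set (Subgroup Γ)
  normal : ∀ M ∈ N, M.Normal
  fin : ∀ M ∈ N, M.FiniteIndex
  inf : ∀ M ∈ N, ∀ M' ∈ N, M ⊓ M' ∈ N
  conj : ∀ s ∈ S, ∀ g, g * s * g⁻¹ ∈ S
  sq : ∀ s ∈ S, s * s = 1
  nt : ∀ M ∈ N, ∀ U : Subgroup Γ, M ≤ U → ∀ κ : Set Γ, κ ⊆ S → (∀ s ∈ κ, s ∈ U) →
    (∀ s ∈ κ, ∀ u ∈ U, u * s * u⁻¹ ∈ κ) → (∀ s ∈ κ, ∀ s' ∈ S, s⁻¹ * s' ∈ M → s' ∈ κ) →
    ∃ M' ∈ N, M' ≤ M ∧ ∃ x : U →* ℤˣ, (∀ g (h : g ∈ U), g ∈ M' → x ⟨g, h⟩ = 1) ∧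
      ∀ s (h : s ∈ U), s ∈ S → (x ⟨s, h⟩ = -1 ↔ s ∈ κ)

/-- The character `χ` of `U` is trivial on a member of `N` contained in `U`. -/
def OpC (D : Sys Γ) (U : Subgroup Γ) (χ : U →* ℂˣ) : Prop :=
  ∃ M ∈ D.N, M ≤ U ∧ ∀ g (h : g ∈ U), g ∈ M → χ ⟨g, h⟩ = 1

/-- Same signature. -/
def Sig (D : Sys Γ) (U : Subgroup Γ) (χ χ' : U →* ℂˣ) : Prop :=
  ∀ s (h : s ∈ U), s ∈ D.S → χ ⟨s, h⟩ = χ' ⟨s, h⟩

/-- Differences of two linear characters of the same signature. -/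
def BI (D : Sys Γ) (U : Subgroup Γ) (φ : Γ → ℂ) : Prop :=
  ∃ χ χ' : U →* ℂˣ, OpC D U χ ∧ OpC D U χ' ∧ Sig D U χ χ' ∧ φ = ext U χ - ext U χ'

/-- Linear characters of `U ≥ M` trivial on `M`. -/
def BM (M : Subgroup Γ) (U : Subgroup Γ) (φ : Γ → ℂ) : Prop :=
  M ≤ U ∧ ∃ χ : U →* ℂˣ, (∀ g (h : g ∈ U), g ∈ M → χ ⟨g, h⟩ = 1) ∧ φ = ext U χ

/-- Integral combinations of linear characters of `U`. -/
def Lin (D : Sys Γ) (U : Subgroup Γ) (φ : Γ → ℂ) : Prop :=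
  ∃ (m : ℕ) (n : Fin m → ℤ) (χ : Fin m → (U →* ℂˣ)), (∀ i, OpC D U (χ i)) ∧
    φ = ∑ i, n i • ext U (χ i)

/-- A sign character as a complex character. -/
def qc {U : Subgroup Γ} (x : U →* ℤˣ) : U →* ℂˣ :=
  (Units.map ((Int.castRingHom ℂ : ℤ →+* ℂ) : ℤ →* ℂ)).comp x

/-- The conclusion: `v` is an integral combination of differences of characters induced from subgroups
satisfying `P`, the two linear characters in each difference having the same signature. -/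
def Fam (D : Sys Γ) (P : Subgroup Γ → Prop) (v : Γ → ℂ) : Prop :=
  ∃ (m : ℕ) (n : Fin m → ℤ) (U : Fin m → Subgroup Γ) (χ χ' : ∀ i, U i →* ℂˣ),
    (∀ i, P (U i)) ∧ (∀ i, OpC D (U i) (χ i)) ∧ (∀ i, OpC D (U i) (χ' i)) ∧
    (∀ i, Sig D (U i) (χ i) (χ' i)) ∧
    ∀ g, v g = ∑ i, (n i : ℂ) * (Ind (U i) (ext (U i) (χ i)) g - Ind (U i) (ext (U i) (χ' i)) g)

open Classical in
/-- The trace function of a representation of a subgroup, extended by zero. -/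
noncomputable def trf {V : Type*} [AddCommGroup V] [Module ℂ V] (U : Subgroup Γ) (ρ : U →* (V →ₗ[ℂ] V)) : Γ → ℂ :=
  fun g => if h : g ∈ U then LinearMap.trace ℂ V (ρ ⟨g, h⟩) else 0

/-- `C` is normal in `U`, of index a power of `p`, and `C/M` is abelian. -/
structure AbExt (p : ℕ) (M C U : Subgroup Γ) : Prop where
  mc : M ≤ C
  cu : C ≤ U
  norm : ∀ u ∈ U, ∀ c ∈ C, u * c * u⁻¹ ∈ C
  comm : ∀ a ∈ C, ∀ b ∈ C, a * b * a⁻¹ * b⁻¹ ∈ M
  idx : ∃ n, C.relIndex U = p ^ n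

/-- `H` is `p`-hyperelementary (`C` cyclic normal of order prime to `p`, `H/C` a `p`-group). -/
def Hyp {G : Type*} [Group G] (p : ℕ) (H : Subgroup G) : Prop :=
  ∃ C : Subgroup G, C ≤ H ∧ (∀ h ∈ H, ∀ c ∈ C, h * c * h⁻¹ ∈ C) ∧ IsCyclic C ∧
    (Nat.card C).Coprime p ∧ ∃ n, C.relIndex H = p ^ n

theorem ext_mem {U : Subgroup Γ} (χ : U →* ℂˣ) {g : Γ} (h : g ∈ U) :
    ext U χ g = ((χ ⟨g, h⟩ : ℂˣ) : ℂ) := by
  simp [ext, h]

theorem ext_not_mem {U : Subgroup Γ} (χ : U →* ℂˣ) {g : Γ} (h : g ∉ U) : ext U χ g = 0 := by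
  simp [ext, h]

theorem cj_apply (t : Γ) (φ : Γ → ℂ) (g : Γ) : cj t φ g = φ (t⁻¹ * g * t) := rfl

theorem cls_ext (U : Subgroup Γ) (χ : U →* ℂˣ) : Cls U (ext U χ) := by
  refine ⟨fun g h => ext_not_mem χ h, fun u hu g => ?_⟩
  by_cases hg : g ∈ U
  · have h1 : u⁻¹ * g * u ∈ U := U.mul_mem (U.mul_mem (U.inv_mem hu) hg) hu
    rw [ext_mem χ h1, ext_mem χ hg]
    have : (⟨u⁻¹ * g * u, h1⟩ : U) = (⟨u, hu⟩ : U)⁻¹ * ⟨g, hg⟩ * ⟨u, hu⟩ := rfl
    rw [this, map_mul, map_mul, map_inv]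
    congr 1
    rw [mul_comm, mul_inv_cancel_left]
  · have h1 : u⁻¹ * g * u ∉ U := by
      intro h
      apply hg
      have := U.mul_mem (U.mul_mem hu h) (U.inv_mem hu)
      have h2 : u * (u⁻¹ * g * u) * u⁻¹ = g := by group
      rwa [h2] at this
    rw [ext_not_mem χ h1, ext_not_mem χ hg]

theorem IsStep.pow_mem {p : ℕ} {W U : Subgroup Γ} {t : Γ} (h : IsStep p W U t) : t ^ p ∈ W := by
  obtain ⟨k, hk, hk2⟩ := h.cover (t ^ p) (U.pow_mem h.mem p)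
  have h1 : (t ^ k)⁻¹ * t ^ p = t ^ (p - k) := by
    rw [inv_mul_eq_iff_eq_mul, ← pow_add]
    congr 1
    omega
  rw [h1] at hk2
  rcases Nat.eq_zero_or_pos k with h0 | h0
  · subst h0; simpa using hk2
  · have := h.inj (p - k) (by omega) hk2
    omega

theorem Tow.sub {p : ℕ} {M : Subgroup Γ} {B : Subgroup Γ → (Γ → ℂ) → Prop} {U : Subgroup Γ} {φ ψ : Γ → ℂ}
    (h : Tow p M B U φ) (h' : Tow p M B U ψ) : Tow p M B U (φ - ψ) := by
  rw [sub_eq_add_neg]; exact h.add h'.neg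

theorem Tow.nsmul {p : ℕ} {M : Subgroup Γ} {B : Subgroup Γ → (Γ → ℂ) → Prop} {U : Subgroup Γ} {φ : Γ → ℂ}
    (h : Tow p M B U φ) (n : ℕ) : Tow p M B U (n • φ) := by
  induction n with
  | zero => simpa using Tow.zero U
  | succ n ih => rw [succ_nsmul]; exact ih.add h

theorem Tow.zsmul {p : ℕ} {M : Subgroup Γ} {B : Subgroup Γ → (Γ → ℂ) → Prop} {U : Subgroup Γ} {φ : Γ → ℂ}
    (h : Tow p M B U φ) (n : ℤ) : Tow p M B U (n • φ) := by
  rcases Int.eq_nat_or_neg n with ⟨m, rfl | rfl⟩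
  · simpa using h.nsmul m
  · simpa using (h.nsmul m).neg

theorem Tow.sum {p : ℕ} {M : Subgroup Γ} {B : Subgroup Γ → (Γ → ℂ) → Prop} {U : Subgroup Γ}
    {ι : Type*} (s : Finset ι) (φ : ι → Γ → ℂ)
    (h : ∀ i ∈ s, Tow p M B U (φ i)) : Tow p M B U (∑ i ∈ s, φ i) := by
  classical
  induction s using Finset.induction_on with
  | empty => simpa using Tow.zero U
  | insert a s ha ih =>
    rw [Finset.sum_insert ha]
    exact (h a (Finset.mem_insert_self a s)).add (ih fun i hi => h i (Finset.mem_insert_of_mem hi))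

/-- The set of functions in a tower class is an additive subgroup. -/
def towGrp (p : ℕ) (M : Subgroup Γ) (B : Subgroup Γ → (Γ → ℂ) → Prop) (U : Subgroup Γ) : AddSubgroup (Γ → ℂ) where
  carrier := {φ | Tow p M B U φ}
  zero_mem' := Tow.zero U
  add_mem' := fun h h' => h.add h'
  neg_mem' := fun h => h.neg

theorem mem_towGrp {p : ℕ} {M : Subgroup Γ} {B : Subgroup Γ → (Γ → ℂ) → Prop} {U : Subgroup Γ} {φ : Γ → ℂ} :
    φ ∈ towGrp p M B U ↔ Tow p M B U φ := Iff.rfl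

end SB
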