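import Pool.Agent.Helper21.SB.Base

namespace SB

variable {Γ : Type*} [Group Γ] {V : Type*} [AddCommGroup V] [Module ℂ V]

/-- The representation of `W ≤ U` on a `W`-stable subspace. -/
noncomputable def subRep {W U : Subgroup Γ} (hWU : W ≤ U) (ρ : U →* (V →ₗ[ℂ] V)) (N : Submodule ℂ V)
    (hN : ∀ w (h : w ∈ W), ∀ v ∈ N, ρ ⟨w, hWU h⟩ v ∈ N) : W →* (N →ₗ[ℂ] N) where
  toFun w := (ρ ⟨w, hWU w.2⟩).restrict (hN w w.2)
  map_one' := by
    ext v
    have : (⟨((1 : W) : Γ), hWU (1 : W).2⟩ : U) = 1 := rfl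
    simp only [LinearMap.restrict_coe_apply, this, map_one]
    rfl
  map_mul' a b := by
    ext v
    have : (⟨((a * b : W) : Γ), hWU (a * b).2⟩ : U) = ⟨a, hWU a.2⟩ * ⟨b, hWU b.2⟩ := rfl
    simp only [LinearMap.restrict_coe_apply, this, map_mul]
    rfl

/-- The representation on the quotient by a stable subspace. -/
noncomputable def quotRep {U : Subgroup Γ} (ρ : U →* (V →ₗ[ℂ] V)) (N : Submodule ℂ V)
    (hN : ∀ u : U, ∀ v ∈ N, ρ u v ∈ N) : U →* ((V ⧸ N) →ₗ[ℂ] (V ⧸ N)) where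
  toFun u := N.mapQ N (ρ u) (fun v hv => hN u v hv)
  map_one' := by
    apply Submodule.linearMap_qext
    ext v
    simp
  map_mul' a b := by
    apply Submodule.linearMap_qext
    ext v
    simp

end SB
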