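import Pool.Agent.Helper21.SB.QDefs

namespace SB

/-- SB-C0. No small subgroups. PROOF: Let B = {A ∈ GL_d(ℂ) : ‖A - 1‖ < 1/2} (any submultiplicative norm on matrices, e.g. the l^∞ operator norm `Matrix.linftyOpNormedRing`
as a local instance; or entrywise: |(A-1)_ij| < 1/(4d+4) and the norm max row sum by hand). ρ⁻¹(B) is a neighbourhood of 1 in the Krull topology, so it contains K₀.fixingSubgroup with K₀ finite over ℚ
(`krullTopology_mem_nhds_one_iff` or the basis `galGroupBasis`), and we may take K = normal closure of K₀ (finite, normal). Let g ∈ Fix K, A = ρ g. All powers A^n (n : ℕ) are in B. s = sup_n ‖A^n - 1‖ ≤ 1/2 (bounded).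
2 (A^n - 1) = (A^(2n) - 1) - (A^n - 1)^2, so 2 ‖A^n - 1‖ ≤ s + s^2 for every n, 2 s ≤ s + s^2, s = 0 as s < 1. So A = 1. -/
theorem cont_ker {d : ℕ} (ρ : GQ →* Matrix.GeneralLinearGroup (Fin d) ℂ) (h : Continuous ρ) :
    ∃ K : IntermediateField ℚ Qb, FiniteDimensional ℚ K ∧ Normal ℚ K ∧ ∀ g ∈ K.fixingSubgroup, ρ g = 1 := sorry

/-- SB-C0b. Conversely a homomorphism trivial on an open subgroup is continuous (`continuous_of_continuousAt_one`; `IntermediateField.fixingSubgroup_isOpen`). -/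
theorem cont_of_ker {d : ℕ} (ρ : GQ →* Matrix.GeneralLinearGroup (Fin d) ℂ) (K : IntermediateField ℚ Qb)
    (hK : FiniteDimensional ℚ K) (h : ∀ g ∈ K.fixingSubgroup, ρ g = 1) : Continuous ρ := sorry

/-- SB-C1. The induced representation. PROOF: on functions (or `Fin d`-indexed, d = index, through an equivalence Γ/U ≃ Fin d) take the monomial matrices: for q, q' ∈ Γ/U the entry (q', q) of ρ g is
ext U χ (q'.out⁻¹ * g * q.out) (nonzero exactly for q' = g • q). It is multiplicative: entry (q'', q) of ρ g ρ h is the single term q' = h • q: χ(q''.out⁻¹ g q'.out) χ(q'.out⁻¹ h q.out) = χ(q''.out⁻¹ g h q.out).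
ρ 1 = 1. Trace = Σ_q ext U χ (q.out⁻¹ g q.out) = Ind. For g ∈ M (normal, M ≤ U, χ trivial on M): q.out⁻¹ g q.out ∈ M, so ρ g = 1. -/
theorem exists_indRep (M U : Subgroup GQ) (hM : M.Normal) (hMU : M ≤ U) (hU : U.FiniteIndex) (χ : U →* ℂˣ)
    (hχ : ∀ g (h : g ∈ U), g ∈ M → χ ⟨g, h⟩ = 1) :
    ∃ (d : ℕ) (ρ : GQ →* Matrix.GeneralLinearGroup (Fin d) ℂ), (∀ g ∈ M, ρ g = 1) ∧
      ∀ g, trm ρ g = Ind U (ext U χ) g := sorry

/-- SB-C2. Invariants. PROOF (take exists_indRep, cont_of_ker, and direct sums). Let tr ρ₁ - tr ρ₂ = Σ n_i (Ind χ_i - Ind χ_i') (hypothesis hfam). σ_i, σ_i' continuous with characters Ind χ_i, Ind χ_i' (exists_indRep with M = Fix K'; K' normal);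
L σ_i = L σ_i' by hsig. L depends only on the character: with the zero-dimensional representation z (d = 0): L z = L z * L z, so L z = 1, and tr ρ = tr ρ' + tr z gives L ρ = L ρ'. For continuous ρ, ρ' there is a continuous ρ'' with
tr ρ'' = tr ρ + tr ρ' (block sum, reindex Fin d ⊕ Fin d' ≃ Fin (d+d')). n_i = a_i - b_i (a_i, b_i ∈ ℕ). Both sides of tr ρ₁ + Σ a_i tr σ_i' + Σ b_i tr σ_i = tr ρ₂ + Σ a_i tr σ_i + Σ b_i tr σ_i' are characters of
continuous representations R₁, R₂ (induct on the number of summands), L R₁ = L ρ₁ ∏ (L σ_i')^a_i (L σ_i)^b_i, L R₂ = L ρ₂ ∏ (L σ_i)^a_i (L σ_i')^b_i, L R₁ = L R₂. Cancel. -/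
theorem inv_main {A : Type*} [CommGroup A] (L : ∀ d : ℕ, (GQ →* Matrix.GeneralLinearGroup (Fin d) ℂ) → A)
    (hmul : IsMult L) (hsig : IsSigInv L)
    (hind : ∀ (M U : Subgroup GQ), M.Normal → M ≤ U → U.FiniteIndex → ∀ (χ : U →* ℂˣ),
      (∀ g (h : g ∈ U), g ∈ M → χ ⟨g, h⟩ = 1) →
      ∃ (d : ℕ) (ρ : GQ →* Matrix.GeneralLinearGroup (Fin d) ℂ), (∀ g ∈ M, ρ g = 1) ∧
        ∀ g, trm ρ g = Ind U (ext U χ) g)
    (hcont : ∀ {d : ℕ} (ρ : GQ →* Matrix.GeneralLinearGroup (Fin d) ℂ) (K : IntermediateField ℚ Qb),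
      FiniteDimensional ℚ K → (∀ g ∈ K.fixingSubgroup, ρ g = 1) → Continuous ρ)
    (hN : ∀ M ∈ NAll, M.Normal ∧ M.FiniteIndex)
    {d : ℕ} (ρ₁ ρ₂ : GQ →* Matrix.GeneralLinearGroup (Fin d) ℂ) (h₁ : Continuous ρ₁) (h₂ : Continuous ρ₂)
    (K' : IntermediateField ℚ Qb) (hK : FiniteDimensional ℚ K') (hn : Normal ℚ K') (P : Subgroup GQ → Prop)
    (hfam : FamQ K' P (fun g => trm ρ₁ g - trm ρ₂ g)) : L d ρ₁ = L d ρ₂ := sorry

end SB
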