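import Pool.Agent.Helper21.SB.St

set_option autoImplicit false

/-!
# SB, module D: relations between sign characters
-/

namespace SB

universe u

variable {Γ : Type u} [Group Γ]

namespace Daux

theorem qc_val {U : Subgroup Γ} (x : U →* ℤˣ) (g : U) :
    ((qc x g : ℂˣ) : ℂ) = (((x g : ℤˣ) : ℤ) : ℂ) := rfl

theorem qc_eq_one {U : Subgroup Γ} (x : U →* ℤˣ) (g : U) : qc x g = 1 ↔ x g = 1 := by
  constructor
  · intro h
    have h1 : ((qc x g : ℂˣ) : ℂ) = 1 := by rw [h, Units.val_one]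
    rw [qc_val] at h1
    apply Units.ext
    rw [Units.val_one]
    exact_mod_cast h1
  · intro h
    apply Units.ext
    rw [qc_val, h]
    simp

theorem one_of_not_neg {a : ℤˣ} (h : a ≠ -1) : a = 1 := by
  rcases Int.units_eq_one_or a with h1 | h1
  · exact h1
  · exact absurd h1 h

/-- the subgroup on which two sign characters agree -/
def agree (U : Subgroup Γ) (x y : U →* ℤˣ) : Subgroup Γ where
  carrier := {g | ∃ h : g ∈ U, x ⟨g, h⟩ = y ⟨g, h⟩}
  one_mem' := ⟨U.one_mem, by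
    have h1 : (⟨1, U.one_mem⟩ : U) = 1 := rfl
    rw [h1, map_one, map_one]⟩
  mul_mem' := by
    rintro a b ⟨ha, ha2⟩ ⟨hb, hb2⟩
    refine ⟨U.mul_mem ha hb, ?_⟩
    have h1 : (⟨a * b, U.mul_mem ha hb⟩ : U) = ⟨a, ha⟩ * ⟨b, hb⟩ := rfl
    rw [h1, map_mul, map_mul, ha2, hb2]
  inv_mem' := by
    rintro a ⟨ha, ha2⟩
    refine ⟨U.inv_mem ha, ?_⟩
    have h1 : (⟨a⁻¹, U.inv_mem ha⟩ : U) = ⟨a, ha⟩⁻¹ := rfl
    rw [h1, map_inv, map_inv, ha2]

theorem mem_agree {U : Subgroup Γ} {x y : U →* ℤˣ} {g : Γ} :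
    g ∈ agree U x y ↔ ∃ h : g ∈ U, x ⟨g, h⟩ = y ⟨g, h⟩ := Iff.rfl

theorem conj_val {U : Subgroup Γ} (x : U →* ℤˣ) {u g : Γ} (hu : u ∈ U) (hg : g ∈ U)
    (h : u * g * u⁻¹ ∈ U) : x ⟨u * g * u⁻¹, h⟩ = x ⟨g, hg⟩ := by
  have h1 : (⟨u * g * u⁻¹, h⟩ : U) = ⟨u, hu⟩ * ⟨g, hg⟩ * ⟨u, hu⟩⁻¹ := rfl
  rw [h1, map_mul, map_mul, map_inv, mul_comm, inv_mul_cancel_left]

theorem conj_val' {U : Subgroup Γ} (x : U →* ℤˣ) {u g : Γ} (hu : u ∈ U) (hg : g ∈ U)
    (h : u⁻¹ * g * u ∈ U) : x ⟨u⁻¹ * g * u, h⟩ = x ⟨g, hg⟩ := by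
  have h1 : (⟨u⁻¹ * g * u, h⟩ : U) = ⟨u, hu⟩⁻¹ * ⟨g, hg⟩ * ⟨u, hu⟩ := rfl
  rw [h1, map_mul, map_mul, map_inv, mul_comm, mul_inv_cancel_left]

theorem step_agree {U : Subgroup Γ} {x y : U →* ℤˣ} {t : Γ} (ht : t ∈ U)
    (hxy : x ⟨t, ht⟩ ≠ y ⟨t, ht⟩) : IsStep 2 (agree U x y) U t where
  le := by
    rintro g ⟨hg, _⟩
    exact hg
  mem := ht
  norm := by
    rintro u hu w ⟨hw, hw2⟩
    have h1 : u * w * u⁻¹ ∈ U := U.mul_mem (U.mul_mem hu hw) (U.inv_mem hu)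
    refine ⟨h1, ?_⟩
    rw [conj_val x hu hw, conj_val y hu hw, hw2]
  cover := by
    intro u hu
    by_cases h : x ⟨u, hu⟩ = y ⟨u, hu⟩
    · refine ⟨0, by norm_num, ?_⟩
      rw [pow_zero, inv_one, one_mul]
      exact ⟨hu, h⟩
    · refine ⟨1, by norm_num, ?_⟩
      rw [pow_one]
      refine ⟨U.mul_mem (U.inv_mem ht) hu, ?_⟩
      have h1 : (⟨t⁻¹ * u, U.mul_mem (U.inv_mem ht) hu⟩ : U) = ⟨t, ht⟩⁻¹ * ⟨u, hu⟩ := rfl
      rw [h1, map_mul, map_mul, map_inv, map_inv]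
      rcases Int.units_eq_one_or (x ⟨t, ht⟩) with a | a <;>
        rcases Int.units_eq_one_or (y ⟨t, ht⟩) with b | b <;>
        rcases Int.units_eq_one_or (x ⟨u, hu⟩) with c | c <;>
        rcases Int.units_eq_one_or (y ⟨u, hu⟩) with d | d <;>
        rw [a, b] at hxy <;> rw [c, d] at h <;> rw [a, b, c, d] <;> simp_all
  inj := by
    intro k hk hk2
    interval_cases k
    · rfl
    · exfalso
      rw [pow_one] at hk2
      obtain ⟨h1, h2⟩ := hk2
      exact hxy h2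

end Daux

open Daux in
theorem addit (D : Sys Γ) {U : Subgroup Γ} (x y : U →* ℤˣ) (hx : OpC D U (qc x))
    (hy : OpC D U (qc y))
    (hdis : ∀ s (h : s ∈ U), s ∈ D.S → ¬ (x ⟨s, h⟩ = -1 ∧ y ⟨s, h⟩ = -1)) :
    Tow 2 ⊥ (BI D) U (ext U 1 + ext U (qc (x * y)) - ext U (qc x) - ext U (qc y)) := by
  by_cases hxy : ∀ u : U, x u = y u
  · have hB : BI D U (ext U 1 - ext U (qc x)) := by
      refine ⟨1, qc x, ?_, hx, ?_, rfl⟩
      · obtain ⟨M, hM, hMU, _⟩ := hx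
        exact ⟨M, hM, hMU, fun g h _ => rfl⟩
      · intro s h hs
        have h1 : x ⟨s, h⟩ = 1 := by
          apply one_of_not_neg
          intro h2
          exact hdis s h hs ⟨h2, by rw [← hxy]; exact h2⟩
        rw [(qc_eq_one x ⟨s, h⟩).2 h1]
        rfl
    have hT : Tow 2 ⊥ (BI D) U (ext U 1 - ext U (qc x) + (ext U 1 - ext U (qc x))) :=
      (Tow.base hB).add (Tow.base hB)
    convert hT using 1
    funext g
    simp only [Pi.add_apply, Pi.sub_apply]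
    by_cases hg : g ∈ U
    · rw [ext_mem _ hg, ext_mem _ hg, ext_mem _ hg, ext_mem _ hg, qc_val, qc_val, qc_val,
        MonoidHom.mul_apply, ← hxy ⟨g, hg⟩]
      rcases Int.units_eq_one_or (x ⟨g, hg⟩) with a | a
      · rw [a]; simp
      · rw [a]; simp; ring
    · rw [ext_not_mem _ hg, ext_not_mem _ hg, ext_not_mem _ hg, ext_not_mem _ hg]
      ring
  · push Not at hxy
    obtain ⟨⟨t, ht⟩, hxy⟩ := hxy
    have hstep := step_agree ht hxy
    set W := agree U x y with hW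
    have hWU : W ≤ U := hstep.le
    let z : W →* ℂˣ := (qc x).comp (Subgroup.inclusion hWU)
    have hz : ∀ g (h : g ∈ W), z ⟨g, h⟩ = qc x ⟨g, hWU h⟩ := fun g h => rfl
    have hB : BI D W (ext W 1 - ext W z) := by
      obtain ⟨M, hM, hMU, hM2⟩ := hx
      obtain ⟨M', hM', hMU', hM2'⟩ := hy
      have hMW : M ⊓ M' ≤ W := by
        intro g hg
        refine ⟨hMU hg.1, ?_⟩
        have h1 := (qc_eq_one x ⟨g, hMU hg.1⟩).1 (hM2 g (hMU hg.1) hg.1)
        have h2 := (qc_eq_one y ⟨g, hMU hg.1⟩).1 (hM2' g (hMU hg.1) hg.2)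
        rw [h1, h2]
      refine ⟨1, z, ⟨M ⊓ M', D.inf M hM M' hM', hMW, fun g h _ => rfl⟩,
        ⟨M ⊓ M', D.inf M hM M' hM', hMW, ?_⟩, ?_, rfl⟩
      · intro g h hg
        rw [hz]
        exact hM2 g (hWU h) hg.1
      · intro s h hs
        rw [hz]
        obtain ⟨h1, h2⟩ := h
        have h3 : x ⟨s, h1⟩ = 1 := by
          apply one_of_not_neg
          intro h4
          exact hdis s h1 hs ⟨h4, by rw [← h2]; exact h4⟩
        rw [(qc_eq_one x ⟨s, h1⟩).2 h3]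
        rfl
    have hT : Tow 2 ⊥ (BI D) U (∑ k ∈ Finset.range 2, cj (t ^ k) (ext W 1 - ext W z)) :=
      Tow.step t hstep bot_le (Tow.base hB)
    convert hT using 1
    funext g
    rw [Finset.sum_range_succ, Finset.sum_range_one]
    simp only [Pi.add_apply, Pi.sub_apply, cj_apply, pow_zero, pow_one, inv_one, one_mul, mul_one]
    by_cases hg : g ∈ U
    · have hgt : t⁻¹ * g * t ∈ U := U.mul_mem (U.mul_mem (U.inv_mem ht) hg) ht
      rw [ext_mem _ hg, ext_mem _ hg, ext_mem _ hg, ext_mem _ hg, qc_val, qc_val, qc_val,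
        MonoidHom.mul_apply]
      by_cases hgW : g ∈ W
      · have hgtW : t⁻¹ * g * t ∈ W := by
          refine ⟨hgt, ?_⟩
          obtain ⟨h1, h2⟩ := hgW
          rw [conj_val' x ht hg, conj_val' y ht hg]
          exact h2
        rw [ext_mem _ hgW, ext_mem _ hgW, ext_mem _ hgtW, ext_mem _ hgtW, hz, hz, qc_val, qc_val,
          conj_val' x ht hg]
        have h2 : x ⟨g, hg⟩ = y ⟨g, hg⟩ := by
          obtain ⟨_, h2⟩ := hgW
          exact h2
        rw [← h2]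
        rcases Int.units_eq_one_or (x ⟨g, hg⟩) with a | a
        · rw [a]; simp
        · rw [a]; simp; ring
      · have hgtW : t⁻¹ * g * t ∉ W := by
          rintro ⟨h1, h2⟩
          apply hgW
          refine ⟨hg, ?_⟩
          rw [conj_val' x ht hg, conj_val' y ht hg] at h2
          exact h2
        rw [ext_not_mem _ hgW, ext_not_mem _ hgW, ext_not_mem _ hgtW, ext_not_mem _ hgtW]
        have h2 : x ⟨g, hg⟩ ≠ y ⟨g, hg⟩ := fun h => hgW ⟨hg, h⟩
        rcases Int.units_eq_one_or (x ⟨g, hg⟩) with a | a <;>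
          rcases Int.units_eq_one_or (y ⟨g, hg⟩) with b | b <;> rw [a, b] at h2 ⊢ <;> simp_all
    · have hgt : t⁻¹ * g * t ∉ U := by
        intro h
        apply hg
        have h1 := U.mul_mem (U.mul_mem ht h) (U.inv_mem ht)
        have h2 : t * (t⁻¹ * g * t) * t⁻¹ = g := by group
        rwa [h2] at h1
      have hgW : g ∉ W := fun h => hg (hWU h)
      have hgtW : t⁻¹ * g * t ∉ W := fun h => hgt (hWU h)
      rw [ext_not_mem _ hg, ext_not_mem _ hg, ext_not_mem _ hg, ext_not_mem _ hg,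
        ext_not_mem _ hgW, ext_not_mem _ hgW, ext_not_mem _ hgtW, ext_not_mem _ hgtW]
      ring

end SB
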