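import Pool.Agent.Helper21.SB.St

/-!
Project SB (MP_b696eb), module E: an integral combination of linear characters which vanishes at `1` and
at the complex conjugations is an integral combination of differences with equal signature.
-/

namespace SB

universe u

variable {Γ : Type u} [Group Γ]

private theorem opc_one_of {D : Sys Γ} {U : Subgroup Γ} {M : Subgroup Γ} (hM : M ∈ D.N) (hMU : M ≤ U) :
    OpC D U 1 := ⟨M, hM, hMU, fun _ _ _ => rfl⟩

private theorem opc_qc_mul {D : Sys Γ} {U : Subgroup Γ} {x y : U →* ℤˣ} (hx : OpC D U (qc x))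
    (hy : OpC D U (qc y)) : OpC D U (qc (x * y)) := by
  obtain ⟨M, hM, hMU, h1⟩ := hx
  obtain ⟨M', hM', -, h2⟩ := hy
  refine ⟨M ⊓ M', D.inf M hM M' hM', inf_le_left.trans hMU, fun g h hg => ?_⟩
  have e : qc (x * y) ⟨g, h⟩ = qc x ⟨g, h⟩ * qc y ⟨g, h⟩ := by
    simp [qc]
  rw [e, h1 g h hg.1, h2 g h hg.2, one_mul]

private theorem qc_eq_iff {U : Subgroup Γ} (x : U →* ℤˣ) (u : U) :
    qc x u = if x u = -1 then -1 else 1 := by
  rcases Int.units_eq_one_or (x u) with h | h
  · rw [if_neg (by rw [h]; decide)]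
    simp [qc, h]
  · rw [if_pos h]
    apply Units.ext
    simp [qc, h]

private theorem sq_pm {a : ℂˣ} (h : a * a = 1) : a = 1 ∨ a = -1 := by
  have h1 : ((a : ℂ) - 1) * ((a : ℂ) + 1) = 0 := by
    have h2 : (a : ℂ) * (a : ℂ) = 1 := by
      rw [← Units.val_mul, h, Units.val_one]
    linear_combination h2
  rcases mul_eq_zero.1 h1 with h2 | h2
  · left
    apply Units.ext
    rw [Units.val_one]
    linear_combination h2
  · right
    apply Units.ext
    rw [Units.val_neg, Units.val_one]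
    linear_combination h2

private theorem one_ne_neg_one_units : (1 : ℂˣ) ≠ -1 := by
  intro h
  have h1 := congrArg (fun a : ℂˣ => (a : ℂ)) h
  simp only [Units.val_one, Units.val_neg] at h1
  norm_num at h1

private theorem exists_quot {D : Sys Γ} {U : Subgroup Γ} :
    ∃ (Q : Type u) (_ : AddCommGroup Q) (π : (Γ → ℂ) →+ Q), ∀ f, π f = 0 ↔ Tow 2 ⊥ (BI D) U f :=
  ⟨(Γ → ℂ) ⧸ towGrp 2 ⊥ (BI D) U, inferInstance, QuotientAddGroup.mk' (towGrp 2 ⊥ (BI D) U),
    fun f => QuotientAddGroup.eq_zero_iff f⟩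

/-- SB-E. -/
theorem lin_zero (D : Sys Γ) (hadd : StAddit D) {U : Subgroup Γ} {φ : Γ → ℂ} (h : Lin D U φ)
    (h1 : φ 1 = 0) (hS : ∀ s ∈ D.S, s ∈ U → φ s = 0) : Tow 2 ⊥ (BI D) U φ := by
  classical
  obtain ⟨m, n, χ, hχ, rfl⟩ := h
  rcases Nat.eq_zero_or_pos m with hm0 | hm0
  · subst hm0
    simpa using Tow.zero U
  -- a common open subgroup
  obtain ⟨M₀, hM₀, hM₀U, -⟩ := hχ ⟨0, hm0⟩
  have hcommon : ∀ s : Finset (Fin m), ∃ M ∈ D.N, M ≤ U ∧
      ∀ i ∈ s, ∀ g (h : g ∈ U), g ∈ M → χ i ⟨g, h⟩ = 1 := by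
    intro s
    induction s using Finset.induction_on with
    | empty => exact ⟨M₀, hM₀, hM₀U, by simp⟩
    | insert a s ha ih =>
      obtain ⟨M, hM, hMU, hs⟩ := ih
      obtain ⟨M', hM', -, hs'⟩ := hχ a
      refine ⟨M ⊓ M', D.inf M hM M' hM', inf_le_left.trans hMU, fun i hi g hg hgM => ?_⟩
      rcases Finset.mem_insert.1 hi with rfl | hi
      · exact hs' g hg hgM.2
      · exact hs i hi g hg hgM.1
  obtain ⟨M, hM, hMU, hMχ⟩ := hcommon Finset.univ
  -- the sets of complex conjugations with a given sign pattern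
  let κ : Finset (Fin m) → Set Γ := fun P =>
    {s | s ∈ D.S ∧ ∃ h : s ∈ U, ∀ i, (χ i ⟨s, h⟩ = -1 ↔ i ∈ P)}
  have hx : ∀ P : Finset (Fin m), ∃ x : U →* ℤˣ, OpC D U (qc x) ∧
      ∀ s (h : s ∈ U), s ∈ D.S → (x ⟨s, h⟩ = -1 ↔ s ∈ κ P) := by
    intro P
    obtain ⟨M', hM', hM'M, x, hx1, hx2⟩ := D.nt M hM U hMU (κ P) (fun s hs => hs.1)
      (fun s hs => hs.2.1) (by
        rintro s ⟨hs, hsU, hsP⟩ u hu
        refine ⟨D.conj s hs u, U.mul_mem (U.mul_mem hu hsU) (U.inv_mem hu), fun i => ?_⟩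
        have e : χ i ⟨u * s * u⁻¹, U.mul_mem (U.mul_mem hu hsU) (U.inv_mem hu)⟩ = χ i ⟨s, hsU⟩ := by
          have : (⟨u * s * u⁻¹, U.mul_mem (U.mul_mem hu hsU) (U.inv_mem hu)⟩ : U) =
              ⟨u, hu⟩ * ⟨s, hsU⟩ * (⟨u, hu⟩ : U)⁻¹ := rfl
          rw [this, map_mul, map_mul, map_inv, mul_comm (χ i ⟨u, hu⟩), mul_inv_cancel_right]
        rw [e]
        exact hsP i) (by
        rintro s ⟨hs, hsU, hsP⟩ s' hs' hss'
        have hs'U : s' ∈ U := by
          have := U.mul_mem hsU (hMU hss')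
          rwa [mul_inv_cancel_left] at this
        refine ⟨hs', hs'U, fun i => ?_⟩
        have e : χ i ⟨s', hs'U⟩ = χ i ⟨s, hsU⟩ := by
          have : (⟨s', hs'U⟩ : U) = ⟨s, hsU⟩ * ⟨s⁻¹ * s', hMU hss'⟩ := by
            apply Subtype.ext
            simp
          rw [this, map_mul, hMχ i (Finset.mem_univ i) _ (hMU hss') hss', mul_one]
        rw [e]
        exact hsP i)
    refine ⟨x, ⟨M', hM', hM'M.trans hMU, fun g hg hgM => ?_⟩, hx2⟩
    rw [qc_eq_iff, hx1 g hg hgM, if_neg (by decide)]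
  choose x hxo hxs using hx
  -- values on complex conjugations
  have hpm : ∀ (i : Fin m) (s : Γ) (h : s ∈ U), s ∈ D.S → χ i ⟨s, h⟩ = 1 ∨ χ i ⟨s, h⟩ = -1 := by
    intro i s hs hsS
    apply sq_pm
    rw [← map_mul]
    have : (⟨s, hs⟩ * ⟨s, hs⟩ : U) = 1 := Subtype.ext (D.sq s hsS)
    rw [this, map_one]
  let Ps : U → Finset (Fin m) := fun u => Finset.univ.filter fun i => χ i u = -1
  have hPs : ∀ (s : Γ) (h : s ∈ U), s ∈ D.S → ∀ P, s ∈ κ P ↔ P = Ps ⟨s, h⟩ := by
    intro s hs hsS P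
    constructor
    · rintro ⟨-, hsU, hsP⟩
      ext i
      simp only [Ps, Finset.mem_filter, Finset.mem_univ, true_and]
      exact (hsP i).symm
    · rintro rfl
      refine ⟨hsS, hs, fun i => ?_⟩
      simp only [Ps, Finset.mem_filter, Finset.mem_univ, true_and]
  have hxv : ∀ (P : Finset (Fin m)) (s : Γ) (h : s ∈ U), s ∈ D.S →
      x P ⟨s, h⟩ = if P = Ps ⟨s, h⟩ then -1 else 1 := by
    intro P s hs hsS
    have h1 := hxs P s hs hsS
    rw [hPs s hs hsS P] at h1
    by_cases hc : P = Ps ⟨s, hs⟩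
    · rw [if_pos hc]
      exact h1.2 hc
    · rw [if_neg hc]
      rcases Int.units_eq_one_or (x P ⟨s, hs⟩) with h2 | h2
      · exact h2
      · exact absurd (h1.1 h2) hc
  have hprodo : ∀ TT : Finset (Finset (Fin m)), OpC D U (qc (∏ P ∈ TT, x P)) := by
    intro TT
    induction TT using Finset.induction_on with
    | empty =>
      refine ⟨M, hM, hMU, fun g hg _ => ?_⟩
      rw [qc_eq_iff, Finset.prod_empty, MonoidHom.one_apply, if_neg (by decide)]
    | insert P TT hP ih =>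
      rw [Finset.prod_insert hP]
      exact opc_qc_mul (hxo P) ih
  have hprodv : ∀ (TT : Finset (Finset (Fin m))) (s : Γ) (h : s ∈ U), s ∈ D.S →
      (∏ P ∈ TT, x P) ⟨s, h⟩ = if Ps ⟨s, h⟩ ∈ TT then -1 else 1 := by
    intro TT s hs hsS
    induction TT using Finset.induction_on with
    | empty => simp
    | insert P TT hP ih =>
      rw [Finset.prod_insert hP, MonoidHom.mul_apply, ih, hxv P s hs hsS]
      by_cases hc : P = Ps ⟨s, hs⟩
      · rw [if_pos hc, if_neg (by rw [← hc]; exact hP), if_pos (by rw [← hc]; exact Finset.mem_insert_self _ _)]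
        rfl
      · rw [if_neg hc, one_mul]
        have : Ps ⟨s, hs⟩ ∈ insert P TT ↔ Ps ⟨s, hs⟩ ∈ TT := by
          rw [Finset.mem_insert]
          constructor
          · rintro (h | h)
            · exact absurd h.symm hc
            · exact h
          · exact Or.inr
        by_cases hc2 : Ps ⟨s, hs⟩ ∈ TT
        · rw [if_pos hc2, if_pos (this.2 hc2)]
        · rw [if_neg hc2, if_neg (fun h => hc2 (this.1 h))]
  -- the quotient
  obtain ⟨Q, instQ, π, hπ⟩ := exists_quot (D := D) (U := U)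
  let μ : Finset (Fin m) → Q := fun P => π (ext U 1 - ext U (qc (x P)))
  have hμ : ∀ TT : Finset (Finset (Fin m)),
      π (ext U 1 - ext U (qc (∏ P ∈ TT, x P))) = ∑ P ∈ TT, μ P := by
    intro TT
    induction TT using Finset.induction_on with
    | empty =>
      have e : (qc (1 : U →* ℤˣ)) = (1 : U →* ℂˣ) := by
        ext u
        rw [qc_eq_iff, MonoidHom.one_apply, if_neg (by decide)]
        rfl
      rw [Finset.prod_empty, Finset.sum_empty, e, sub_self, map_zero]
    | insert P TT hP ih =>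
      have h2 := hadd (x P) (∏ P ∈ TT, x P) (hxo P) (hprodo TT) (by
        rintro s hs hsS ⟨h3, h4⟩
        rw [hxv P s hs hsS] at h3
        rw [hprodv TT s hs hsS] at h4
        have h5 : P = Ps ⟨s, hs⟩ := by
          by_contra hc
          rw [if_neg hc] at h3
          exact absurd h3 (by decide)
        have h6 : Ps ⟨s, hs⟩ ∈ TT := by
          by_contra hc
          rw [if_neg hc] at h4
          exact absurd h4 (by decide)
        rw [← h5] at h6
        exact hP h6)
      rw [← hπ] at h2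
      rw [Finset.prod_insert hP, Finset.sum_insert hP, ← ih]
      have e : ext U 1 - ext U (qc (x P * ∏ P ∈ TT, x P)) =
          ((ext U 1 - ext U (qc (x P))) + (ext U 1 - ext U (qc (∏ P ∈ TT, x P)))) -
            (ext U 1 + ext U (qc (x P * ∏ P ∈ TT, x P)) - ext U (qc (x P)) -
              ext U (qc (∏ P ∈ TT, x P))) := by abel
      rw [e, map_sub, h2, sub_zero, map_add]
  -- the class of a character
  have hcl : ∀ i : Fin m, π (ext U (χ i)) =
      π (ext U 1) - ∑ P ∈ Finset.univ.filter (fun P : Finset (Fin m) => i ∈ P), μ P := by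
    intro i
    set TT := Finset.univ.filter (fun P : Finset (Fin m) => i ∈ P) with hTT
    have h2 : Tow 2 ⊥ (BI D) U (ext U (χ i) - ext U (qc (∏ P ∈ TT, x P))) := by
      refine Tow.base ⟨χ i, qc (∏ P ∈ TT, x P), hχ i, hprodo TT, ?_, rfl⟩
      intro s hs hsS
      rw [qc_eq_iff, hprodv TT s hs hsS]
      have hmem : Ps ⟨s, hs⟩ ∈ TT ↔ χ i ⟨s, hs⟩ = -1 := by
        simp only [hTT, Ps, Finset.mem_filter, Finset.mem_univ, true_and]
      by_cases hc : χ i ⟨s, hs⟩ = -1
      · rw [if_pos (hmem.2 hc), if_pos rfl, hc]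
      · rw [if_neg (fun h => hc (hmem.1 h)), if_neg (by decide)]
        exact (hpm i s hs hsS).resolve_right hc
    rw [← hπ, map_sub] at h2
    have h3 := hμ TT
    rw [map_sub] at h3
    rw [← h3, sub_sub_cancel]
    exact sub_eq_zero.1 h2
  -- evaluation
  have hval : ∀ (g : Γ) (hg : g ∈ U), (∑ i, n i • ext U (χ i)) g =
      ∑ i, (n i : ℂ) * ((χ i ⟨g, hg⟩ : ℂˣ) : ℂ) := by
    intro g hg
    rw [Finset.sum_apply]
    refine Finset.sum_congr rfl fun i _ => ?_
    rw [Pi.smul_apply, ext_mem (χ i) hg, zsmul_eq_mul]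
  have hsum0 : ∑ i, n i = 0 := by
    have h2 := hval 1 U.one_mem
    rw [h1] at h2
    have h3 : ∀ i, χ i ⟨1, U.one_mem⟩ = 1 := fun i => map_one (χ i)
    simp only [h3, Units.val_one, mul_one] at h2
    exact_mod_cast h2.symm
  have hmu0 : ∀ P : Finset (Fin m), (∑ i, if i ∈ P then n i else 0) • μ P = 0 := by
    intro P
    by_cases hne : (κ P).Nonempty
    · obtain ⟨s, hsS, hsU, hsP⟩ := hne
      have h2 := hval s hsU
      rw [hS s hsS hsU] at h2
      have h3 : ∀ i, (n i : ℂ) * ((χ i ⟨s, hsU⟩ : ℂˣ) : ℂ) =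
          ((n i - 2 * (if i ∈ P then n i else 0) : ℤ) : ℂ) := by
        intro i
        by_cases hi : i ∈ P
        · rw [if_pos hi, (hsP i).2 hi]
          push_cast
          ring
        · have h4 : χ i ⟨s, hsU⟩ = 1 :=
            (hpm i s hsU hsS).resolve_right fun h => hi ((hsP i).1 h)
          rw [if_neg hi, h4]
          push_cast
          ring
      rw [Finset.sum_congr rfl fun i _ => h3 i, ← Int.cast_sum] at h2
      have h5 : ∑ i, (n i - 2 * (if i ∈ P then n i else 0)) = 0 := by exact_mod_cast h2.symm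
      rw [Finset.sum_sub_distrib, hsum0, ← Finset.mul_sum] at h5
      have h6 : ∑ i, (if i ∈ P then n i else 0) = 0 := by omega
      rw [h6, zero_smul]
    · have hμ0 : μ P = 0 := by
        change π _ = 0
        rw [hπ]
        refine Tow.base ⟨1, qc (x P), opc_one_of hM hMU, hxo P, ?_, rfl⟩
        intro s hs hsS
        have h2 : x P ⟨s, hs⟩ ≠ -1 := fun h => hne ⟨s, (hxs P s hs hsS).1 h⟩
        rw [qc_eq_iff, if_neg h2]
        rfl
      rw [hμ0, smul_zero]
  rw [← hπ, map_sum]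
  have e1 : ∀ i, π (n i • ext U (χ i)) =
      n i • π (ext U 1) - ∑ P : Finset (Fin m), (if i ∈ P then n i else 0) • μ P := by
    intro i
    rw [map_zsmul, hcl i, smul_sub, Finset.smul_sum, Finset.sum_filter]
    congr 1
    refine Finset.sum_congr rfl fun P _ => ?_
    by_cases hi : i ∈ P
    · rw [if_pos hi, if_pos hi]
    · rw [if_neg hi, if_neg hi, zero_smul]
  rw [Finset.sum_congr rfl fun i _ => e1 i, Finset.sum_sub_distrib, ← Finset.sum_smul, hsum0,
    zero_smul, zero_sub, Finset.sum_comm, neg_eq_zero]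
  refine Finset.sum_eq_zero fun P _ => ?_
  rw [← Finset.sum_smul]
  exact hmu0 P

end SB
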