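import Pool.Agent.Helper21.SB.St

/-!
# SB, module F: induction of a linear character along a step of index two
-/

namespace SB

universe u

variable {Γ : Type u} [Group Γ]

theorem lin_add_F {D : Sys Γ} {U : Subgroup Γ} {φ ψ : Γ → ℂ} (h : Lin D U φ) (h' : Lin D U ψ) :
    Lin D U (φ + ψ) := by
  obtain ⟨m, n, χ, h1, h2⟩ := h
  obtain ⟨m', n', χ', h1', h2'⟩ := h'
  refine ⟨m + m', Fin.append n n', Fin.append χ χ', ?_, ?_⟩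
  · intro i
    refine Fin.addCases (fun j => ?_) (fun j => ?_) i
    · rw [Fin.append_left]; exact h1 j
    · rw [Fin.append_right]; exact h1' j
  · rw [Fin.sum_univ_add, h2, h2']
    simp only [Fin.append_left, Fin.append_right]

theorem lin_neg_F {D : Sys Γ} {U : Subgroup Γ} {φ : Γ → ℂ} (h : Lin D U φ) : Lin D U (-φ) := by
  obtain ⟨m, n, χ, h1, h2⟩ := h
  refine ⟨m, fun i => -n i, χ, h1, ?_⟩
  rw [h2, ← Finset.sum_neg_distrib]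
  exact Finset.sum_congr rfl fun i _ => (neg_smul _ _).symm

theorem qc_apply_F {U : Subgroup Γ} (x : U →* ℤˣ) (g : U) :
    ((qc x g : ℂˣ) : ℂ) = (((x g : ℤˣ) : ℤ) : ℂ) := rfl

theorem qc_eq_one_F {U : Subgroup Γ} (x : U →* ℤˣ) (g : U) (h : x g = 1) : qc x g = 1 := by
  apply Units.ext
  rw [qc_apply_F, h]
  simp

theorem qc_eq_neg_one_F {U : Subgroup Γ} (x : U →* ℤˣ) (g : U) (h : x g = -1) : qc x g = -1 := by
  apply Units.ext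
  rw [qc_apply_F, h]
  simp

theorem opc_qc_F {D : Sys Γ} {U : Subgroup Γ} (x : U →* ℤˣ) {M : Subgroup Γ} (hM : M ∈ D.N) (hMU : M ≤ U)
    (h : ∀ g (hg : g ∈ U), g ∈ M → x ⟨g, hg⟩ = 1) : OpC D U (qc x) :=
  ⟨M, hM, hMU, fun g hg hgM => qc_eq_one_F x _ (h g hg hgM)⟩

theorem step2 (D : Sys Γ) (hadd : StAddit D) (hst : StStable D) (hdi : StDisj D)
    {H U : Subgroup Γ} {t : Γ} (h : IsStep 2 H U t) (χ : H →* ℂˣ) (hχ : OpC D H χ) :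
    ∃ ψ, Lin D U ψ ∧ Tow 2 ⊥ (BI D) U ((∑ k ∈ Finset.range 2, cj (t ^ k) (ext H χ)) - ψ) := by
  obtain ⟨M, hM, hMH, hχM⟩ := hχ
  have hMn := D.normal M hM
  have ht2 : t * t ∈ H := by
    have := h.pow_mem
    rwa [pow_two] at this
  -- the value of `χ` on involutions
  have hval : ∀ s (hs : s ∈ H), s ∈ D.S → χ ⟨s, hs⟩ = 1 ∨ χ ⟨s, hs⟩ = -1 := by
    intro s hs hsS
    have h1 : χ ⟨s, hs⟩ * χ ⟨s, hs⟩ = 1 := by
      rw [← map_mul]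
      have : (⟨s, hs⟩ : H) * ⟨s, hs⟩ = 1 := Subtype.ext (D.sq s hsS)
      rw [this, map_one]
    rw [← pow_two] at h1
    have h2 : ((χ ⟨s, hs⟩ : ℂˣ) : ℂ) ^ 2 = 1 := by
      rw [← Units.val_pow_eq_pow_val, h1, Units.val_one]
    have h3 : (((χ ⟨s, hs⟩ : ℂˣ) : ℂ) - 1) * (((χ ⟨s, hs⟩ : ℂˣ) : ℂ) + 1) = 0 := by
      linear_combination h2
    rcases mul_eq_zero.mp h3 with h4 | h4
    · left; exact Units.ext (by rw [Units.val_one]; exact sub_eq_zero.mp h4)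
    · right; exact Units.ext (by rw [Units.val_neg, Units.val_one]; exact eq_neg_of_add_eq_zero_left h4)
  set κ : Set Γ := {s | s ∈ D.S ∧ ∃ hs : s ∈ H, χ ⟨s, hs⟩ = -1} with hκ
  have hκH : ∀ s ∈ κ, ∀ u ∈ H, u * s * u⁻¹ ∈ κ := by
    rintro s ⟨hsS, hsH, hs⟩ u hu
    refine ⟨D.conj s hsS u, H.mul_mem (H.mul_mem hu hsH) (H.inv_mem hu), ?_⟩
    have : (⟨u * s * u⁻¹, H.mul_mem (H.mul_mem hu hsH) (H.inv_mem hu)⟩ : H) =
        ⟨u, hu⟩ * ⟨s, hsH⟩ * (⟨u, hu⟩ : H)⁻¹ := rfl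
    rw [this, map_mul, map_mul, map_inv, hs, mul_comm, ← mul_assoc, inv_mul_cancel, one_mul]
  have hκM : ∀ s ∈ κ, ∀ s' ∈ D.S, s⁻¹ * s' ∈ M → s' ∈ κ := by
    rintro s ⟨hsS, hsH, hs⟩ s' hs' hm
    have hs'H : s' ∈ H := by
      have := H.mul_mem hsH (hMH hm)
      rwa [mul_inv_cancel_left] at this
    refine ⟨hs', hs'H, ?_⟩
    have : (⟨s', hs'H⟩ : H) = ⟨s, hsH⟩ * ⟨s⁻¹ * s', hMH hm⟩ := Subtype.ext (by simp)
    rw [this, map_mul, hs, hχM _ _ hm, mul_one]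
  have hinvH : ∀ u ∈ H, t⁻¹ * u * t ∈ H := by
    intro u hu
    have := h.norm t⁻¹ (U.inv_mem h.mem) u hu
    rwa [inv_inv] at this
  set κ₁ : Set Γ := {s | s ∈ κ ∧ t⁻¹ * s * t ∈ κ} with hκ₁
  have hκ₁H : ∀ s ∈ κ₁, ∀ u ∈ H, u * s * u⁻¹ ∈ κ₁ := by
    rintro s ⟨h1, h2⟩ u hu
    refine ⟨hκH s h1 u hu, ?_⟩
    have := hκH _ h2 _ (hinvH u hu)
    have e : t⁻¹ * (u * s * u⁻¹) * t = t⁻¹ * u * t * (t⁻¹ * s * t) * (t⁻¹ * u * t)⁻¹ := by group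
    rwa [e]
  have hκ₁M : ∀ s ∈ κ₁, ∀ s' ∈ D.S, s⁻¹ * s' ∈ M → s' ∈ κ₁ := by
    rintro s ⟨h1, h2⟩ s' hs' hm
    refine ⟨hκM s h1 s' hs' hm, ?_⟩
    refine hκM _ h2 _ ?_ ?_
    · have := D.conj s' hs' t⁻¹
      rwa [inv_inv] at this
    · have := hMn.conj_mem _ hm t⁻¹
      have e : (t⁻¹ * s * t)⁻¹ * (t⁻¹ * s' * t) = t⁻¹ * (s⁻¹ * s') * t⁻¹⁻¹ := by group
      rwa [e]
  set κ₂ : Set Γ := {s | s ∈ κ ∧ s ∉ κ₁} with hκ₂
  have hκ₂H : ∀ s ∈ κ₂, ∀ u ∈ H, u * s * u⁻¹ ∈ κ₂ := by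
    rintro s ⟨h1, h2⟩ u hu
    refine ⟨hκH s h1 u hu, fun h3 => h2 ?_⟩
    have := hκ₁H _ h3 _ (H.inv_mem hu)
    have e : u⁻¹ * (u * s * u⁻¹) * u⁻¹⁻¹ = s := by group
    rwa [e] at this
  have hκ₂M : ∀ s ∈ κ₂, ∀ s' ∈ D.S, s⁻¹ * s' ∈ M → s' ∈ κ₂ := by
    rintro s ⟨h1, h2⟩ s' hs' hm
    refine ⟨hκM s h1 s' hs' hm, fun h3 => h2 ?_⟩
    refine hκ₁M _ h3 s h1.1 ?_
    have := M.inv_mem hm
    rwa [mul_inv_rev, inv_inv] at this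
  obtain ⟨M₁, hM₁, hM₁M, x₁, hx₁M, hx₁⟩ := D.nt M hM H hMH κ₁ (fun s hs => hs.1.1)
    (fun s hs => hs.1.2.1) hκ₁H hκ₁M
  obtain ⟨M₂, hM₂, hM₂M, x₂, hx₂M, hx₂⟩ := D.nt M hM H hMH κ₂ (fun s hs => hs.1.1)
    (fun s hs => hs.1.2.1) hκ₂H hκ₂M
  have ho₁ : OpC D H (qc x₁) := opc_qc_F x₁ hM₁ (hM₁M.trans hMH) hx₁M
  have ho₂ : OpC D H (qc x₂) := opc_qc_F x₂ hM₂ (hM₂M.trans hMH) hx₂M
  have ho₁₂ : OpC D H (qc (x₁ * x₂)) := by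
    refine opc_qc_F (x₁ * x₂) (D.inf M₁ hM₁ M₂ hM₂) (inf_le_left.trans (hM₁M.trans hMH)) ?_
    intro g hg hgM
    rw [MonoidHom.mul_apply, hx₁M g hg hgM.1, hx₂M g hg hgM.2, mul_one]
  have ho : OpC D H χ := ⟨M, hM, hMH, hχM⟩
  have ho1 : OpC D H 1 := ⟨M, hM, hMH, fun _ _ _ => rfl⟩
  have hsig : Sig D H χ (qc (x₁ * x₂)) := by
    intro s hs hsS
    by_cases h1 : s ∈ κ
    · obtain ⟨_, _, hc⟩ := h1
      rw [hc]
      refine (qc_eq_neg_one_F _ _ ?_).symm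
      rw [MonoidHom.mul_apply]
      by_cases h3 : s ∈ κ₁
      · have h4 : x₂ ⟨s, hs⟩ = 1 := by
          rcases Int.units_eq_one_or (x₂ ⟨s, hs⟩) with h5 | h5
          · exact h5
          · exact absurd h3 ((hx₂ s hs hsS).mp h5).2
        rw [(hx₁ s hs hsS).mpr h3, h4, mul_one]
      · have h4 : x₁ ⟨s, hs⟩ = 1 := by
          rcases Int.units_eq_one_or (x₁ ⟨s, hs⟩) with h5 | h5
          · exact h5
          · exact absurd ((hx₁ s hs hsS).mp h5) h3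
        rw [(hx₂ s hs hsS).mpr ⟨⟨hsS, hs, hc⟩, h3⟩, h4, one_mul]
    · have hc : χ ⟨s, hs⟩ = 1 := by
        rcases hval s hs hsS with h5 | h5
        · exact h5
        · exact absurd ⟨hsS, hs, h5⟩ h1
      rw [hc]
      refine (qc_eq_one_F _ _ ?_).symm
      rw [MonoidHom.mul_apply]
      have h4 : x₁ ⟨s, hs⟩ = 1 := by
        rcases Int.units_eq_one_or (x₁ ⟨s, hs⟩) with h5 | h5
        · exact h5
        · exact absurd ((hx₁ s hs hsS).mp h5).1 h1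
      have h4' : x₂ ⟨s, hs⟩ = 1 := by
        rcases Int.units_eq_one_or (x₂ ⟨s, hs⟩) with h5 | h5
        · exact h5
        · exact absurd ((hx₂ s hs hsS).mp h5).1 h1
      rw [h4, h4', mul_one]
  have hb : Tow 2 ⊥ (BI D) H (ext H χ - ext H (qc (x₁ * x₂))) :=
    Tow.base ⟨χ, qc (x₁ * x₂), ho, ho₁₂, hsig, rfl⟩
  have ha := hadd x₁ x₂ ho₁ ho₂ (by
    rintro s hs hsS ⟨h1, h2⟩
    exact ((hx₂ s hs hsS).mp h2).2 ((hx₁ s hs hsS).mp h1))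
  have hT := Tow.step t h bot_le (hb.add ha)
  -- stable part
  have hmem : ∀ s, s ∈ D.S → (s ∈ κ₁ ↔ t⁻¹ * s * t ∈ κ₁) := by
    intro s _
    have e : t⁻¹ * (t⁻¹ * s * t) * t = (t * t)⁻¹ * s * (t * t)⁻¹⁻¹ := by
      rw [inv_inv, mul_inv_rev]; simp only [mul_assoc]
    constructor
    · rintro ⟨h1, h2⟩
      refine ⟨h2, ?_⟩
      rw [e]
      exact hκH s h1 _ (H.inv_mem ht2)
    · rintro ⟨h1, h2⟩
      refine ⟨?_, h1⟩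
      rw [e] at h2
      have := hκH _ h2 _ ht2
      have e2 : t * t * ((t * t)⁻¹ * s * (t * t)⁻¹⁻¹) * (t * t)⁻¹ = s := by group
      rwa [e2] at this
  obtain ⟨ψ₁, hL₁, hT₁⟩ := hst h (qc x₁) ho₁ (by
    intro s h1 h2 hsS
    have hsS' : t⁻¹ * s * t ∈ D.S := by
      have := D.conj s hsS t⁻¹
      rwa [inv_inv] at this
    have e : x₁ ⟨s, h1⟩ = x₁ ⟨t⁻¹ * s * t, h2⟩ := by
      have e1 := hx₁ s h1 hsS
      have e2 := hx₁ _ h2 hsS'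
      have e3 := hmem s hsS
      rcases Int.units_eq_one_or (x₁ ⟨s, h1⟩) with h5 | h5
      · rcases Int.units_eq_one_or (x₁ ⟨t⁻¹ * s * t, h2⟩) with h6 | h6
        · rw [h5, h6]
        · rw [h6]
          exact e1.mpr (e3.mpr (e2.mp h6))
      · rw [h5]
        exact (e2.mpr (e3.mp (e1.mp h5))).symm
    apply Units.ext
    rw [qc_apply_F, qc_apply_F, e])
  obtain ⟨ψ₀, hL₀, hT₀⟩ := hst h 1 ho1 (fun _ _ _ _ => rfl)
  obtain ⟨ψ₂, hL₂, hT₂⟩ := hdi h x₂ ho₂ (by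
    rintro s h1 h2 hsS ⟨h3, h4⟩
    have hsS' : t⁻¹ * s * t ∈ D.S := by
      have := D.conj s hsS t⁻¹
      rwa [inv_inv] at this
    have h5 := (hx₂ s h1 hsS).mp h3
    have h6 := (hx₂ _ h2 hsS').mp h4
    exact h5.2 ⟨h5.1, h6.1⟩)
  refine ⟨ψ₁ + ψ₂ + -ψ₀, lin_add_F (lin_add_F hL₁ hL₂) (lin_neg_F hL₀), ?_⟩
  have hfin := ((hT.add hT₁).add hT₂).sub hT₀
  have key : (∑ k ∈ Finset.range 2, cj (t ^ k) (ext H χ)) - (ψ₁ + ψ₂ + -ψ₀) =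
      (∑ k ∈ Finset.range 2, cj (t ^ k) (ext H χ - ext H (qc (x₁ * x₂)) +
        (ext H 1 + ext H (qc (x₁ * x₂)) - ext H (qc x₁) - ext H (qc x₂)))) +
      ((∑ k ∈ Finset.range 2, cj (t ^ k) (ext H (qc x₁))) - ψ₁) +
      ((∑ k ∈ Finset.range 2, cj (t ^ k) (ext H (qc x₂))) - ψ₂) -
      ((∑ k ∈ Finset.range 2, cj (t ^ k) (ext H 1)) - ψ₀) := by
    funext g
    simp only [Finset.sum_range_succ, Finset.sum_range_zero, Pi.add_apply, Pi.sub_apply, Pi.neg_apply,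
      cj_apply, Pi.zero_apply]
    ring
  rw [key]
  exact hfin

end SB
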