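import Pool.Agent.Helper21.SB.St

namespace SB

variable {Γ : Type*} [Group Γ]

theorem f1_mul_mem_iff {H U : Subgroup Γ} {t : Γ} (h : IsStep 2 H U t) {u v : Γ} (hu : u ∈ U) (hv : v ∈ U) :
    u * v ∈ H ↔ (u ∈ H ↔ v ∈ H) := by
  have key : ∀ z ∈ U, z ∉ H → t⁻¹ * z ∈ H := by
    intro z hz hzH
    obtain ⟨k, hk, hk2⟩ := h.cover z hz
    have hk3 : k = 0 ∨ k = 1 := by omega
    rcases hk3 with rfl | rfl
    · rw [pow_zero, inv_one, one_mul] at hk2
      exact absurd hk2 hzH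
    · rw [pow_one] at hk2
      exact hk2
  by_cases hu1 : u ∈ H
  · by_cases hv1 : v ∈ H
    · simp [hu1, hv1, H.mul_mem hu1 hv1]
    · have h1 : u * v ∉ H := by
        intro h2
        apply hv1
        have h3 := H.mul_mem (H.inv_mem hu1) h2
        rwa [inv_mul_cancel_left] at h3
      simp [hu1, hv1, h1]
  · by_cases hv1 : v ∈ H
    · have h1 : u * v ∉ H := by
        intro h2
        apply hu1
        have h3 := H.mul_mem h2 (H.inv_mem hv1)
        rwa [mul_inv_cancel_right] at h3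
      simp [hu1, hv1, h1]
    · have h1 : u * v ∈ H := by
        have hu2 := key u hu hu1
        have hv2 := key v hv hv1
        have hn := h.norm t⁻¹ (U.inv_mem h.mem) _ hu2
        have h3 := H.mul_mem (H.mul_mem h.pow_mem hn) hv2
        have h4 : t ^ 2 * (t⁻¹ * (t⁻¹ * u) * t⁻¹⁻¹) * (t⁻¹ * v) = u * v := by
          rw [pow_two]
          group
        rwa [h4] at h3
      simp [hu1, hv1, h1]

open Classical in
/-- The sign character of `U` with kernel `H`. -/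
noncomputable def f1_eta {H U : Subgroup Γ} {t : Γ} (h : IsStep 2 H U t) : U →* ℤˣ where
  toFun u := if (u : Γ) ∈ H then 1 else -1
  map_one' := by simp [H.one_mem]
  map_mul' := by
    intro u v
    have h1 := f1_mul_mem_iff h u.2 v.2
    rw [Subgroup.coe_mul]
    by_cases hu1 : (u : Γ) ∈ H
    · by_cases hv1 : (v : Γ) ∈ H
      · have h2 : (u : Γ) * v ∈ H := h1.mpr (by simp [hu1, hv1])
        simp [hu1, hv1, h2]
      · have h2 : (u : Γ) * v ∉ H := fun h3 => by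
          have := h1.mp h3
          simp [hu1, hv1] at this
        simp [hu1, hv1, h2]
    · by_cases hv1 : (v : Γ) ∈ H
      · have h2 : (u : Γ) * v ∉ H := fun h3 => by
          have := h1.mp h3
          simp [hu1, hv1] at this
        simp [hu1, hv1, h2]
      · have h2 : (u : Γ) * v ∈ H := h1.mpr (by simp [hu1, hv1])
        simp [hu1, hv1, h2]

theorem f1_eta_mem {H U : Subgroup Γ} {t : Γ} (h : IsStep 2 H U t) (u : U) (hu : (u : Γ) ∈ H) :
    f1_eta h u = 1 := by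
  classical
  exact if_pos hu

theorem f1_eta_not_mem {H U : Subgroup Γ} {t : Γ} (h : IsStep 2 H U t) (u : U) (hu : (u : Γ) ∉ H) :
    f1_eta h u = -1 := by
  classical
  exact if_neg hu

theorem f1_qc_apply {U : Subgroup Γ} (x : U →* ℤˣ) (u : U) : ((qc x u : ℂˣ) : ℂ) = (((x u : ℤˣ) : ℤ) : ℂ) := rfl

theorem step2_stable (D : Sys Γ) {H U : Subgroup Γ} {t : Γ} (h : IsStep 2 H U t) (χ : H →* ℂˣ) (hχ : OpC D H χ)
    (hst : ∀ s (h1 : s ∈ H) (h2 : t⁻¹ * s * t ∈ H), s ∈ D.S → χ ⟨s, h1⟩ = χ ⟨t⁻¹ * s * t, h2⟩) :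
    ∃ ψ, Lin D U ψ ∧ Tow 2 ⊥ (BI D) U ((∑ k ∈ Finset.range 2, cj (t ^ k) (ext H χ)) - ψ) := by
  classical
  obtain ⟨M, hMN, hMH, hMχ⟩ := hχ
  -- the set `κ`
  set κ : Set Γ := {s | s ∈ D.S ∧ ∃ h1 : s ∈ H, χ ⟨s, h1⟩ = -1} with hκ
  have hHconj : ∀ s ∈ κ, ∀ u ∈ H, u * s * u⁻¹ ∈ κ := by
    rintro s ⟨hs, h1, h2⟩ u hu
    have h3 : u * s * u⁻¹ ∈ H := H.mul_mem (H.mul_mem hu h1) (H.inv_mem hu)
    refine ⟨D.conj s hs u, h3, ?_⟩
    have h4 : (⟨u * s * u⁻¹, h3⟩ : H) = ⟨u, hu⟩ * ⟨s, h1⟩ * (⟨u, hu⟩ : H)⁻¹ := rfl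
    rw [h4, map_mul, map_mul, map_inv, mul_comm, inv_mul_cancel_left, h2]
  have htconj : ∀ s ∈ κ, t * s * t⁻¹ ∈ κ := by
    rintro s ⟨hs, h1, h2⟩
    have h3 : t * s * t⁻¹ ∈ H := h.norm t h.mem s h1
    refine ⟨D.conj s hs t, h3, ?_⟩
    have h5 : t⁻¹ * (t * s * t⁻¹) * t = s := by group
    have h4 : t⁻¹ * (t * s * t⁻¹) * t ∈ H := by rw [h5]; exact h1
    have h6 := hst (t * s * t⁻¹) h3 h4 (D.conj s hs t)
    have h7 : (⟨t⁻¹ * (t * s * t⁻¹) * t, h4⟩ : H) = ⟨s, h1⟩ := Subtype.ext h5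
    rw [h6, h7, h2]
  have hUconj : ∀ s ∈ κ, ∀ u ∈ U, u * s * u⁻¹ ∈ κ := by
    intro s hs u hu
    obtain ⟨k, hk, hk2⟩ := h.cover u hu
    have hk3 : k = 0 ∨ k = 1 := by omega
    rcases hk3 with rfl | rfl
    · rw [pow_zero, inv_one, one_mul] at hk2
      exact hHconj s hs u hk2
    · rw [pow_one] at hk2
      have h1 := htconj _ (hHconj s hs _ hk2)
      have h2 : t * (t⁻¹ * u * s * (t⁻¹ * u)⁻¹) * t⁻¹ = u * s * u⁻¹ := by group
      rwa [h2] at h1
  have hsat : ∀ s ∈ κ, ∀ s' ∈ D.S, s⁻¹ * s' ∈ M → s' ∈ κ := by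
    rintro s ⟨hs, h1, h2⟩ s' hs' hM
    have h3 : s⁻¹ * s' ∈ H := hMH hM
    have h4 : s' ∈ H := by
      have := H.mul_mem h1 h3
      rwa [mul_inv_cancel_left] at this
    refine ⟨hs', h4, ?_⟩
    have h5 : (⟨s', h4⟩ : H) = ⟨s, h1⟩ * ⟨s⁻¹ * s', h3⟩ := Subtype.ext (by simp)
    rw [h5, map_mul, hMχ _ h3 hM, h2, mul_one]
  obtain ⟨M', hM'N, hM'M, y, hy1, hy2⟩ := D.nt M hMN U (hMH.trans h.le) κ (fun s hs => hs.1)
    (fun s hs => h.le hs.2.1) hUconj hsat
  -- the restriction of `y` to `H`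
  set yH : H →* ℤˣ := y.comp (Subgroup.inclusion h.le) with hyH
  have hyH_apply : ∀ g (hg : g ∈ H), yH ⟨g, hg⟩ = y ⟨g, h.le hg⟩ := fun g hg => rfl
  have hop : OpC D H (qc yH) := by
    refine ⟨M', hM'N, hM'M.trans hMH, fun g hg hgM => ?_⟩
    apply Units.ext
    rw [f1_qc_apply, hyH_apply g hg, hy1 g (h.le hg) hgM]
    simp
  have hsig : Sig D H χ (qc yH) := by
    intro s hs hsS
    apply Units.ext
    rw [f1_qc_apply, hyH_apply s hs]
    have hsq : χ ⟨s, hs⟩ * χ ⟨s, hs⟩ = 1 := by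
      rw [← map_mul]
      have : (⟨s, hs⟩ : H) * ⟨s, hs⟩ = 1 := Subtype.ext (D.sq s hsS)
      rw [this, map_one]
    have hsq' : ((χ ⟨s, hs⟩ : ℂˣ) : ℂ) * ((χ ⟨s, hs⟩ : ℂˣ) : ℂ) = 1 := by
      rw [← Units.val_mul, hsq, Units.val_one]
    by_cases hm : s ∈ κ
    · have h1 := (hy2 s (h.le hs) hsS).mpr hm
      obtain ⟨_, h2, h3⟩ := hm
      rw [h1, h3]
      simp
    · have h1 : y ⟨s, h.le hs⟩ ≠ -1 := fun h2 => hm ((hy2 s (h.le hs) hsS).mp h2)
      have h2 : y ⟨s, h.le hs⟩ = 1 := (Int.units_eq_one_or _).resolve_right h1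
      have h3 : χ ⟨s, hs⟩ ≠ -1 := fun h4 => hm ⟨hsS, hs, h4⟩
      have h4 : ((χ ⟨s, hs⟩ : ℂˣ) : ℂ) ≠ -1 := by
        intro h5
        apply h3
        apply Units.ext
        rw [h5]
        simp
      rw [h2]
      rcases mul_self_eq_one_iff.mp hsq' with h5 | h5
      · rw [h5]; simp
      · exact absurd h5 h4
  have hchi : OpC D H χ := ⟨M, hMN, hMH, hMχ⟩
  have hBI : BI D H (ext H χ - ext H (qc yH)) := ⟨χ, qc yH, hchi, hop, hsig, rfl⟩
  have hTow := Tow.step (M := ⊥) t h bot_le (Tow.base (p := 2) (M := ⊥) (B := BI D) hBI)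
  refine ⟨ext U (qc y) + ext U (qc (y * f1_eta h)), ?_, ?_⟩
  · refine ⟨2, fun _ => 1, fun i => if i = 0 then qc y else qc (y * f1_eta h), ?_, ?_⟩
    · have hMU : M' ≤ U := (hM'M.trans hMH).trans h.le
      intro i
      by_cases hi : i = 0
      · simp only [hi, if_true]
        refine ⟨M', hM'N, hMU, fun g hg hgM => ?_⟩
        apply Units.ext
        rw [f1_qc_apply, hy1 g hg hgM]
        simp
      · simp only [hi, if_false]
        refine ⟨M', hM'N, hMU, fun g hg hgM => ?_⟩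
        apply Units.ext
        rw [f1_qc_apply, MonoidHom.mul_apply, hy1 g hg hgM,
          f1_eta_mem h ⟨g, hg⟩ (hMH (hM'M hgM))]
        simp
    · rw [Fin.sum_univ_two]
      simp
  · have hpt : ext U (qc y) + ext U (qc (y * f1_eta h)) =
        ∑ k ∈ Finset.range 2, cj (t ^ k) (ext H (qc yH)) := by
      funext g
      rw [Finset.sum_range_succ, Finset.sum_range_one, Pi.add_apply, Pi.add_apply, cj_apply, cj_apply,
        pow_zero, inv_one, one_mul, mul_one, pow_one]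
      by_cases hgU : g ∈ U
      · by_cases hgH : g ∈ H
        · have h1 : t⁻¹ * g * t ∈ H := by
            have := h.norm t⁻¹ (U.inv_mem h.mem) g hgH
            rwa [inv_inv] at this
          rw [ext_mem _ hgU, ext_mem _ hgU, ext_mem _ hgH, ext_mem _ h1, f1_qc_apply, f1_qc_apply,
            f1_qc_apply, f1_qc_apply, hyH_apply g hgH, hyH_apply _ h1, MonoidHom.mul_apply,
            f1_eta_mem h ⟨g, hgU⟩ hgH, mul_one]
          have h2 : (⟨t⁻¹ * g * t, h.le h1⟩ : U) = (⟨t, h.mem⟩ : U)⁻¹ * ⟨g, hgU⟩ * ⟨t, h.mem⟩ := rfl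
          rw [h2, map_mul, map_mul, map_inv, mul_comm _ (y ⟨t, h.mem⟩), mul_inv_cancel_left]
        · have h1 : t⁻¹ * g * t ∉ H := by
            intro h2
            apply hgH
            have := h.norm t h.mem _ h2
            have h3 : t * (t⁻¹ * g * t) * t⁻¹ = g := by group
            rwa [h3] at this
          rw [ext_mem _ hgU, ext_mem _ hgU, ext_not_mem _ hgH, ext_not_mem _ h1, f1_qc_apply, f1_qc_apply,
            MonoidHom.mul_apply, f1_eta_not_mem h ⟨g, hgU⟩ hgH]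
          simp
      · have hgH : g ∉ H := fun h2 => hgU (h.le h2)
        have h1 : t⁻¹ * g * t ∉ H := by
          intro h2
          apply hgH
          have := h.norm t h.mem _ h2
          have h3 : t * (t⁻¹ * g * t) * t⁻¹ = g := by group
          rwa [h3] at this
        rw [ext_not_mem _ hgU, ext_not_mem _ hgU, ext_not_mem _ hgH, ext_not_mem _ h1]
    have hfin : (∑ k ∈ Finset.range 2, cj (t ^ k) (ext H χ)) - (ext U (qc y) + ext U (qc (y * f1_eta h))) =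
        ∑ k ∈ Finset.range 2, cj (t ^ k) (ext H χ - ext H (qc yH)) := by
      rw [hpt, ← Finset.sum_sub_distrib]
      rfl
    rw [hfin]
    exact hTow

end SB
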