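import Pool.Agent.Helper21.SB.St

namespace SB

variable {Γ : Type*} [Group Γ]

namespace F2

open Classical in
/-- The sign character extended by one. -/
noncomputable def X {H : Subgroup Γ} (x : H →* ℤˣ) (g : Γ) : ℤˣ := if h : g ∈ H then x ⟨g, h⟩ else 1

theorem X_mem {H : Subgroup Γ} (x : H →* ℤˣ) {g : Γ} (h : g ∈ H) : X x g = x ⟨g, h⟩ := by
  simp [X, h]

theorem X_mul {H : Subgroup Γ} (x : H →* ℤˣ) {g g' : Γ} (h : g ∈ H) (h' : g' ∈ H) :
    X x (g * g') = X x g * X x g' := by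
  rw [X_mem x h, X_mem x h', X_mem x (H.mul_mem h h'), ← map_mul]
  rfl

theorem X_one {H : Subgroup Γ} (x : H →* ℤˣ) : X x 1 = 1 := by
  rw [X_mem x H.one_mem]
  exact map_one x

theorem X_inv {H : Subgroup Γ} (x : H →* ℤˣ) {g : Γ} (h : g ∈ H) : X x g⁻¹ = X x g := by
  have h1 : X x (g⁻¹ * g) = 1 := by rw [inv_mul_cancel]; exact X_one x
  rw [X_mul x (H.inv_mem h) h] at h1
  rcases Int.units_eq_one_or (X x g) with h2 | h2 <;>
    rcases Int.units_eq_one_or (X x g⁻¹) with h3 | h3 <;> rw [h2, h3] at h1 <;> rw [h2, h3] <;>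
    revert h1 <;> decide

theorem usq (a : ℤˣ) : a * a = 1 := by
  rcases Int.units_eq_one_or a with h | h <;> rw [h] <;> decide

theorem une {a b : ℤˣ} (h : a ≠ b) : a * b = -1 := by
  rcases Int.units_eq_one_or a with h1 | h1 <;> rcases Int.units_eq_one_or b with h2 | h2 <;>
    rw [h1, h2] at h ⊢ <;> revert h <;> decide

theorem ueq {a b : ℤˣ} (h : a * b = 1) : a = b := by
  rcases Int.units_eq_one_or a with h1 | h1 <;> rcases Int.units_eq_one_or b with h2 | h2 <;>
    rw [h1, h2] at h ⊢ <;> revert h <;> decide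

section

variable {H U : Subgroup Γ} {t : Γ}

theorem inv_conj (h : IsStep 2 H U t) {g : Γ} (hg : g ∈ H) : t⁻¹ * g * t ∈ H := by
  have := h.norm t⁻¹ (U.inv_mem h.mem) g hg
  rwa [inv_inv] at this

theorem tt_mem (h : IsStep 2 H U t) : t * t ∈ H := by
  have := h.pow_mem
  rwa [pow_two] at this

theorem t_not (h : IsStep 2 H U t) : t ∉ H := by
  intro ht
  have := h.inj 1 (by norm_num) (by simpa using ht)
  omega

theorem cov (h : IsStep 2 H U t) {g : Γ} (hg : g ∈ U) (hn : g ∉ H) : t⁻¹ * g ∈ H := by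
  obtain ⟨k, hk, hk2⟩ := h.cover g hg
  have : k = 0 ∨ k = 1 := by omega
  rcases this with rfl | rfl
  · exact absurd (by simpa using hk2) hn
  · simpa using hk2

theorem t_mul_not (h : IsStep 2 H U t) {k : Γ} (hk : k ∈ H) : t * k ∉ H := by
  intro h1
  apply t_not h
  have := H.mul_mem h1 (H.inv_mem hk)
  rwa [mul_inv_cancel_right] at this

/-- The conjugate character applied twice. -/
theorem X_tt (h : IsStep 2 H U t) (x : H →* ℤˣ) {g : Γ} (hg : g ∈ H) :
    X x (t⁻¹ * (t⁻¹ * g * t) * t) = X x g := by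
  have h1 : t⁻¹ * (t⁻¹ * g * t) * t = (t * t)⁻¹ * g * (t * t) := by group
  have h2 := tt_mem h
  rw [h1, X_mul x (H.mul_mem (H.inv_mem h2) hg) h2, X_mul x (H.inv_mem h2) hg, X_inv x h2,
    mul_right_comm, usq, one_mul]

theorem Xt_mul (h : IsStep 2 H U t) (x : H →* ℤˣ) {g g' : Γ} (hg : g ∈ H) (hg' : g' ∈ H) :
    X x (t⁻¹ * (g * g') * t) = X x (t⁻¹ * g * t) * X x (t⁻¹ * g' * t) := by
  rw [← X_mul x (inv_conj h hg) (inv_conj h hg')]
  congr 1
  group

open Classical in
/-- The sign character of `U` whose kernel is `W`. -/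
noncomputable def Y (t : Γ) {H : Subgroup Γ} (x : H →* ℤˣ) (g : Γ) : ℤˣ :=
  if g ∈ H then X x g * X x (t⁻¹ * g * t) else X x (t⁻¹ * g) * X x (t⁻¹ * (t⁻¹ * g) * t)

theorem Y_mem (x : H →* ℤˣ) {g : Γ} (hg : g ∈ H) : Y t x g = X x g * X x (t⁻¹ * g * t) := by
  simp [Y, hg]

theorem Y_t (h : IsStep 2 H U t) (x : H →* ℤˣ) {k : Γ} (hk : k ∈ H) : Y t x (t * k) = Y t x k := by
  rw [Y_mem x hk]
  simp only [Y, if_neg (t_mul_not h hk), inv_mul_cancel_left]

theorem Y_conj (h : IsStep 2 H U t) (x : H →* ℤˣ) {k : Γ} (hk : k ∈ H) :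
    Y t x (t⁻¹ * k * t) = Y t x k := by
  rw [Y_mem x hk, Y_mem x (inv_conj h hk), X_tt h x hk, mul_comm]

theorem Y_mulH (h : IsStep 2 H U t) (x : H →* ℤˣ) {g g' : Γ} (hg : g ∈ H) (hg' : g' ∈ H) :
    Y t x (g * g') = Y t x g * Y t x g' := by
  rw [Y_mem x hg, Y_mem x hg', Y_mem x (H.mul_mem hg hg'), X_mul x hg hg', Xt_mul h x hg hg']
  exact mul_mul_mul_comm _ _ _ _

theorem Y_tt (h : IsStep 2 H U t) (x : H →* ℤˣ) : Y t x (t * t) = 1 := by
  rw [Y_mem x (tt_mem h)]
  have : t⁻¹ * (t * t) * t = t * t := by group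
  rw [this, usq]

theorem split (h : IsStep 2 H U t) {g : Γ} (hg : g ∈ U) : g ∈ H ∨ ∃ k ∈ H, g = t * k := by
  by_cases h1 : g ∈ H
  · exact Or.inl h1
  · exact Or.inr ⟨t⁻¹ * g, cov h hg h1, by group⟩

theorem Y_mul (h : IsStep 2 H U t) (x : H →* ℤˣ) {g g' : Γ} (hg : g ∈ U) (hg' : g' ∈ U) :
    Y t x (g * g') = Y t x g * Y t x g' := by
  rcases split h hg with h1 | ⟨k, hk, rfl⟩ <;> rcases split h hg' with h2 | ⟨k', hk', rfl⟩
  · exact Y_mulH h x h1 h2
  · have e : g * (t * k') = t * (t⁻¹ * g * t * k') := by group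
    rw [e, Y_t h x (H.mul_mem (inv_conj h h1) hk'), Y_mulH h x (inv_conj h h1) hk', Y_conj h x h1,
      Y_t h x hk']
  · rw [mul_assoc, Y_t h x (H.mul_mem hk h2), Y_mulH h x hk h2, Y_t h x hk]
  · have e : t * k * (t * k') = t * t * (t⁻¹ * k * t * k') := by group
    rw [e, Y_mulH h x (tt_mem h) (H.mul_mem (inv_conj h hk) hk'), Y_tt h x, one_mul,
      Y_mulH h x (inv_conj h hk) hk', Y_conj h x hk, Y_t h x hk, Y_t h x hk']

theorem Y_one (x : H →* ℤˣ) : Y t x 1 = 1 := by
  rw [Y_mem x H.one_mem, X_one]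
  have : t⁻¹ * 1 * t = 1 := by group
  rw [this, X_one, one_mul]

theorem Y_inv (h : IsStep 2 H U t) (x : H →* ℤˣ) {g : Γ} (hg : g ∈ U) : Y t x g⁻¹ = Y t x g := by
  have h1 : Y t x (g⁻¹ * g) = 1 := by rw [inv_mul_cancel]; exact Y_one x
  rw [Y_mul h x (U.inv_mem hg) hg] at h1
  exact ueq h1

/-- The sign character of `U`. -/
noncomputable def eta (h : IsStep 2 H U t) (x : H →* ℤˣ) : U →* ℤˣ where
  toFun g := Y t x g
  map_one' := Y_one x
  map_mul' g g' := Y_mul h x g.2 g'.2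

/-- The kernel of the sign character. -/
def W (h : IsStep 2 H U t) (x : H →* ℤˣ) : Subgroup Γ where
  carrier := {g | g ∈ U ∧ Y t x g = 1}
  one_mem' := ⟨U.one_mem, Y_one x⟩
  mul_mem' := fun {a b} ha hb => ⟨U.mul_mem ha.1 hb.1, by rw [Y_mul h x ha.1 hb.1, ha.2, hb.2, one_mul]⟩
  inv_mem' := fun {a} ha => ⟨U.inv_mem ha.1, by rw [Y_inv h x ha.1, ha.2]⟩

theorem mem_W (h : IsStep 2 H U t) (x : H →* ℤˣ) {g : Γ} : g ∈ W h x ↔ g ∈ U ∧ Y t x g = 1 := Iff.rfl

theorem Y_conjU (h : IsStep 2 H U t) (x : H →* ℤˣ) {u g : Γ} (hu : u ∈ U) (hg : g ∈ U) :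
    Y t x (u * g * u⁻¹) = Y t x g := by
  rw [Y_mul h x (U.mul_mem hu hg) (U.inv_mem hu), Y_mul h x hu hg, Y_inv h x hu, mul_right_comm,
    usq, one_mul]

theorem stepW (h : IsStep 2 H U t) (x : H →* ℤˣ) {h₀ : Γ} (h0 : h₀ ∈ H) (hY : Y t x h₀ = -1) :
    IsStep 2 (W h x) U h₀ where
  le := fun g hg => hg.1
  mem := h.le h0
  norm := fun u hu w hw => ⟨U.mul_mem (U.mul_mem hu hw.1) (U.inv_mem hu), by
    rw [Y_conjU h x hu hw.1]; exact hw.2⟩
  cover := by
    intro u hu
    rcases Int.units_eq_one_or (Y t x u) with h1 | h1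
    · exact ⟨0, by norm_num, by simpa using (mem_W h x).2 ⟨hu, h1⟩⟩
    · refine ⟨1, by norm_num, ?_⟩
      rw [pow_one]
      refine (mem_W h x).2 ⟨U.mul_mem (U.inv_mem (h.le h0)) hu, ?_⟩
      rw [Y_mul h x (U.inv_mem (h.le h0)) hu, Y_inv h x (h.le h0), hY, h1]
      decide
  inj := by
    intro k hk hk2
    have : k = 0 ∨ k = 1 := by omega
    rcases this with rfl | rfl
    · rfl
    · rw [pow_one] at hk2
      have := hk2.2
      rw [hY] at this
      revert this
      decide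

/-- The sign as a complex unit. -/
def cu : ℤˣ →* ℂˣ := Units.map ((Int.castRingHom ℂ : ℤ →+* ℂ) : ℤ →* ℂ)

/-- The imaginary unit. -/
noncomputable def iu : ℂˣ := ⟨Complex.I, -Complex.I, by simp, by simp⟩

theorem iu_mul : iu * iu = cu (-1) := by
  ext
  simp [iu, cu]

theorem cu_one : cu 1 = 1 := map_one _

theorem cu_neg_val : ((cu (-1) : ℂˣ) : ℂ) = -1 := by simp [cu]

theorem qc_apply {V : Subgroup Γ} (y : V →* ℤˣ) (g : V) : qc y g = cu (y g) := rfl

open Classical in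
/-- The extension of the character to `W`. -/
noncomputable def P (t : Γ) {H : Subgroup Γ} (x : H →* ℤˣ) (g : Γ) : ℂˣ :=
  if g ∈ H then cu (X x g) else iu * cu (X x (t⁻¹ * g))

theorem P_mem (x : H →* ℤˣ) {g : Γ} (hg : g ∈ H) : P t x g = cu (X x g) := by
  simp [P, hg]

theorem P_t (h : IsStep 2 H U t) (x : H →* ℤˣ) {k : Γ} (hk : k ∈ H) : P t x (t * k) = iu * cu (X x k) := by
  simp only [P, if_neg (t_mul_not h hk), inv_mul_cancel_left]

theorem Xc {x : H →* ℤˣ} {k : Γ} (hk : k ∈ H) (hY : Y t x k = 1) : X x (t⁻¹ * k * t) = X x k := by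
  rw [Y_mem x hk] at hY
  exact (ueq hY).symm

theorem P_mul (h : IsStep 2 H U t) (x : H →* ℤˣ) (ht2 : X x (t * t) = -1) {g g' : Γ}
    (hg : g ∈ W h x) (hg' : g' ∈ W h x) :
    P t x (g * g') = P t x g * P t x g' := by
  obtain ⟨hgU, hgY⟩ := hg
  obtain ⟨hgU', hgY'⟩ := hg'
  rcases split h hgU with h1 | ⟨k, hk, rfl⟩ <;> rcases split h hgU' with h2 | ⟨k', hk', rfl⟩
  · rw [P_mem x h1, P_mem x h2, P_mem x (H.mul_mem h1 h2), X_mul x h1 h2, map_mul]
  · have e : g * (t * k') = t * (t⁻¹ * g * t * k') := by group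
    rw [e, P_t h x (H.mul_mem (inv_conj h h1) hk'), X_mul x (inv_conj h h1) hk', Xc h1 hgY,
      P_t h x hk', P_mem x h1, map_mul, mul_left_comm]
  · rw [mul_assoc, P_t h x (H.mul_mem hk h2), X_mul x hk h2, P_t h x hk, P_mem x h2, map_mul, mul_assoc]
  · have e : t * k * (t * k') = t * t * (t⁻¹ * k * t * k') := by group
    have hkY : Y t x k = 1 := by rw [← Y_t h x hk]; exact hgY
    rw [e, P_mem x (H.mul_mem (tt_mem h) (H.mul_mem (inv_conj h hk) hk')),
      X_mul x (tt_mem h) (H.mul_mem (inv_conj h hk) hk'), X_mul x (inv_conj h hk) hk', Xc hk hkY, ht2,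
      P_t h x hk, P_t h x hk', map_mul, map_mul, ← iu_mul]
    exact (mul_mul_mul_comm _ _ _ _).symm

/-- The character of `W`. -/
noncomputable def psi (h : IsStep 2 H U t) (x : H →* ℤˣ) (ht2 : X x (t * t) = -1) : W h x →* ℂˣ where
  toFun g := P t x g
  map_one' := by
    change P t x 1 = 1
    rw [P_mem x H.one_mem, X_one, cu_one]
  map_mul' g g' := P_mul h x ht2 g.2 g'.2

end

end F2

open F2

theorem F2.main (D : Sys Γ) {H U : Subgroup Γ} {t : Γ} (h : IsStep 2 H U t) (x : H →* ℤˣ)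
    (hx : OpC D H (qc x))
    (hdis : ∀ s (h1 : s ∈ H) (h2 : t⁻¹ * s * t ∈ H), s ∈ D.S → ¬ (x ⟨s, h1⟩ = -1 ∧ x ⟨t⁻¹ * s * t, h2⟩ = -1))
    (ht2 : X x (t * t) = -1) {h₀ : Γ} (h0 : h₀ ∈ H) (hne : Y t x h₀ = -1) :
    ∃ ψ, Lin D U ψ ∧ Tow 2 ⊥ (BI D) U ((∑ k ∈ Finset.range 2, cj (t ^ k) (ext H (qc x))) - ψ) := by
  classical
  obtain ⟨M, hM, hMH, hM1⟩ := hx
  have hMn : M.Normal := D.normal M hM
  -- `x` is trivial on `M`
  have hX1 : ∀ g ∈ M, X x g = 1 := by
    intro g hg
    rw [X_mem x (hMH hg)]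
    have := hM1 g (hMH hg) hg
    rw [qc_apply] at this
    rcases Int.units_eq_one_or (x ⟨g, hMH hg⟩) with h1 | h1
    · exact h1
    · rw [h1] at this
      have h2 := congrArg (fun z : ℂˣ => (z : ℂ)) this
      simp only [cu_neg_val, Units.val_one] at h2
      norm_num at h2
  have hY1 : ∀ g ∈ M, Y t x g = 1 := by
    intro g hg
    rw [Y_mem x (hMH hg), hX1 g hg]
    have := hMn.conj_mem g hg t⁻¹
    rw [inv_inv] at this
    rw [hX1 _ this, one_mul]
  have hMW : M ≤ W h x := fun g hg => ⟨h.le (hMH hg), hY1 g hg⟩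
  have hop1 : OpC D (W h x) 1 := ⟨M, hM, hMW, fun _ _ _ => rfl⟩
  have hop2 : OpC D (W h x) (psi h x ht2) := by
    refine ⟨M, hM, hMW, fun g hg hgM => ?_⟩
    change P t x g = 1
    rw [P_mem x (hMH hgM), hX1 g hgM, cu_one]
  have hsig : Sig D (W h x) (psi h x ht2) 1 := by
    intro s hs hsS
    change P t x s = 1
    obtain ⟨hsU, hsY⟩ := hs
    rcases split h hsU with h1 | ⟨k, hk, rfl⟩
    · rw [P_mem x h1]
      have h2 : X x s = 1 := by
        rcases Int.units_eq_one_or (X x s) with h3 | h3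
        · exact h3
        · exfalso
          refine hdis s h1 (inv_conj h h1) hsS ⟨?_, ?_⟩
          · rw [← X_mem x h1]; exact h3
          · rw [← X_mem x (inv_conj h h1), Xc h1 hsY]; exact h3
      rw [h2, cu_one]
    · exfalso
      have h1 : P t x (t * k * (t * k)) = P t x (t * k) * P t x (t * k) :=
        P_mul h x ht2 ⟨hsU, hsY⟩ ⟨hsU, hsY⟩
      rw [D.sq _ hsS, P_mem x H.one_mem, X_one, cu_one, P_t h x hk, mul_mul_mul_comm, iu_mul,
        ← map_mul, usq, cu_one, mul_one] at h1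
      have h2 := congrArg (fun z : ℂˣ => (z : ℂ)) h1
      simp only [cu_neg_val, Units.val_one] at h2
      norm_num at h2
  have hBI : Tow 2 ⊥ (BI D) (W h x) (ext (W h x) (psi h x ht2) - ext (W h x) 1) :=
    Tow.base ⟨_, _, hop2, hop1, hsig, rfl⟩
  have hstep := Tow.step h₀ (stepW h x h0 hne) bot_le hBI
  -- the linear combination
  refine ⟨ext U 1 + ext U (qc (eta h x)), ?_, ?_⟩
  · refine ⟨2, ![1, 1], ![1, qc (eta h x)], ?_, ?_⟩
    · intro i
      fin_cases i
      · exact ⟨M, hM, hMH.trans h.le, fun _ _ _ => rfl⟩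
      · refine ⟨M, hM, hMH.trans h.le, fun g hg hgM => ?_⟩
        change qc (eta h x) ⟨g, hg⟩ = 1
        rw [qc_apply]
        change cu (Y t x g) = 1
        rw [hY1 g hgM, cu_one]
    · simp [Fin.sum_univ_two]
  · have e : (∑ k ∈ Finset.range 2, cj (t ^ k) (ext H (qc x))) - (ext U 1 + ext U (qc (eta h x))) =
        ∑ k ∈ Finset.range 2, cj (h₀ ^ k) (ext (W h x) (psi h x ht2) - ext (W h x) 1) := by
      have h0U := h.le h0
      funext g
      simp only [Finset.sum_range_succ, Finset.sum_range_zero, zero_add, Pi.add_apply, Pi.sub_apply,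
        cj_apply, pow_zero, pow_one, inv_one, one_mul, mul_one]
      by_cases hgU : g ∈ U
      · have hc1 : h₀⁻¹ * g * h₀ ∈ U := U.mul_mem (U.mul_mem (U.inv_mem h0U) hgU) h0U
        have hc2 : Y t x (h₀⁻¹ * g * h₀) = Y t x g := by
          have := Y_conjU h x (U.inv_mem h0U) hgU
          rwa [inv_inv] at this
        rw [ext_mem (1 : U →* ℂˣ) hgU, ext_mem (qc (eta h x)) hgU]
        have hq : ((qc (eta h x) ⟨g, hgU⟩ : ℂˣ) : ℂ) = ((cu (Y t x g) : ℂˣ) : ℂ) := rfl
        rw [hq]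
        rcases Int.units_eq_one_or (Y t x g) with hY | hY
        · have hgW : g ∈ W h x := ⟨hgU, hY⟩
          have hgW' : h₀⁻¹ * g * h₀ ∈ W h x := ⟨hc1, by rw [hc2]; exact hY⟩
          rw [ext_mem (psi h x ht2) hgW, ext_mem (psi h x ht2) hgW', ext_mem (1 : W h x →* ℂˣ) hgW,
            ext_mem (1 : W h x →* ℂˣ) hgW', hY, cu_one]
          have e1 : ((psi h x ht2 ⟨g, hgW⟩ : ℂˣ) : ℂ) = ((P t x g : ℂˣ) : ℂ) := rfl
          have e2 : ((psi h x ht2 ⟨h₀⁻¹ * g * h₀, hgW'⟩ : ℂˣ) : ℂ) = ((P t x (h₀⁻¹ * g * h₀) : ℂˣ) : ℂ) := rfl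
          rw [e1, e2]
          rcases split h hgU with h1 | ⟨k, hk, rfl⟩
          · have h2 : h₀⁻¹ * g * h₀ ∈ H := H.mul_mem (H.mul_mem (H.inv_mem h0) h1) h0
            have h3 : X x (h₀⁻¹ * g * h₀) = X x g := by
              rw [X_mul x (H.mul_mem (H.inv_mem h0) h1) h0, X_mul x (H.inv_mem h0) h1, X_inv x h0,
                mul_right_comm, usq, one_mul]
            rw [ext_mem (qc x) h1, ext_mem (qc x) (inv_conj h h1), P_mem x h1, P_mem x h2, h3,
              qc_apply, qc_apply, ← X_mem x h1, ← X_mem x (inv_conj h h1), Xc h1 hY]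
            simp only [MonoidHom.one_apply, Units.val_one]
            ring
          · have h2 : t⁻¹ * (t * k) * t ∉ H := by
              intro h3
              apply t_mul_not h hk
              have h4 := h.norm t h.mem _ h3
              have h5 : t * (t⁻¹ * (t * k) * t) * t⁻¹ = t * k := by group
              rwa [h5] at h4
            have e3 : P t x (h₀⁻¹ * (t * k) * h₀) = P t x (t * (t⁻¹ * h₀⁻¹ * t * k * h₀)) := by
              congr 1
              group
            have h4 : t⁻¹ * h₀⁻¹ * t ∈ H := inv_conj h (H.inv_mem h0)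
            have h5 : X x (t⁻¹ * h₀⁻¹ * t) = X x (t⁻¹ * h₀ * t) := by
              have : t⁻¹ * h₀⁻¹ * t = (t⁻¹ * h₀ * t)⁻¹ := by group
              rw [this, X_inv x (inv_conj h h0)]
            have h6 : X x (t⁻¹ * h₀ * t) * X x k * X x h₀ = -1 * X x k := by
              rw [mul_right_comm, mul_comm (X x (t⁻¹ * h₀ * t)), ← Y_mem (t := t) x h0, hne]
            rw [ext_not_mem (qc x) (t_mul_not h hk), ext_not_mem (qc x) h2, e3, P_t h x hk,
              P_t h x (H.mul_mem (H.mul_mem h4 hk) h0), X_mul x (H.mul_mem h4 hk) h0, X_mul x h4 hk, h5, h6,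
              map_mul]
            simp only [MonoidHom.one_apply, Units.val_one, Units.val_mul, cu_neg_val]
            ring
        · have hgW : g ∉ W h x := by
            intro h1
            have := h1.2
            rw [hY] at this
            revert this
            decide
          have hgW' : h₀⁻¹ * g * h₀ ∉ W h x := by
            intro h1
            have := h1.2
            rw [hc2, hY] at this
            revert this
            decide
          rw [ext_not_mem (psi h x ht2) hgW, ext_not_mem (psi h x ht2) hgW',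
            ext_not_mem (1 : W h x →* ℂˣ) hgW, ext_not_mem (1 : W h x →* ℂˣ) hgW', hY, cu_neg_val]
          rcases split h hgU with h1 | ⟨k, hk, rfl⟩
          · have h3 : X x (t⁻¹ * g * t) = -1 * X x g := by
              rw [← hY, Y_mem x h1, mul_right_comm, usq, one_mul]
            rw [ext_mem (qc x) h1, ext_mem (qc x) (inv_conj h h1),
              qc_apply, qc_apply, ← X_mem x h1, ← X_mem x (inv_conj h h1), h3, map_mul]
            simp only [MonoidHom.one_apply, Units.val_one, Units.val_mul, cu_neg_val]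
            ring
          · have h2 : t⁻¹ * (t * k) * t ∉ H := by
              intro h3
              apply t_mul_not h hk
              have h4 := h.norm t h.mem _ h3
              have h5 : t * (t⁻¹ * (t * k) * t) * t⁻¹ = t * k := by group
              rwa [h5] at h4
            rw [ext_not_mem (qc x) (t_mul_not h hk), ext_not_mem (qc x) h2]
            simp
      · have hc1 : h₀⁻¹ * g * h₀ ∉ U := by
          intro h1
          apply hgU
          have := U.mul_mem (U.mul_mem h0U h1) (U.inv_mem h0U)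
          have e : h₀ * (h₀⁻¹ * g * h₀) * h₀⁻¹ = g := by group
          rwa [e] at this
        have hc2 : t⁻¹ * g * t ∉ U := by
          intro h1
          apply hgU
          have := U.mul_mem (U.mul_mem h.mem h1) (U.inv_mem h.mem)
          have e : t * (t⁻¹ * g * t) * t⁻¹ = g := by group
          rwa [e] at this
        rw [ext_not_mem _ hgU, ext_not_mem _ hgU, ext_not_mem (qc x) (fun h1 => hgU (h.le h1)),
          ext_not_mem (qc x) (fun h1 => hc2 (h.le h1)),
          ext_not_mem (psi h x ht2) (fun h1 => hgU h1.1), ext_not_mem (psi h x ht2) (fun h1 => hc1 h1.1),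
          ext_not_mem (1 : W h x →* ℂˣ) (fun h1 => hgU h1.1), ext_not_mem (1 : W h x →* ℂˣ) (fun h1 => hc1 h1.1)]
        simp
    rw [e]
    exact hstep

theorem step2_disj (D : Sys Γ) (hst : StStable D) {H U : Subgroup Γ} {t : Γ} (h : IsStep 2 H U t)
    (x : H →* ℤˣ) (hx : OpC D H (qc x))
    (hdis : ∀ s (h1 : s ∈ H) (h2 : t⁻¹ * s * t ∈ H), s ∈ D.S → ¬ (x ⟨s, h1⟩ = -1 ∧ x ⟨t⁻¹ * s * t, h2⟩ = -1)) :
    ∃ ψ, Lin D U ψ ∧ Tow 2 ⊥ (BI D) U ((∑ k ∈ Finset.range 2, cj (t ^ k) (ext H (qc x))) - ψ) := by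
  classical
  by_cases hA : ∀ g ∈ H, Y t x g = 1
  · -- stable case
    refine hst h (qc x) hx ?_
    intro s h1 h2 _
    rw [qc_apply, qc_apply, ← X_mem x h1, ← X_mem x h2, Xc h1 (hA s h1)]
  · push Not at hA
    obtain ⟨h₀, h0, hne⟩ := hA
    have hne' : Y t x h₀ = -1 := (Int.units_eq_one_or _).resolve_left hne
    rcases Int.units_eq_one_or (X x (t * t)) with ht | ht
    · -- replace `t` by `t * h₀`
      have hXt : ∀ g ∈ H, X x ((t * h₀)⁻¹ * g * (t * h₀)) = X x (t⁻¹ * g * t) := by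
        intro g hg
        have e : (t * h₀)⁻¹ * g * (t * h₀) = h₀⁻¹ * (t⁻¹ * g * t) * h₀ := by group
        rw [e, X_mul x (H.mul_mem (H.inv_mem h0) (inv_conj h hg)) h0, X_mul x (H.inv_mem h0) (inv_conj h hg),
          X_inv x h0, mul_right_comm, usq, one_mul]
      have hs : IsStep 2 H U (t * h₀) := by
        refine ⟨h.le, U.mul_mem h.mem (h.le h0), h.norm, ?_, ?_⟩
        · intro u hu
          by_cases h1 : u ∈ H
          · exact ⟨0, by norm_num, by simpa using h1⟩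
          · refine ⟨1, by norm_num, ?_⟩
            have e : (t * h₀) ^ 1 = t * h₀ := pow_one _
            rw [e]
            have e2 : (t * h₀)⁻¹ * u = h₀⁻¹ * (t⁻¹ * u) := by group
            rw [e2]
            exact H.mul_mem (H.inv_mem h0) (cov h hu h1)
        · intro k hk hk2
          have : k = 0 ∨ k = 1 := by omega
          rcases this with rfl | rfl
          · rfl
          · rw [pow_one] at hk2
            exact absurd hk2 (t_mul_not h h0)
      have hYt : ∀ g ∈ H, Y (t * h₀) x g = Y t x g := by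
        intro g hg
        rw [Y_mem x hg, Y_mem x hg, hXt g hg]
      have hsq : X x (t * h₀ * (t * h₀)) = -1 := by
        have e : t * h₀ * (t * h₀) = t * t * (t⁻¹ * h₀ * t * h₀) := by group
        rw [e, X_mul x (tt_mem h) (H.mul_mem (inv_conj h h0) h0), ht, one_mul,
          X_mul x (inv_conj h h0) h0, mul_comm, ← Y_mem (t := t) x h0, hne']
      have hd : ∀ s (h1 : s ∈ H) (h2 : (t * h₀)⁻¹ * s * (t * h₀) ∈ H), s ∈ D.S →
          ¬ (x ⟨s, h1⟩ = -1 ∧ x ⟨(t * h₀)⁻¹ * s * (t * h₀), h2⟩ = -1) := by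
        rintro s h1 h2 hsS ⟨h3, h4⟩
        refine hdis s h1 (inv_conj h h1) hsS ⟨h3, ?_⟩
        rw [← X_mem x (inv_conj h h1), ← hXt s h1, X_mem x h2]
        exact h4
      obtain ⟨ψ, hψ1, hψ2⟩ := F2.main D hs x hx hd hsq h0 (by rw [hYt h₀ h0]; exact hne')
      refine ⟨ψ, hψ1, ?_⟩
      have e : (∑ k ∈ Finset.range 2, cj (t ^ k) (ext H (qc x))) =
          ∑ k ∈ Finset.range 2, cj ((t * h₀) ^ k) (ext H (qc x)) := by
        funext g
        simp only [Finset.sum_range_succ, Finset.sum_range_zero, zero_add, Pi.add_apply,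
          cj_apply, pow_zero, pow_one, inv_one, one_mul, mul_one]
        congr 1
        have := (cls_ext H (qc x)).2 h₀ h0 (t⁻¹ * g * t)
        rw [← this]
        congr 1
        group
      rw [e]
      exact hψ2
    · exact F2.main D h x hx hdis ht h0 hne'

end SB
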