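import Pool.Agent.Helper21.SB.St

/-!
# SB, module G1: reduction of even towers
-/

namespace SB

universe u

variable {Γ : Type u} [Group Γ]

theorem lin_zero_G1 {D : Sys Γ} {U : Subgroup Γ} : Lin D U 0 :=
  ⟨0, fun i => i.elim0, fun i => i.elim0, fun i => i.elim0, by simp⟩

theorem lin_add_G1 {D : Sys Γ} {U : Subgroup Γ} {φ ψ : Γ → ℂ} (h : Lin D U φ) (h' : Lin D U ψ) :
    Lin D U (φ + ψ) := by
  obtain ⟨m, n, χ, h1, h2⟩ := h
  obtain ⟨m', n', χ', h1', h2'⟩ := h'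
  refine ⟨m + m', Fin.append n n', Fin.append χ χ', ?_, ?_⟩
  · intro i
    refine Fin.addCases (fun j => ?_) (fun j => ?_) i
    · rw [Fin.append_left]; exact h1 j
    · rw [Fin.append_right]; exact h1' j
  · rw [Fin.sum_univ_add, h2, h2']
    simp only [Fin.append_left, Fin.append_right]

theorem lin_zsmul_G1 {D : Sys Γ} {U : Subgroup Γ} {φ : Γ → ℂ} (c : ℤ) (h : Lin D U φ) :
    Lin D U (c • φ) := by
  obtain ⟨m, n, χ, h1, h2⟩ := h
  refine ⟨m, fun i => c * n i, χ, h1, ?_⟩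
  rw [h2, Finset.smul_sum]
  exact Finset.sum_congr rfl fun i _ => (mul_smul _ _ _).symm

theorem lin_sum_G1 {D : Sys Γ} {U : Subgroup Γ} {ι : Type*} (s : Finset ι) (φ : ι → Γ → ℂ)
    (h : ∀ i ∈ s, Lin D U (φ i)) : Lin D U (∑ i ∈ s, φ i) := by
  classical
  induction s using Finset.induction_on with
  | empty => simpa using lin_zero_G1
  | insert a s ha ih =>
    rw [Finset.sum_insert ha]
    exact lin_add_G1 (h a (Finset.mem_insert_self a s))
      (ih fun i hi => h i (Finset.mem_insert_of_mem hi))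

/-- every element of the even tower class is congruent to a combination of linear characters -/
theorem even_red_aux_G1 (D : Sys Γ) (h2 : StStep2 D) {M : Subgroup Γ} (hM : M ∈ D.N)
    {U : Subgroup Γ} {φ : Γ → ℂ} (h : Tow 2 M (BM M) U φ) :
    ∃ ψ, Lin D U ψ ∧ Tow 2 ⊥ (BI D) U (φ - ψ) := by
  induction h with
  | @base U φ hb =>
    obtain ⟨hMU, χ, hχ, rfl⟩ := hb
    refine ⟨ext U χ, ⟨1, fun _ => 1, fun _ => χ, fun _ => ⟨M, hM, hMU, hχ⟩, by simp⟩, ?_⟩
    rw [sub_self]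
    exact Tow.zero U
  | zero U =>
    refine ⟨0, lin_zero_G1, ?_⟩
    rw [sub_self]
    exact Tow.zero U
  | @add U φ φ' _ _ ih ih' =>
    obtain ⟨ψ, h3, h4⟩ := ih
    obtain ⟨ψ', h3', h4'⟩ := ih'
    refine ⟨ψ + ψ', lin_add_G1 h3 h3', ?_⟩
    rw [add_sub_add_comm]
    exact h4.add h4'
  | @neg U φ _ ih =>
    obtain ⟨ψ, h3, h4⟩ := ih
    refine ⟨(-1 : ℤ) • ψ, lin_zsmul_G1 _ h3, ?_⟩
    have e : -φ - (-1 : ℤ) • ψ = -(φ - ψ) := by
      rw [neg_smul, one_smul]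
      abel
    rw [e]
    exact h4.neg
  | @step W U φ t hs _ _ ih =>
    obtain ⟨ψ, ⟨m, n, χ, hχ, hψ⟩, h4⟩ := ih
    have hex := fun i => h2 hs (χ i) (hχ i)
    choose θ hθ1 hθ2 using hex
    refine ⟨∑ i, n i • θ i, lin_sum_G1 _ _ fun i _ => lin_zsmul_G1 _ (hθ1 i), ?_⟩
    have h5 := Tow.step t hs bot_le h4
    have h6 : Tow 2 ⊥ (BI D) U
        (∑ i, n i • ((∑ k ∈ Finset.range 2, cj (t ^ k) (ext W (χ i))) - θ i)) :=
      Tow.sum _ _ fun i _ => (hθ2 i).zsmul (n i)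
    have key : (∑ k ∈ Finset.range 2, cj (t ^ k) φ) - ∑ i, n i • θ i =
        (∑ k ∈ Finset.range 2, cj (t ^ k) (φ - ψ)) +
          ∑ i, n i • ((∑ k ∈ Finset.range 2, cj (t ^ k) (ext W (χ i))) - θ i) := by
      have e : (∑ i, n i • ((∑ k ∈ Finset.range 2, cj (t ^ k) (ext W (χ i))) - θ i)) =
          (∑ k ∈ Finset.range 2, cj (t ^ k) ψ) - ∑ i, n i • θ i := by
        simp only [smul_sub, Finset.sum_sub_distrib]
        congr 1
        funext g
        simp only [Finset.sum_range_succ, Finset.sum_range_zero, Pi.add_apply, cj_apply,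
          zero_add, hψ, Finset.sum_apply, Pi.smul_apply, smul_add, Finset.sum_add_distrib]
      rw [e]
      funext g
      simp only [Finset.sum_range_succ, Finset.sum_range_zero, Pi.add_apply, Pi.sub_apply, cj_apply,
        Pi.zero_apply]
      ring
    rw [key]
    exact h5.add h6

/-- elements of the tower class vanish at `1` and on `S` -/
theorem tow_vanish_G1 (D : Sys Γ) {p : ℕ} {M U : Subgroup Γ} {φ : Γ → ℂ} (h : Tow p M (BI D) U φ) :
    φ 1 = 0 ∧ ∀ s ∈ D.S, φ s = 0 := by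
  induction h with
  | @base U φ hb =>
    obtain ⟨χ, χ', _, _, hsig, rfl⟩ := hb
    refine ⟨?_, ?_⟩
    · rw [Pi.sub_apply, ext_mem χ U.one_mem, ext_mem χ' U.one_mem]
      have e : (⟨1, U.one_mem⟩ : U) = 1 := rfl
      rw [e, map_one, map_one, sub_self]
    · intro s hs
      by_cases hsU : s ∈ U
      · rw [Pi.sub_apply, ext_mem χ hsU, ext_mem χ' hsU, hsig s hsU hs, sub_self]
      · rw [Pi.sub_apply, ext_not_mem χ hsU, ext_not_mem χ' hsU, sub_self]
  | zero U => exact ⟨rfl, fun _ _ => rfl⟩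
  | @add U φ φ' _ _ ih ih' =>
    exact ⟨by rw [Pi.add_apply, ih.1, ih'.1, add_zero],
      fun s hs => by rw [Pi.add_apply, ih.2 s hs, ih'.2 s hs, add_zero]⟩
  | @neg U φ _ ih =>
    exact ⟨by rw [Pi.neg_apply, ih.1, neg_zero], fun s hs => by rw [Pi.neg_apply, ih.2 s hs, neg_zero]⟩
  | @step W U φ t _ _ _ ih =>
    refine ⟨?_, ?_⟩
    · rw [Finset.sum_apply]
      refine Finset.sum_eq_zero fun k _ => ?_
      rw [cj_apply, mul_one, inv_mul_cancel]
      exact ih.1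
    · intro s hs
      rw [Finset.sum_apply]
      refine Finset.sum_eq_zero fun k _ => ?_
      rw [cj_apply]
      refine ih.2 _ ?_
      have := D.conj s hs (t ^ k)⁻¹
      rwa [inv_inv] at this

theorem even_red (D : Sys Γ) (h2 : StStep2 D) (hlin : StLin D) {M : Subgroup Γ} (hM : M ∈ D.N)
    {U : Subgroup Γ} {φ : Γ → ℂ} (h : Tow 2 M (BM M) U φ) (h1 : φ 1 = 0)
    (hS : ∀ s ∈ D.S, s ∈ U → φ s = 0) : Tow 2 ⊥ (BI D) U φ := by
  obtain ⟨ψ, h3, h4⟩ := even_red_aux_G1 D h2 hM h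
  obtain ⟨h5, h6⟩ := tow_vanish_G1 D h4
  rw [Pi.sub_apply, h1, zero_sub, neg_eq_zero] at h5
  have h7 : ∀ s ∈ D.S, s ∈ U → ψ s = 0 := by
    intro s hs hsU
    have := h6 s hs
    rw [Pi.sub_apply, hS s hs hsU, zero_sub, neg_eq_zero] at this
    exact this
  have h8 := hlin h3 h5 h7
  have := h4.add h8
  rwa [sub_add_cancel] at this

end SB
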