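import Pool.Agent.Helper21.SB.St

namespace SB

variable {Γ : Type*} [Group Γ]

theorem g2_zpow_mem {p : ℕ} (hp : 0 < p) {W U : Subgroup Γ} {t : Γ} (h : IsStep p W U t) (m : ℤ) :
    t ^ m ∈ W → (p : ℤ) ∣ m := by
  intro hm
  have h1 : t ^ (m % (p : ℤ)) ∈ W := by
    have h2 : t ^ m = (t ^ p) ^ (m / (p : ℤ)) * t ^ (m % (p : ℤ)) := by
      rw [← zpow_natCast t p, ← zpow_mul, ← zpow_add]
      congr 1
      exact (Int.mul_ediv_add_emod m p).symm
    have h3 : (t ^ p) ^ (m / (p : ℤ)) ∈ W := W.zpow_mem h.pow_mem _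
    rw [h2] at hm
    exact (W.mul_mem_cancel_left h3).1 hm
  have hp' : (0 : ℤ) < p := by exact_mod_cast hp
  have h4 := Int.emod_nonneg m hp'.ne'
  have h5 := Int.emod_lt_of_pos m hp'
  obtain ⟨r, hr⟩ := Int.eq_ofNat_of_zero_le h4
  rw [hr] at h1 h5
  rw [zpow_natCast] at h1
  have h6 := h.inj r (by exact_mod_cast h5) h1
  apply Int.dvd_of_emod_eq_zero
  rw [hr, h6]
  rfl

theorem g2_kappa {p : ℕ} (hp : 0 < p) {W U : Subgroup Γ} {t : Γ} (h : IsStep p W U t) :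
    ∃ κ : U →* Multiplicative (ZMod p), ∀ g (hg : g ∈ U), κ ⟨g, hg⟩ = 1 ↔ g ∈ W := by
  have hex : ∀ u : U, ∃ n : ℤ, (t ^ n)⁻¹ * (u : Γ) ∈ W := by
    intro u
    obtain ⟨k, _, hk⟩ := h.cover u u.2
    exact ⟨k, by rwa [zpow_natCast]⟩
  choose k hk using hex
  have huniq : ∀ (g : Γ) (n m : ℤ), (t ^ n)⁻¹ * g ∈ W → (t ^ m)⁻¹ * g ∈ W →
      ((n : ℤ) : ZMod p) = ((m : ℤ) : ZMod p) := by
    intro g n m h1 h2
    have h3 : t ^ (m - n) ∈ W := by
      have h4 := W.mul_mem h1 (W.inv_mem h2)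
      have h5 : (t ^ n)⁻¹ * g * ((t ^ m)⁻¹ * g)⁻¹ = t ^ (m - n) := by
        rw [sub_eq_neg_add, zpow_add, zpow_neg]
        group
      rwa [h5] at h4
    have h6 := g2_zpow_mem hp h _ h3
    exact (ZMod.intCast_eq_intCast_iff_dvd_sub n m p).2 h6
  have hmul : ∀ (g g' : Γ) (n m : ℤ), (t ^ n)⁻¹ * g ∈ W → (t ^ m)⁻¹ * g' ∈ W →
      (t ^ (n + m))⁻¹ * (g * g') ∈ W := by
    intro g g' n m h1 h2
    have h3 : (t ^ m)⁻¹ * ((t ^ n)⁻¹ * g) * ((t ^ m)⁻¹)⁻¹ ∈ W :=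
      h.norm _ (U.inv_mem (U.zpow_mem h.mem m)) _ h1
    have h4 := W.mul_mem h3 h2
    have h5 : (t ^ m)⁻¹ * ((t ^ n)⁻¹ * g) * ((t ^ m)⁻¹)⁻¹ * ((t ^ m)⁻¹ * g') =
        (t ^ (n + m))⁻¹ * (g * g') := by
      rw [zpow_add]
      group
    rwa [h5] at h4
  refine ⟨
    { toFun := fun u => Multiplicative.ofAdd ((k u : ℤ) : ZMod p)
      map_one' := ?_
      map_mul' := ?_ }, ?_⟩
  · have h1 := huniq 1 (k 1) 0 (by simpa using hk 1) (by simp)
    change Multiplicative.ofAdd ((k 1 : ℤ) : ZMod p) = Multiplicative.ofAdd 0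
    rw [h1]
    simp
  · intro u v
    have h1 := huniq _ (k (u * v)) (k u + k v) (hk (u * v)) (hmul _ _ _ _ (hk u) (hk v))
    change Multiplicative.ofAdd ((k (u * v) : ℤ) : ZMod p) =
      Multiplicative.ofAdd (((k u : ℤ) : ZMod p) + ((k v : ℤ) : ZMod p))
    rw [h1, Int.cast_add]
  · intro g hg
    change Multiplicative.ofAdd ((k ⟨g, hg⟩ : ℤ) : ZMod p) = Multiplicative.ofAdd 0 ↔ g ∈ W
    rw [Multiplicative.ofAdd.injective.eq_iff]
    constructor
    · intro h1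
      have h2 : (p : ℤ) ∣ k ⟨g, hg⟩ := (ZMod.intCast_zmod_eq_zero_iff_dvd _ p).1 h1
      obtain ⟨q, hq⟩ := h2
      have h3 := hk ⟨g, hg⟩
      have h4 : t ^ (k ⟨g, hg⟩) ∈ W := by
        rw [hq, zpow_mul, zpow_natCast]
        exact W.zpow_mem h.pow_mem q
      have h5 := W.mul_mem h4 h3
      rwa [mul_inv_cancel_left] at h5
    · intro h1
      have h2 := huniq g (k ⟨g, hg⟩) 0 (hk ⟨g, hg⟩) (by simpa using h1)
      simpa using h2

/-- The characters of `U` with kernel containing `W`. -/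
noncomputable def g2eta {p : ℕ} [NeZero p] {U : Subgroup Γ} (κ : U →* Multiplicative (ZMod p)) (j : ZMod p) :
    U →* ℂˣ :=
  MonoidHom.toHomUnits (((AddChar.mulShift (ZMod.stdAddChar (N := p)) j).toMonoidHom).comp κ)

theorem g2eta_apply {p : ℕ} [NeZero p] {U : Subgroup Γ} (κ : U →* Multiplicative (ZMod p)) (j : ZMod p) (u : U) :
    ((g2eta κ j u : ℂˣ) : ℂ) = ZMod.stdAddChar (N := p) (j * Multiplicative.toAdd (κ u)) := rfl

theorem g2eta_pow {p : ℕ} [NeZero p] {U : Subgroup Γ} (κ : U →* Multiplicative (ZMod p)) (j : ZMod p) (u : U) :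
    g2eta κ j u ^ p = 1 := by
  rw [Units.ext_iff, Units.val_pow_eq_pow_val, g2eta_apply, ← AddChar.map_nsmul_eq_pow]
  simp

theorem g2eta_ker {p : ℕ} [NeZero p] {U : Subgroup Γ} (κ : U →* Multiplicative (ZMod p)) (j : ZMod p) (u : U)
    (h : κ u = 1) : g2eta κ j u = 1 := by
  rw [Units.ext_iff, g2eta_apply, h]
  simp

theorem g2_conj_mem {p : ℕ} {W U : Subgroup Γ} {t : Γ} (h : IsStep p W U t) (k : ℕ) (g : Γ) :
    (t ^ k)⁻¹ * g * t ^ k ∈ W ↔ g ∈ W := by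
  constructor
  · intro h1
    have h2 := h.norm _ (U.pow_mem h.mem k) _ h1
    have h3 : t ^ k * ((t ^ k)⁻¹ * g * t ^ k) * (t ^ k)⁻¹ = g := by group
    rwa [h3] at h2
  · intro h1
    have h2 := h.norm _ (U.inv_mem (U.pow_mem h.mem k)) _ h1
    rwa [inv_inv] at h2

/-- Induction of the restriction of a character. -/
theorem g2_sum {p : ℕ} [NeZero p] {W U : Subgroup Γ} {t : Γ} (h : IsStep p W U t)
    (κ : U →* Multiplicative (ZMod p)) (hκ : ∀ g (hg : g ∈ U), κ ⟨g, hg⟩ = 1 ↔ g ∈ W) (θ : U →* ℂˣ) :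
    (∑ k ∈ Finset.range p, cj (t ^ k) (ext W (θ.comp (Subgroup.inclusion h.le)))) =
      ∑ j : ZMod p, ext U (θ * g2eta κ j) := by
  funext g
  rw [Finset.sum_apply, Finset.sum_apply]
  by_cases hW : g ∈ W
  · have hU := h.le hW
    have h1 : ∀ k ∈ Finset.range p, cj (t ^ k) (ext W (θ.comp (Subgroup.inclusion h.le))) g =
        ((θ ⟨g, hU⟩ : ℂˣ) : ℂ) := by
      intro k _
      have h2 := (g2_conj_mem h k g).2 hW
      rw [cj_apply, ext_mem _ h2]
      have h3 : (θ.comp (Subgroup.inclusion h.le)) ⟨(t ^ k)⁻¹ * g * t ^ k, h2⟩ =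
          θ (⟨t ^ k, U.pow_mem h.mem k⟩⁻¹ * ⟨g, hU⟩ * ⟨t ^ k, U.pow_mem h.mem k⟩) := rfl
      rw [h3, map_mul, map_mul, map_inv]
      congr 1
      rw [mul_comm, mul_inv_cancel_left]
    rw [Finset.sum_congr rfl h1, Finset.sum_const, Finset.card_range]
    have h4 : ∀ j ∈ Finset.univ, ext U (θ * g2eta κ j) g = ((θ ⟨g, hU⟩ : ℂˣ) : ℂ) := by
      intro j _
      rw [ext_mem _ hU, MonoidHom.mul_apply, g2eta_ker κ j _ ((hκ g hU).2 hW), mul_one]
    rw [Finset.sum_congr rfl h4, Finset.sum_const, Finset.card_univ, ZMod.card]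
  · have h1 : ∀ k ∈ Finset.range p, cj (t ^ k) (ext W (θ.comp (Subgroup.inclusion h.le))) g = 0 := by
      intro k _
      rw [cj_apply, ext_not_mem]
      rwa [g2_conj_mem h k g]
    rw [Finset.sum_congr rfl h1, Finset.sum_const_zero]
    by_cases hU : g ∈ U
    · have h4 : ∀ j ∈ Finset.univ, ext U (θ * g2eta κ j) g =
          ((θ ⟨g, hU⟩ : ℂˣ) : ℂ) * ZMod.stdAddChar (N := p) (j * Multiplicative.toAdd (κ ⟨g, hU⟩)) := by
        intro j _
        rw [ext_mem _ hU, MonoidHom.mul_apply, Units.val_mul, g2eta_apply]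
      rw [Finset.sum_congr rfl h4, ← Finset.mul_sum, AddChar.sum_mulShift _ (ZMod.isPrimitive_stdAddChar p)]
      rw [if_neg, Nat.cast_zero, mul_zero]
      intro h5
      exact hW ((hκ g hU).1 h5)
    · rw [Finset.sum_congr rfl (fun j _ => ext_not_mem _ hU), Finset.sum_const_zero]

/-- Elements of the tower of differences vanish at `1` and on `S`. -/
theorem g2_vanish (D : Sys Γ) {p : ℕ} {M U : Subgroup Γ} {φ : Γ → ℂ} (h : Tow p M (BI D) U φ) :
    φ 1 = 0 ∧ ∀ s ∈ D.S, φ s = 0 := by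
  induction h with
  | @base U φ h =>
    obtain ⟨χ, χ', _, _, hs, rfl⟩ := h
    refine ⟨?_, fun s hS => ?_⟩
    · rw [Pi.sub_apply, ext_mem χ U.one_mem, ext_mem χ' U.one_mem]
      have h1 : (⟨1, U.one_mem⟩ : U) = 1 := rfl
      rw [h1, map_one, map_one, sub_self]
    · rw [Pi.sub_apply]
      by_cases hU : s ∈ U
      · rw [ext_mem χ hU, ext_mem χ' hU, hs s hU hS, sub_self]
      · rw [ext_not_mem χ hU, ext_not_mem χ' hU, sub_self]
  | zero U => exact ⟨rfl, fun _ _ => rfl⟩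
  | add _ _ ih1 ih2 =>
    refine ⟨?_, fun s hS => ?_⟩
    · rw [Pi.add_apply, ih1.1, ih2.1, add_zero]
    · rw [Pi.add_apply, ih1.2 s hS, ih2.2 s hS, add_zero]
  | neg _ ih =>
    refine ⟨?_, fun s hS => ?_⟩
    · rw [Pi.neg_apply, ih.1, neg_zero]
    · rw [Pi.neg_apply, ih.2 s hS, neg_zero]
  | step t hst hM _ ih =>
    refine ⟨?_, fun s hS => ?_⟩
    · rw [Finset.sum_apply]
      apply Finset.sum_eq_zero
      intro k _
      rw [cj_apply, mul_one, inv_mul_cancel]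
      exact ih.1
    · rw [Finset.sum_apply]
      apply Finset.sum_eq_zero
      intro k _
      rw [cj_apply]
      apply ih.2
      have := D.conj s hS (t ^ k)⁻¹
      rwa [inv_inv] at this

theorem g2_sum_cj_sub (p : ℕ) (t : Γ) (φ ψ : Γ → ℂ) :
    (∑ k ∈ Finset.range p, cj (t ^ k) (φ - ψ)) =
      (∑ k ∈ Finset.range p, cj (t ^ k) φ) - ∑ k ∈ Finset.range p, cj (t ^ k) ψ := by
  rw [← Finset.sum_sub_distrib]
  rfl

theorem g2_sum_cj_zsmul (p : ℕ) (t : Γ) (φ : Γ → ℂ) (n : ℤ) :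
    (∑ k ∈ Finset.range p, cj (t ^ k) (n • φ)) = n • ∑ k ∈ Finset.range p, cj (t ^ k) φ := by
  rw [Finset.smul_sum]
  rfl

theorem odd_red (D : Sys Γ) {p : ℕ} (hp : p.Prime) (hp2 : p ≠ 2) {M : Subgroup Γ} (hM : M ∈ D.N)
    {U : Subgroup Γ} {φ : Γ → ℂ} (h : Tow p M (BM M) U φ)
    (hc : ∀ s ∈ D.S, ∀ s' ∈ D.S, s ∈ U → s' ∈ U → s ∉ M → s' ∉ M → s⁻¹ * s' ∈ M)
    (h1 : φ 1 = 0) (hS : ∀ s ∈ D.S, s ∈ U → φ s = 0) : Tow p ⊥ (BI D) U φ := by
  have : NeZero p := ⟨hp.pos.ne'⟩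
  have hMn := D.normal M hM
  obtain ⟨M', hM', hM'M, x, hx1, hx2⟩ := D.nt M hM ⊤ le_top {s | s ∈ D.S ∧ s ∉ M} (fun s hs => hs.1)
    (fun s _ => Subgroup.mem_top s)
    (fun s hs u _ => ⟨D.conj s hs.1 u, fun h => hs.2 (by
      have h2 := hMn.conj_mem _ h u⁻¹
      have h3 : u⁻¹ * (u * s * u⁻¹) * u⁻¹⁻¹ = s := by group
      rwa [h3] at h2)⟩)
    (fun s hs s' hs' hss => ⟨hs', fun h => hs.2 (by
      have h2 := M.mul_mem h (M.inv_mem hss)
      have h3 : s' * (s⁻¹ * s')⁻¹ = s := by group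
      rwa [h3] at h2)⟩)
  -- the sign character on subgroups
  let ε : ∀ W : Subgroup Γ, W →* ℂˣ := fun W => (qc x).comp (Subgroup.inclusion le_top)
  have hεval : ∀ (W : Subgroup Γ) (g : Γ) (hg : g ∈ W), ε W ⟨g, hg⟩ = qc x ⟨g, Subgroup.mem_top g⟩ :=
    fun _ _ _ => rfl
  have hεS : ∀ (W : Subgroup Γ) (s : Γ) (hs : s ∈ W), s ∈ D.S → s ∉ M → ε W ⟨s, hs⟩ = -1 := by
    intro W s hs hsS hsM
    rw [hεval]
    have h2 := (hx2 s (Subgroup.mem_top s) hsS).2 ⟨hsS, hsM⟩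
    rw [Units.ext_iff]
    simp [qc, h2]
  have hεS1 : ∀ (W : Subgroup Γ) (s : Γ) (hs : s ∈ W), s ∈ D.S → s ∈ M → ε W ⟨s, hs⟩ = 1 := by
    intro W s hs hsS hsM
    rw [hεval]
    have h2 : x ⟨s, Subgroup.mem_top s⟩ = 1 := by
      rcases Int.units_eq_one_or (x ⟨s, Subgroup.mem_top s⟩) with h3 | h3
      · exact h3
      · exact absurd hsM ((hx2 s (Subgroup.mem_top s) hsS).1 h3).2
    rw [Units.ext_iff]
    simp [qc, h2]
  have hεM : ∀ (W : Subgroup Γ) (s : Γ) (hs : s ∈ W), s ∈ M' → ε W ⟨s, hs⟩ = 1 := by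
    intro W s hs hsM
    rw [hεval]
    have h2 := hx1 s (Subgroup.mem_top s) hsM
    rw [Units.ext_iff]
    simp [qc, h2]
  have hopε : ∀ W : Subgroup Γ, M ≤ W → OpC D W (ε W) :=
    fun W hW => ⟨M', hM', hM'M.trans hW, fun g hg hgM => hεM W g hg hgM⟩
  have hop1 : ∀ W : Subgroup Γ, M ≤ W → OpC D W 1 :=
    fun W hW => ⟨M, hM, hW, fun g hg hgM => rfl⟩
  -- the step for a character
  have hstep : ∀ (W V : Subgroup Γ) (t : Γ) (hst : IsStep p W V t) (_ : M ≤ W) (θ : V →* ℂˣ) (_ : OpC D V θ)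
      (_ : ∃ M'' ∈ D.N, M'' ≤ W ∧ ∀ g (hg : g ∈ V), g ∈ M'' → θ ⟨g, hg⟩ = 1),
      Tow p ⊥ (BI D) V ((∑ k ∈ Finset.range p, cj (t ^ k) (ext W (θ.comp (Subgroup.inclusion hst.le)))) -
        (p : ℤ) • ext V θ) := by
    intro W V t hst _ θ hθ hθ2
    obtain ⟨κ, hκ⟩ := g2_kappa hp.pos hst
    rw [g2_sum hst κ hκ θ]
    have h2 : (p : ℤ) • ext V θ = ∑ _j : ZMod p, ext V θ := by
      rw [Finset.sum_const, Finset.card_univ, ZMod.card, natCast_zsmul]
    rw [h2, ← Finset.sum_sub_distrib]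
    apply Tow.sum
    intro j _
    apply Tow.base
    refine ⟨θ * g2eta κ j, θ, ?_, hθ, ?_, rfl⟩
    · obtain ⟨M'', h3, h4, h5⟩ := hθ2
      refine ⟨M'', h3, h4.trans hst.le, fun g hg hgM => ?_⟩
      rw [MonoidHom.mul_apply, h5 g hg hgM, g2eta_ker κ j _ ((hκ g hg).2 (h4 hgM)), one_mul]
    · intro s hs hsS
      have h3 : g2eta κ j ⟨s, hs⟩ ^ p = 1 := g2eta_pow κ j _
      have h4 : g2eta κ j ⟨s, hs⟩ ^ 2 = 1 := by
        have h5 : (⟨s, hs⟩ : V) ^ 2 = 1 := by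
          rw [pow_two]
          exact Subtype.ext (D.sq s hsS)
        rw [← map_pow, h5, map_one]
      have h5 : Nat.Coprime p 2 := by
        rcases hp.eq_two_or_odd' with h6 | h6
        · exact absurd h6 hp2
        · exact Nat.coprime_two_right.2 h6
      have h6 : g2eta κ j ⟨s, hs⟩ = 1 := by
        have h7 : orderOf (g2eta κ j ⟨s, hs⟩) ∣ Nat.gcd p 2 :=
          Nat.dvd_gcd (orderOf_dvd_of_pow_eq_one h3) (orderOf_dvd_of_pow_eq_one h4)
        rw [Nat.Coprime.gcd_eq_one h5] at h7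
        exact orderOf_eq_one_iff.1 (Nat.dvd_one.1 h7)
      rw [MonoidHom.mul_apply, h6, mul_one]
  -- the claim
  have claim : ∀ (W : Subgroup Γ) (ψ : Γ → ℂ), Tow p M (BM M) W ψ →
      (∀ s ∈ D.S, ∀ s' ∈ D.S, s ∈ W → s' ∈ W → s ∉ M → s' ∉ M → s⁻¹ * s' ∈ M) →
      ∃ a b : ℤ, (M ≤ W ∨ (a = 0 ∧ b = 0)) ∧ Tow p ⊥ (BI D) W (ψ - a • ext W 1 - b • ext W (ε W)) := by
    intro W ψ hψ
    induction hψ with
    | @base W ψ hb =>
      intro hcW
      obtain ⟨hMW, χ, hχ, rfl⟩ := hb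
      have hopχ : OpC D W χ := ⟨M, hM, hMW, hχ⟩
      by_cases he : ∃ s ∈ D.S, s ∈ W ∧ s ∉ M
      · obtain ⟨s0, hs0, hs0W, hs0M⟩ := he
        have hall : ∀ s (hs : s ∈ W), s ∈ D.S → s ∉ M → χ ⟨s, hs⟩ = χ ⟨s0, hs0W⟩ := by
          intro s hs hsS hsM
          have h2 := hcW s0 hs0 s hsS hs0W hs hs0M hsM
          have h3 : (⟨s, hs⟩ : W) = ⟨s0, hs0W⟩ * ⟨s0⁻¹ * s, W.mul_mem (W.inv_mem hs0W) hs⟩ := by
            apply Subtype.ext
            change s = s0 * (s0⁻¹ * s)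
            rw [mul_inv_cancel_left]
          rw [h3, map_mul, hχ _ _ h2, mul_one]
        have hsq : χ ⟨s0, hs0W⟩ ^ 2 = 1 := by
          have h5 : (⟨s0, hs0W⟩ : W) ^ 2 = 1 := by
            rw [pow_two]
            exact Subtype.ext (D.sq s0 hs0)
          rw [← map_pow, h5, map_one]
        have hcase : χ ⟨s0, hs0W⟩ = 1 ∨ χ ⟨s0, hs0W⟩ = -1 := by
          rw [Units.ext_iff, Units.ext_iff]
          rw [Units.ext_iff] at hsq
          simpa using hsq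
        rcases hcase with h2 | h2
        · refine ⟨1, 0, Or.inl hMW, ?_⟩
          rw [one_smul, zero_smul, sub_zero]
          refine Tow.base ⟨χ, 1, hopχ, hop1 W hMW, ?_, rfl⟩
          intro s hs hsS
          by_cases hsM : s ∈ M
          · rw [hχ s hs hsM]
            rfl
          · rw [hall s hs hsS hsM, h2]
            rfl
        · refine ⟨0, 1, Or.inl hMW, ?_⟩
          rw [one_smul, zero_smul, sub_zero]
          refine Tow.base ⟨χ, ε W, hopχ, hopε W hMW, ?_, rfl⟩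
          intro s hs hsS
          by_cases hsM : s ∈ M
          · rw [hχ s hs hsM, hεS1 W s hs hsS hsM]
          · rw [hall s hs hsS hsM, h2, hεS W s hs hsS hsM]
      · refine ⟨1, 0, Or.inl hMW, ?_⟩
        rw [one_smul, zero_smul, sub_zero]
        refine Tow.base ⟨χ, 1, hopχ, hop1 W hMW, ?_, rfl⟩
        intro s hs hsS
        by_cases hsM : s ∈ M
        · rw [hχ s hs hsM]
          rfl
        · exact absurd ⟨s, hsS, hs, hsM⟩ he
    | zero W =>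
      intro _
      refine ⟨0, 0, Or.inr ⟨rfl, rfl⟩, ?_⟩
      rw [zero_smul, zero_smul, sub_zero, sub_zero]
      exact Tow.zero W
    | @add W ψ1 ψ2 _ _ ih1 ih2 =>
      intro hcW
      obtain ⟨a1, b1, hm1, ht1⟩ := ih1 hcW
      obtain ⟨a2, b2, hm2, ht2⟩ := ih2 hcW
      refine ⟨a1 + a2, b1 + b2, ?_, ?_⟩
      · rcases hm1 with hm1 | hm1
        · exact Or.inl hm1
        · rcases hm2 with hm2 | hm2
          · exact Or.inl hm2
          · exact Or.inr ⟨by rw [hm1.1, hm2.1]; rfl, by rw [hm1.2, hm2.2]; rfl⟩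
      · have h2 := ht1.add ht2
        have h3 : ψ1 + ψ2 - (a1 + a2) • ext W 1 - (b1 + b2) • ext W (ε W) =
            (ψ1 - a1 • ext W 1 - b1 • ext W (ε W)) + (ψ2 - a2 • ext W 1 - b2 • ext W (ε W)) := by
          rw [add_smul, add_smul]
          abel
        rw [h3]
        exact h2
    | @neg W ψ _ ih =>
      intro hcW
      obtain ⟨a, b, hm, ht⟩ := ih hcW
      refine ⟨-a, -b, ?_, ?_⟩
      · rcases hm with hm | hm
        · exact Or.inl hm
        · exact Or.inr ⟨by rw [hm.1]; rfl, by rw [hm.2]; rfl⟩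
      · have h3 : -ψ - (-a) • ext W 1 - (-b) • ext W (ε W) = -(ψ - a • ext W 1 - b • ext W (ε W)) := by
          rw [neg_smul, neg_smul]
          abel
        rw [h3]
        exact ht.neg
    | @step W V ψ t hst hMW _ ih =>
      intro hcV
      obtain ⟨a, b, _, ht⟩ := ih (fun s hs s' hs' h2 h3 => hcV s hs s' hs' (hst.le h2) (hst.le h3))
      refine ⟨a * p, b * p, Or.inl (hMW.trans hst.le), ?_⟩
      have h2 := Tow.step (M := ⊥) t hst bot_le ht
      rw [g2_sum_cj_sub, g2_sum_cj_sub, g2_sum_cj_zsmul, g2_sum_cj_zsmul] at h2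
      have h3 := hstep W V t hst hMW 1 (hop1 V (hMW.trans hst.le)) ⟨M, hM, hMW, fun _ _ _ => rfl⟩
      have h4 := hstep W V t hst hMW (ε V) (hopε V (hMW.trans hst.le))
        ⟨M', hM', hM'M.trans hMW, fun g hg hgM => hεM V g hg hgM⟩
      have h5 : (1 : V →* ℂˣ).comp (Subgroup.inclusion hst.le) = 1 := rfl
      have h6 : (ε V).comp (Subgroup.inclusion hst.le) = ε W := rfl
      rw [h5] at h3
      rw [h6] at h4
      have h7 := (h2.add (h3.zsmul a)).add (h4.zsmul b)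
      have h8 : (∑ k ∈ Finset.range p, cj (t ^ k) ψ) - (a * (p : ℤ)) • ext V 1 - (b * (p : ℤ)) • ext V (ε V) =
          (∑ k ∈ Finset.range p, cj (t ^ k) ψ) - a • (∑ k ∈ Finset.range p, cj (t ^ k) (ext W 1)) -
            b • (∑ k ∈ Finset.range p, cj (t ^ k) (ext W (ε W))) +
            a • ((∑ k ∈ Finset.range p, cj (t ^ k) (ext W 1)) - (p : ℤ) • ext V 1) +
            b • ((∑ k ∈ Finset.range p, cj (t ^ k) (ext W (ε W))) - (p : ℤ) • ext V (ε V)) := by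
        rw [smul_sub, smul_sub, mul_smul, mul_smul]
        abel
      rw [h8]
      exact h7
  obtain ⟨a, b, hm, ht⟩ := claim U φ h hc
  have hfin : a = 0 ∧ b = 0 → Tow p ⊥ (BI D) U φ := by
    rintro ⟨rfl, rfl⟩
    rwa [zero_smul, zero_smul, sub_zero, sub_zero] at ht
  rcases hm with hm | hm
  swap
  · exact hfin hm
  have hv := g2_vanish D ht
  have hab : a + b = 0 := by
    have h2 := hv.1
    simp only [Pi.sub_apply, Pi.smul_apply] at h2
    rw [ext_mem _ U.one_mem, ext_mem _ U.one_mem, h1] at h2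
    have h3 : (⟨1, U.one_mem⟩ : U) = 1 := rfl
    rw [h3, map_one, map_one, Units.val_one, zsmul_eq_mul, zsmul_eq_mul, mul_one, mul_one] at h2
    have h4 : ((a + b : ℤ) : ℂ) = 0 := by
      push_cast
      linear_combination -h2
    exact_mod_cast h4
  by_cases he : ∃ s ∈ D.S, s ∈ U ∧ s ∉ M
  · obtain ⟨s, hsS, hsU, hsM⟩ := he
    have h2 := hv.2 s hsS
    simp only [Pi.sub_apply, Pi.smul_apply] at h2
    rw [ext_mem _ hsU, ext_mem _ hsU, hS s hsS hsU, hεS U s hsU hsS hsM, MonoidHom.one_apply, Units.val_one,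
      Units.val_neg, Units.val_one, zsmul_eq_mul, zsmul_eq_mul, mul_one] at h2
    have h4 : ((a - b : ℤ) : ℂ) = 0 := by
      push_cast
      linear_combination -h2
    have h5 : a - b = 0 := by exact_mod_cast h4
    exact hfin ⟨by omega, by omega⟩
  · have h2 : Tow p ⊥ (BI D) U (ext U 1 - ext U (ε U)) := by
      refine Tow.base ⟨1, ε U, hop1 U hm, hopε U hm, ?_, rfl⟩
      intro s hs hsS
      by_cases hsM : s ∈ M
      · rw [hεS1 U s hs hsS hsM]
        rfl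
      · exact absurd ⟨s, hsS, hs, hsM⟩ he
    have hb : b = -a := by omega
    have h3 := ht.add (h2.zsmul a)
    have h4 : φ - a • ext U 1 - b • ext U (ε U) + a • (ext U 1 - ext U (ε U)) = φ := by
      rw [hb, neg_smul, smul_sub]
      abel
    rwa [h4] at h3

end SB
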