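import Pool.Agent.Helper21.SB.St

namespace SB

/-- An element of `H` killed by `m`, with `m` prime to `p`, lies in `C` if `p`-powers of elements of `H` fall into `C`. -/
theorem mem_of_coprime {G : Type*} [Group G] {C : Subgroup G} {y : G} {m n : ℕ}
    (hm : y ^ m ∈ C) (hn : y ^ n ∈ C) (h : m.Coprime n) : y ∈ C := by
  have hb : (1 : ℤ) = (m : ℤ) * m.gcdA n + (n : ℤ) * m.gcdB n := by
    rw [← Nat.gcd_eq_gcd_ab, h]; rfl
  have : y = (y ^ m) ^ (m.gcdA n) * (y ^ n) ^ (m.gcdB n) := by
    rw [← zpow_natCast, ← zpow_natCast, ← zpow_mul, ← zpow_mul, ← zpow_add, ← hb, zpow_one]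
  rw [this]
  exact C.mul_mem (C.zpow_mem hm _) (C.zpow_mem hn _)

theorem fix_mod (G : Type*) [Group G] [Finite G] (x : G) (p : ℕ) (hp : p.Prime) :
    ∃ H : Subgroup G, Hyp p H ∧ ¬ (p : ℤ) ∣ (Nat.card {q : G ⧸ H // x • q = q} : ℤ) := by
  classical
  have : Fact p.Prime := ⟨hp⟩
  obtain ⟨a, m, hpm, hn⟩ := Nat.exists_eq_pow_mul_and_not_dvd (orderOf_pos x).ne' p hp.ne_one
  have hmp : m.Coprime p := (Nat.Prime.coprime_iff_not_dvd hp).2 hpm |>.symm
  set c : G := x ^ (p ^ a) with hc
  have hcm : c ^ m = 1 := by rw [hc, ← pow_mul, ← hn, pow_orderOf_eq_one]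
  set C : Subgroup G := Subgroup.zpowers c with hC
  have hcC : c ∈ C := Subgroup.mem_zpowers c
  have hCard : (Nat.card C).Coprime p := by
    rw [hC, Nat.card_zpowers]
    exact Nat.Coprime.coprime_dvd_left (orderOf_dvd_of_pow_eq_one hcm) hmp
  set N : Subgroup G := Subgroup.normalizer (C : Set G) with hN
  have hCN : C ≤ N := Subgroup.le_normalizer
  have hnorm : (C.subgroupOf N).Normal := Subgroup.normal_in_normalizer
  have hxN : x ∈ N := by
    rw [hN, Subgroup.mem_normalizer_iff]
    intro h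
    have h1 : x * c * x⁻¹ = c := by
      have : Commute x c := by rw [hc]; exact (Commute.refl x).pow_right _
      rw [this.eq, mul_inv_cancel_right]
    constructor
    · intro hh
      obtain ⟨k, rfl⟩ := Subgroup.mem_zpowers_iff.1 hh
      refine Subgroup.mem_zpowers_iff.2 ⟨k, ?_⟩
      rw [← conj_zpow, h1]
    · intro hh
      obtain ⟨k, hk⟩ := Subgroup.mem_zpowers_iff.1 hh
      refine Subgroup.mem_zpowers_iff.2 ⟨k, ?_⟩
      have h2 : x * (c ^ k) * x⁻¹ = c ^ k := by rw [← conj_zpow, h1]
      have h3 : x * h * x⁻¹ = x * c ^ k * x⁻¹ := by rw [h2, hk]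
      exact (mul_left_cancel (mul_right_cancel h3)).symm
  let π : N →* N ⧸ C.subgroupOf N := QuotientGroup.mk' (C.subgroupOf N)
  have hxp : IsPGroup p (Subgroup.zpowers (π ⟨x, hxN⟩)) := by
    have h0 : (π ⟨x, hxN⟩) ^ (p ^ a) = 1 := by
      rw [← map_pow]
      refine (QuotientGroup.eq_one_iff _).2 ?_
      rw [Subgroup.mem_subgroupOf]
      exact hcC
    rw [IsPGroup.iff_card]
    have h1 : orderOf (π ⟨x, hxN⟩) ∣ p ^ a := orderOf_dvd_of_pow_eq_one h0
    obtain ⟨k, _, hk⟩ := (Nat.dvd_prime_pow hp).1 h1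
    exact ⟨k, by rw [Nat.card_zpowers, hk]⟩
  obtain ⟨P, hP⟩ := hxp.exists_le_sylow
  let H' : Subgroup N := (P : Subgroup (N ⧸ C.subgroupOf N)).comap π
  let H : Subgroup G := H'.map N.subtype
  have hmemH : ∀ g (hg : g ∈ N), g ∈ H ↔ π ⟨g, hg⟩ ∈ P := by
    intro g hg
    constructor
    · rintro ⟨y, hy, rfl⟩
      exact hy
    · intro h
      exact ⟨⟨g, hg⟩, h, rfl⟩
  have hHN : H ≤ N := by
    rintro _ ⟨y, _, rfl⟩
    exact y.2
  have hCH : C ≤ H := by
    intro y hy
    rw [hmemH y (hCN hy)]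
    have : π ⟨y, hCN hy⟩ = 1 := (QuotientGroup.eq_one_iff _).2 (by rw [Subgroup.mem_subgroupOf]; exact hy)
    rw [this]
    exact P.one_mem
  have hxH : x ∈ H := by
    rw [hmemH x hxN]
    exact hP (Subgroup.mem_zpowers _)
  have hpow : ∀ y ∈ H, ∃ k, y ^ (p ^ k) ∈ C := by
    intro y hy
    have h1 := (hmemH y (hHN hy)).1 hy
    obtain ⟨k, hk⟩ := P.isPGroup' ⟨_, h1⟩
    refine ⟨k, ?_⟩
    have h2 : (π ⟨y, hHN hy⟩) ^ (p ^ k) = 1 := by
      have := congrArg Subtype.val hk
      simpa using this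
    rw [← map_pow] at h2
    have h3 := (QuotientGroup.eq_one_iff _).1 h2
    rw [Subgroup.mem_subgroupOf] at h3
    exact h3
  have hconj : ∀ h ∈ H, ∀ y ∈ C, h * y * h⁻¹ ∈ C := by
    intro h hh y hy
    exact ((Subgroup.mem_normalizer_iff.1 (hHN hh)) y).1 hy
  refine ⟨H, ⟨C, hCH, hconj, ?_, hCard, ?_⟩, ?_⟩
  · rw [hC]; infer_instance
  · have : (C.subgroupOf H).Normal := by
      constructor
      intro n hn g
      rw [Subgroup.mem_subgroupOf] at hn ⊢
      exact hconj g g.2 n hn
    have hpg : IsPGroup p (H ⧸ C.subgroupOf H) := by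
      intro q
      obtain ⟨h, rfl⟩ := QuotientGroup.mk_surjective q
      obtain ⟨k, hk⟩ := hpow h h.2
      refine ⟨k, ?_⟩
      rw [← QuotientGroup.mk_pow]
      refine (QuotientGroup.eq_one_iff _).2 ?_
      rw [Subgroup.mem_subgroupOf]
      exact hk
    obtain ⟨k, hk⟩ := IsPGroup.iff_card.1 hpg
    exact ⟨k, by rw [Subgroup.relIndex, Subgroup.index, hk]⟩
  · -- counting
    let X : Type _ := {q : G ⧸ H // c • q = q}
    have hfix : ∀ g : G, c • (QuotientGroup.mk g : G ⧸ H) = QuotientGroup.mk g ↔ g ∈ N := by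
      intro g
      have h0 : c • (QuotientGroup.mk g : G ⧸ H) = QuotientGroup.mk (c * g) := rfl
      rw [h0, eq_comm, QuotientGroup.eq]
      constructor
      · intro h
        have h1 : g⁻¹ * c * g ∈ C := by
          have h2 : g⁻¹ * c * g ∈ H := by rwa [mul_assoc]
          obtain ⟨k, hk⟩ := hpow _ h2
          refine mem_of_coprime (m := m) (n := p ^ k) ?_ hk (Nat.Coprime.pow_right k hmp)
          have h3 : (g⁻¹ * c * g) ^ m = 1 := by
            have := conj_pow (i := m) (a := g⁻¹) (b := c)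
            rw [inv_inv] at this
            rw [this, hcm]; simp
          rw [h3]; exact C.one_mem
        -- g⁻¹ C g ≤ C, equality by finiteness
        have h5 : g⁻¹ ∈ N := by
         rw [hN]
         have : Finite (C : Set G) := Subtype.finite
         refine Subgroup.mem_normalizer_fintype ?_
         intro y hy
         obtain ⟨k, rfl⟩ := Subgroup.mem_zpowers_iff.1 hy
         have := C.zpow_mem h1 k
         have h4 := conj_zpow (i := k) (a := g⁻¹) (b := c)
         rw [inv_inv] at h4 ⊢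
         rw [← h4]; exact this
        have h6 := N.inv_mem h5
        rwa [inv_inv] at h6
      · intro hg
        have h1 : g⁻¹ ∈ N := N.inv_mem hg
        have h2 := ((Subgroup.mem_normalizer_iff.1 h1) c).1 hcC
        rw [inv_inv, mul_assoc] at h2
        exact hCH h2
    have hXcard : Nat.card X = (P : Subgroup (N ⧸ C.subgroupOf N)).index := by
      have h1 : H'.index = (P : Subgroup (N ⧸ C.subgroupOf N)).index :=
        Subgroup.index_comap_of_surjective _ (QuotientGroup.mk'_surjective _)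
      rw [← h1, Subgroup.index]
      symm
      refine Nat.card_congr (Equiv.ofBijective
        (fun q : N ⧸ H' => (⟨QuotientGroup.mk ((q.out : N) : G), (hfix _).2 q.out.2⟩ : X)) ⟨?_, ?_⟩)
      · intro q q' h
        have h2 : (QuotientGroup.mk ((q.out : N) : G) : G ⧸ H) = QuotientGroup.mk ((q'.out : N) : G) :=
          congrArg Subtype.val h
        rw [QuotientGroup.eq] at h2
        have h3 : (q.out : N)⁻¹ * q'.out ∈ H' := by
          obtain ⟨y, hy, hy2⟩ := h2
          have : y = (q.out : N)⁻¹ * q'.out := Subtype.ext hy2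
          rw [← this]; exact hy
        rw [← QuotientGroup.out_eq' q, ← QuotientGroup.out_eq' q']
        exact QuotientGroup.eq.2 h3
      · rintro ⟨q, hq⟩
        obtain ⟨g, rfl⟩ := QuotientGroup.mk_surjective q
        have hg : g ∈ N := (hfix g).1 hq
        refine ⟨QuotientGroup.mk ⟨g, hg⟩, ?_⟩
        apply Subtype.ext
        obtain ⟨h, hh⟩ := QuotientGroup.mk_out_eq_mul H' ⟨g, hg⟩
        show (QuotientGroup.mk ((Quotient.out (QuotientGroup.mk ⟨g, hg⟩ : N ⧸ H') : N) : G) : G ⧸ H) = QuotientGroup.mk g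
        rw [hh]
        symm
        rw [QuotientGroup.eq]
        refine ⟨h, h.2, ?_⟩
        simp
    let f : Function.End X := fun q => ⟨x • q.1, by
      have h1 : c * x = x * c := by
        rw [hc]; exact ((Commute.refl x).pow_left _).eq
      rw [← mul_smul, h1, mul_smul, q.2]⟩
    have hf : f ^ (p ^ a) = 1 := by
      have h1 : ∀ k : ℕ, ∀ q : X, ((f ^ k) q).1 = x ^ k • q.1 := by
        intro k
        induction k with
        | zero =>
          intro q
          show q.1 = x ^ 0 • q.1
          rw [pow_zero, one_smul]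
        | succ k ih =>
          intro q
          have : (f ^ (k + 1)) q = (f ^ k) (f q) := by
            rw [pow_succ]; rfl
          rw [this, ih, pow_succ, mul_smul]
      funext q
      apply Subtype.ext
      rw [h1]
      exact q.2
    have : Finite X := Subtype.finite
    have : Fintype X := Fintype.ofFinite X
    have hmod := Equiv.Perm.card_fixedPoints_modEq (α := X) (f := f) (p := p) (n := a) hf
    rw [← Nat.card_eq_fintype_card, ← Nat.card_eq_fintype_card] at hmod
    have hcardfix : Nat.card {q : G ⧸ H // x • q = q} = Nat.card f.fixedPoints := by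
      refine Nat.card_congr ⟨fun q => ⟨⟨q.1, ?_⟩, ?_⟩, fun q => ⟨q.1.1, ?_⟩, fun q => rfl, fun q => rfl⟩
      · have : ∀ k : ℕ, x ^ k • q.1 = q.1 := by
          intro k
          induction k with
          | zero => simp
          | succ k ih => rw [pow_succ, mul_smul, q.2, ih]
        exact this _
      · exact Subtype.ext q.2
      · exact congrArg Subtype.val q.2
    intro hdiv
    rw [hcardfix] at hdiv
    have h1 : p ∣ Nat.card f.fixedPoints := by exact_mod_cast hdiv
    have h2 : p ∣ Nat.card X := (hmod.dvd_iff (dvd_refl p)).2 h1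
    rw [hXcard] at h2
    exact P.not_dvd_index h2

end SB
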