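import Pool.Agent.Helper21.SB.St

/-! Solomon's induction theorem (project SB, module J1b). -/

namespace SB

universe u

open MulAction

/-- Hyperelementary for some prime. -/
def HypP {G : Type u} [Group G] (H : Subgroup G) : Prop := ∃ p : ℕ, p.Prime ∧ Hyp p H

theorem hyp_mono {G : Type u} [Group G] [Finite G] {p : ℕ} (hp : p.Prime) {H K : Subgroup G} (hKH : K ≤ H)
    (h : Hyp p H) : Hyp p K := by
  obtain ⟨C, hCH, hn, hcyc, hcop, n, hidx⟩ := h
  refine ⟨C ⊓ K, inf_le_right, ?_, ?_, ?_, ?_⟩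
  · intro h hh c hc
    exact ⟨hn h (hKH hh) c hc.1, K.mul_mem (K.mul_mem hh hc.2) (K.inv_mem hh)⟩
  · exact isCyclic_of_injective (Subgroup.inclusion (inf_le_left : C ⊓ K ≤ C))
      (Subgroup.inclusion_injective _)
  · exact Nat.Coprime.coprime_dvd_left (Subgroup.card_dvd_of_le inf_le_left) hcop
  · have hnormal : (C.subgroupOf H).Normal := by
      refine ⟨fun c hc g => ?_⟩
      rw [Subgroup.mem_subgroupOf] at hc ⊢
      simpa using hn g g.2 c hc
    have h1 : (C.subgroupOf H).relIndex (K.subgroupOf H) ∣ (C.subgroupOf H).index :=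
      Subgroup.relIndex_dvd_index_of_normal _ _
    rw [Subgroup.relIndex_subgroupOf hKH] at h1
    have h2 : (C.subgroupOf H).index = p ^ n := hidx
    rw [h2] at h1
    obtain ⟨k, -, hk⟩ := (Nat.dvd_prime_pow hp).1 h1
    exact ⟨k, by rw [Subgroup.inf_relIndex_right]; exact hk⟩

theorem hypP_mono {G : Type u} [Group G] [Finite G] {H K : Subgroup G} (hKH : K ≤ H)
    (h : HypP H) : HypP K := by
  obtain ⟨p, hp, hh⟩ := h
  exact ⟨p, hp, hyp_mono hp hKH hh⟩

/-- Number of fixed points. -/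
noncomputable def fx (G : Type u) [Group G] (X : Type u) [MulAction G X] : G → ℤ :=
  fun g => (Nat.card {q : X // g • q = q} : ℤ)

/-- Integral combinations of the functions `fx G (G ⧸ H)` with `H` hyperelementary. -/
noncomputable def hR (G : Type u) [Group G] [Finite G] : AddSubgroup (G → ℤ) where
  carrier := {φ | ∃ a : Subgroup G → ℤ, (∀ H, a H ≠ 0 → HypP H) ∧
    ∀ g : G, ∑ᶠ H : Subgroup G, a H * fx G (G ⧸ H) g = φ g}
  zero_mem' := ⟨0, by simp, by simp⟩
  add_mem' := by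
    rintro φ ψ ⟨a, ha, ha2⟩ ⟨b, hb, hb2⟩
    refine ⟨a + b, ?_, ?_⟩
    · intro H hH
      by_cases h : a H = 0
      · apply hb H
        intro h'
        apply hH
        simp [h, h']
      · exact ha H h
    · intro g
      rw [Pi.add_apply, ← ha2 g, ← hb2 g, ← finsum_add_distrib (Set.toFinite _) (Set.toFinite _)]
      apply finsum_congr
      intro H
      rw [Pi.add_apply, add_mul]
  neg_mem' := by
    rintro φ ⟨a, ha, ha2⟩
    refine ⟨-a, ?_, ?_⟩
    · intro H hH
      apply ha H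
      intro h
      apply hH
      simp [h]
    · intro g
      rw [Pi.neg_apply, ← ha2 g, ← finsum_neg_distrib]
      apply finsum_congr
      intro H
      rw [Pi.neg_apply, neg_mul]

theorem mem_hR_gen {G : Type u} [Group G] [Finite G] {H : Subgroup G} (hH : HypP H) :
    fx G (G ⧸ H) ∈ hR G := by
  classical
  refine ⟨fun K => if K = H then 1 else 0, ?_, ?_⟩
  · intro K hK
    by_cases h : K = H
    · rw [h]; exact hH
    · simp [h] at hK
  · intro g
    rw [finsum_eq_single _ H]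
    · simp
    · intro K hK
      simp [hK]

theorem fx_orbit {G : Type u} [Group G] {X : Type u} [MulAction G X] (b : X) (g : G) :
    Nat.card {ω : {ω : X // g • ω = ω} // (Quotient.mk'' ω.1 : Quotient (orbitRel G X)) = Quotient.mk'' b}
      = Nat.card {q : G ⧸ stabilizer G b // g • q = q} := by
  symm
  have key : ∀ q : G ⧸ stabilizer G b, g • q = q → g • ofQuotientStabilizer G b q = ofQuotientStabilizer G b q := by
    intro q hq
    rw [← ofQuotientStabilizer_smul, hq]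
  have key2 : ∀ q : G ⧸ stabilizer G b,
      (Quotient.mk'' (ofQuotientStabilizer G b q) : Quotient (orbitRel G X)) = Quotient.mk'' b := by
    intro q
    rw [Quotient.eq'']
    exact ofQuotientStabilizer_mem_orbit G b q
  refine Nat.card_congr (Equiv.ofBijective
    (fun q => ⟨⟨ofQuotientStabilizer G b q.1, key q.1 q.2⟩, key2 q.1⟩) ⟨?_, ?_⟩)
  · rintro ⟨q, hq⟩ ⟨q', hq'⟩ h
    have h1 : ofQuotientStabilizer G b q = ofQuotientStabilizer G b q' := by
      have := congrArg (fun z => z.1.1) h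
      exact this
    exact Subtype.ext (injective_ofQuotientStabilizer G b h1)
  · rintro ⟨⟨ω, hω⟩, ho⟩
    rw [Quotient.eq''] at ho
    obtain ⟨k, hk⟩ := ho
    have hk' : ofQuotientStabilizer G b (k : G ⧸ stabilizer G b) = ω := hk
    refine ⟨⟨(k : G ⧸ stabilizer G b), ?_⟩, ?_⟩
    · apply injective_ofQuotientStabilizer G b
      rw [ofQuotientStabilizer_smul, hk', hω]
    · apply Subtype.ext
      apply Subtype.ext
      exact hk'

theorem fx_sum {G : Type u} [Group G] [Finite G] {X : Type u} [MulAction G X] [Finite X]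
    (r : Quotient (orbitRel G X) → X) (hr : ∀ o, (Quotient.mk'' (r o) : Quotient (orbitRel G X)) = o) (g : G) :
    fx G X g = ∑ᶠ o : Quotient (orbitRel G X), fx G (G ⧸ stabilizer G (r o)) g := by
  classical
  have := Fintype.ofFinite (Quotient (orbitRel G X))
  rw [finsum_eq_sum_of_fintype]
  have h1 : Nat.card {ω : X // g • ω = ω} = ∑ o : Quotient (orbitRel G X),
      Nat.card {ω : {ω : X // g • ω = ω} // (Quotient.mk'' ω.1 : Quotient (orbitRel G X)) = o} := by
    rw [← Nat.card_sigma]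
    exact (Nat.card_congr (Equiv.sigmaFiberEquiv
      (fun ω : {ω : X // g • ω = ω} => (Quotient.mk'' ω.1 : Quotient (orbitRel G X))))).symm
  unfold fx
  rw [h1]
  push_cast
  apply Finset.sum_congr rfl
  intro o _
  have := fx_orbit (G := G) (r o) g
  rw [hr o] at this
  rw [this]

theorem fx_mem {G : Type u} [Group G] [Finite G] {X : Type u} [MulAction G X] [Finite X]
    (h : ∀ x : X, ∃ g : G, HypP (stabilizer G (g • x))) : fx G X ∈ hR G := by
  classical
  have := Fintype.ofFinite (Quotient (orbitRel G X))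
  have h1 : ∀ o : Quotient (orbitRel G X), ∃ x : X, (Quotient.mk'' x : Quotient (orbitRel G X)) = o ∧
      HypP (stabilizer G x) := by
    intro o
    induction o using Quotient.inductionOn' with
    | h x =>
      obtain ⟨g, hg⟩ := h x
      refine ⟨g • x, ?_, hg⟩
      rw [Quotient.eq'']
      exact mem_orbit x g
  choose r hr hr2 using h1
  have h2 : fx G X = ∑ o : Quotient (orbitRel G X), fx G (G ⧸ stabilizer G (r o)) := by
    funext g
    rw [fx_sum r hr g, finsum_eq_sum_of_fintype, Finset.sum_apply]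
  rw [h2]
  exact AddSubgroup.sum_mem _ fun o _ => mem_hR_gen (hr2 o)

theorem fx_mul {G : Type u} [Group G] (X Y : Type u) [MulAction G X] [MulAction G Y] (g : G) :
    fx G (X × Y) g = fx G X g * fx G Y g := by
  unfold fx
  rw [← Nat.cast_mul, ← Nat.card_prod]
  congr 1
  refine Nat.card_congr ⟨fun q => (⟨q.1.1, ?_⟩, ⟨q.1.2, ?_⟩), fun q => ⟨(q.1.1, q.2.1), ?_⟩, ?_, ?_⟩
  · exact congrArg Prod.fst q.2
  · exact congrArg Prod.snd q.2
  · exact Prod.ext q.1.2 q.2.2
  · rintro ⟨⟨a, b⟩, h⟩; rfl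
  · rintro ⟨⟨a, h⟩, ⟨b, h'⟩⟩; rfl

theorem mul_gen_mem {G : Type u} [Group G] [Finite G] {H K : Subgroup G} (hH : HypP H) :
    fx G (G ⧸ H) * fx G (G ⧸ K) ∈ hR G := by
  have h1 : fx G (G ⧸ H) * fx G (G ⧸ K) = fx G ((G ⧸ H) × (G ⧸ K)) := by
    funext g
    rw [fx_mul]; rfl
  rw [h1]
  apply fx_mem
  rintro ⟨q, k⟩
  induction q using QuotientGroup.induction_on with
  | H z =>
    refine ⟨z⁻¹, hypP_mono (H := H) ?_ hH⟩
    intro g hg
    rw [mem_stabilizer_iff] at hg
    have h2 := congrArg Prod.fst hg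
    simp only [Prod.smul_mk] at h2
    have h3 : (z⁻¹ • (z : G ⧸ H)) = ((1 : G) : G ⧸ H) := by
      have : (z⁻¹ • (z : G ⧸ H)) = ((z⁻¹ * z : G) : G ⧸ H) := rfl
      rw [this, inv_mul_cancel]
    rw [h3] at h2
    have h4 : (g • ((1 : G) : G ⧸ H)) = ((g : G) : G ⧸ H) := by
      have : (g • ((1 : G) : G ⧸ H)) = ((g * 1 : G) : G ⧸ H) := rfl
      rw [this, mul_one]
    rw [h4] at h2
    have h5 := (QuotientGroup.eq).1 h2
    simpa using H.inv_mem h5

theorem mul_mem_hR {G : Type u} [Group G] [Finite G] {φ ψ : G → ℤ} (hφ : φ ∈ hR G) (hψ : ψ ∈ hR G) :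
    φ * ψ ∈ hR G := by
  classical
  obtain ⟨a, ha, ha2⟩ := hφ
  obtain ⟨b, hb, hb2⟩ := hψ
  have := Fintype.ofFinite (Subgroup G)
  have h1 : φ * ψ = ∑ H : Subgroup G, ∑ K : Subgroup G, (a H * b K) • (fx G (G ⧸ H) * fx G (G ⧸ K)) := by
    funext g
    rw [Pi.mul_apply, ← ha2 g, ← hb2 g, finsum_eq_sum_of_fintype, finsum_eq_sum_of_fintype,
      Finset.sum_mul_sum, Finset.sum_apply]
    apply Finset.sum_congr rfl
    intro H _
    rw [Finset.sum_apply]
    apply Finset.sum_congr rfl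
    intro K _
    simp only [Pi.smul_apply, Pi.mul_apply, smul_eq_mul]
    ring
  rw [h1]
  refine AddSubgroup.sum_mem _ fun H _ => AddSubgroup.sum_mem _ fun K _ => ?_
  by_cases h : a H = 0
  · rw [h, zero_mul, zero_smul]
    exact AddSubgroup.zero_mem _
  · exact AddSubgroup.zsmul_mem _ (mul_gen_mem (ha H h)) _

theorem exists_one_at {G : Type u} [Group G] [Finite G]
    (hfix : ∀ (x : G) (p : ℕ), p.Prime → ∃ H : Subgroup G, Hyp p H ∧
      ¬ (p : ℤ) ∣ (Nat.card {q : G ⧸ H // x • q = q} : ℤ)) (x : G) :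
    ∃ f ∈ hR G, f x = 1 := by
  let E : AddSubgroup ℤ := (hR G).map (Pi.evalAddMonoidHom (fun _ : G => ℤ) x)
  obtain ⟨d, hd⟩ := Int.subgroup_cyclic E
  have hdvd : ∀ z ∈ E, d ∣ z := by
    intro z hz
    rw [hd, AddSubgroup.mem_closure_singleton] at hz
    obtain ⟨k, hk⟩ := hz
    exact ⟨k, by rw [← hk, smul_eq_mul, mul_comm]⟩
  have hunit : d.natAbs = 1 := by
    by_contra hne
    obtain ⟨p, hp, hpd⟩ := Nat.exists_prime_and_dvd hne
    obtain ⟨H, hH, hnd⟩ := hfix x p hp
    apply hnd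
    have h1 : (fx G (G ⧸ H)) x ∈ E := ⟨fx G (G ⧸ H), mem_hR_gen ⟨p, hp, hH⟩, rfl⟩
    have h2 := hdvd _ h1
    exact (Int.natCast_dvd.2 hpd).trans h2
  have h1 : (1 : ℤ) ∈ E := by
    rw [hd, AddSubgroup.mem_closure_singleton]
    rcases Int.natAbs_eq d with h | h
    · exact ⟨1, by rw [h, hunit]; simp⟩
    · exact ⟨-1, by rw [h, hunit]; simp⟩
  obtain ⟨f, hf, hf2⟩ := h1
  exact ⟨f, hf, hf2⟩

theorem solomon (hfix : ∀ (G : Type u) [Group G] [Finite G] (x : G) (p : ℕ), p.Prime →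
      ∃ H : Subgroup G, Hyp p H ∧ ¬ (p : ℤ) ∣ (Nat.card {q : G ⧸ H // x • q = q} : ℤ))
    (G : Type u) [Group G] [Finite G] : ∃ a : Subgroup G → ℤ,
    (∀ H, a H ≠ 0 → ∃ p : ℕ, p.Prime ∧ Hyp p H) ∧
    ∀ g : G, ∑ᶠ H : Subgroup G, a H * (Nat.card {q : G ⧸ H // g • q = q} : ℤ) = 1 := by
  classical
  have h1 : ∀ s : Finset G, ∃ f ∈ hR G, ∀ x ∈ s, f x = 1 := by
    intro s
    induction s using Finset.induction_on with
    | empty => exact ⟨0, AddSubgroup.zero_mem _, by simp⟩
    | insert b s hb ih =>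
      obtain ⟨f, hf, hf1⟩ := ih
      obtain ⟨f', hf', hf1'⟩ := exists_one_at (fun x p hp => hfix G x p hp) b
      refine ⟨f + f' - f * f', AddSubgroup.sub_mem _ (AddSubgroup.add_mem _ hf hf') (mul_mem_hR hf hf'), ?_⟩
      intro x hx
      simp only [Pi.sub_apply, Pi.add_apply, Pi.mul_apply]
      rcases Finset.mem_insert.1 hx with rfl | hx
      · rw [hf1']; ring
      · rw [hf1 x hx]; ring
  have := Fintype.ofFinite G
  obtain ⟨f, ⟨a, ha, ha2⟩, hf1⟩ := h1 Finset.univ
  refine ⟨a, ha, fun g => ?_⟩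
  rw [← hf1 g (Finset.mem_univ g), ← ha2 g]
  rfl

end SB
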