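import Pool.Agent.Helper21.SB.St

/-! Solomon's theorem pulled back to a group with a normal subgroup of finite index (project SB, module J2). -/

namespace SB

universe u

theorem abExt_comap {Γ : Type u} [Group Γ] (M : Subgroup Γ) [hM : M.Normal] {p : ℕ}
    {C H : Subgroup (Γ ⧸ M)} (hCH : C ≤ H) (hn : ∀ h ∈ H, ∀ c ∈ C, h * c * h⁻¹ ∈ C) (hcyc : IsCyclic C)
    (hidx : ∃ n, C.relIndex H = p ^ n) :
    AbExt p M (C.comap (QuotientGroup.mk' M)) (H.comap (QuotientGroup.mk' M)) := by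
  refine ⟨QuotientGroup.le_comap_mk' M C, Subgroup.comap_mono hCH, ?_, ?_, ?_⟩
  · intro u hu c hc
    rw [Subgroup.mem_comap] at hu hc ⊢
    rw [map_mul, map_mul, map_inv]
    exact hn _ hu _ hc
  · intro a ha b hb
    rw [Subgroup.mem_comap] at ha hb
    rw [← QuotientGroup.eq_one_iff (N := M)]
    have h1 : (⟨_, ha⟩ : C) * ⟨_, hb⟩ = ⟨_, hb⟩ * ⟨_, ha⟩ := by
      have := IsCyclic.isMulCommutative (α := C)
      exact this.is_comm.comm _ _
    have h2 : (QuotientGroup.mk' M a) * (QuotientGroup.mk' M b) = (QuotientGroup.mk' M b) * (QuotientGroup.mk' M a) :=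
      congrArg Subtype.val h1
    change QuotientGroup.mk' M (a * b * a⁻¹ * b⁻¹) = 1
    rw [map_mul, map_mul, map_mul, h2, map_inv, map_inv]
    group
  · obtain ⟨n, hn⟩ := hidx
    refine ⟨n, ?_⟩
    rw [Subgroup.relIndex_comap, Subgroup.map_comap_eq_self_of_surjective (QuotientGroup.mk'_surjective M)]
    exact hn

theorem cyc_comap {Γ : Type u} [Group Γ] (M : Subgroup Γ) [hM : M.Normal] [Finite (Γ ⧸ M)]
    {C : Subgroup (Γ ⧸ M)} (hcyc : IsCyclic C) :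
    ∃ z ∈ C.comap (QuotientGroup.mk' M), ∀ c ∈ C.comap (QuotientGroup.mk' M), ∃ k : ℕ, (z ^ k)⁻¹ * c ∈ M := by
  obtain ⟨g, hg⟩ := hcyc.exists_generator
  obtain ⟨z, hz⟩ := QuotientGroup.mk'_surjective M (g : Γ ⧸ M)
  refine ⟨z, ?_, ?_⟩
  · rw [Subgroup.mem_comap, hz]; exact g.2
  · intro c hc
    rw [Subgroup.mem_comap] at hc
    have h1 := hg ⟨_, hc⟩
    rw [← mem_powers_iff_mem_zpowers] at h1
    obtain ⟨k, hk⟩ := h1
    refine ⟨k, ?_⟩
    have h2 : (g : Γ ⧸ M) ^ k = QuotientGroup.mk' M c := congrArg Subtype.val hk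
    rw [← hz, ← map_pow] at h2
    exact QuotientGroup.eq.1 h2

theorem card_comap {Γ : Type u} [Group Γ] (M : Subgroup Γ) [hM : M.Normal] (C : Subgroup (Γ ⧸ M)) :
    M.relIndex (C.comap (QuotientGroup.mk' M)) = Nat.card C := by
  have h1 : M = (⊥ : Subgroup (Γ ⧸ M)).comap (QuotientGroup.mk' M) := by
    rw [MonoidHom.comap_bot, QuotientGroup.ker_mk']
  have h2 : M.relIndex (C.comap (QuotientGroup.mk' M)) =
      ((⊥ : Subgroup (Γ ⧸ M)).comap (QuotientGroup.mk' M)).relIndex (C.comap (QuotientGroup.mk' M)) :=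
    congrArg (fun N => Subgroup.relIndex N (C.comap (QuotientGroup.mk' M))) h1
  rw [h2, Subgroup.relIndex_comap, Subgroup.map_comap_eq_self_of_surjective (QuotientGroup.mk'_surjective M),
    Subgroup.relIndex_bot_left]

theorem card_fix {Γ : Type u} [Group Γ] (M : Subgroup Γ) [hM : M.Normal] (H : Subgroup (Γ ⧸ M)) (g : Γ) :
    Nat.card {q : Γ ⧸ (H.comap (QuotientGroup.mk' M)) // q.out⁻¹ * g * q.out ∈ H.comap (QuotientGroup.mk' M)} =
      Nat.card {q : (Γ ⧸ M) ⧸ H // (QuotientGroup.mk' M g) • q = q} := by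
  let π := QuotientGroup.mk' M
  let φ : Γ ⧸ (H.comap π) → (Γ ⧸ M) ⧸ H := fun q => ((π q.out : Γ ⧸ M) : (Γ ⧸ M) ⧸ H)
  have hinj : Function.Injective φ := by
    intro q q' h
    have h1 := QuotientGroup.eq.1 h
    have h2 : q.out⁻¹ * q'.out ∈ H.comap π := by
      rw [Subgroup.mem_comap, map_mul, map_inv]; exact h1
    rw [← QuotientGroup.out_eq' q, ← QuotientGroup.out_eq' q']
    exact QuotientGroup.eq.2 h2
  have hsurj : Function.Surjective φ := by
    intro y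
    induction y using QuotientGroup.induction_on with
    | H y =>
      obtain ⟨x, rfl⟩ := QuotientGroup.mk'_surjective M y
      refine ⟨(x : Γ ⧸ (H.comap π)), ?_⟩
      have h1 : (((x : Γ ⧸ (H.comap π)).out : Γ) : Γ ⧸ (H.comap π)) = (x : Γ ⧸ (H.comap π)) :=
        QuotientGroup.out_eq' _
      have h2 := QuotientGroup.eq.1 h1
      rw [Subgroup.mem_comap, map_mul, map_inv] at h2
      exact QuotientGroup.eq.2 h2
  have hfix : ∀ q : Γ ⧸ (H.comap π), q.out⁻¹ * g * q.out ∈ H.comap π ↔ π g • φ q = φ q := by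
    intro q
    have h1 : π g • φ q = ((π g * π q.out : Γ ⧸ M) : (Γ ⧸ M) ⧸ H) := rfl
    rw [h1, eq_comm, QuotientGroup.eq, Subgroup.mem_comap, map_mul, map_mul, map_inv, mul_assoc]
  refine Nat.card_congr (Equiv.ofBijective (fun q => ⟨φ q.1, (hfix q.1).1 q.2⟩) ⟨?_, ?_⟩)
  · rintro ⟨q, hq⟩ ⟨q', hq'⟩ h
    exact Subtype.ext (hinj (congrArg Subtype.val h))
  · rintro ⟨y, hy⟩
    obtain ⟨q, rfl⟩ := hsurj y
    exact ⟨⟨q, (hfix q).2 hy⟩, rfl⟩

theorem ind_indicator {Γ : Type u} [Group Γ] (U : Subgroup Γ) [Finite (Γ ⧸ U)] (v : Γ → ℂ)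
    (hv : ∀ g x, v (x⁻¹ * g * x) = v g) (g : Γ) :
    Ind U (Set.indicator (U : Set Γ) v) g = v g * (Nat.card {q : Γ ⧸ U // q.out⁻¹ * g * q.out ∈ U} : ℂ) := by
  classical
  have := Fintype.ofFinite (Γ ⧸ U)
  unfold Ind
  rw [finsum_eq_sum_of_fintype]
  have h1 : ∀ q : Γ ⧸ U, Set.indicator (U : Set Γ) v (q.out⁻¹ * g * q.out) =
      if q.out⁻¹ * g * q.out ∈ U then v g else 0 := by
    intro q
    by_cases h : q.out⁻¹ * g * q.out ∈ U
    · rw [Set.indicator_of_mem (by exact h), hv, if_pos h]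
    · rw [Set.indicator_of_notMem (by exact h), if_neg h]
  rw [Finset.sum_congr rfl fun q _ => h1 q, ← Finset.sum_filter, Finset.sum_const, nsmul_eq_mul, mul_comm]
  congr 2
  rw [Nat.card_eq_fintype_card, Fintype.card_subtype]

theorem solomon_pull (hsol : StSolomon.{u}) {Γ : Type u} [Group Γ] (M : Subgroup Γ) (hM : M.Normal)
    (hf : M.FiniteIndex) :
    ∃ (m : ℕ) (a : Fin m → ℤ) (p : Fin m → ℕ) (U C : Fin m → Subgroup Γ),
      (∀ i, (p i).Prime) ∧ (∀ i, AbExt (p i) M (C i) (U i)) ∧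
      (∀ i, ∃ z ∈ C i, ∀ c ∈ C i, ∃ k : ℕ, (z ^ k)⁻¹ * c ∈ M) ∧ (∀ i, (M.relIndex (C i)).Coprime (p i)) ∧
      ∀ v : Γ → ℂ, (∀ g x, v (x⁻¹ * g * x) = v g) →
        ∀ g, v g = ∑ i, (a i : ℂ) * Ind (U i) (Set.indicator (U i : Set Γ) v) g := by
  classical
  have hfin : Finite (Γ ⧸ M) := Subgroup.finite_quotient_of_finiteIndex
  obtain ⟨a, ha, ha2⟩ := hsol (Γ ⧸ M)
  obtain ⟨m, ⟨e⟩⟩ := Finite.exists_equiv_fin {H : Subgroup (Γ ⧸ M) // a H ≠ 0}
  have hex : ∀ i : Fin m, ∃ (p : ℕ) (C : Subgroup (Γ ⧸ M)), p.Prime ∧ C ≤ (e.symm i).1 ∧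
      (∀ h ∈ (e.symm i).1, ∀ c ∈ C, h * c * h⁻¹ ∈ C) ∧ IsCyclic C ∧
      (Nat.card C).Coprime p ∧ ∃ n, C.relIndex (e.symm i).1 = p ^ n := by
    intro i
    obtain ⟨p, hp, C, h⟩ := ha (e.symm i).1 (e.symm i).2
    exact ⟨p, C, hp, h⟩
  choose p C hp hC hn hcyc hcop hidx using hex
  refine ⟨m, fun i => a (e.symm i).1, p, fun i => (e.symm i).1.comap (QuotientGroup.mk' M),
    fun i => (C i).comap (QuotientGroup.mk' M), hp, fun i => abExt_comap M (hC i) (hn i) (hcyc i) (hidx i),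
    fun i => cyc_comap M (hcyc i), fun i => ?_, ?_⟩
  · rw [card_comap]; exact hcop i
  · intro v hv g
    have hfinU : ∀ H : Subgroup (Γ ⧸ M), Finite (Γ ⧸ (H.comap (QuotientGroup.mk' M))) := by
      intro H
      have h1 : M ≤ H.comap (QuotientGroup.mk' M) := QuotientGroup.le_comap_mk' M H
      have h2 : (H.comap (QuotientGroup.mk' M)).FiniteIndex := Subgroup.finiteIndex_of_le h1
      exact Subgroup.finite_quotient_of_finiteIndex
    have h1 : ∀ i : Fin m, ((a (e.symm i).1 : ℤ) : ℂ) * Ind ((e.symm i).1.comap (QuotientGroup.mk' M))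
        (Set.indicator (((e.symm i).1.comap (QuotientGroup.mk' M) : Subgroup Γ) : Set Γ) v) g =
        v g * (((a (e.symm i).1 * (Nat.card {q : (Γ ⧸ M) ⧸ (e.symm i).1 // (QuotientGroup.mk' M g) • q = q} : ℤ) : ℤ)) : ℂ) := by
      intro i
      have := hfinU (e.symm i).1
      rw [ind_indicator _ v hv g, card_fix]
      push_cast
      ring
    rw [Finset.sum_congr rfl fun i _ => h1 i, ← Finset.mul_sum, ← Int.cast_sum]
    have h2 : ∑ i : Fin m, (a (e.symm i).1 * (Nat.card {q : (Γ ⧸ M) ⧸ (e.symm i).1 // (QuotientGroup.mk' M g) • q = q} : ℤ)) = 1 := by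
      have h3 := ha2 (QuotientGroup.mk' M g)
      have h4 := Fintype.ofFinite (Subgroup (Γ ⧸ M))
      rw [finsum_eq_sum_of_fintype] at h3
      rw [← h3]
      have h5 := Fintype.ofFinite {H : Subgroup (Γ ⧸ M) // a H ≠ 0}
      rw [Equiv.sum_comp e.symm (fun H : {H : Subgroup (Γ ⧸ M) // a H ≠ 0} =>
        a H.1 * (Nat.card {q : (Γ ⧸ M) ⧸ H.1 // (QuotientGroup.mk' M g) • q = q} : ℤ))]
      rw [← Finset.sum_subtype (Finset.univ.filter fun H : Subgroup (Γ ⧸ M) => a H ≠ 0)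
        (by intro x; simp) (fun H : Subgroup (Γ ⧸ M) =>
          a H * (Nat.card {q : (Γ ⧸ M) ⧸ H // (QuotientGroup.mk' M g) • q = q} : ℤ))]
      apply Finset.sum_filter_of_ne
      intro H _ h h'
      apply h
      rw [h', zero_mul]
    rw [h2]
    simp

end SB
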