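import Pool.Agent.Helper21.SB.St

namespace SB

variable {Γ : Type*} [Group Γ]

namespace K1aux

private theorem pow_two_unique {Q : Type*} [Group Q] (ζ : Q) (a b : ℕ) (ha : (ζ ^ a) ^ 2 = 1)
    (hb : (ζ ^ b) ^ 2 = 1) (ha1 : ζ ^ a ≠ 1) (hb1 : ζ ^ b ≠ 1) : ζ ^ a = ζ ^ b := by
  have key : ∀ c : ℕ, (ζ ^ c) ^ 2 = 1 → ζ ^ c ≠ 1 →
      ∃ r : ℤ, (2 : ℤ) * c = (orderOf ζ : ℤ) * (2 * r + 1) := by
    intro c hc hc1
    rw [← pow_mul] at hc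
    obtain ⟨m, hm⟩ := orderOf_dvd_of_pow_eq_one hc
    rcases Nat.even_or_odd' m with ⟨r, hr | hr⟩
    · exfalso
      apply hc1
      rw [← orderOf_dvd_iff_pow_eq_one]
      refine ⟨r, ?_⟩
      rw [hr] at hm
      have : c * 2 = (orderOf ζ * r) * 2 := by rw [hm]; ring
      exact Nat.eq_of_mul_eq_mul_right (by norm_num) this
    · refine ⟨r, ?_⟩
      have h2 : ((c * 2 : ℕ) : ℤ) = ((orderOf ζ * m : ℕ) : ℤ) := by rw [hm]
      rw [hr] at h2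
      push_cast at h2
      linarith
  obtain ⟨r, hr⟩ := key a ha ha1
  obtain ⟨r', hr'⟩ := key b hb hb1
  rw [pow_eq_pow_iff_modEq, Nat.modEq_iff_dvd]
  refine ⟨r' - r, ?_⟩
  have : (2 : ℤ) * ((b : ℤ) - a) = 2 * ((orderOf ζ : ℤ) * (r' - r)) := by
    rw [mul_sub, hr, hr']; ring
  linarith

private theorem mem_C {p : ℕ} (hp : p.Prime) (hp2 : p ≠ 2) {M C U : Subgroup Γ}
    (h : AbExt p M C U) {s : Γ} (hs : s * s = 1) (hsU : s ∈ U) : s ∈ C := by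
  obtain ⟨n, hn⟩ := h.idx
  have hnorm : (C.subgroupOf U).Normal := by
    refine ⟨fun c hc u => ?_⟩
    rw [Subgroup.mem_subgroupOf] at hc ⊢
    exact h.norm u u.2 c hc
  have h1 := (C.subgroupOf U).pow_index_mem (⟨s, hsU⟩ : U)
  have h2 : (C.subgroupOf U).index = p ^ n := hn
  rw [h2, Subgroup.mem_subgroupOf] at h1
  have hodd : Odd (p ^ n) := (hp.odd_of_ne_two hp2).pow
  obtain ⟨k, hk⟩ := hodd
  have h3 : ((⟨s, hsU⟩ : U) ^ (p ^ n) : U) = (⟨s, hsU⟩ : U) := by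
    have : (⟨s, hsU⟩ : U) ^ 2 = 1 := by
      apply Subtype.ext
      rw [pow_two]
      exact hs
    rw [hk, pow_add, pow_mul, this, one_pow, one_mul, pow_one]
  rw [h3] at h1
  exact h1

end K1aux

open K1aux in
theorem const_sig (D : Sys Γ) {p : ℕ} (hp : p.Prime) (hp2 : p ≠ 2) {M C U : Subgroup Γ}
    (hM : M ∈ D.N) (h : AbExt p M C U) (hz : ∃ z ∈ C, ∀ c ∈ C, ∃ k : ℕ, (z ^ k)⁻¹ * c ∈ M) :
    ∀ s ∈ D.S, ∀ s' ∈ D.S, s ∈ U → s' ∈ U → s ∉ M → s' ∉ M → s⁻¹ * s' ∈ M := by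
  intro s hs s' hs' hsU hsU' hsM hsM'
  obtain ⟨z, hzC, hz⟩ := hz
  haveI := D.normal M hM
  have hC : s ∈ C := mem_C hp hp2 h (D.sq s hs) hsU
  have hC' : s' ∈ C := mem_C hp hp2 h (D.sq s' hs') hsU'
  obtain ⟨a, ha⟩ := hz s hC
  obtain ⟨b, hb⟩ := hz s' hC'
  have e1 : ((z : Γ ⧸ M)) ^ a = (s : Γ ⧸ M) := by
    rw [← QuotientGroup.mk_pow]
    exact QuotientGroup.eq.2 ha
  have e2 : ((z : Γ ⧸ M)) ^ b = (s' : Γ ⧸ M) := by
    rw [← QuotientGroup.mk_pow]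
    exact QuotientGroup.eq.2 hb
  have q1 : ((s : Γ ⧸ M)) ^ 2 = 1 := by
    rw [← QuotientGroup.mk_pow, pow_two, D.sq s hs, QuotientGroup.mk_one]
  have q2 : ((s' : Γ ⧸ M)) ^ 2 = 1 := by
    rw [← QuotientGroup.mk_pow, pow_two, D.sq s' hs', QuotientGroup.mk_one]
  have h1 : (s : Γ ⧸ M) ≠ 1 := fun h => hsM ((QuotientGroup.eq_one_iff s).1 h)
  have h2 : (s' : Γ ⧸ M) ≠ 1 := fun h => hsM' ((QuotientGroup.eq_one_iff s').1 h)
  apply QuotientGroup.eq.1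
  rw [← e1, ← e2]
  apply pow_two_unique
  · rw [e1]; exact q1
  · rw [e2]; exact q2
  · rw [e1]; exact h1
  · rw [e2]; exact h2

end SB
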