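import Pool.Agent.Helper21.SB.A1
import Pool.Agent.Helper21.SB.A2
import Pool.Agent.Helper21.SB.D
import Pool.Agent.Helper21.SB.E
import Pool.Agent.Helper21.SB.F
import Pool.Agent.Helper21.SB.F1
import Pool.Agent.Helper21.SB.F2
import Pool.Agent.Helper21.SB.G1
import Pool.Agent.Helper21.SB.G2
import Pool.Agent.Helper21.SB.J1a
import Pool.Agent.Helper21.SB.J1b
import Pool.Agent.Helper21.SB.J2
import Pool.Agent.Helper21.SB.K1

namespace SB

universe u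

theorem gCls (Γ : Type u) [Group Γ] : StCls Γ := fun hp _ _ _ h _ hφ => cls_step hp h hφ

theorem gFin (Γ : Type u) [Group Γ] : StFin Γ := fun h hU => finiteIndex_step h hU

theorem gInd (Γ : Type u) [Group Γ] : StInd Γ := fun hp _ _ hU _ h _ hφ => Ind_step hp hU h hφ

theorem gAddit {Γ : Type u} [Group Γ] (D : Sys Γ) : StAddit D := fun x y hx hy hdis => addit D x y hx hy hdis

theorem gLin {Γ : Type u} [Group Γ] (D : Sys Γ) : StLin D := fun h h1 hS => lin_zero D (gAddit D) h h1 hS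

theorem gStable {Γ : Type u} [Group Γ] (D : Sys Γ) : StStable D := fun h χ hχ hst => step2_stable D h χ hχ hst

theorem gDisj {Γ : Type u} [Group Γ] (D : Sys Γ) : StDisj D := fun h x hx hdis =>
  step2_disj D (gStable D) h x hx hdis

theorem gStep2 {Γ : Type u} [Group Γ] (D : Sys Γ) : StStep2 D := fun h χ hχ =>
  step2 D (gAddit D) (gStable D) (gDisj D) h χ hχ

theorem gSolomon : StSolomon.{u} := fun G _ _ => solomon (fun G _ _ x p hp => fix_mod G x p hp) G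

theorem gFam {Γ : Type u} [Group Γ] (D : Sys Γ) {p : ℕ} (hp : 0 < p) {M : Subgroup Γ} (P : Subgroup Γ → Prop)
    (hP : ∀ W U t, IsStep p W U t → P U → P W) {U : Subgroup Γ} (hU : U.FiniteIndex) (hPU : P U) {φ : Γ → ℂ}
    (h : Tow p M (BI D) U φ) : Fam D P (Ind U φ) :=
  fam_of_tow (gCls Γ) (gFin Γ) (gInd Γ) D hp P hP hU hPU h

theorem gEven {Γ : Type u} [Group Γ] (D : Sys Γ) {M : Subgroup Γ} (hM : M ∈ D.N) {U : Subgroup Γ} {φ : Γ → ℂ}
    (h : Tow 2 M (BM M) U φ) (h1 : φ 1 = 0) (hS : ∀ s ∈ D.S, s ∈ U → φ s = 0) : Tow 2 ⊥ (BI D) U φ :=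
  even_red D (gStep2 D) (gLin D) hM h h1 hS

theorem gSolPull {Γ : Type u} [Group Γ] (M : Subgroup Γ) (hM : M.Normal) (hf : M.FiniteIndex) :
    ∃ (m : ℕ) (a : Fin m → ℤ) (p : Fin m → ℕ) (U C : Fin m → Subgroup Γ),
      (∀ i, (p i).Prime) ∧ (∀ i, AbExt (p i) M (C i) (U i)) ∧
      (∀ i, ∃ z ∈ C i, ∀ c ∈ C i, ∃ k : ℕ, (z ^ k)⁻¹ * c ∈ M) ∧ (∀ i, (M.relIndex (C i)).Coprime (p i)) ∧
      ∀ v : Γ → ℂ, (∀ g x, v (x⁻¹ * g * x) = v g) →
        ∀ g, v g = ∑ i, (a i : ℂ) * Ind (U i) (Set.indicator (U i : Set Γ) v) g :=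
  solomon_pull gSolomon M hM hf

end SB
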