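import Pool.Agent.Helper21.SB.St

namespace SB

variable {Γ : Type*} [Group Γ] {V : Type*} [AddCommGroup V] [Module ℂ V]

/-- the trace of an operator preserving `N` -/
theorem H1_trace [FiniteDimensional ℂ V] (f : V →ₗ[ℂ] V) (N : Submodule ℂ V)
    (hN : ∀ v ∈ N, f v ∈ N) :
    LinearMap.trace ℂ V f = LinearMap.trace ℂ N (f.restrict hN) +
      LinearMap.trace ℂ (V ⧸ N) (N.mapQ N f (fun v hv => hN v hv)) := by
  obtain ⟨g, hg⟩ := LinearMap.exists_leftInverse_of_injective N.subtype N.ker_subtype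
  have hg' : ∀ v (hv : v ∈ N), g v = ⟨v, hv⟩ := by
    intro v hv
    have := LinearMap.congr_fun hg ⟨v, hv⟩
    simpa using this
  let s : (V ⧸ N) →ₗ[ℂ] V := N.liftQ (LinearMap.id - N.subtype ∘ₗ g) (by
    intro v hv
    simp [hg' v hv])
  have hs : s ∘ₗ N.mkQ = LinearMap.id - N.subtype ∘ₗ g := Submodule.liftQ_mkQ _ _ _
  have h1 : f = (f ∘ₗ N.subtype) ∘ₗ g + (f ∘ₗ s) ∘ₗ N.mkQ := by
    have e1 : (f ∘ₗ s) ∘ₗ N.mkQ = f ∘ₗ (s ∘ₗ N.mkQ) := rfl
    have e2 : (f ∘ₗ N.subtype) ∘ₗ g = f ∘ₗ (N.subtype ∘ₗ g) := rfl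
    rw [e1, e2, hs, LinearMap.comp_sub, LinearMap.comp_id]
    abel
  have h2 : LinearMap.trace ℂ V ((f ∘ₗ N.subtype) ∘ₗ g) =
      LinearMap.trace ℂ N (f.restrict hN) := by
    rw [LinearMap.trace_comp_comm']
    congr 1
    ext v
    have : g (f v) = ⟨f v, hN v v.2⟩ := hg' _ _
    simp [this]
  have h3 : LinearMap.trace ℂ V ((f ∘ₗ s) ∘ₗ N.mkQ) =
      LinearMap.trace ℂ (V ⧸ N) (N.mapQ N f (fun v hv => hN v hv)) := by
    rw [LinearMap.trace_comp_comm']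
    congr 1
    apply Submodule.linearMap_qext
    ext v
    have e1 : s (N.mkQ v) = v - N.subtype (g v) := by
      have := LinearMap.congr_fun hs v
      simpa using this
    have e2 : N.mkQ (f ((g v : N) : V)) = 0 := by
      rw [← LinearMap.mem_ker, Submodule.ker_mkQ]
      exact hN _ (g v).2
    have e3 : N.mkQ (f (s (N.mkQ v))) = N.mkQ (f v) := by
      rw [e1, map_sub, map_sub, Submodule.subtype_apply, e2, sub_zero]
    simpa using e3
  conv_lhs => rw [h1]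
  rw [map_add, h2, h3]

theorem trf_split [FiniteDimensional ℂ V] {U : Subgroup Γ} (ρ : U →* (V →ₗ[ℂ] V)) (N : Submodule ℂ V)
    (hN : ∀ u : U, ∀ v ∈ N, ρ u v ∈ N) :
    trf U ρ = trf U (subRep le_rfl ρ N (fun w h v hv => hN ⟨w, h⟩ v hv)) + trf U (quotRep ρ N hN) := by
  classical
  funext g
  rw [Pi.add_apply]
  unfold trf
  by_cases h : g ∈ U
  · rw [dif_pos h, dif_pos h, dif_pos h]
    exact H1_trace (ρ ⟨g, h⟩) N (fun v hv => hN ⟨g, h⟩ v hv)
  · rw [dif_neg h, dif_neg h, dif_neg h, add_zero]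

end SB
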