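import Pool.Agent.Helper21.SB.St

namespace SB

open Polynomial in
theorem sgn_poly (A B : Set ℝ) (hA : A.Finite) (hB : B.Finite) (h : Disjoint A B) :
    ∃ q : Polynomial ℚ, (∀ a ∈ A, Polynomial.aeval a q < 0) ∧ (∀ b ∈ B, 0 < Polynomial.aeval b q) := by
  classical
  set Z : Finset ℝ := hA.toFinset ∪ hB.toFinset with hZ
  set r : ℝ → ℝ := fun x => if x ∈ A then -1 else 1 with hr
  set P : ℝ[X] := Lagrange.interpolate Z id r with hP
  have hPz : ∀ z ∈ Z, P.eval z = r z := by
    intro z hz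
    have := Lagrange.eval_interpolate_at_node (v := id) r Function.injective_id.injOn hz
    simpa only [id] using this
  set n : ℕ := P.natDegree with hn
  set K : ℝ := 1 + ∑ z ∈ Z, ∑ i ∈ Finset.range (n + 1), |z| ^ i with hK
  have hK0 : ∀ z ∈ Z, 0 ≤ ∑ i ∈ Finset.range (n + 1), |z| ^ i := fun z _ =>
    Finset.sum_nonneg fun i _ => pow_nonneg (abs_nonneg z) i
  have hK1 : 0 < K := by
    have := Finset.sum_nonneg hK0
    linarith
  have hKz : ∀ z ∈ Z, ∑ i ∈ Finset.range (n + 1), |z| ^ i < K := by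
    intro z hz
    have := Finset.single_le_sum hK0 hz
    linarith
  have hδ : 0 < 1 / K := by positivity
  choose c hc using fun i : ℕ => exists_rat_near (P.coeff i) hδ
  set q : ℚ[X] := ∑ i ∈ Finset.range (n + 1), C (c i) * X ^ i with hq
  have hqz : ∀ z : ℝ, Polynomial.aeval z q = ∑ i ∈ Finset.range (n + 1), (c i : ℝ) * z ^ i := by
    intro z
    rw [hq, map_sum]
    refine Finset.sum_congr rfl fun i _ => ?_
    simp
  have hclose : ∀ z ∈ Z, |P.eval z - Polynomial.aeval z q| < 1 := by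
    intro z hz
    rw [hqz, Polynomial.eval_eq_sum_range, ← Finset.sum_sub_distrib]
    calc |∑ i ∈ Finset.range (P.natDegree + 1), (P.coeff i * z ^ i - (c i : ℝ) * z ^ i)|
        ≤ ∑ i ∈ Finset.range (P.natDegree + 1), |P.coeff i * z ^ i - (c i : ℝ) * z ^ i| :=
          Finset.abs_sum_le_sum_abs _ _
      _ ≤ ∑ i ∈ Finset.range (n + 1), 1 / K * |z| ^ i := by
          refine Finset.sum_le_sum fun i _ => ?_
          rw [← sub_mul, abs_mul, abs_pow]
          exact mul_le_mul_of_nonneg_right (hc i).le (pow_nonneg (abs_nonneg z) i)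
      _ = 1 / K * ∑ i ∈ Finset.range (n + 1), |z| ^ i := by rw [Finset.mul_sum]
      _ < 1 / K * K := mul_lt_mul_of_pos_left (hKz z hz) hδ
      _ = 1 := by field_simp
  refine ⟨q, fun a ha => ?_, fun b hb => ?_⟩
  · have haZ : a ∈ Z := by
      rw [hZ, Finset.mem_union]
      exact Or.inl (hA.mem_toFinset.2 ha)
    have h1 := hPz a haZ
    have h2 := (abs_lt.1 (hclose a haZ)).1
    have h3 : r a = -1 := by rw [hr]; exact if_pos ha
    rw [h1, h3] at h2
    linarith
  · have hbZ : b ∈ Z := by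
      rw [hZ, Finset.mem_union]
      exact Or.inr (hB.mem_toFinset.2 hb)
    have h1 := hPz b hbZ
    have h2 := (abs_lt.1 (hclose b hbZ)).2
    have hbA : b ∉ A := fun hbA => Set.disjoint_left.1 h hbA hb
    have h3 : r b = 1 := by rw [hr]; exact if_neg hbA
    rw [h1, h3] at h2
    linarith

end SB
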