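import Pool.Agent.Helper60.SB.Defs3
import Pool.Agent.Helper22.SB.F0

/-!
Module U17 of MP_7fc85e_an: change of the scalar field and truncation.
-/

set_option autoImplicit false

open MeasureTheory Filter
open scoped ENNReal Real
open Pool.Agent.Helper60.SB

namespace Pool.Agent.Helper21.SB

section field

variable {𝕜 : Type} [RCLike 𝕜]

lemma map_map (z : 𝕜) : RCLike.map ℂ 𝕜 (RCLike.map 𝕜 ℂ z) = z := by
  simp [RCLike.map_apply]

lemma norm_map_le {K L : Type} [RCLike K] [RCLike L] (z : K) : ‖RCLike.map K L z‖ ≤ ‖z‖ := by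
  rw [RCLike.map_apply]
  have h1 : ‖(RCLike.re z : L) + (RCLike.im z : L) * RCLike.I‖ ^ 2 ≤ ‖z‖ ^ 2 := by
    rw [RCLike.norm_sq_eq_def (z := z), RCLike.norm_sq_eq_def]
    have e1 : RCLike.re ((RCLike.re z : L) + (RCLike.im z : L) * RCLike.I) = RCLike.re z := by
      simp
    have e2 : RCLike.im ((RCLike.re z : L) + (RCLike.im z : L) * RCLike.I) =
        RCLike.im z * RCLike.im (RCLike.I : L) := by
      simp
    rw [e1, e2]
    rcases RCLike.I_eq_zero_or_im_I_eq_one (K := L) with h | h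
    · rw [h]
      simp only [map_zero, mul_zero, add_zero]
      nlinarith [mul_self_nonneg (RCLike.im z)]
    · rw [h, mul_one]
  exact le_of_sq_le_sq h1 (norm_nonneg _)

lemma norm_map_eq (z : 𝕜) : ‖RCLike.map 𝕜 ℂ z‖ = ‖z‖ := by
  refine le_antisymm (norm_map_le z) ?_
  conv_lhs => rw [← map_map z]
  exact norm_map_le _

lemma eLpNorm_map {α : Type*} [MeasurableSpace α] (μ : Measure α) (p : ℝ≥0∞) (f : α → 𝕜) :
    eLpNorm (fun x => RCLike.map 𝕜 ℂ (f x)) p μ = eLpNorm f p μ :=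
  eLpNorm_congr_norm_ae (Eventually.of_forall fun x => norm_map_eq (f x))

lemma integral_map {α : Type*} [MeasurableSpace α] (μ : Measure α) (f : α → 𝕜) :
    ∫ x, RCLike.map 𝕜 ℂ (f x) ∂μ = RCLike.map 𝕜 ℂ (∫ x, f x ∂μ) := by
  have hL : AntilipschitzWith 1 (RCLike.map 𝕜 ℂ) :=
    AntilipschitzWith.of_le_mul_dist fun x y => by
      rw [NNReal.coe_one, one_mul, dist_eq_norm, dist_eq_norm, ← map_sub, norm_map_eq]
  exact (RCLike.map 𝕜 ℂ).integral_comp_comm' hL f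

lemma map_ofReal_mul (c : ℝ) (z : 𝕜) :
    RCLike.map 𝕜 ℂ ((c : 𝕜) * z) = (c : ℂ) * RCLike.map 𝕜 ℂ z := by
  rw [← RCLike.real_smul_eq_coe_mul, map_smul]
  exact RCLike.real_smul_eq_coe_mul c _

/-- comparison of entropy numbers -/
lemma entropy_field {d : ℕ} (n : ℕ) (F : Set ((Fin d → ℝ) → 𝕜)) (G : Set ((Fin d → ℝ) → ℂ))
    (h : ∀ f ∈ F, (fun x => RCLike.map 𝕜 ℂ (f x)) ∈ G) :
    entropyNumber n F ≤ entropyNumber n G := by
  unfold entropyNumber
  apply sInf_le_sInf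
  rintro ε ⟨hε, y, hy, hG⟩
  refine ⟨hε, fun j x => RCLike.map ℂ 𝕜 (y j x), fun j => ?_, fun f hf => ?_⟩
  · exact (RCLike.map ℂ 𝕜).comp_memLp' (hy j)
  · obtain ⟨j, hj⟩ := hG _ (h f hf)
    refine ⟨j, le_trans ?_ hj⟩
    refine eLpNorm_mono fun x => ?_
    have : (f - fun x => RCLike.map ℂ 𝕜 (y j x)) x =
        RCLike.map ℂ 𝕜 (((fun x => RCLike.map 𝕜 ℂ (f x)) - y j) x) := by
      simp only [Pi.sub_apply, map_sub, map_map]
    rw [this]
    exact norm_map_le _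

theorem entropy_W_field (d : ℕ) (𝕜 : Type) [RCLike 𝕜] (r : ℝ) (p : ℝ≥0∞) (n : ℕ) :
    entropyNumber n (Wclass d 𝕜 r p) ≤ entropyNumber n (Wclass d ℂ r p) := by
  apply entropy_field
  rintro f ⟨φ, hφ, hφ1, rfl⟩
  refine ⟨fun x => RCLike.map 𝕜 ℂ (φ x), (RCLike.map 𝕜 ℂ).comp_memLp' hφ, ?_, ?_⟩
  · rw [eLpNorm_map]; exact hφ1
  · funext x
    rw [← integral_map]
    simp_rw [map_ofReal_mul]
    rfl

lemma map_mixedDiff {d : ℕ} (l : ℕ) (e : Finset (Fin d)) (t : Fin d → ℝ)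
    (f : (Fin d → ℝ) → 𝕜) (x : Fin d → ℝ) :
    mixedDiff l e t (fun x => RCLike.map 𝕜 ℂ (f x)) x = RCLike.map 𝕜 ℂ (mixedDiff l e t f x) := by
  unfold mixedDiff
  rw [map_sum]
  refine Finset.sum_congr rfl fun ν _ => ?_
  have h1 : ∀ (K : Type) [RCLike K], (∏ j ∈ e, (-1 : K) ^ (l - ν j) * (l.choose (ν j) : K)) =
      ((∏ j ∈ e, (-1 : ℝ) ^ (l - ν j) * (l.choose (ν j) : ℝ) : ℝ) : K) := by
    intro K _
    push_cast
    rfl
  rw [h1 𝕜, map_ofReal_mul, h1 ℂ]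
  rfl

theorem entropy_H_field (d : ℕ) (𝕜 : Type) [RCLike 𝕜] (r : ℝ) (p : ℝ≥0∞) (n : ℕ) :
    entropyNumber n (Hclass d 𝕜 r p) ≤ entropyNumber n (Hclass d ℂ r p) := by
  apply entropy_field
  rintro f ⟨hm, hper, hn, hd⟩
  refine ⟨(RCLike.map 𝕜 ℂ).continuous.measurable.comp hm, fun x j => ?_, ?_, fun e t he => ?_⟩
  · show RCLike.map 𝕜 ℂ _ = RCLike.map 𝕜 ℂ _
    rw [hper]
  · rw [eLpNorm_map]; exact hn
  · have : mixedDiff (⌊r⌋₊ + 1) e t (fun x => RCLike.map 𝕜 ℂ (f x)) =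
        fun x => RCLike.map 𝕜 ℂ (mixedDiff (⌊r⌋₊ + 1) e t f x) := by
      funext x
      exact map_mixedDiff _ _ _ _ _
    rw [this, eLpNorm_map]
    exact hd e t he

end field

/-! ### convolution with the kernel -/

section conv

lemma measurable_bern (r a : ℝ) : Measurable (bern r a) := by
  unfold bern
  refine measurable_const.add (measurable_const.mul ?_)
  refine (StronglyMeasurable.limUnder fun N => ?_).measurable
  refine Measurable.stronglyMeasurable ?_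
  fun_prop

lemma measurable_Fker {d : ℕ} (r : ℝ) : Measurable (Fker (d := d) r) := by
  unfold Fker
  exact Finset.measurable_prod _ fun j _ => (measurable_bern r r).comp (measurable_pi_apply j)

lemma bern_interval (r a : ℝ) (hr : 0 < r) (s t : ℝ) :
    IntervalIntegrable (bern r a) volume s t := by
  have h1 := Helper22.SB.bern_integrable r a hr 0
  have hper : Function.Periodic (bern r a) (2 * π) := Helper22.SB.bern_periodic r a
  have h2 : IntegrableOn (fun y => bern r a (0 - y)) (Set.Ico 0 (2 * π)) volume := by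
    unfold tor1 at h1
    refine (integrable_smul_measure ?_ ?_).1 h1
    · rw [ne_eq, ENNReal.inv_eq_zero]; exact ENNReal.ofReal_ne_top
    · rw [ENNReal.inv_ne_top, ne_eq, ENNReal.ofReal_eq_zero, not_le]
      exact Real.two_pi_pos
  have h3 : IntervalIntegrable (fun y => bern r a (0 - y)) volume 0 (2 * π) := by
    rw [intervalIntegrable_iff_integrableOn_Ico_of_le Real.two_pi_pos.le]
    exact h2
  have h4 := h3.comp_sub_left 0
  have e : (fun t => bern r a (0 - (0 - t))) = bern r a := by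
    funext t
    congr 1
    ring
  rw [e] at h4
  refine hper.intervalIntegrable Real.two_pi_pos.ne' (t := -(2 * π)) ?_ s t
  have h5 : -(2 * π) + 2 * π = 0 := by ring
  rw [h5]
  have h6 := h4.symm
  simpa using h6

lemma bern_shift_integrable (r a : ℝ) (hr : 0 < r) (y : ℝ) :
    Integrable (fun x => bern r a (x - y)) tor1 := by
  refine Helper22.SB.integrable_tor1 ?_
  have h := (bern_interval r a hr (0 - y) (2 * π - y)).comp_sub_right y
  simpa using h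

lemma bern_shift_norm (r a : ℝ) (y : ℝ) :
    ∫ x, ‖bern r a (x - y)‖ ∂tor1 = ∫ x, ‖bern r a x‖ ∂tor1 := by
  have hper : Function.Periodic (fun x => ‖bern r a x‖) (2 * π) := by
    intro x
    show ‖bern r a (x + 2 * π)‖ = _
    rw [Helper22.SB.bern_periodic]
  have h1 : ∀ g : ℝ → ℝ, ∫ x, g x ∂tor1 = (2 * π)⁻¹ * ∫ x in (0 : ℝ)..(2 * π), g x := by
    intro g
    unfold tor1
    rw [integral_smul_measure, ENNReal.toReal_inv, ENNReal.toReal_ofReal Real.two_pi_pos.le,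
      intervalIntegral.integral_of_le Real.two_pi_pos.le, ← integral_Ico_eq_integral_Ioc]
    rfl
  rw [h1, h1]
  congr 1
  rw [intervalIntegral.integral_comp_sub_right (fun x => ‖bern r a x‖) y]
  have h2 := hper.intervalIntegral_add_eq (0 - y) 0
  have e1 : 0 - y + 2 * π = 2 * π - y := by ring
  have e2 : (0 : ℝ) + 2 * π = 2 * π := by ring
  rw [e1, e2] at h2
  exact h2

lemma isProb_tor1 : IsProbabilityMeasure tor1 := by
  constructor
  unfold tor1
  rw [Measure.smul_apply, Measure.restrict_apply_univ, Real.volume_Ico, sub_zero, smul_eq_mul]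
  apply ENNReal.inv_mul_cancel
  · rw [ne_eq, ENNReal.ofReal_eq_zero, not_le]
    exact Real.two_pi_pos
  · exact ENNReal.ofReal_ne_top

lemma isProb_tor (d : ℕ) : IsProbabilityMeasure (tor d) := by
  have := isProb_tor1
  unfold tor
  infer_instance

lemma Fker_shift_integrable {d : ℕ} (r : ℝ) (hr : 0 < r) (y : Fin d → ℝ) :
    Integrable (fun x => Fker r (x - y)) (tor d) := by
  have := isProb_tor1
  unfold Fker tor
  exact Integrable.fintype_prod_dep (f := fun j z => bern r r (z - y j))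
    fun j => bern_shift_integrable r r hr _

lemma Fker_shift_norm {d : ℕ} (r : ℝ) (y : Fin d → ℝ) :
    ∫ x, ‖Fker r (x - y)‖ ∂(tor d) = (∫ x, ‖bern r r x‖ ∂tor1) ^ d := by
  have := isProb_tor1
  unfold Fker tor
  have h1 : ∀ x : Fin d → ℝ, ‖∏ i, bern r r ((x - y) i)‖ = ∏ i, ‖bern r r (x i - y i)‖ := by
    intro x
    rw [norm_prod]
    rfl
  simp_rw [h1]
  rw [integral_fintype_prod_eq_prod (fun j z => ‖bern r r (z - y j)‖)]
  simp_rw [bern_shift_norm]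
  rw [Finset.prod_const, Finset.card_univ, Fintype.card_fin]

/-- the convolution integrand is integrable for almost every point -/
lemma conv_integrable {d : ℕ} {𝕜 : Type} [RCLike 𝕜] (r : ℝ) (hr : 0 < r)
    (φ : (Fin d → ℝ) → 𝕜) (hφ : Integrable φ (tor d)) :
    ∀ᵐ x ∂(tor d), Integrable (fun y => (Fker r (x - y) : 𝕜) * φ y) (tor d) := by
  have := isProb_tor d
  have hmeas : AEStronglyMeasurable (fun z : (Fin d → ℝ) × (Fin d → ℝ) =>
      (Fker r (z.1 - z.2) : 𝕜) * φ z.2) ((tor d).prod (tor d)) := by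
    refine AEStronglyMeasurable.mul ?_ hφ.1.comp_snd
    refine (Measurable.stronglyMeasurable ?_).aestronglyMeasurable
    exact RCLike.measurable_ofReal.comp ((measurable_Fker r).comp
      (measurable_fst.sub measurable_snd))
  have hint : Integrable (fun z : (Fin d → ℝ) × (Fin d → ℝ) =>
      (Fker r (z.1 - z.2) : 𝕜) * φ z.2) ((tor d).prod (tor d)) := by
    rw [integrable_prod_iff' hmeas]
    constructor
    · refine Eventually.of_forall fun y => ?_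
      show Integrable (fun x => (Fker r (x - y) : 𝕜) * φ y) (tor d)
      have h0 : Integrable (fun x => (Fker r (x - y) : 𝕜)) (tor d) :=
        (Fker_shift_integrable r hr y).ofReal
      exact h0.mul_const (φ y)
    · have h1 : ∀ y : Fin d → ℝ, ∫ x, ‖(Fker r (x - y) : 𝕜) * φ y‖ ∂(tor d) =
          (∫ x, ‖bern r r x‖ ∂tor1) ^ d * ‖φ y‖ := by
        intro y
        simp_rw [norm_mul, RCLike.norm_ofReal]
        rw [integral_mul_const, ← Fker_shift_norm (d := d) r y]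
        rfl
      simp_rw [h1]
      exact hφ.norm.const_mul _
  exact hint.prod_right_ae

end conv

/-! ### truncation -/

section trunc

variable {𝕜 : Type} [RCLike 𝕜]

/-- the large part -/
noncomputable def big (A : ℝ) (z : 𝕜) : 𝕜 := if A < ‖z‖ then z else 0

lemma measurable_big (A : ℝ) : Measurable (big A : 𝕜 → 𝕜) := by
  unfold big
  exact Measurable.ite (measurableSet_lt measurable_const measurable_norm) measurable_id
    measurable_const

lemma norm_big_le (A : ℝ) (hA : 0 < A) (z : 𝕜) : ‖big A z‖ ≤ A⁻¹ * ‖z‖ ^ (2 : ℝ) := by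
  unfold big
  rw [Real.rpow_two]
  split_ifs with h
  · rw [inv_mul_eq_div, le_div_iff₀ hA, sq]
    exact mul_le_mul_of_nonneg_left h.le (norm_nonneg _)
  · rw [norm_zero]; positivity

lemma norm_sub_big_le (A : ℝ) (hA : 0 < A) (z : 𝕜) : ‖z - big A z‖ ≤ A := by
  unfold big
  split_ifs with h
  · rw [sub_self, norm_zero]; exact hA.le
  · rw [sub_zero]; exact not_lt.1 h

lemma entropy_combine {d : ℕ} (n : ℕ) (A : ℝ) (hA : 0 < A) (F F₁ F₂ : Set ((Fin d → ℝ) → 𝕜))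
    (h : ∀ f ∈ F, ∃ f₁ ∈ F₁, ∃ f₂ ∈ F₂, ∀ᵐ x ∂(tor d),
      f x = (A⁻¹ : ℝ) • f₁ x + A • f₂ x) :
    entropyNumber (n + n) F ≤
      ENNReal.ofReal A⁻¹ * entropyNumber n F₁ + ENNReal.ofReal A * entropyNumber n F₂ := by
  have hA' : (0 : ℝ) < A⁻¹ := inv_pos.2 hA
  have key : ∀ ε₁ ε₂ : ℝ≥0∞,
      (0 < ε₁ ∧ ∃ y : Fin (2 ^ n) → (Fin d → ℝ) → 𝕜, (∀ j, MemLp (y j) ⊤ (tor d)) ∧
        ∀ f ∈ F₁, ∃ j, eLpNorm (f - y j) ⊤ (tor d) ≤ ε₁) →
      (0 < ε₂ ∧ ∃ y : Fin (2 ^ n) → (Fin d → ℝ) → 𝕜, (∀ j, MemLp (y j) ⊤ (tor d)) ∧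
        ∀ f ∈ F₂, ∃ j, eLpNorm (f - y j) ⊤ (tor d) ≤ ε₂) →
      entropyNumber (n + n) F ≤ ENNReal.ofReal A⁻¹ * ε₁ + ENNReal.ofReal A * ε₂ := by
    rintro ε₁ ε₂ ⟨hε₁, y₁, hy₁, hF₁⟩ ⟨hε₂, y₂, hy₂, hF₂⟩
    unfold entropyNumber
    apply sInf_le
    have e : 2 ^ (n + n) = 2 ^ n * 2 ^ n := pow_add 2 n n
    let g : Fin (2 ^ (n + n)) ≃ Fin (2 ^ n) × Fin (2 ^ n) :=
      (finCongr e).trans finProdFinEquiv.symm
    refine ⟨?_, fun k => (A⁻¹ : ℝ) • y₁ (g k).1 + A • y₂ (g k).2, fun k => ?_, fun f hf => ?_⟩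
    · have : 0 < ENNReal.ofReal A⁻¹ * ε₁ :=
        ENNReal.mul_pos (ENNReal.ofReal_pos.2 hA').ne' hε₁.ne'
      exact lt_of_lt_of_le this le_self_add
    · exact ((hy₁ _).const_smul _).add ((hy₂ _).const_smul _)
    · obtain ⟨f₁, hf₁, f₂, hf₂, hae⟩ := h f hf
      obtain ⟨j₁, hj₁⟩ := hF₁ f₁ hf₁
      obtain ⟨j₂, hj₂⟩ := hF₂ f₂ hf₂
      refine ⟨g.symm (j₁, j₂), ?_⟩
      simp only [Equiv.apply_symm_apply]
      have h1 : f - ((A⁻¹ : ℝ) • y₁ j₁ + A • y₂ j₂) =ᵐ[tor d]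
          (A⁻¹ : ℝ) • (f₁ - y₁ j₁) + A • (f₂ - y₂ j₂) := by
        filter_upwards [hae] with x hx
        simp only [Pi.sub_apply, Pi.add_apply, Pi.smul_apply, hx, smul_sub]
        abel
      rw [eLpNorm_congr_ae h1, eLpNorm_exponent_top]
      refine eLpNormEssSup_add_le.trans ?_
      refine add_le_add ?_ ?_
      · rw [← eLpNorm_exponent_top, eLpNorm_const_smul, Real.enorm_eq_ofReal hA'.le]
        gcongr
      · rw [← eLpNorm_exponent_top, eLpNorm_const_smul, Real.enorm_eq_ofReal hA.le]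
        gcongr
  conv_rhs => unfold entropyNumber
  rw [sInf_eq_iInf', sInf_eq_iInf', ENNReal.mul_iInf_of_ne (ENNReal.ofReal_pos.2 hA').ne'
    ENNReal.ofReal_ne_top, ENNReal.mul_iInf_of_ne (ENNReal.ofReal_pos.2 hA).ne'
    ENNReal.ofReal_ne_top, ENNReal.iInf_add]
  refine le_iInf fun ε₁ => ?_
  rw [ENNReal.add_iInf]
  exact le_iInf fun ε₂ => key _ _ ε₁.2 ε₂.2

theorem W_trunc (d : ℕ) (𝕜 : Type) [RCLike 𝕜] (r : ℝ) (hr : 0 < r) (A : ℝ) (hA : 0 < A) (n : ℕ) :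
    entropyNumber (n + n) (Wclass d 𝕜 r 4) ≤
      ENNReal.ofReal A⁻¹ * entropyNumber n (Wclass d 𝕜 r 2) +
        ENNReal.ofReal A * entropyNumber n (Wclass d 𝕜 r ⊤) := by
  have := isProb_tor d
  have hA' : (0 : ℝ) < A⁻¹ := inv_pos.2 hA
  apply entropy_combine n A hA
  rintro f ⟨φ, hφ, hφ1, rfl⟩
  set φ₁ : (Fin d → ℝ) → 𝕜 := fun y => big A (φ y) with hφ₁
  set φ₂ : (Fin d → ℝ) → 𝕜 := fun y => φ y - big A (φ y) with hφ₂
  have hm₁ : AEStronglyMeasurable φ₁ (tor d) :=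
    ((measurable_big A).comp_aemeasurable hφ.1.aemeasurable).aestronglyMeasurable
  have hm₂ : AEStronglyMeasurable φ₂ (tor d) := hφ.1.sub hm₁
  have hn₁ : eLpNorm φ₁ 2 (tor d) ≤ ENNReal.ofReal A⁻¹ := by
    calc eLpNorm φ₁ 2 (tor d) ≤ eLpNorm (fun y => A⁻¹ • (‖φ y‖ ^ (2 : ℝ))) 2 (tor d) := by
          refine eLpNorm_mono fun y => ?_
          have h1 : 0 ≤ A⁻¹ * ‖φ y‖ ^ (2 : ℝ) := by positivity
          rw [smul_eq_mul, Real.norm_of_nonneg h1]
          exact norm_big_le A hA _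
      _ = ENNReal.ofReal A⁻¹ * eLpNorm (fun y => ‖φ y‖ ^ (2 : ℝ)) 2 (tor d) := by
          have := eLpNorm_const_smul A⁻¹ (fun y => ‖φ y‖ ^ (2 : ℝ)) 2 (tor d)
          rw [Real.enorm_eq_ofReal hA'.le] at this
          exact this
      _ ≤ ENNReal.ofReal A⁻¹ * 1 := by
          gcongr
          rw [eLpNorm_norm_rpow φ (by norm_num)]
          have e : (2 : ℝ≥0∞) * ENNReal.ofReal 2 = 4 := by
            rw [ENNReal.ofReal_ofNat]; norm_num
          rw [e]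
          exact ENNReal.rpow_le_one hφ1 (by norm_num)
      _ = ENNReal.ofReal A⁻¹ := mul_one _
  have hn₂ : eLpNorm φ₂ ⊤ (tor d) ≤ ENNReal.ofReal A := by
    rw [eLpNorm_exponent_top]
    refine eLpNormEssSup_le_of_ae_bound (Eventually.of_forall fun y => ?_)
    exact norm_sub_big_le A hA _
  have hL₁ : MemLp φ₁ 2 (tor d) := ⟨hm₁, hn₁.trans_lt ENNReal.ofReal_lt_top⟩
  have hL₂ : MemLp φ₂ ⊤ (tor d) := ⟨hm₂, hn₂.trans_lt ENNReal.ofReal_lt_top⟩
  refine ⟨fun x => ∫ y, (Fker r (x - y) : 𝕜) * (A • φ₁) y ∂(tor d),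
    ⟨A • φ₁, hL₁.const_smul A, ?_, rfl⟩,
    fun x => ∫ y, (Fker r (x - y) : 𝕜) * ((A⁻¹ : ℝ) • φ₂) y ∂(tor d),
    ⟨(A⁻¹ : ℝ) • φ₂, hL₂.const_smul _, ?_, rfl⟩, ?_⟩
  · rw [eLpNorm_const_smul, Real.enorm_eq_ofReal hA.le]
    calc ENNReal.ofReal A * eLpNorm φ₁ 2 (tor d) ≤ ENNReal.ofReal A * ENNReal.ofReal A⁻¹ := by
          gcongr
      _ = 1 := by rw [← ENNReal.ofReal_mul hA.le, mul_inv_cancel₀ hA.ne', ENNReal.ofReal_one]
  · rw [eLpNorm_const_smul, Real.enorm_eq_ofReal hA'.le]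
    calc ENNReal.ofReal A⁻¹ * eLpNorm φ₂ ⊤ (tor d) ≤ ENNReal.ofReal A⁻¹ * ENNReal.ofReal A := by
          gcongr
      _ = 1 := by rw [← ENNReal.ofReal_mul hA'.le, inv_mul_cancel₀ hA.ne', ENNReal.ofReal_one]
  · have hi₁ : Integrable φ₁ (tor d) := hL₁.integrable (by norm_num)
    have hi₂ : Integrable φ₂ (tor d) := hL₂.integrable (by norm_num)
    filter_upwards [conv_integrable r hr φ₁ hi₁, conv_integrable r hr φ₂ hi₂] with x h1 h2
    have e1 : ∀ y, (Fker r (x - y) : 𝕜) * (A • φ₁) y = A • ((Fker r (x - y) : 𝕜) * φ₁ y) := by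
      intro y
      rw [Pi.smul_apply, mul_smul_comm]
    have e2 : ∀ y, (Fker r (x - y) : 𝕜) * ((A⁻¹ : ℝ) • φ₂) y =
        (A⁻¹ : ℝ) • ((Fker r (x - y) : 𝕜) * φ₂ y) := by
      intro y
      rw [Pi.smul_apply, mul_smul_comm]
    simp_rw [e1, e2]
    rw [integral_smul, integral_smul, smul_smul, smul_smul, inv_mul_cancel₀ hA.ne',
      mul_inv_cancel₀ hA.ne', one_smul, one_smul, ← integral_add h1 h2]
    refine integral_congr_ae (Eventually.of_forall fun y => ?_)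
    show (Fker r (x - y) : 𝕜) * φ y = (Fker r (x - y) : 𝕜) * φ₁ y + (Fker r (x - y) : 𝕜) * φ₂ y
    rw [hφ₁, hφ₂]
    ring

end trunc

end Pool.Agent.Helper21.SB
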