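import Pool.Agent.Helper60.SB.Defs4
import Pool.Agent.Helper21.SB.U17

/-!
Module L15 of MP_7fc85e_an: truncation in the classes `W` for general exponents.
-/

set_option autoImplicit false

open MeasureTheory Filter
open scoped ENNReal Real
open Pool.Agent.Helper60.SB

namespace Pool.Agent.Helper21.SB

section trunc_gen

variable {𝕜 : Type} [RCLike 𝕜]

lemma norm_big_le_gen (A q : ℝ) (hA : 0 < A) (hq : 1 < q) (z : 𝕜) :
    ‖big A z‖ ≤ A ^ (1 - q) * ‖z‖ ^ q := by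
  unfold big
  split_ifs with h
  · have hz : 0 < ‖z‖ := hA.trans h
    have e : ‖z‖ = ‖z‖ ^ (1 - q) * ‖z‖ ^ q := by
      rw [← Real.rpow_add hz, sub_add_cancel, Real.rpow_one]
    conv_lhs => rw [e]
    refine mul_le_mul_of_nonneg_right ?_ (Real.rpow_nonneg hz.le _)
    exact Real.rpow_le_rpow_of_nonpos hA h.le (by linarith)
  · rw [norm_zero]; positivity

lemma entropy_combine_gen {d : ℕ} (n : ℕ) (α β : ℝ) (hα : 0 < α) (hβ : 0 < β)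
    (F F₁ F₂ : Set ((Fin d → ℝ) → 𝕜))
    (h : ∀ f ∈ F, ∃ f₁ ∈ F₁, ∃ f₂ ∈ F₂, ∀ᵐ x ∂(tor d), f x = α • f₁ x + β • f₂ x) :
    entropyNumber (n + n) F ≤
      ENNReal.ofReal α * entropyNumber n F₁ + ENNReal.ofReal β * entropyNumber n F₂ := by
  have key : ∀ ε₁ ε₂ : ℝ≥0∞,
      (0 < ε₁ ∧ ∃ y : Fin (2 ^ n) → (Fin d → ℝ) → 𝕜, (∀ j, MemLp (y j) ⊤ (tor d)) ∧
        ∀ f ∈ F₁, ∃ j, eLpNorm (f - y j) ⊤ (tor d) ≤ ε₁) →
      (0 < ε₂ ∧ ∃ y : Fin (2 ^ n) → (Fin d → ℝ) → 𝕜, (∀ j, MemLp (y j) ⊤ (tor d)) ∧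
        ∀ f ∈ F₂, ∃ j, eLpNorm (f - y j) ⊤ (tor d) ≤ ε₂) →
      entropyNumber (n + n) F ≤ ENNReal.ofReal α * ε₁ + ENNReal.ofReal β * ε₂ := by
    rintro ε₁ ε₂ ⟨hε₁, y₁, hy₁, hF₁⟩ ⟨hε₂, y₂, hy₂, hF₂⟩
    unfold entropyNumber
    apply sInf_le
    have e : 2 ^ (n + n) = 2 ^ n * 2 ^ n := pow_add 2 n n
    let g : Fin (2 ^ (n + n)) ≃ Fin (2 ^ n) × Fin (2 ^ n) :=
      (finCongr e).trans finProdFinEquiv.symm
    refine ⟨?_, fun k => α • y₁ (g k).1 + β • y₂ (g k).2, fun k => ?_, fun f hf => ?_⟩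
    · have : 0 < ENNReal.ofReal α * ε₁ :=
        ENNReal.mul_pos (ENNReal.ofReal_pos.2 hα).ne' hε₁.ne'
      exact lt_of_lt_of_le this le_self_add
    · exact ((hy₁ _).const_smul _).add ((hy₂ _).const_smul _)
    · obtain ⟨f₁, hf₁, f₂, hf₂, hae⟩ := h f hf
      obtain ⟨j₁, hj₁⟩ := hF₁ f₁ hf₁
      obtain ⟨j₂, hj₂⟩ := hF₂ f₂ hf₂
      refine ⟨g.symm (j₁, j₂), ?_⟩
      simp only [Equiv.apply_symm_apply]
      have h1 : f - (α • y₁ j₁ + β • y₂ j₂) =ᵐ[tor d]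
          α • (f₁ - y₁ j₁) + β • (f₂ - y₂ j₂) := by
        filter_upwards [hae] with x hx
        simp only [Pi.sub_apply, Pi.add_apply, Pi.smul_apply, hx, smul_sub]
        abel
      rw [eLpNorm_congr_ae h1, eLpNorm_exponent_top]
      refine eLpNormEssSup_add_le.trans ?_
      refine add_le_add ?_ ?_
      · rw [← eLpNorm_exponent_top, eLpNorm_const_smul, Real.enorm_eq_ofReal hα.le]
        gcongr
      · rw [← eLpNorm_exponent_top, eLpNorm_const_smul, Real.enorm_eq_ofReal hβ.le]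
        gcongr
  conv_rhs => unfold entropyNumber
  rw [sInf_eq_iInf', sInf_eq_iInf', ENNReal.mul_iInf_of_ne (ENNReal.ofReal_pos.2 hα).ne'
    ENNReal.ofReal_ne_top, ENNReal.mul_iInf_of_ne (ENNReal.ofReal_pos.2 hβ).ne'
    ENNReal.ofReal_ne_top, ENNReal.iInf_add]
  refine le_iInf fun ε₁ => ?_
  rw [ENNReal.add_iInf]
  exact le_iInf fun ε₂ => key _ _ ε₁.2 ε₂.2

theorem W_trunc_gen (d : ℕ) (𝕜 : Type) [RCLike 𝕜] (r : ℝ) (hr : 0 < r) (p₁ p₂ : ℝ)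
    (h1 : 1 ≤ p₁) (h12 : p₁ < p₂) (A : ℝ) (hA : 0 < A) (n : ℕ) :
    entropyNumber (n + n) (Wclass d 𝕜 r (ENNReal.ofReal p₂)) ≤
      ENNReal.ofReal (A ^ (1 - p₂ / p₁)) * entropyNumber n (Wclass d 𝕜 r (ENNReal.ofReal p₁)) +
        ENNReal.ofReal A * entropyNumber n (Wclass d 𝕜 r ⊤) := by
  have := isProb_tor d
  have hp₁ : 0 < p₁ := by linarith
  have hp₂ : 0 < p₂ := by linarith
  set q : ℝ := p₂ / p₁ with hq
  have hq1 : 1 < q := by rw [hq, one_lt_div hp₁]; exact h12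
  have hq0 : 0 < q := by linarith
  set α : ℝ := A ^ (1 - q) with hα
  have hα0 : 0 < α := Real.rpow_pos_of_pos hA _
  have hα' : (0 : ℝ) < α⁻¹ := inv_pos.2 hα0
  have hA' : (0 : ℝ) < A⁻¹ := inv_pos.2 hA
  apply entropy_combine_gen n α A hα0 hA
  rintro f ⟨φ, hφ, hφ1, rfl⟩
  set φ₁ : (Fin d → ℝ) → 𝕜 := fun y => big A (φ y) with hφ₁
  set φ₂ : (Fin d → ℝ) → 𝕜 := fun y => φ y - big A (φ y) with hφ₂
  have hm₁ : AEStronglyMeasurable φ₁ (tor d) :=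
    ((measurable_big A).comp_aemeasurable hφ.1.aemeasurable).aestronglyMeasurable
  have hm₂ : AEStronglyMeasurable φ₂ (tor d) := hφ.1.sub hm₁
  have hp₁1 : (1 : ℝ≥0∞) ≤ ENNReal.ofReal p₁ := by
    rw [← ENNReal.ofReal_one]; exact ENNReal.ofReal_le_ofReal h1
  have hn₁ : eLpNorm φ₁ (ENNReal.ofReal p₁) (tor d) ≤ ENNReal.ofReal α := by
    calc eLpNorm φ₁ (ENNReal.ofReal p₁) (tor d)
        ≤ eLpNorm (fun y => α • (‖φ y‖ ^ q)) (ENNReal.ofReal p₁) (tor d) := by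
          refine eLpNorm_mono fun y => ?_
          have h1 : 0 ≤ α * ‖φ y‖ ^ q := by positivity
          rw [smul_eq_mul, Real.norm_of_nonneg h1]
          exact norm_big_le_gen A q hA hq1 _
      _ = ENNReal.ofReal α * eLpNorm (fun y => ‖φ y‖ ^ q) (ENNReal.ofReal p₁) (tor d) := by
          have := eLpNorm_const_smul α (fun y => ‖φ y‖ ^ q) (ENNReal.ofReal p₁) (tor d)
          rw [Real.enorm_eq_ofReal hα0.le] at this
          exact this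
      _ ≤ ENNReal.ofReal α * 1 := by
          gcongr
          rw [eLpNorm_norm_rpow φ hq0]
          have e : ENNReal.ofReal p₁ * ENNReal.ofReal q = ENNReal.ofReal p₂ := by
            rw [← ENNReal.ofReal_mul hp₁.le, hq, mul_div_cancel₀ _ hp₁.ne']
          rw [e]
          exact ENNReal.rpow_le_one hφ1 hq0.le
      _ = ENNReal.ofReal α := mul_one _
  have hn₂ : eLpNorm φ₂ ⊤ (tor d) ≤ ENNReal.ofReal A := by
    rw [eLpNorm_exponent_top]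
    refine eLpNormEssSup_le_of_ae_bound (Eventually.of_forall fun y => ?_)
    exact norm_sub_big_le A hA _
  have hL₁ : MemLp φ₁ (ENNReal.ofReal p₁) (tor d) := ⟨hm₁, hn₁.trans_lt ENNReal.ofReal_lt_top⟩
  have hL₂ : MemLp φ₂ ⊤ (tor d) := ⟨hm₂, hn₂.trans_lt ENNReal.ofReal_lt_top⟩
  refine ⟨fun x => ∫ y, (Fker r (x - y) : 𝕜) * ((α⁻¹ : ℝ) • φ₁) y ∂(tor d),
    ⟨(α⁻¹ : ℝ) • φ₁, hL₁.const_smul _, ?_, rfl⟩,
    fun x => ∫ y, (Fker r (x - y) : 𝕜) * ((A⁻¹ : ℝ) • φ₂) y ∂(tor d),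
    ⟨(A⁻¹ : ℝ) • φ₂, hL₂.const_smul _, ?_, rfl⟩, ?_⟩
  · rw [eLpNorm_const_smul, Real.enorm_eq_ofReal hα'.le]
    calc ENNReal.ofReal α⁻¹ * eLpNorm φ₁ (ENNReal.ofReal p₁) (tor d)
        ≤ ENNReal.ofReal α⁻¹ * ENNReal.ofReal α := by
          gcongr
      _ = 1 := by rw [← ENNReal.ofReal_mul hα'.le, inv_mul_cancel₀ hα0.ne', ENNReal.ofReal_one]
  · rw [eLpNorm_const_smul, Real.enorm_eq_ofReal hA'.le]
    calc ENNReal.ofReal A⁻¹ * eLpNorm φ₂ ⊤ (tor d) ≤ ENNReal.ofReal A⁻¹ * ENNReal.ofReal A := by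
          gcongr
      _ = 1 := by rw [← ENNReal.ofReal_mul hA'.le, inv_mul_cancel₀ hA.ne', ENNReal.ofReal_one]
  · have hi₁ : Integrable φ₁ (tor d) := hL₁.integrable hp₁1
    have hi₂ : Integrable φ₂ (tor d) := hL₂.integrable (by norm_num)
    filter_upwards [conv_integrable r hr φ₁ hi₁, conv_integrable r hr φ₂ hi₂] with x h1 h2
    have e1 : ∀ y, (Fker r (x - y) : 𝕜) * ((α⁻¹ : ℝ) • φ₁) y =
        (α⁻¹ : ℝ) • ((Fker r (x - y) : 𝕜) * φ₁ y) := by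
      intro y
      rw [Pi.smul_apply, mul_smul_comm]
    have e2 : ∀ y, (Fker r (x - y) : 𝕜) * ((A⁻¹ : ℝ) • φ₂) y =
        (A⁻¹ : ℝ) • ((Fker r (x - y) : 𝕜) * φ₂ y) := by
      intro y
      rw [Pi.smul_apply, mul_smul_comm]
    simp_rw [e1, e2]
    rw [integral_smul, integral_smul, smul_smul, smul_smul, mul_inv_cancel₀ hα0.ne',
      mul_inv_cancel₀ hA.ne', one_smul, one_smul, ← integral_add h1 h2]
    refine integral_congr_ae (Eventually.of_forall fun y => ?_)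
    show (Fker r (x - y) : 𝕜) * φ y = (Fker r (x - y) : 𝕜) * φ₁ y + (Fker r (x - y) : 𝕜) * φ₂ y
    rw [hφ₁, hφ₂]
    ring

end trunc_gen

end Pool.Agent.Helper21.SB
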