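import Pool.Agent.Helper60.SB.Defs4

/-!
Module M1 of MP_7fc85e_an: the `L_1` norm of a univariate trigonometric polynomial.
-/

set_option autoImplicit false

open MeasureTheory Filter Finset
open scoped ENNReal Real Topology
open Pool.Agent.Helper60.SB

namespace Pool.Agent.Helper21.SB

private lemma M1_shift (b : ℕ) (a : ℤ → ℂ) (ha : ∀ k : ℤ, 2 ^ b < |k| → a k = 0) (x : ℝ) (j : ℤ)
    (hj0 : 0 ≤ j) (hj2 : j ≤ 2) :
    ∑ k ∈ Finset.Icc (-2 ^ b - 2 : ℤ) (2 ^ b), a (k + j) * Complex.exp (Complex.I * k * x) =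
      Complex.exp (-(Complex.I * x)) ^ j.toNat * upol a b x := by
  have h1 : ∑ k ∈ Finset.Icc (-2 ^ b - 2 : ℤ) (2 ^ b), a (k + j) * Complex.exp (Complex.I * k * x) =
      ∑' k : ℤ, a (k + j) * Complex.exp (Complex.I * k * x) := by
    refine (tsum_eq_sum fun k hk => ?_).symm
    rw [ha (k + j), zero_mul]
    rw [Finset.mem_Icc, not_and_or, not_le, not_le] at hk
    rcases hk with hk | hk
    · exact lt_of_lt_of_le (by linarith) (neg_le_abs _)
    · exact lt_of_lt_of_le (by linarith) (le_abs_self _)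
  have h2 : upol a b x = ∑' k : ℤ, a k * Complex.exp (Complex.I * k * x) := by
    unfold upol
    refine (tsum_eq_sum fun k hk => ?_).symm
    rw [ha k, zero_mul]
    rw [Finset.mem_Icc, not_and_or, not_le, not_le] at hk
    rcases hk with hk | hk
    · exact lt_of_lt_of_le (by linarith) (neg_le_abs _)
    · exact lt_of_lt_of_le (by linarith) (le_abs_self _)
  rw [h1, h2, ← tsum_mul_left, ← Equiv.tsum_eq (Equiv.addRight j)
    (fun k : ℤ => Complex.exp (-(Complex.I * x)) ^ j.toNat *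
      (a k * Complex.exp (Complex.I * k * x)))]
  refine tsum_congr fun k => ?_
  rw [Equiv.coe_addRight]
  have e : Complex.exp (Complex.I * k * x) =
      Complex.exp (-(Complex.I * x)) ^ j.toNat *
        Complex.exp (Complex.I * ((k + j : ℤ) : ℂ) * x) := by
    rw [← Complex.exp_nat_mul, ← Complex.exp_add]
    congr 1
    have hj : ((j.toNat : ℕ) : ℂ) = (j : ℂ) := by
      have : ((j.toNat : ℕ) : ℤ) = j := Int.toNat_of_nonneg hj0
      calc ((j.toNat : ℕ) : ℂ) = (((j.toNat : ℕ) : ℤ) : ℂ) := by push_cast; rfl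
        _ = (j : ℂ) := by rw [this]
    rw [hj]
    push_cast
    ring
  rw [e]
  ring

private lemma M1_norm_exp (k : ℤ) (x : ℝ) : ‖Complex.exp (Complex.I * k * x)‖ = 1 := by
  have : Complex.I * k * x = (((k : ℝ) * x : ℝ) : ℂ) * Complex.I := by push_cast; ring
  rw [this]
  exact Complex.norm_exp_ofReal_mul_I _

private lemma M1_second (b : ℕ) (a : ℤ → ℂ) (ha : ∀ k : ℤ, 2 ^ b < |k| → a k = 0) (x : ℝ) :
    ‖Complex.exp (-(Complex.I * x)) - 1‖ ^ 2 * ‖upol a b x‖ ≤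
      ∑ k ∈ Finset.Icc (-2 ^ b - 2 : ℤ) (2 ^ b), ‖a (k + 2) - 2 * a (k + 1) + a k‖ := by
  have e : (Complex.exp (-(Complex.I * x)) - 1) ^ 2 * upol a b x =
      ∑ k ∈ Finset.Icc (-2 ^ b - 2 : ℤ) (2 ^ b),
        (a (k + 2) - 2 * a (k + 1) + a k) * Complex.exp (Complex.I * k * x) := by
    have h2 := M1_shift b a ha x 2 (by norm_num) le_rfl
    have h1 := M1_shift b a ha x 1 (by norm_num) (by norm_num)
    have h0 := M1_shift b a ha x 0 le_rfl (by norm_num)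
    simp only [add_zero] at h0
    have : ∀ k : ℤ, (a (k + 2) - 2 * a (k + 1) + a k) * Complex.exp (Complex.I * k * x) =
        a (k + 2) * Complex.exp (Complex.I * k * x) -
          2 * (a (k + 1) * Complex.exp (Complex.I * k * x)) +
          a k * Complex.exp (Complex.I * k * x) := fun k => by ring
    simp_rw [this]
    rw [Finset.sum_add_distrib, Finset.sum_sub_distrib, ← Finset.mul_sum, h2, h1, h0]
    have t2 : (2 : ℤ).toNat = 2 := rfl
    have t1 : (1 : ℤ).toNat = 1 := rfl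
    have t0 : (0 : ℤ).toNat = 0 := rfl
    rw [t2, t1, t0]
    ring
  rw [← norm_pow, ← norm_mul, e]
  refine (norm_sum_le _ _).trans (Finset.sum_le_sum fun k _ => ?_)
  rw [norm_mul, M1_norm_exp, mul_one]

private lemma M1_first (b : ℕ) (a : ℤ → ℂ) (x : ℝ) :
    ‖upol a b x‖ ≤ ∑ k ∈ Finset.Icc (-2 ^ b : ℤ) (2 ^ b), ‖a k‖ := by
  unfold upol
  refine (norm_sum_le _ _).trans (Finset.sum_le_sum fun k _ => ?_)
  rw [norm_mul, M1_norm_exp, mul_one]

private lemma M1_exp_lower (x : ℝ) (hx : |x| ≤ π) :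
    2 * |x| / π ≤ ‖Complex.exp (-(Complex.I * x)) - 1‖ := by
  have h1 : ‖Complex.exp (-(Complex.I * x)) - 1‖ = 2 * |Real.sin (x / 2)| := by
    have : -(Complex.I * x) = Complex.I * ((-x : ℝ) : ℂ) := by push_cast; ring
    rw [this, Complex.norm_exp_I_mul_ofReal_sub_one]
    rw [Real.norm_eq_abs, abs_mul, neg_div, Real.sin_neg, abs_neg]
    norm_num
  rw [h1]
  have h2 : 2 / π * |x / 2| ≤ |Real.sin (x / 2)| := by
    apply Real.mul_abs_le_abs_sin
    rw [abs_div, abs_two]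
    linarith
  rw [abs_div, abs_two] at h2
  calc 2 * |x| / π = 2 * (2 / π * (|x| / 2)) := by ring
    _ ≤ 2 * |Real.sin (x / 2)| := by linarith

private lemma M1_periodic (b : ℕ) (a : ℤ → ℂ) : Function.Periodic (fun x => ‖upol a b x‖) (2 * π) := by
  intro x
  show ‖upol a b (x + 2 * π)‖ = ‖upol a b x‖
  unfold upol
  congr 1
  refine Finset.sum_congr rfl fun k _ => ?_
  congr 1
  have : Complex.I * k * ((x + 2 * π : ℝ) : ℂ) = Complex.I * k * x + k * (2 * π * Complex.I) := by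
    push_cast
    ring
  rw [this, Complex.exp_add, Complex.exp_int_mul_two_pi_mul_I, mul_one]

private lemma M1_cont (b : ℕ) (a : ℤ → ℂ) : Continuous fun x : ℝ => ‖upol a b x‖ := by
  unfold upol
  fun_prop

private lemma M1_pos (b : ℕ) (a : ℤ → ℂ) (A₀ A₂ : ℝ) (h0 : 0 < A₀) (h2 : 0 < A₂)
    (ha : ∀ k : ℤ, 2 ^ b < |k| → a k = 0)
    (hA0 : ∑ k ∈ Finset.Icc (-2 ^ b : ℤ) (2 ^ b), ‖a k‖ ≤ A₀)
    (hA2 : ∑ k ∈ Finset.Icc (-2 ^ b - 2 : ℤ) (2 ^ b), ‖a (k + 2) - 2 * a (k + 1) + a k‖ ≤ A₂) :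
    ∫ x, ‖upol a b x‖ ∂tor1 ≤ π * Real.sqrt (A₀ * A₂) := by
  set R : ℝ := 2 / π * Real.sqrt (A₀ / A₂) with hR
  have hR0 : 0 < R := by
    rw [hR]
    have : 0 < Real.sqrt (A₀ / A₂) := Real.sqrt_pos.2 (div_pos h0 h2)
    positivity
  have hR2 : R ^ 2 = 4 / π ^ 2 * (A₀ / A₂) := by
    rw [hR, mul_pow, Real.sq_sqrt (div_pos h0 h2).le]
    ring
  -- pointwise bound
  have hpt : ∀ x : ℝ, |x| ≤ π → ‖upol a b x‖ ≤ 2 * A₀ * (1 + (R * x) ^ 2)⁻¹ := by
    intro x hx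
    have b1 : ‖upol a b x‖ ≤ A₀ := (M1_first b a x).trans hA0
    have b2 : (2 * |x| / π) ^ 2 * ‖upol a b x‖ ≤ A₂ := by
      refine le_trans ?_ ((M1_second b a ha x).trans hA2)
      refine mul_le_mul_of_nonneg_right ?_ (norm_nonneg _)
      exact pow_le_pow_left₀ (by positivity) (M1_exp_lower x hx) 2
    have b3 : (R * x) ^ 2 * ‖upol a b x‖ ≤ A₀ := by
      have : (R * x) ^ 2 = (A₀ / A₂) * (2 * |x| / π) ^ 2 := by
        rw [mul_pow, hR2, div_pow, mul_pow, sq_abs]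
        ring
      rw [this, mul_assoc]
      calc A₀ / A₂ * ((2 * |x| / π) ^ 2 * ‖upol a b x‖) ≤ A₀ / A₂ * A₂ :=
            mul_le_mul_of_nonneg_left b2 (div_pos h0 h2).le
        _ = A₀ := div_mul_cancel₀ _ h2.ne'
    have hpos : 0 < 1 + (R * x) ^ 2 := by positivity
    rw [← div_eq_mul_inv, le_div_iff₀ hpos]
    nlinarith
  -- conversion to an interval integral
  have hconv : ∫ x, ‖upol a b x‖ ∂tor1 = (2 * π)⁻¹ * ∫ x in (-π)..π, ‖upol a b x‖ := by
    have h1 : ∫ x, ‖upol a b x‖ ∂tor1 = (2 * π)⁻¹ * ∫ x in (0 : ℝ)..(2 * π), ‖upol a b x‖ := by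
      unfold tor1
      rw [integral_smul_measure, ENNReal.toReal_inv, ENNReal.toReal_ofReal Real.two_pi_pos.le,
        intervalIntegral.integral_of_le Real.two_pi_pos.le, ← integral_Ico_eq_integral_Ioc]
      rfl
    rw [h1]
    congr 1
    have h3 := (M1_periodic b a).intervalIntegral_add_eq 0 (-π)
    have e1 : (0 : ℝ) + 2 * π = 2 * π := by ring
    have e2 : -π + 2 * π = π := by ring
    rw [e1, e2] at h3
    exact h3
  rw [hconv]
  have hint : Integrable (fun x : ℝ => 2 * A₀ * (1 + (R * x) ^ 2)⁻¹) volume :=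
    (integrable_inv_one_add_sq.comp_mul_left' hR0.ne').const_mul _
  have hle : ∫ x in (-π)..π, ‖upol a b x‖ ≤ 2 * A₀ * (R⁻¹ * π) := by
    calc ∫ x in (-π)..π, ‖upol a b x‖ ≤ ∫ x in (-π)..π, 2 * A₀ * (1 + (R * x) ^ 2)⁻¹ := by
          refine intervalIntegral.integral_mono_on (by linarith [Real.pi_pos])
            ((M1_cont b a).intervalIntegrable _ _) hint.intervalIntegrable fun x hx => ?_
          exact hpt x (abs_le.2 ⟨hx.1, hx.2⟩)
      _ = ∫ x in Set.Ioc (-π) π, 2 * A₀ * (1 + (R * x) ^ 2)⁻¹ :=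
          intervalIntegral.integral_of_le (by linarith [Real.pi_pos])
      _ ≤ ∫ x, 2 * A₀ * (1 + (R * x) ^ 2)⁻¹ := by
          refine setIntegral_le_integral hint (Eventually.of_forall fun x => ?_)
          show (0 : ℝ) ≤ 2 * A₀ * (1 + (R * x) ^ 2)⁻¹
          positivity
      _ = 2 * A₀ * (R⁻¹ * π) := by
          rw [integral_const_mul]
          congr 1
          have := Measure.integral_comp_mul_left (fun x : ℝ => (1 + x ^ 2)⁻¹) R
          rw [this, integral_univ_inv_one_add_sq, abs_of_pos (inv_pos.2 hR0), smul_eq_mul]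
  have hfin : (2 * π)⁻¹ * (2 * A₀ * (R⁻¹ * π)) ≤ π * Real.sqrt (A₀ * A₂) := by
    have e1 : (2 * π)⁻¹ * (2 * A₀ * (R⁻¹ * π)) = A₀ * R⁻¹ := by
      have := Real.pi_pos.ne'
      field_simp
    rw [e1, ← div_eq_mul_inv, div_le_iff₀ hR0, hR]
    have hs : Real.sqrt (A₀ * A₂) * Real.sqrt (A₀ / A₂) = A₀ := by
      rw [← Real.sqrt_mul (by positivity)]
      have : A₀ * A₂ * (A₀ / A₂) = A₀ ^ 2 := by field_simp
      rw [this, Real.sqrt_sq h0.le]
    have : π * Real.sqrt (A₀ * A₂) * (2 / π * Real.sqrt (A₀ / A₂)) =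
        2 * (Real.sqrt (A₀ * A₂) * Real.sqrt (A₀ / A₂)) := by
      have := Real.pi_pos.ne'
      field_simp
    rw [this, hs]
    linarith
  exact (mul_le_mul_of_nonneg_left hle (by positivity)).trans hfin

theorem ker_L1 : ∃ C > 0, ∀ (b : ℕ) (a : ℤ → ℂ) (A₀ A₂ : ℝ), (∀ k : ℤ, 2 ^ b < |k| → a k = 0) →
    ∑ k ∈ Finset.Icc (-2 ^ b : ℤ) (2 ^ b), ‖a k‖ ≤ A₀ →
    ∑ k ∈ Finset.Icc (-2 ^ b - 2 : ℤ) (2 ^ b), ‖a (k + 2) - 2 * a (k + 1) + a k‖ ≤ A₂ →
    ∫ x, ‖upol a b x‖ ∂tor1 ≤ C * Real.sqrt (A₀ * A₂) := by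
  refine ⟨π, Real.pi_pos, fun b a A₀ A₂ ha h0 h2 => ?_⟩
  have h0' : 0 ≤ A₀ := le_trans (Finset.sum_nonneg fun _ _ => norm_nonneg _) h0
  have h2' : 0 ≤ A₂ := le_trans (Finset.sum_nonneg fun _ _ => norm_nonneg _) h2
  have hcont : Continuous fun ε : ℝ => π * Real.sqrt ((A₀ + ε) * (A₂ + ε)) := by fun_prop
  have hlim : Tendsto (fun ε : ℝ => π * Real.sqrt ((A₀ + ε) * (A₂ + ε))) (𝓝[>] 0)
      (𝓝 (π * Real.sqrt (A₀ * A₂))) := by
    have := (hcont.tendsto 0).mono_left (nhdsWithin_le_nhds (s := Set.Ioi (0 : ℝ)))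
    simpa using this
  refine ge_of_tendsto hlim ?_
  filter_upwards [self_mem_nhdsWithin] with ε hε
  have hε' : 0 < ε := hε
  exact M1_pos b a (A₀ + ε) (A₂ + ε) (by linarith) (by linarith) ha (by linarith) (by linarith)

end Pool.Agent.Helper21.SB
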