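import Pool.Agent.Helper21.SB.M1
import Pool.Agent.Helper18.SB.CutOff

/-!
Modules M3 and M4 of MP_7fc85e_an: the multipliers of the classes `W` and `H` are adapted to the
dyadic blocks.
-/

set_option autoImplicit false

open MeasureTheory Filter Finset
open scoped ENNReal Real Topology
open Pool.Agent.Helper60.SB

namespace Pool.Agent.Helper21.SB

private lemma M3_norm_exp (k : ℤ) (x : ℝ) : ‖Complex.exp (Complex.I * k * x)‖ = 1 := by
  have : Complex.I * k * x = (((k : ℝ) * x : ℝ) : ℂ) * Complex.I := by push_cast; ring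
  rw [this]
  exact Complex.norm_exp_ofReal_mul_I _

private lemma M3_isProb : IsProbabilityMeasure tor1 := by
  constructor
  unfold tor1
  rw [Measure.smul_apply, Measure.restrict_apply_univ, Real.volume_Ico, sub_zero, smul_eq_mul]
  apply ENNReal.inv_mul_cancel
  · rw [ne_eq, ENNReal.ofReal_eq_zero, not_le]
    exact Real.two_pi_pos
  · exact ENNReal.ofReal_ne_top

/-- the trivial bound for the `L_1` norm -/
private lemma M3_trivial (b : ℕ) (a : ℤ → ℂ) (C : ℝ) (ha : ∀ k, ‖a k‖ ≤ C) :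
    ∫ x, ‖upol a b x‖ ∂tor1 ≤ (2 * 2 ^ b + 1) * C := by
  have := M3_isProb
  have hpt : ∀ x, ‖upol a b x‖ ≤ (2 * 2 ^ b + 1) * C := by
    intro x
    unfold upol
    calc ‖∑ k ∈ Finset.Icc (-2 ^ b : ℤ) (2 ^ b), a k * Complex.exp (Complex.I * k * x)‖
        ≤ ∑ k ∈ Finset.Icc (-2 ^ b : ℤ) (2 ^ b), C := by
          refine (norm_sum_le _ _).trans (Finset.sum_le_sum fun k _ => ?_)
          rw [norm_mul, M3_norm_exp, mul_one]
          exact ha k
      _ = (2 * 2 ^ b + 1) * C := by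
          rw [Finset.sum_const, Int.card_Icc, nsmul_eq_mul]
          congr 1
          have h0 : (0 : ℤ) ≤ 2 ^ b + 1 - -2 ^ b := by
            have : (0 : ℤ) < 2 ^ b := by positivity
            linarith
          have : (((2 ^ b + 1 - -2 ^ b : ℤ).toNat : ℤ) : ℝ) = ((2 ^ b + 1 - -2 ^ b : ℤ) : ℝ) := by
            rw [Int.toNat_of_nonneg h0]
          rw [Int.cast_natCast] at this
          rw [this]
          push_cast
          ring
  calc ∫ x, ‖upol a b x‖ ∂tor1 ≤ ∫ _, (2 * 2 ^ b + 1) * C ∂tor1 := by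
        refine integral_mono_of_nonneg (Eventually.of_forall fun x => norm_nonneg _)
          (integrable_const _) (Eventually.of_forall hpt)
    _ = (2 * 2 ^ b + 1) * C := by
        rw [integral_const, smul_eq_mul, probReal_univ, one_mul]

/-- discrete Leibniz rule -/
private lemma M3_leibniz (f0 f1 f2 g0 g1 g2 : ℂ) :
    f2 * g2 - 2 * (f1 * g1) + f0 * g0 =
      (f2 - 2 * f1 + f0) * g2 + 2 * ((f1 - f0) * (g2 - g1)) + f0 * (g2 - 2 * g1 + g0) := by
  ring

/-- a smooth function times the cut-off function has a kernel with bounded `L_1` norm -/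
private theorem M3_general : ∃ C > 0, ∀ (s : ℕ), 4 ≤ s → ∀ (g : ℤ → ℂ) (G : ℝ), 0 ≤ G →
    (∀ k : ℤ, 2 ^ (s - 2) ≤ |k| → |k| ≤ 2 ^ (s + 1) + 4 → ‖g k‖ ≤ G) →
    (∀ k : ℤ, 2 ^ (s - 2) ≤ |k| → |k| ≤ 2 ^ (s + 1) + 3 → ‖g (k + 1) - g k‖ ≤ G / 2 ^ s) →
    (∀ k : ℤ, 2 ^ (s - 2) ≤ |k| → |k| ≤ 2 ^ (s + 1) + 2 →
      ‖g (k + 2) - 2 * g (k + 1) + g k‖ ≤ G / (2 ^ s * 2 ^ s)) →
    ∫ x, ‖upol (fun k => (eta s k : ℂ) * g k) (s + 1) x‖ ∂tor1 ≤ C * G := by
  obtain ⟨C₁, hC₁, H⟩ := ker_L1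
  refine ⟨C₁ * 150, by positivity, fun s hs g G hG h0 h1 h2 => ?_⟩
  have hS : (0 : ℝ) < 2 ^ s := by positivity
  obtain ⟨p, hp⟩ : ∃ p, s = p + 4 := ⟨s - 4, by omega⟩
  have hpow : (1 : ℤ) ≤ 2 ^ p := one_le_pow₀ (by norm_num)
  have e1 : (2 : ℤ) ^ (s - 2) = 4 * 2 ^ p := by
    rw [hp, show p + 4 - 2 = p + 2 by omega, pow_add]; ring
  have e2 : (2 : ℤ) ^ (s - 1) = 8 * 2 ^ p := by
    rw [hp, show p + 4 - 1 = p + 3 by omega, pow_add]; ring
  have e3 : (2 : ℤ) ^ (s + 1) = 32 * 2 ^ p := by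
    rw [hp, show p + 4 + 1 = p + 5 by omega, pow_add]; ring
  have e4 : (2 : ℤ) ^ s = 16 * 2 ^ p := by
    rw [hp, pow_add]; ring
  have hsupp : ∀ k : ℤ, eta s k ≠ 0 → 8 * 2 ^ p < |k| ∧ |k| < 32 * 2 ^ p := by
    intro k hk
    have := eta_support s (by omega) k hk
    rw [e2, e3] at this
    exact this
  have ha0 : ∀ k : ℤ, ‖(eta s k : ℂ) * g k‖ ≤ G := by
    intro k
    by_cases hk : eta s k = 0
    · rw [hk]; simpa using hG
    · obtain ⟨b1, b2⟩ := hsupp k hk
      rw [norm_mul, Complex.norm_real, Real.norm_eq_abs, abs_of_nonneg (eta_nonneg s k)]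
      have := h0 k (by rw [e1]; linarith) (by rw [e3]; linarith)
      calc eta s k * ‖g k‖ ≤ 1 * G :=
            mul_le_mul (eta_le_one s k) this (norm_nonneg _) zero_le_one
        _ = G := one_mul G
  have hcard1 : ((Finset.Icc (-2 ^ (s + 1) : ℤ) (2 ^ (s + 1))).card : ℝ) ≤ 5 * 2 ^ s := by
    rw [Int.card_Icc]
    have h0 : (0 : ℤ) ≤ 2 ^ (s + 1) + 1 - -2 ^ (s + 1) := by
      have : (0 : ℤ) < 2 ^ (s + 1) := by positivity
      linarith
    have : (((2 ^ (s + 1) + 1 - -2 ^ (s + 1) : ℤ).toNat : ℤ) : ℝ) =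
        ((2 ^ (s + 1) + 1 - -2 ^ (s + 1) : ℤ) : ℝ) := by
      rw [Int.toNat_of_nonneg h0]
    rw [Int.cast_natCast] at this
    rw [this]
    push_cast
    have : (1 : ℝ) ≤ 2 ^ s := one_le_pow₀ (by norm_num)
    rw [pow_succ]
    linarith
  have hcard2 : ((Finset.Icc (-2 ^ (s + 1) - 2 : ℤ) (2 ^ (s + 1))).card : ℝ) ≤ 5 * 2 ^ s := by
    rw [Int.card_Icc]
    have h0 : (0 : ℤ) ≤ 2 ^ (s + 1) + 1 - (-2 ^ (s + 1) - 2) := by
      have : (0 : ℤ) ≤ 2 ^ (s + 1) := by positivity
      linarith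
    have : (((2 ^ (s + 1) + 1 - (-2 ^ (s + 1) - 2) : ℤ).toNat : ℤ) : ℝ) =
        ((2 ^ (s + 1) + 1 - (-2 ^ (s + 1) - 2) : ℤ) : ℝ) := by
      rw [Int.toNat_of_nonneg h0]
    rw [Int.cast_natCast] at this
    rw [this]
    push_cast
    have : (2 : ℝ) ^ 2 ≤ 2 ^ s := pow_le_pow_right₀ (by norm_num) (by omega)
    rw [pow_succ]
    linarith
  have hA0 : ∑ k ∈ Finset.Icc (-2 ^ (s + 1) : ℤ) (2 ^ (s + 1)), ‖(eta s k : ℂ) * g k‖ ≤
      5 * 2 ^ s * G := by
    calc _ ≤ ∑ k ∈ Finset.Icc (-2 ^ (s + 1) : ℤ) (2 ^ (s + 1)), G :=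
          Finset.sum_le_sum fun k _ => ha0 k
      _ = ((Finset.Icc (-2 ^ (s + 1) : ℤ) (2 ^ (s + 1))).card : ℝ) * G := by
          rw [Finset.sum_const, nsmul_eq_mul]
      _ ≤ 5 * 2 ^ s * G := mul_le_mul_of_nonneg_right hcard1 hG
  have hA2 : ∑ k ∈ Finset.Icc (-2 ^ (s + 1) - 2 : ℤ) (2 ^ (s + 1)),
      ‖(eta s (k + 2) : ℂ) * g (k + 2) - 2 * ((eta s (k + 1) : ℂ) * g (k + 1)) +
        (eta s k : ℂ) * g k‖ ≤ 109 * G / 2 ^ s := by
    have hterm : ∀ k ∈ Finset.Icc (-2 ^ (s + 1) - 2 : ℤ) (2 ^ (s + 1)),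
        ‖(eta s (k + 2) : ℂ) * g (k + 2) - 2 * ((eta s (k + 1) : ℂ) * g (k + 1)) +
          (eta s k : ℂ) * g k‖ ≤
          |eta s (k + 2) - 2 * eta s (k + 1) + eta s k| * G + 9 * G / (2 ^ s * 2 ^ s) := by
      intro k hk
      rw [Finset.mem_Icc, e3] at hk
      have hnn : 0 ≤ |eta s (k + 2) - 2 * eta s (k + 1) + eta s k| * G + 9 * G / (2 ^ s * 2 ^ s) := by
        positivity
      rcases le_or_gt |k| (4 * 2 ^ p + 2) with hsmall | hlarge
      · -- all three values of the cut-off vanish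
        have hz : ∀ j : ℤ, |j| ≤ 2 → eta s (k + j) = 0 := by
          intro j hj
          by_contra hne
          have := (hsupp (k + j) hne).1
          have h3 : |k + j| ≤ |k| + |j| := abs_add_le k j
          linarith
        have z2 := hz 2 (by norm_num)
        have z1 := hz 1 (by norm_num)
        have z0 := hz 0 (by norm_num)
        rw [add_zero] at z0
        rw [z2, z1, z0] at hnn ⊢
        simpa using hnn
      · have hk1 : |k| ≤ 32 * 2 ^ p + 2 := by
          rw [abs_le]; constructor <;> linarith [hk.1, hk.2]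
        have hj1 : 4 * 2 ^ p ≤ |k + 1| ∧ |k + 1| ≤ 32 * 2 ^ p + 3 := by
          constructor
          · have h3 : |k| ≤ |k + 1| + |(-1 : ℤ)| := by
              have := abs_add_le (k + 1) (-1)
              rwa [show k + 1 + -1 = k by ring] at this
            have h4 : |(-1 : ℤ)| = 1 := by norm_num
            linarith
          · have := abs_add_le k 1
            rw [abs_one] at this
            linarith
        have hj2 : 4 * 2 ^ p ≤ |k + 2| ∧ |k + 2| ≤ 32 * 2 ^ p + 4 := by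
          constructor
          · have h3 : |k| ≤ |k + 2| + |(-2 : ℤ)| := by
              have := abs_add_le (k + 2) (-2)
              rwa [show k + 2 + -2 = k by ring] at this
            have h4 : |(-2 : ℤ)| = 2 := by norm_num
            linarith
          · have := abs_add_le k 2
            have h4 : |(2 : ℤ)| = 2 := by norm_num
            linarith
        have b0 := h0 (k + 2) (by rw [e1]; exact hj2.1) (by rw [e3]; exact hj2.2)
        have b1 := h1 (k + 1) (by rw [e1]; exact hj1.1) (by rw [e3]; exact hj1.2)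
        have b2 := h2 k (by rw [e1]; linarith) (by rw [e3]; linarith)
        rw [show k + 1 + 1 = k + 2 by ring] at b1
        rw [M3_leibniz]
        have t1 : ‖((eta s (k + 2) : ℂ) - 2 * (eta s (k + 1) : ℂ) + (eta s k : ℂ)) * g (k + 2)‖ ≤
            |eta s (k + 2) - 2 * eta s (k + 1) + eta s k| * G := by
          rw [norm_mul]
          have : ((eta s (k + 2) : ℂ) - 2 * (eta s (k + 1) : ℂ) + (eta s k : ℂ)) =
              ((eta s (k + 2) - 2 * eta s (k + 1) + eta s k : ℝ) : ℂ) := by push_cast; ring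
          rw [this, Complex.norm_real, Real.norm_eq_abs]
          exact mul_le_mul_of_nonneg_left b0 (abs_nonneg _)
        have t2 : ‖2 * (((eta s (k + 1) : ℂ) - (eta s k : ℂ)) * (g (k + 2) - g (k + 1)))‖ ≤
            8 * G / (2 ^ s * 2 ^ s) := by
          rw [norm_mul, norm_mul]
          have : ((eta s (k + 1) : ℂ) - (eta s k : ℂ)) = ((eta s (k + 1) - eta s k : ℝ) : ℂ) := by
            push_cast; ring
          rw [this, Complex.norm_real, Real.norm_eq_abs, Complex.norm_ofNat]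
          calc 2 * (|eta s (k + 1) - eta s k| * ‖g (k + 2) - g (k + 1)‖)
              ≤ 2 * (4 / 2 ^ s * (G / 2 ^ s)) := by
                refine mul_le_mul_of_nonneg_left ?_ (by norm_num)
                exact mul_le_mul (eta_diff s k) b1 (norm_nonneg _) (by positivity)
            _ = 8 * G / (2 ^ s * 2 ^ s) := by field_simp; ring
        have t3 : ‖(eta s k : ℂ) * (g (k + 2) - 2 * g (k + 1) + g k)‖ ≤ G / (2 ^ s * 2 ^ s) := by
          rw [norm_mul, Complex.norm_real, Real.norm_eq_abs, abs_of_nonneg (eta_nonneg s k)]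
          calc eta s k * ‖g (k + 2) - 2 * g (k + 1) + g k‖ ≤ 1 * (G / (2 ^ s * 2 ^ s)) :=
                mul_le_mul (eta_le_one s k) b2 (norm_nonneg _) zero_le_one
            _ = _ := one_mul _
        calc _ ≤ _ := norm_add₃_le
          _ ≤ |eta s (k + 2) - 2 * eta s (k + 1) + eta s k| * G + 8 * G / (2 ^ s * 2 ^ s) +
              G / (2 ^ s * 2 ^ s) := add_le_add (add_le_add t1 t2) t3
          _ = _ := by ring
    calc _ ≤ ∑ k ∈ Finset.Icc (-2 ^ (s + 1) - 2 : ℤ) (2 ^ (s + 1)),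
          (|eta s (k + 2) - 2 * eta s (k + 1) + eta s k| * G + 9 * G / (2 ^ s * 2 ^ s)) :=
          Finset.sum_le_sum hterm
      _ = (∑ k ∈ Finset.Icc (-2 ^ (s + 1) - 2 : ℤ) (2 ^ (s + 1)),
          |eta s (k + 2) - 2 * eta s (k + 1) + eta s k|) * G +
          ((Finset.Icc (-2 ^ (s + 1) - 2 : ℤ) (2 ^ (s + 1))).card : ℝ) *
            (9 * G / (2 ^ s * 2 ^ s)) := by
          rw [Finset.sum_add_distrib, ← Finset.sum_mul, Finset.sum_const, nsmul_eq_mul]
      _ ≤ 64 / 2 ^ s * G + 5 * 2 ^ s * (9 * G / (2 ^ s * 2 ^ s)) := by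
          refine add_le_add (mul_le_mul_of_nonneg_right (eta_diff2 s) hG) ?_
          exact mul_le_mul_of_nonneg_right hcard2 (by positivity)
      _ = 109 * G / 2 ^ s := by field_simp; ring
  have hfin := H (s + 1) (fun k => (eta s k : ℂ) * g k) (5 * 2 ^ s * G) (109 * G / 2 ^ s) ?_ hA0 hA2
  · refine hfin.trans ?_
    rw [mul_assoc C₁ 150 G]
    refine mul_le_mul_of_nonneg_left ?_ hC₁.le
    have : 5 * 2 ^ s * G * (109 * G / 2 ^ s) = 545 * G ^ 2 := by field_simp; ring
    rw [this]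
    refine Real.sqrt_le_iff.2 ⟨by positivity, ?_⟩
    nlinarith [sq_nonneg G]
  · intro k hk
    by_contra hne
    have : eta s k ≠ 0 := by
      intro h
      apply hne
      show (eta s k : ℂ) * g k = 0
      rw [h]; simp
    have := (eta_support s (by omega) k this).2
    linarith

/-! ### M4 -/

private noncomputable def M4_v (s : ℕ) (k : ℤ) : ℂ :=
  (Complex.exp (Complex.I * k * ((2 : ℝ) ^ (-(s : ℝ)) : ℝ)) - 1)⁻¹

private lemma M4_rpow (s : ℕ) : (2 : ℝ) ^ (-(s : ℝ)) = (2 ^ s)⁻¹ := by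
  rw [Real.rpow_neg (by norm_num), Real.rpow_natCast]

private lemma M4_lower (t : ℝ) (ht : |t| ≤ π) : 2 * |t| / π ≤ ‖Complex.exp (Complex.I * t) - 1‖ := by
  rw [Complex.norm_exp_I_mul_ofReal_sub_one, Real.norm_eq_abs, abs_mul, abs_two]
  have h2 : 2 / π * |t / 2| ≤ |Real.sin (t / 2)| := by
    apply Real.mul_abs_le_abs_sin
    rw [abs_div, abs_two]
    linarith
  rw [abs_div, abs_two] at h2
  calc 2 * |t| / π = 2 * (2 / π * (|t| / 2)) := by ring
    _ ≤ 2 * |Real.sin (t / 2)| := by linarith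

/-- the denominators are bounded away from zero -/
private lemma M4_denom (s : ℕ) (k : ℤ) (c : ℝ) (h1 : c * 2 ^ s ≤ |(k : ℝ)|)
    (h2 : |(k : ℝ)| ≤ 3 * 2 ^ s) :
    2 * c / π ≤ ‖Complex.exp (Complex.I * k * ((2 : ℝ) ^ (-(s : ℝ)) : ℝ)) - 1‖ := by
  have hS : (0 : ℝ) < 2 ^ s := by positivity
  have e : Complex.I * k * ((2 : ℝ) ^ (-(s : ℝ)) : ℝ) =
      Complex.I * (((k : ℝ) * (2 ^ s)⁻¹ : ℝ) : ℂ) := by
    rw [M4_rpow]; push_cast; ring
  rw [e]
  have habs : |(k : ℝ) * (2 ^ s)⁻¹| = |(k : ℝ)| / 2 ^ s := by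
    rw [abs_mul, abs_of_pos (inv_pos.2 hS)]; rfl
  refine le_trans ?_ (M4_lower _ ?_)
  · rw [habs]
    have : c ≤ |(k : ℝ)| / 2 ^ s := by rwa [le_div_iff₀ hS]
    have hpi := Real.pi_pos
    gcongr
  · rw [habs, div_le_iff₀ hS]
    have := Real.pi_gt_three
    nlinarith

private lemma M4_step (s : ℕ) :
    ‖Complex.exp (Complex.I * ((2 : ℝ) ^ (-(s : ℝ)) : ℝ)) - 1‖ ≤ 1 / 2 ^ s := by
  have := Real.norm_exp_I_mul_ofReal_sub_one_le (x := (2 : ℝ) ^ (-(s : ℝ)))
  refine this.trans ?_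
  rw [M4_rpow, Real.norm_eq_abs, abs_of_pos (by positivity), one_div]

theorem mulFam_H : ∃ C ≥ 1, MulFam mH C := by
  obtain ⟨C₁, hC₁, H⟩ := M3_general
  have hpi := Real.pi_pos
  set V : ℝ := 4 * π with hV
  have hV0 : 0 < V := by positivity
  set G : ℝ := V + V ^ 2 + 2 * V ^ 3 with hG
  have hG0 : 0 < G := by positivity
  -- the sup bound
  have hsup : ∀ s k, ‖mH s k‖ ≤ V := by
    intro s k
    unfold mH
    split_ifs with hs
    · rw [Complex.norm_real, Real.norm_eq_abs, abs_of_nonneg (eta_nonneg 0 k)]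
      refine (eta_le_one 0 k).trans ?_
      rw [hV]; linarith [Real.pi_gt_three]
    · by_cases hk : eta s k = 0
      · rw [hk]; simpa using hV0.le
      · obtain ⟨b1, b2⟩ := eta_support s (by omega) k hk
        have b1' : ((2 ^ (s - 1) : ℤ) : ℝ) < ((|k| : ℤ) : ℝ) := Int.cast_lt.2 b1
        have b2' : ((|k| : ℤ) : ℝ) < ((2 ^ (s + 1) : ℤ) : ℝ) := Int.cast_lt.2 b2
        rw [Int.cast_abs] at b1' b2'
        push_cast at b1' b2'
        have e : (2 : ℝ) ^ s = 2 * 2 ^ (s - 1) := by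
          rw [← pow_succ', show s - 1 + 1 = s by omega]
        have hd := M4_denom s k (1 / 2) (by rw [e]; linarith)
          (by rw [pow_succ] at b2'; have : (0 : ℝ) < 2 ^ s := by positivity
              linarith)
        have hdpos : 0 < ‖Complex.exp (Complex.I * k * ((2 : ℝ) ^ (-(s : ℝ)) : ℝ)) - 1‖ :=
          lt_of_lt_of_le (by positivity) hd
        rw [norm_div, Complex.norm_real, Real.norm_eq_abs, abs_of_nonneg (eta_nonneg s k),
          div_le_iff₀ hdpos]
        calc eta s k ≤ 1 := eta_le_one s k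
          _ ≤ V * (2 * (1 / 2) / π) := by rw [hV]; field_simp; norm_num
          _ ≤ _ := mul_le_mul_of_nonneg_left hd hV0.le
  refine ⟨max 1 (max (33 * V) (C₁ * G)), le_max_left _ _, ?_, ?_, ?_⟩
  · rintro s k ⟨h1, h2⟩
    unfold mH
    have := eta_eq_zero s k h1 h2
    split_ifs with hs
    · subst hs; rw [this]; simp
    · rw [this]; simp
  · intro s k
    refine (hsup s k).trans (le_trans ?_ ((le_max_left _ _).trans (le_max_right _ _)))
    linarith
  · intro s
    rcases Nat.lt_or_ge s 4 with hs | hs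
    · refine (M3_trivial (s + 1) (mH s) V (hsup s)).trans
        (le_trans ?_ ((le_max_left _ _).trans (le_max_right _ _)))
      refine mul_le_mul_of_nonneg_right ?_ hV0.le
      have : (2 : ℝ) ^ (s + 1) ≤ 2 ^ 4 := pow_le_pow_right₀ (by norm_num) (by omega)
      norm_num at this
      linarith
    · refine le_trans ?_ ((le_max_right _ _).trans (le_max_right _ _))
      have hfun : mH s = fun k => (eta s k : ℂ) * M4_v s k := by
        funext k
        unfold mH M4_v
        rw [if_neg (by omega), div_eq_mul_inv]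
      rw [hfun]
      have hS : (0 : ℝ) < 2 ^ s := by positivity
      obtain ⟨p, hp⟩ : ∃ p, s = p + 4 := ⟨s - 4, by omega⟩
      have hpow : (1 : ℝ) ≤ 2 ^ p := one_le_pow₀ (by norm_num)
      have e1 : ((2 : ℤ) ^ (s - 2) : ℝ) = 4 * 2 ^ p := by
        rw [hp, show p + 4 - 2 = p + 2 by omega]; push_cast; rw [pow_add]; ring
      have e3 : ((2 : ℤ) ^ (s + 1) : ℝ) = 32 * 2 ^ p := by
        rw [hp, show p + 4 + 1 = p + 5 by omega]; push_cast; rw [pow_add]; ring
      have e4 : (2 : ℝ) ^ s = 16 * 2 ^ p := by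
        rw [hp, pow_add]; ring
      -- bounds for the denominators at `k + j`
      have hden : ∀ k j : ℤ, 2 ^ (s - 2) ≤ |k| → |k| + j ≤ 2 ^ (s + 1) + 4 → 0 ≤ j → j ≤ 2 →
          1 / V ≤ ‖Complex.exp (Complex.I * ((k + j : ℤ) : ℂ) * ((2 : ℝ) ^ (-(s : ℝ)) : ℝ)) - 1‖ := by
        intro k j hk1 hk2 hj0 hj2
        have c1 : (((2 : ℤ) ^ (s - 2) : ℤ) : ℝ) ≤ ((|k| : ℤ) : ℝ) := Int.cast_le.2 hk1
        have c2 : ((|k| + j : ℤ) : ℝ) ≤ ((2 ^ (s + 1) + 4 : ℤ) : ℝ) := Int.cast_le.2 hk2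
        have c3 : ((0 : ℤ) : ℝ) ≤ (j : ℝ) := Int.cast_le.2 hj0
        have c4 : (j : ℝ) ≤ ((2 : ℤ) : ℝ) := Int.cast_le.2 hj2
        push_cast at c1 c2 c3 c4
        have e1' : (2 : ℝ) ^ (s - 2) = 4 * 2 ^ p := by have := e1; push_cast at this; exact this
        have e3' : (2 : ℝ) ^ (s + 1) = 32 * 2 ^ p := by have := e3; push_cast at this; exact this
        rw [e1'] at c1
        rw [e3'] at c2
        have habs1 : |(k : ℝ)| ≤ |((k + j : ℤ) : ℝ)| + |(j : ℝ)| := by
          have := abs_sub_abs_le_abs_sub (k : ℝ) (-(j : ℝ))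
          rw [abs_neg, sub_neg_eq_add] at this
          push_cast
          linarith
        have habs2 : |((k + j : ℤ) : ℝ)| ≤ |(k : ℝ)| + |(j : ℝ)| := by
          push_cast
          exact abs_add_le _ _
        rw [abs_of_nonneg c3] at habs1 habs2
        have := M4_denom s (k + j) (1 / 8) (by rw [e4]; linarith)
          (by rw [e4]; linarith)
        refine le_trans (le_of_eq ?_) this
        rw [hV]; field_simp; norm_num
      have hvb : ∀ k j : ℤ, 2 ^ (s - 2) ≤ |k| → |k| + j ≤ 2 ^ (s + 1) + 4 → 0 ≤ j → j ≤ 2 →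
          ‖M4_v s (k + j)‖ ≤ V ∧
          Complex.exp (Complex.I * ((k + j : ℤ) : ℂ) * ((2 : ℝ) ^ (-(s : ℝ)) : ℝ)) - 1 ≠ 0 := by
        intro k j hk1 hk2 hj0 hj2
        have h := hden k j hk1 hk2 hj0 hj2
        have hpos : 0 < ‖Complex.exp (Complex.I * ((k + j : ℤ) : ℂ) *
            ((2 : ℝ) ^ (-(s : ℝ)) : ℝ)) - 1‖ := lt_of_lt_of_le (by positivity) h
        refine ⟨?_, norm_pos_iff.1 hpos⟩
        unfold M4_v
        rw [norm_inv, inv_le_comm₀ hpos hV0, ← one_div]
        exact h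
      set z : ℂ := Complex.exp (Complex.I * ((2 : ℝ) ^ (-(s : ℝ)) : ℝ)) with hz
      have hz1 : ‖z - 1‖ ≤ 1 / 2 ^ s := M4_step s
      have hzn : ‖z‖ = 1 := by
        rw [hz, mul_comm]; exact Complex.norm_exp_ofReal_mul_I _
      have hzk : ∀ k : ℤ, Complex.exp (Complex.I * ((k + 1 : ℤ) : ℂ) *
          ((2 : ℝ) ^ (-(s : ℝ)) : ℝ)) =
          Complex.exp (Complex.I * k * ((2 : ℝ) ^ (-(s : ℝ)) : ℝ)) * z := by
        intro k
        rw [hz, ← Complex.exp_add]
        congr 1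
        push_cast
        ring
      -- first difference
      have hD : ∀ k : ℤ, Complex.exp (Complex.I * k * ((2 : ℝ) ^ (-(s : ℝ)) : ℝ)) - 1 ≠ 0 →
          Complex.exp (Complex.I * ((k + 1 : ℤ) : ℂ) * ((2 : ℝ) ^ (-(s : ℝ)) : ℝ)) - 1 ≠ 0 →
          M4_v s (k + 1) - M4_v s k =
            -((z - 1) * Complex.exp (Complex.I * k * ((2 : ℝ) ^ (-(s : ℝ)) : ℝ)) *
              M4_v s k * M4_v s (k + 1)) := by
        intro k hk0 hk1
        unfold M4_v
        rw [hzk] at hk1 ⊢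
        field_simp
        ring
      have hzkn : ∀ k : ℤ, ‖Complex.exp (Complex.I * k * ((2 : ℝ) ^ (-(s : ℝ)) : ℝ))‖ = 1 :=
        fun k => M3_norm_exp k _
      refine H s hs (M4_v s) G hG0.le ?_ ?_ ?_
      · intro k hk1 hk2
        have := (hvb k 0 hk1 (by linarith) le_rfl (by norm_num)).1
        rw [add_zero] at this
        refine this.trans ?_
        rw [hG]; nlinarith [pow_pos hV0 2, pow_pos hV0 3]
      · intro k hk1 hk2
        have v0 := hvb k 0 hk1 (by linarith) le_rfl (by norm_num)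
        have v1 := hvb k 1 hk1 (by linarith) (by norm_num) (by norm_num)
        rw [add_zero] at v0
        rw [hD k v0.2 v1.2, norm_neg, norm_mul, norm_mul, norm_mul, hzkn, mul_one]
        calc ‖z - 1‖ * ‖M4_v s k‖ * ‖M4_v s (k + 1)‖ ≤ 1 / 2 ^ s * V * V := by
              gcongr
              · exact v0.1
              · exact v1.1
          _ ≤ G / 2 ^ s := by
              rw [show 1 / 2 ^ s * V * V = V ^ 2 / 2 ^ s by ring]
              gcongr
              rw [hG]; nlinarith [pow_pos hV0 3]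
      · intro k hk1 hk2
        have v0 := hvb k 0 hk1 (by linarith) le_rfl (by norm_num)
        have v1 := hvb k 1 hk1 (by linarith) (by norm_num) (by norm_num)
        have v2 := hvb k 2 hk1 (by linarith) (by norm_num) (by norm_num)
        rw [add_zero] at v0
        have e2 : k + 2 = k + 1 + 1 := by ring
        have d0 := hD k v0.2 v1.2
        have v2' := v2
        rw [e2] at v2'
        have d1 := hD (k + 1) v1.2 v2'.2
        have key : M4_v s (k + 2) - 2 * M4_v s (k + 1) + M4_v s k =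
            -((z - 1) * Complex.exp (Complex.I * k * ((2 : ℝ) ^ (-(s : ℝ)) : ℝ)) *
              M4_v s (k + 1) * ((z - 1) * M4_v s (k + 2) +
                (M4_v s (k + 2) - M4_v s (k + 1)) + (M4_v s (k + 1) - M4_v s k))) := by
          have d1' := d1
          rw [hzk, ← e2] at d1'
          linear_combination d1' - d0
        have n0 : ‖M4_v s (k + 1) - M4_v s k‖ ≤ V ^ 2 / 2 ^ s := by
          rw [d0, norm_neg, norm_mul, norm_mul, norm_mul, hzkn, mul_one]
          calc ‖z - 1‖ * ‖M4_v s k‖ * ‖M4_v s (k + 1)‖ ≤ 1 / 2 ^ s * V * V := by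
                gcongr
                · exact v0.1
                · exact v1.1
            _ = V ^ 2 / 2 ^ s := by ring
        have n1 : ‖M4_v s (k + 2) - M4_v s (k + 1)‖ ≤ V ^ 2 / 2 ^ s := by
          rw [e2, d1, norm_neg, norm_mul, norm_mul, norm_mul, hzkn, mul_one]
          calc ‖z - 1‖ * ‖M4_v s (k + 1)‖ * ‖M4_v s (k + 1 + 1)‖ ≤ 1 / 2 ^ s * V * V := by
                gcongr
                · exact v1.1
                · exact v2'.1
            _ = V ^ 2 / 2 ^ s := by ring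
        have n2 : ‖(z - 1) * M4_v s (k + 2)‖ ≤ V / 2 ^ s := by
          rw [norm_mul]
          calc ‖z - 1‖ * ‖M4_v s (k + 2)‖ ≤ 1 / 2 ^ s * V := by
                gcongr
                exact v2.1
            _ = V / 2 ^ s := by ring
        rw [key, norm_neg, norm_mul, norm_mul, norm_mul, hzkn, mul_one]
        have n3 : ‖(z - 1) * M4_v s (k + 2) + (M4_v s (k + 2) - M4_v s (k + 1)) +
            (M4_v s (k + 1) - M4_v s k)‖ ≤ V / 2 ^ s + V ^ 2 / 2 ^ s + V ^ 2 / 2 ^ s :=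
          norm_add₃_le.trans (add_le_add (add_le_add n2 n1) n0)
        calc ‖z - 1‖ * ‖M4_v s (k + 1)‖ * ‖(z - 1) * M4_v s (k + 2) +
              (M4_v s (k + 2) - M4_v s (k + 1)) + (M4_v s (k + 1) - M4_v s k)‖
            ≤ 1 / 2 ^ s * V * (V / 2 ^ s + V ^ 2 / 2 ^ s + V ^ 2 / 2 ^ s) := by
              gcongr
              exact v1.1
          _ = (V ^ 2 + 2 * V ^ 3) / (2 ^ s * 2 ^ s) := by field_simp; ring
          _ ≤ G / (2 ^ s * 2 ^ s) := by
              gcongr
              rw [hG]; linarith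

/-! ### M3 -/

private lemma M3_mvt (f f' : ℝ → ℝ) (D y : ℝ)
    (h : ∀ x, y ≤ x → x ≤ y + 1 → HasDerivAt f (f' x) x)
    (hb : ∀ x, y ≤ x → x ≤ y + 1 → |f' x| ≤ D) : |f (y + 1) - f y| ≤ D := by
  have := (convex_Icc y (y + 1)).norm_image_sub_le_of_norm_hasDerivWithin_le
    (fun x hx => (h x hx.1 hx.2).hasDerivWithinAt) (fun x hx => hb x hx.1 hx.2)
    (Set.left_mem_Icc.2 (by linarith)) (Set.right_mem_Icc.2 (by linarith))
  simpa using this

private lemma M3_pow_le (S q y : ℝ) (hS : 0 < S) (hq : 0 ≤ q) (hy : S / 8 ≤ y) :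
    y ^ (-q) ≤ 8 ^ q * S ^ (-q) := by
  have h8 : (0 : ℝ) < S / 8 := by positivity
  calc y ^ (-q) ≤ (S / 8) ^ (-q) := Real.rpow_le_rpow_of_nonpos h8 hy (by linarith)
    _ = 8 ^ q * S ^ (-q) := by
        rw [div_eq_mul_inv, Real.mul_rpow hS.le (by norm_num), Real.inv_rpow (by norm_num),
          Real.rpow_neg (by norm_num : (0 : ℝ) ≤ 8), inv_inv]
        ring

private lemma M3_zero (S r y : ℝ) (hS : 0 < S) (hr : 0 < r) (hy : S / 8 ≤ y) :
    |S ^ r * y ^ (-r)| ≤ 8 ^ r := by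
  have hy0 : 0 < y := lt_of_lt_of_le (by positivity) hy
  rw [abs_of_nonneg (by positivity)]
  calc S ^ r * y ^ (-r) ≤ S ^ r * (8 ^ r * S ^ (-r)) :=
        mul_le_mul_of_nonneg_left (M3_pow_le S r y hS hr.le hy) (by positivity)
    _ = 8 ^ r * (S ^ r * S ^ (-r)) := by ring
    _ = 8 ^ r := by rw [← Real.rpow_add hS, add_neg_cancel, Real.rpow_zero, mul_one]

private lemma M3_deriv1 (S r y : ℝ) (hS : 0 < S) (hr : 0 < r) (hy : S / 8 ≤ y) :
    |S ^ r * (-r * y ^ (-r - 1))| ≤ r * 8 ^ (r + 1) / S := by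
  have hy0 : 0 < y := lt_of_lt_of_le (by positivity) hy
  have e : |S ^ r * (-r * y ^ (-r - 1))| = r * (S ^ r * y ^ (-(r + 1))) := by
    rw [abs_mul, abs_mul, abs_neg, abs_of_pos hr, abs_of_nonneg (Real.rpow_nonneg hS.le _),
      abs_of_nonneg (Real.rpow_nonneg hy0.le _), show -r - 1 = -(r + 1) by ring]
    ring
  rw [e, mul_div_assoc]
  refine mul_le_mul_of_nonneg_left ?_ hr.le
  calc S ^ r * y ^ (-(r + 1)) ≤ S ^ r * (8 ^ (r + 1) * S ^ (-(r + 1))) :=
        mul_le_mul_of_nonneg_left (M3_pow_le S (r + 1) y hS (by linarith) hy) (by positivity)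
    _ = 8 ^ (r + 1) * (S ^ r * S ^ (-(r + 1))) := by ring
    _ = 8 ^ (r + 1) / S := by
        rw [← Real.rpow_add hS, show r + -(r + 1) = -1 by ring, Real.rpow_neg_one]
        rfl

private lemma M3_deriv2 (S r y : ℝ) (hS : 0 < S) (hr : 0 < r) (hy : S / 8 ≤ y) :
    |S ^ r * (-r * ((-r - 1) * y ^ (-r - 1 - 1)))| ≤ r * (r + 1) * 8 ^ (r + 2) / (S * S) := by
  have hy0 : 0 < y := lt_of_lt_of_le (by positivity) hy
  have e : |S ^ r * (-r * ((-r - 1) * y ^ (-r - 1 - 1)))| =
      r * (r + 1) * (S ^ r * y ^ (-(r + 2))) := by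
    have h1 : -r * ((-r - 1) * y ^ (-r - 1 - 1)) = r * (r + 1) * y ^ (-(r + 2)) := by
      rw [show -r - 1 - 1 = -(r + 2) by ring]; ring
    rw [h1, abs_of_nonneg (by positivity)]
    ring
  rw [e, mul_div_assoc]
  refine mul_le_mul_of_nonneg_left ?_ (by positivity)
  calc S ^ r * y ^ (-(r + 2)) ≤ S ^ r * (8 ^ (r + 2) * S ^ (-(r + 2))) :=
        mul_le_mul_of_nonneg_left (M3_pow_le S (r + 2) y hS (by linarith) hy) (by positivity)
    _ = 8 ^ (r + 2) * (S ^ r * S ^ (-(r + 2))) := by ring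
    _ = 8 ^ (r + 2) / (S * S) := by
        rw [← Real.rpow_add hS, show r + -(r + 2) = -1 + -1 by ring, Real.rpow_add hS,
          Real.rpow_neg_one, div_eq_mul_inv, mul_inv]

private lemma M3_hasDeriv (S r y : ℝ) (hy : 0 < y) :
    HasDerivAt (fun x : ℝ => S ^ r * x ^ (-r)) (S ^ r * (-r * y ^ (-r - 1))) y :=
  (Real.hasDerivAt_rpow_const (Or.inl hy.ne')).const_mul _

private lemma M3_hasDeriv2 (S r y : ℝ) (hy : 0 < y) :
    HasDerivAt (fun x : ℝ => S ^ r * (-r * x ^ (-r - 1)))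
      (S ^ r * (-r * ((-r - 1) * y ^ (-r - 1 - 1)))) y :=
  ((Real.hasDerivAt_rpow_const (Or.inl hy.ne')).const_mul _).const_mul _

private lemma M3_d1 (S r y : ℝ) (hS : 0 < S) (hr : 0 < r) (hy : S / 8 ≤ y) :
    |S ^ r * (y + 1) ^ (-r) - S ^ r * y ^ (-r)| ≤ r * 8 ^ (r + 1) / S := by
  have h8 : (0 : ℝ) < S / 8 := by positivity
  exact M3_mvt (fun x => S ^ r * x ^ (-r)) (fun x => S ^ r * (-r * x ^ (-r - 1))) _ y
    (fun x hx _ => M3_hasDeriv S r x (by linarith))
    (fun x hx _ => M3_deriv1 S r x hS hr (by linarith))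

private lemma M3_d2 (S r y : ℝ) (hS : 0 < S) (hr : 0 < r) (hy : S / 8 ≤ y) :
    |S ^ r * (y + 2) ^ (-r) - 2 * (S ^ r * (y + 1) ^ (-r)) + S ^ r * y ^ (-r)| ≤
      r * (r + 1) * 8 ^ (r + 2) / (S * S) := by
  have h8 : (0 : ℝ) < S / 8 := by positivity
  have key := M3_mvt (fun x => S ^ r * (x + 1) ^ (-r) - S ^ r * x ^ (-r))
    (fun x => S ^ r * (-r * (x + 1) ^ (-r - 1)) - S ^ r * (-r * x ^ (-r - 1)))
    (r * (r + 1) * 8 ^ (r + 2) / (S * S)) y ?_ ?_
  · have e : S ^ r * (y + 2) ^ (-r) - 2 * (S ^ r * (y + 1) ^ (-r)) + S ^ r * y ^ (-r) =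
        (S ^ r * (y + 1 + 1) ^ (-r) - S ^ r * (y + 1) ^ (-r)) -
          (S ^ r * (y + 1) ^ (-r) - S ^ r * y ^ (-r)) := by
      rw [show y + 1 + 1 = y + 2 by ring]; ring
    rw [e]
    exact key
  · intro x hx _
    have h1 : HasDerivAt (fun x : ℝ => S ^ r * (x + 1) ^ (-r))
        (S ^ r * (-r * (x + 1) ^ (-r - 1))) x := by
      have := (M3_hasDeriv S r (x + 1) (by linarith)).comp_add_const x 1
      exact this
    exact h1.sub (M3_hasDeriv S r x (by linarith))
  · intro x hx _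
    exact M3_mvt (fun x => S ^ r * (-r * x ^ (-r - 1)))
      (fun x => S ^ r * (-r * ((-r - 1) * x ^ (-r - 1 - 1)))) _ x
      (fun z hz _ => M3_hasDeriv2 S r z (by linarith))
      (fun z hz _ => M3_deriv2 S r z hS hr (by linarith))

/-- values of the multiplier at positive and negative integers -/
private noncomputable def M3_c (r : ℝ) (σ : ℝ) : ℂ := Complex.exp (-(Complex.I * σ * (r * π / 2)))

private lemma M3_c_norm (r σ : ℝ) : ‖M3_c r σ‖ = 1 := by
  unfold M3_c
  have : -(Complex.I * σ * (r * π / 2)) = ((-(σ * (r * π / 2)) : ℝ) : ℂ) * Complex.I := by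
    push_cast; ring
  rw [this]
  exact Complex.norm_exp_ofReal_mul_I _

private lemma M3_bmul_pos (r : ℝ) (k : ℤ) (hk : 0 < k) :
    bmul r r k = (((k : ℝ) ^ (-r) : ℝ) : ℂ) * M3_c r 1 := by
  unfold bmul M3_c
  have hk' : (0 : ℝ) < k := by exact_mod_cast hk
  rw [if_neg hk.ne', abs_of_pos hk', sign_pos hk]
  simp

private lemma M3_bmul_neg (r : ℝ) (k : ℤ) (hk : k < 0) :
    bmul r r k = (((-(k : ℝ)) ^ (-r) : ℝ) : ℂ) * M3_c r (-1) := by
  unfold bmul M3_c
  have hk' : (k : ℝ) < 0 := by exact_mod_cast hk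
  rw [if_neg hk.ne, abs_of_neg hk', sign_neg hk]
  simp

private lemma M3_bmul_norm (r : ℝ) (k : ℤ) (hk : k ≠ 0) : ‖bmul r r k‖ = |(k : ℝ)| ^ (-r) := by
  rcases lt_or_gt_of_ne hk with h | h
  · have hk' : (k : ℝ) < 0 := by exact_mod_cast h
    rw [M3_bmul_neg r k h, norm_mul, M3_c_norm, mul_one, Complex.norm_real, Real.norm_eq_abs,
      abs_of_neg hk', abs_of_nonneg (Real.rpow_nonneg (by linarith) _)]
  · have hk' : (0 : ℝ) < k := by exact_mod_cast h
    rw [M3_bmul_pos r k h, norm_mul, M3_c_norm, mul_one, Complex.norm_real, Real.norm_eq_abs,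
      abs_of_pos hk', abs_of_nonneg (Real.rpow_nonneg hk'.le _)]

private lemma M3_rpow (r : ℝ) (s : ℕ) : (2 : ℝ) ^ (r * s) = ((2 : ℝ) ^ s) ^ r := by
  rw [mul_comm, Real.rpow_mul (by norm_num), Real.rpow_natCast]

theorem mulFam_W (r : ℝ) (hr : 0 < r) : ∃ C ≥ 1, MulFam (mW r) C := by
  obtain ⟨C₁, hC₁, H⟩ := M3_general
  set V : ℝ := 1 + 8 ^ r with hV
  have h8 : (0 : ℝ) < 8 ^ r := by positivity
  have hV0 : 0 < V := by positivity
  set G : ℝ := 8 ^ r + r * 8 ^ (r + 1) + r * (r + 1) * 8 ^ (r + 2) with hG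
  have g1 : (0 : ℝ) ≤ r * 8 ^ (r + 1) := by positivity
  have g2 : (0 : ℝ) ≤ r * (r + 1) * 8 ^ (r + 2) := by positivity
  have hG0 : 0 < G := by positivity
  have hsup : ∀ s k, ‖mW r s k‖ ≤ V := by
    intro s k
    unfold mW
    have hS : (0 : ℝ) < 2 ^ s := by positivity
    by_cases hk : eta s k = 0
    · rw [hk]; simpa using hV0.le
    · rw [norm_mul, Complex.norm_real, Real.norm_eq_abs, abs_mul, abs_of_nonneg (eta_nonneg s k),
        abs_of_nonneg (by positivity)]
      have hmain : (2 : ℝ) ^ (r * s) * ‖bmul r r k‖ ≤ V := by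
        rcases Nat.eq_zero_or_pos s with hs | hs
        · subst hs
          rw [Nat.cast_zero, mul_zero, Real.rpow_zero, one_mul]
          by_cases hk0 : k = 0
          · subst hk0
            unfold bmul
            rw [if_pos rfl, norm_one, hV]
            linarith
          · rw [M3_bmul_norm r k hk0]
            have : (1 : ℝ) ≤ |(k : ℝ)| := by
              have : (1 : ℤ) ≤ |k| := Int.one_le_abs hk0
              exact_mod_cast this
            calc |(k : ℝ)| ^ (-r) ≤ 1 := Real.rpow_le_one_of_one_le_of_nonpos this (by linarith)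
              _ ≤ V := by rw [hV]; linarith
        · obtain ⟨b1, _⟩ := eta_support s hs k hk
          have hk0 : k ≠ 0 := by
            rintro rfl
            rw [abs_zero] at b1
            have : (0 : ℤ) < 2 ^ (s - 1) := by positivity
            linarith
          have b1' : ((2 ^ (s - 1) : ℤ) : ℝ) < ((|k| : ℤ) : ℝ) := Int.cast_lt.2 b1
          rw [Int.cast_abs] at b1'
          push_cast at b1'
          have e : (2 : ℝ) ^ s = 2 * 2 ^ (s - 1) := by
            rw [← pow_succ', show s - 1 + 1 = s by omega]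
          rw [M3_bmul_norm r k hk0, M3_rpow]
          have := M3_zero (2 ^ s) r |(k : ℝ)| hS hr (by rw [e]; linarith)
          rw [abs_of_nonneg (by positivity)] at this
          rw [hV]
          linarith
      calc (2 : ℝ) ^ (r * s) * eta s k * ‖bmul r r k‖
          = eta s k * ((2 : ℝ) ^ (r * s) * ‖bmul r r k‖) := by ring
        _ ≤ 1 * V := mul_le_mul (eta_le_one s k) hmain (by positivity) zero_le_one
        _ = V := one_mul V
  refine ⟨max 1 (max (33 * V) (C₁ * G)), le_max_left _ _, ?_, ?_, ?_⟩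
  · rintro s k ⟨h1, h2⟩
    unfold mW
    rw [eta_eq_zero s k h1 h2]
    simp
  · intro s k
    refine (hsup s k).trans (le_trans ?_ ((le_max_left _ _).trans (le_max_right _ _)))
    linarith
  · intro s
    rcases Nat.lt_or_ge s 4 with hs | hs
    · refine (M3_trivial (s + 1) (mW r s) V (hsup s)).trans
        (le_trans ?_ ((le_max_left _ _).trans (le_max_right _ _)))
      refine mul_le_mul_of_nonneg_right ?_ hV0.le
      have : (2 : ℝ) ^ (s + 1) ≤ 2 ^ 4 := pow_le_pow_right₀ (by norm_num) (by omega)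
      norm_num at this
      linarith
    · refine le_trans ?_ ((le_max_right _ _).trans (le_max_right _ _))
      set S : ℝ := 2 ^ s with hSdef
      have hS : 0 < S := by positivity
      have hfun : mW r s = fun k => (eta s k : ℂ) * (((S ^ r : ℝ) : ℂ) * bmul r r k) := by
        funext k
        unfold mW
        rw [M3_rpow]
        push_cast
        ring
      rw [hfun]
      obtain ⟨p, hp⟩ : ∃ p, s = p + 4 := ⟨s - 4, by omega⟩
      have hpow : (1 : ℝ) ≤ 2 ^ p := one_le_pow₀ (by norm_num)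
      have hpowZ : (1 : ℤ) ≤ 2 ^ p := one_le_pow₀ (by norm_num)
      have e1 : (2 : ℤ) ^ (s - 2) = 4 * 2 ^ p := by
        rw [hp, show p + 4 - 2 = p + 2 by omega, pow_add]; ring
      have e4 : S = 16 * 2 ^ p := by
        rw [hSdef, hp, pow_add]; ring
      -- positive and negative frequencies
      have hposv : ∀ k : ℤ, 0 < k → ((S ^ r : ℝ) : ℂ) * bmul r r k =
          ((S ^ r * (k : ℝ) ^ (-r) : ℝ) : ℂ) * M3_c r 1 := by
        intro k hk
        rw [M3_bmul_pos r k hk]; push_cast; ring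
      have hnegv : ∀ k : ℤ, k < 0 → ((S ^ r : ℝ) : ℂ) * bmul r r k =
          ((S ^ r * (-(k : ℝ)) ^ (-r) : ℝ) : ℂ) * M3_c r (-1) := by
        intro k hk
        rw [M3_bmul_neg r k hk]; push_cast; ring
      have hsplit : ∀ k : ℤ, 2 ^ (s - 2) ≤ |k| → 4 * 2 ^ p ≤ k ∨ k ≤ -(4 * 2 ^ p) := by
        intro k hk
        rw [e1] at hk
        rcases le_total 0 k with h | h
        · left; rwa [abs_of_nonneg h] at hk
        · right; rw [abs_of_nonpos h] at hk; linarith
      refine H s hs (fun k => ((S ^ r : ℝ) : ℂ) * bmul r r k) G hG0.le ?_ ?_ ?_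
      · intro k hk1 _
        show ‖((S ^ r : ℝ) : ℂ) * bmul r r k‖ ≤ G
        rcases hsplit k hk1 with hk | hk
        · have hk' : (4 * 2 ^ p : ℝ) ≤ k := by exact_mod_cast hk
          rw [hposv k (by linarith), norm_mul, M3_c_norm, mul_one, Complex.norm_real,
            Real.norm_eq_abs]
          refine (M3_zero S r k hS hr (by rw [e4]; linarith)).trans ?_
          rw [hG]; linarith
        · have hk' : (k : ℝ) ≤ -(4 * 2 ^ p) := by exact_mod_cast hk
          rw [hnegv k (by linarith), norm_mul, M3_c_norm, mul_one, Complex.norm_real,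
            Real.norm_eq_abs]
          refine (M3_zero S r (-k) hS hr (by rw [e4]; linarith)).trans ?_
          rw [hG]; linarith
      · intro k hk1 _
        show ‖((S ^ r : ℝ) : ℂ) * bmul r r (k + 1) - ((S ^ r : ℝ) : ℂ) * bmul r r k‖ ≤ G / S
        rcases hsplit k hk1 with hk | hk
        · have hk' : (4 * 2 ^ p : ℝ) ≤ k := by exact_mod_cast hk
          rw [hposv k (by linarith), hposv (k + 1) (by linarith), ← sub_mul, norm_mul, M3_c_norm,
            mul_one, ← Complex.ofReal_sub, Complex.norm_real, Real.norm_eq_abs]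
          push_cast
          refine (M3_d1 S r k hS hr (by rw [e4]; linarith)).trans ?_
          gcongr
          rw [hG]; linarith
        · have hk' : (k : ℝ) ≤ -(4 * 2 ^ p) := by exact_mod_cast hk
          rw [hnegv k (by linarith), hnegv (k + 1) (by linarith), ← sub_mul, norm_mul, M3_c_norm,
            mul_one, ← Complex.ofReal_sub, Complex.norm_real, Real.norm_eq_abs, abs_sub_comm]
          have := M3_d1 S r (-(k : ℝ) - 1) hS hr (by rw [e4]; linarith)
          rw [show -(k : ℝ) - 1 + 1 = -(k : ℝ) by ring] at this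
          push_cast
          rw [show -((k : ℝ) + 1) = -(k : ℝ) - 1 by ring]
          refine this.trans ?_
          gcongr
          rw [hG]; linarith
      · intro k hk1 _
        show ‖((S ^ r : ℝ) : ℂ) * bmul r r (k + 2) - 2 * (((S ^ r : ℝ) : ℂ) * bmul r r (k + 1)) +
          ((S ^ r : ℝ) : ℂ) * bmul r r k‖ ≤ G / (S * S)
        rcases hsplit k hk1 with hk | hk
        · have hk' : (4 * 2 ^ p : ℝ) ≤ k := by exact_mod_cast hk
          rw [hposv k (by linarith), hposv (k + 1) (by linarith), hposv (k + 2) (by linarith)]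
          have e : ∀ x y z : ℝ, ((x : ℝ) : ℂ) * M3_c r 1 - 2 * (((y : ℝ) : ℂ) * M3_c r 1) +
              ((z : ℝ) : ℂ) * M3_c r 1 = ((x - 2 * y + z : ℝ) : ℂ) * M3_c r 1 := by
            intro x y z; push_cast; ring
          rw [e, norm_mul, M3_c_norm, mul_one, Complex.norm_real, Real.norm_eq_abs]
          push_cast
          refine (M3_d2 S r k hS hr (by rw [e4]; linarith)).trans ?_
          gcongr
          rw [hG]; linarith
        · have hk' : (k : ℝ) ≤ -(4 * 2 ^ p) := by exact_mod_cast hk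
          rw [hnegv k (by linarith), hnegv (k + 1) (by linarith), hnegv (k + 2) (by linarith)]
          have e : ∀ x y z : ℝ, ((x : ℝ) : ℂ) * M3_c r (-1) - 2 * (((y : ℝ) : ℂ) * M3_c r (-1)) +
              ((z : ℝ) : ℂ) * M3_c r (-1) = ((z - 2 * y + x : ℝ) : ℂ) * M3_c r (-1) := by
            intro x y z; push_cast; ring
          rw [e, norm_mul, M3_c_norm, mul_one, Complex.norm_real, Real.norm_eq_abs]
          have := M3_d2 S r (-(k : ℝ) - 2) hS hr (by rw [e4]; linarith)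
          rw [show -(k : ℝ) - 2 + 2 = -(k : ℝ) by ring,
            show -(k : ℝ) - 2 + 1 = -(k : ℝ) - 1 by ring] at this
          push_cast
          rw [show -((k : ℝ) + 1) = -(k : ℝ) - 1 by ring,
            show -((k : ℝ) + 2) = -(k : ℝ) - 2 by ring]
          refine this.trans ?_
          gcongr
          rw [hG]; linarith

end Pool.Agent.Helper21.SB
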