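import Pool.Agent.Helper21.SB.Base

namespace SB

/-- The field of algebraic numbers. -/
abbrev Qb : Type := AlgebraicClosure ℚ

instance instIsAlgebraicQb : Algebra.IsAlgebraic ℚ Qb := by
  have h : (DivisionRing.toRatAlgebra : Algebra ℚ (AlgebraicClosure ℚ)) = AlgebraicClosure.instAlgebra ℚ :=
    Subsingleton.elim _ _
  have h2 : @Algebra.IsAlgebraic ℚ (AlgebraicClosure ℚ) _ _ (AlgebraicClosure.instAlgebra ℚ) := inferInstance
  rw [← h] at h2
  exact h2

instance instIsAlgClosureQb : IsAlgClosure ℚ Qb := ⟨inferInstance, inferInstance⟩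

instance instIsGaloisQb : IsGalois ℚ Qb := IsAlgClosure.isGalois ℚ Qb

instance instNormalQb : Normal ℚ Qb := IsAlgClosure.normal ℚ Qb

/-- The absolute Galois group of the rational numbers. -/
abbrev GQ : Type := Qb ≃ₐ[ℚ] Qb

/-- The complex conjugations in the absolute Galois group. -/
def CC : Set GQ := {s | ∃ φ : Qb →+* ℂ, ∀ x, φ (s x) = (starRingEnd ℂ) (φ x)}

/-- The subgroups `Gal(Qb/K)`, `K` a finite Galois extension of the rational numbers. -/
def NAll : Set (Subgroup GQ) :=
  {M | ∃ K : IntermediateField ℚ Qb, FiniteDimensional ℚ K ∧ Normal ℚ K ∧ M = K.fixingSubgroup}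

/-- Those with solvable quotient. -/
def NSol : Set (Subgroup GQ) := {M | M ∈ NAll ∧ ∃ _ : M.Normal, Group.IsSolvable (GQ ⧸ M)}

/-- Those with nilpotent quotient. -/
def NNil : Set (Subgroup GQ) := {M | M ∈ NAll ∧ ∃ _ : M.Normal, Group.IsNilpotent (GQ ⧸ M)}

end SB
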