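import Pool.Agent.Helper21.SB.NBase

namespace SB

/-- SB-L1. Rational polynomial with prescribed signs. PROOF: Z = A ∪ B finite. If Z is empty take 0. Lagrange interpolation
(`Lagrange.interpolate` or `Polynomial.exists_...`) gives P : ℝ[X] of degree < n with P(a) = -1 on A, P(b) = 1 on B. The set of
coefficient vectors (c_0..c_n) in ℝ^(n+1) with Σ c_i a^i < 0 (a ∈ A), Σ c_i b^i > 0 (b ∈ B) is open (finite intersection of preimages of open
sets under continuous maps) and contains the coefficients of P; `Rat.denseRange_cast` with `DenseRange.piMap` gives a rational vector in it.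
q = Σ c_i X^i. -/
theorem sgn_poly (A B : Set ℝ) (hA : A.Finite) (hB : B.Finite) (h : Disjoint A B) :
    ∃ q : Polynomial ℚ, (∀ a ∈ A, Polynomial.aeval a q < 0) ∧ (∀ b ∈ B, 0 < Polynomial.aeval b q) := sorry

/-- SB-L2. PROOF. If no s ∈ CC lies in F.fixingSubgroup take β = 1 (κ is empty). Let θ be a primitive element of F/ℚ
(`Field.exists_primitive_element`). For s ∈ CC with witness φ : Qb → ℂ and s ∈ Fix(F): φ θ = φ (s θ) = conj (φ θ), so φ θ is real.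
A = {r : ℝ | ∃ s ∈ κ, ∃ φ witness of s, φ θ = r}, B = same with s ∈ CC ∩ Fix(F), s ∉ κ. Both are finite (roots of the minimal polynomial of θ).
DISJOINT: suppose s₁ ∈ κ, s₂ ∈ CC∩Fix F \ κ with witnesses φ₁, φ₂ and φ₁ θ = φ₂ θ. Then φ₁ = φ₂ on F. Both φ_i have the same image (the algebraic numbers of ℂ),
so there is u : GQ with φ₂ = φ₁ ∘ u (e.g. `IsAlgClosed.lift`/`AlgEquiv.ofBijective`, algebraic extension of ℚ so every embedding Qb → Qb is onto). For x ∈ F: φ₁ (u x) = φ₂ x = φ₁ x, so u ∈ Fix(F).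
φ₁ (u (s₂ x)) = φ₂ (s₂ x) = conj φ₂ x = conj φ₁ (u x) = φ₁ (s₁ (u x)), so u s₂ = s₁ u, s₂ = u⁻¹ s₁ u ∈ κ by hinv. Contradiction.
Take q from `sgn_poly` and α = aeval θ q ∈ F (as element of Qb), β with β ^ 2 = α (`IsAlgClosed.exists_pow_nat_eq`). For s ∈ CC ∩ Fix F with witness φ: φ α = q(φ θ) is a
nonzero real number, so β ≠ 0; (s β)^2 = s α = α so s β = ± β. s β = β iff φ (s β) = φ β iff conj (φ β) = φ β iff φ β is real iff (φ β)^2 = φ α > 0 iff s ∉ κ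
(if φ β is not real but its square is real then the square is negative). -/
theorem nt_sqrt (F : IntermediateField ℚ Qb) (hF : FiniteDimensional ℚ F) (κ : Set GQ) (hκ : κ ⊆ CC)
    (hκF : ∀ s ∈ κ, s ∈ F.fixingSubgroup) (hinv : ∀ s ∈ κ, ∀ u ∈ F.fixingSubgroup, u * s * u⁻¹ ∈ κ) :
    ∃ β : Qb, β ≠ 0 ∧ β ^ 2 ∈ F ∧ ∀ s ∈ CC, s ∈ F.fixingSubgroup → (s β = -β ↔ s ∈ κ) := sorry

/-- SB-L3. Infinite Galois theory: U contains an open subgroup, so it is open, hence closed: `InfiniteGalois.fixingSubgroup_fixedField` (for closed subgroups),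
F = fixedField U ≤ fixedField (Fix K) = K (`InfiniteGalois.fixedField_fixingSubgroup`), so F is finite-dimensional. Or use finite Galois theory if you prefer. -/
theorem open_eq (K : IntermediateField ℚ Qb) (hK : FiniteDimensional ℚ K) (U : Subgroup GQ)
    (h : K.fixingSubgroup ≤ U) :
    ∃ F : IntermediateField ℚ Qb, FiniteDimensional ℚ F ∧ F ≤ K ∧ U = F.fixingSubgroup := sorry

/-- SB-L4 -/
theorem nAll_normal {M : Subgroup GQ} (h : M ∈ NAll) : M.Normal := sorry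

/-- SB-L4 -/
theorem nAll_fin {M : Subgroup GQ} (h : M ∈ NAll) : M.FiniteIndex := sorry

/-- SB-L4 -/
theorem nAll_inf {M M' : Subgroup GQ} (h : M ∈ NAll) (h' : M' ∈ NAll) : M ⊓ M' ∈ NAll := sorry

/-- SB-L4: a normal subgroup containing a member of `NAll` is a member. -/
theorem nAll_up {M M' : Subgroup GQ} (h : M ∈ NAll) (h' : M'.Normal) (hle : M ≤ M') : M' ∈ NAll := sorry

/-- SB-L5. PROOF: witness φ of s gives the witness φ ∘ g⁻¹ of g s g⁻¹. -/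
theorem cc_conj {s : GQ} (hs : s ∈ CC) (g : GQ) : g * s * g⁻¹ ∈ CC := sorry

/-- SB-L5. PROOF: φ, φ' witnesses of s, s'. All embeddings Qb → ℂ have the same image, so φ' = φ ∘ u with u : GQ; φ (u (s' x)) = φ' (s' x) = conj φ' x = conj φ (u x) = φ (s (u x)): u s' = s u, s' = u⁻¹ s u. -/
theorem cc_one {s s' : GQ} (hs : s ∈ CC) (hs' : s' ∈ CC) : ∃ g : GQ, s' = g * s * g⁻¹ := sorry

/-- SB-L5. PROOF: φ (s (s x)) = conj conj φ x = φ x, φ injective. -/
theorem cc_sq {s : GQ} (hs : s ∈ CC) : s * s = 1 := sorry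

/-- SB-L6. PROOF (uses nt_sqrt, open_eq, nAll_normal). M = Fix K, U = Fix F, F ≤ K finite. β from nt_sqrt F κ. L = normal closure of ℚ(β) in Qb, or simply
K'' = K ⊔ normalClosure ℚ ℚ⟮β⟯ Qb, M' = Fix K'' ∈ NAll, M' ≤ M. x u = 1 if u β = β, -1 otherwise; u (β^2) = β^2 for u ∈ U so u β = ± β and x is a homomorphism, trivial on M'.
For a, b ∈ M and h ∈ GQ: (h β)^2 = h (β^2) ∈ K (K normal), so a (h β) = ± h β: hence a*a and the commutator fix every h β and K, so they fix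
K'' (normalClosure is generated by the images h β, `normalClosure_eq_iSup_adjoin...` or `IntermediateField.normalClosure_def`), i.e. lie in M'. (Alternative to fields: show that {g ∈ M | ∀ h, g (h β) = h β} is the fixing subgroup of K ⊔ adjoin ℚ {h β}, a finite normal extension.) -/
theorem nt_all {M : Subgroup GQ} (hM : M ∈ NAll) (U : Subgroup GQ) (hU : M ≤ U) (κ : Set GQ) (hκ : κ ⊆ CC)
    (hκU : ∀ s ∈ κ, s ∈ U) (hinv : ∀ s ∈ κ, ∀ u ∈ U, u * s * u⁻¹ ∈ κ) :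
    ∃ M' ∈ NAll, M' ≤ M ∧ (∀ a ∈ M, a * a ∈ M') ∧ (∀ a ∈ M, ∀ b ∈ M, a * b * a⁻¹ * b⁻¹ ∈ M') ∧
      ∃ x : U →* ℤˣ, (∀ g (h : g ∈ U), g ∈ M' → x ⟨g, h⟩ = 1) ∧
        ∀ s (h : s ∈ U), s ∈ CC → (x ⟨s, h⟩ = -1 ↔ s ∈ κ) := sorry

/-- SB-M1 -/
theorem nSol_inf {M M' : Subgroup GQ} (h : M ∈ NSol) (h' : M' ∈ NSol) : M ⊓ M' ∈ NSol := sorry

/-- SB-M1 -/
theorem nNil_inf {M M' : Subgroup GQ} (h : M ∈ NNil) (h' : M' ∈ NNil) : M ⊓ M' ∈ NNil := sorry

/-- SB-M1: an extension by an abelian group -/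
theorem nSol_ext {M M' : Subgroup GQ} (h : M ∈ NSol) (h' : M' ∈ NAll) (hle : M' ≤ M)
    (hc : ∀ a ∈ M, ∀ b ∈ M, a * b * a⁻¹ * b⁻¹ ∈ M') : M' ∈ NSol := sorry

/-- SB-M2. Finite nilpotent G is the direct product of its Sylow subgroups. O = elements of odd order (e.g. kernel of the projection to the Sylow 2-subgroup in
`Sylow.directProductOfNormal`/`isNilpotent_of_finite_tfae`, or the set {g | orderOf g odd}: in a finite nilpotent group elements of coprime order commute (`commute_of_coprime...`?), and the product of the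
Sylow p-subgroups for odd p has order the odd part of |G|). s with s*s=1 has order dividing 2, g ∈ O has odd order, they commute. -/
theorem odd_part (G : Type*) [Group G] [Finite G] (h : Group.IsNilpotent G) :
    ∃ O : Subgroup G, O.Normal ∧ Odd (Nat.card O) ∧ (∃ k, ∀ g : G, g ^ (2 ^ k) ∈ O) ∧
      ∀ g ∈ O, ∀ s : G, s * s = 1 → g * s = s * g := sorry

/-- SB-M3. PROOF (uses all of L, M1, M2). G = GQ ⧸ M is finite nilpotent; O from odd_part; M₂ = comap of O (normal, ⊇ M, so in NAll by nAll_up; Γ/M₂ is a 2-group). U₂ = U ⊔ M₂.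
(a) κ is stable under conjugation by U₂: for g ∈ M₂, s ∈ κ the images commute mod M (s² = 1), so s⁻¹ (g s g⁻¹) ∈ M and g s g⁻¹ ∈ CC, so g s g⁻¹ ∈ κ by hsat; U₂ is generated by U and M₂.
(b) CC ∩ U₂ ⊂ U: s = u m with u ∈ U, m ∈ M₂ (M₂ normal). n = card O is odd. Mod M: ū = s̄ m̄⁻¹, s̄ and m̄ commute, so ū^n = s̄^n m̄^(-n) = s̄ (s̄² = 1, n odd). So s ∈ u^n M ⊂ U.
(c) nt_all for (M₂, U₂, κ) gives M₂' ∈ NAll and x₂ : U₂ → ℤˣ. M' = M ⊓ M₂'. Γ/M₂' is a 2-group (g^(2^k) ∈ M₂, so g^(2^(k+1)) ∈ M₂'), hence nilpotent (`IsPGroup.isNilpotent`); Γ/M' is nilpotent by nNil_inf.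
x = restriction of x₂ to U. For s ∈ CC ∩ U: x s = -1 iff s ∈ κ. -/
theorem nt_nil {M : Subgroup GQ} (hM : M ∈ NNil) (U : Subgroup GQ) (hU : M ≤ U) (κ : Set GQ) (hκ : κ ⊆ CC)
    (hκU : ∀ s ∈ κ, s ∈ U) (hinv : ∀ s ∈ κ, ∀ u ∈ U, u * s * u⁻¹ ∈ κ)
    (hsat : ∀ s ∈ κ, ∀ s' ∈ CC, s⁻¹ * s' ∈ M → s' ∈ κ) :
    ∃ M' ∈ NNil, M' ≤ M ∧ ∃ x : U →* ℤˣ, (∀ g (h : g ∈ U), g ∈ M' → x ⟨g, h⟩ = 1) ∧
        ∀ s (h : s ∈ U), s ∈ CC → (x ⟨s, h⟩ = -1 ↔ s ∈ κ) := sorry

/-- SB-M4. GQ ⧸ Fix K ≃* (K ≃ₐ[ℚ] K) (e.g. `InfiniteGalois.normalAutEquivQuotient` or the restriction map `AlgEquiv.restrictNormalHom K`, which is surjective with kernel Fix K); solvability and nilpotency transfer along surjections/isomorphisms. -/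
theorem sol_iff (K : IntermediateField ℚ Qb) (hK : FiniteDimensional ℚ K) (hn : Normal ℚ K) :
    (K.fixingSubgroup ∈ NSol ↔ Group.IsSolvable (K ≃ₐ[ℚ] K)) ∧ (K.fixingSubgroup ∈ NNil ↔ Group.IsNilpotent (K ≃ₐ[ℚ] K)) := sorry

end SB
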