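import Pool.Agent.Helper60.SB.Defs5
import Pool.Agent.Helper60.SB.Shapes
import Pool.Agent.Helper41.SB.L4

/-!
Modules P5a, P5b of MP_7fc85e_an: lattice sums.
-/

set_option autoImplicit false

open MeasureTheory Filter Finset
open scoped ENNReal Real Topology

namespace Pool.Agent.Helper60.SB

open Pool.Agent.Helper41.SB (card_level)

/-! ### P5a -/

private lemma P5_shps_card (e q : ℕ) : (shps (e + 1) q).card ≤ (q + 1) ^ e := card_level e q q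

private lemma P5_mem_shps {d l : ℕ} {s : Fin d → ℕ} : s ∈ shps d l ↔ ∑ j, s j = l := by
  unfold shps
  rw [mem_filter, Fintype.mem_piFinset]
  constructor
  · exact fun h => h.2
  · intro h
    refine ⟨fun j => ?_, h⟩
    rw [mem_range, ← h]
    exact Nat.lt_succ_of_le (single_le_sum (f := s) (fun _ _ => Nat.zero_le _) (mem_univ j))

private lemma P5_balance {d : ℕ} (s q : Fin d → ℕ) :
    ∑ j, s j + ∑ j, (q j - s j) = ∑ j, q j + ∑ j, (s j - q j) := by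
  rw [← sum_add_distrib, ← sum_add_distrib]
  exact sum_congr rfl fun j _ => by omega

private lemma P5_summable (b : ℕ) (ρ : ℝ) (h0 : 0 ≤ ρ) (h1 : ρ < 1) :
    Summable fun i : ℕ => ((i : ℝ) + 1) ^ b * ρ ^ i := by
  have h := summable_pow_mul_geometric_of_norm_lt_one b (r := ρ)
    (by rw [Real.norm_of_nonneg h0]; exact h1)
  have h2 : Summable fun i : ℕ => (2 : ℝ) ^ b * ((i : ℝ) ^ b * ρ ^ i) + (if i = 0 then 1 else 0) := by
    refine (h.mul_left _).add ?_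
    exact summable_of_hasFiniteSupport ((Set.finite_singleton 0).subset fun i hi => by
      by_contra hne
      exact hi (if_neg hne))
  refine h2.of_nonneg_of_le (fun i => by positivity) fun i => ?_
  rcases Nat.eq_zero_or_pos i with hi | hi
  · subst hi
    have h3 : (0 : ℝ) ≤ (2 : ℝ) ^ b * (((0 : ℕ) : ℝ) ^ b * ρ ^ 0) := by positivity
    rw [if_pos rfl]
    simp only [Nat.cast_zero, zero_add, one_pow, pow_zero, mul_one] at h3 ⊢
    linarith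
  · rw [if_neg (by omega), add_zero, ← mul_assoc, ← mul_pow]
    have hi' : (1 : ℝ) ≤ i := by exact_mod_cast hi
    refine mul_le_mul_of_nonneg_right ?_ (by positivity)
    exact pow_le_pow_left₀ (by positivity) (by linarith) _

private lemma P5_core (e : ℕ) : ∃ C : ℝ, 1 ≤ C ∧ ∀ (q : Fin (e + 1) → ℕ) (l : ℕ),
    ∑ s ∈ shps (e + 1) l, (1 / 2 : ℝ) ^ (∑ j, (s j - q j) - (l - ∑ j, q j)) ≤
      C * ((l - ∑ j, q j : ℕ) + (∑ j, q j - l : ℕ) + 1 : ℝ) ^ e := by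
  have hsum := P5_summable (2 * e) (1 / 2) (by norm_num) (by norm_num)
  refine ⟨max 1 (∑' i : ℕ, ((i : ℝ) + 1) ^ (2 * e) * (1 / 2 : ℝ) ^ i), le_max_left _ _,
    fun q l => ?_⟩
  set A := l - ∑ j, q j with hA
  set B := ∑ j, q j - l with hB
  have hAB : A * B = 0 := by
    rw [Nat.mul_eq_zero]; omega
  have hABr : (A : ℝ) * B = 0 := by exact_mod_cast hAB
  -- the excess
  have hex : ∀ s ∈ shps (e + 1) l, A ≤ ∑ j, (s j - q j) ∧
      ∑ j, (q j - s j) + A = ∑ j, (s j - q j) + B := by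
    intro s hs
    rw [P5_mem_shps] at hs
    have := P5_balance s q
    rw [hs] at this
    omega
  have hmaps : ∀ s ∈ shps (e + 1) l, (∑ j, (s j - q j) - A) ∈ range (l + 1) := by
    intro s hs
    rw [P5_mem_shps] at hs
    rw [mem_range]
    have : ∑ j, (s j - q j) ≤ ∑ j, s j := sum_le_sum fun j _ => Nat.sub_le _ _
    omega
  rw [← sum_fiberwise_of_maps_to hmaps]
  have hcard : ∀ i ∈ range (l + 1),
      (((shps (e + 1) l).filter fun s => ∑ j, (s j - q j) - A = i).card : ℝ) ≤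
        (((A : ℝ) + B + 1) ^ e) * ((i : ℝ) + 1) ^ (2 * e) := by
    intro i _
    have h1 : ((shps (e + 1) l).filter fun s => ∑ j, (s j - q j) - A = i).card ≤
        (shps (e + 1) (A + i) ×ˢ shps (e + 1) (B + i)).card := by
      refine card_le_card_of_injOn (fun s => (fun j => s j - q j, fun j => q j - s j)) ?_ ?_
      · intro s hs
        rw [mem_coe, mem_filter] at hs
        rw [mem_coe, mem_product, P5_mem_shps, P5_mem_shps]
        obtain ⟨g1, g2⟩ := hex s hs.1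
        constructor
        · show ∑ j, (s j - q j) = A + i
          omega
        · show ∑ j, (q j - s j) = B + i
          omega
      · intro s _ s' _ heq
        simp only [Prod.mk.injEq] at heq
        funext j
        have g1 : s j - q j = s' j - q j := congrFun heq.1 j
        have g2 : q j - s j = q j - s' j := congrFun heq.2 j
        omega
    rw [card_product] at h1
    have h2 : (shps (e + 1) (A + i)).card * (shps (e + 1) (B + i)).card ≤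
        (A + i + 1) ^ e * (B + i + 1) ^ e :=
      Nat.mul_le_mul (P5_shps_card e _) (P5_shps_card e _)
    have h3 : (((shps (e + 1) l).filter fun s => ∑ j, (s j - q j) - A = i).card : ℝ) ≤
        ((A : ℝ) + i + 1) ^ e * ((B : ℝ) + i + 1) ^ e := by
      exact_mod_cast h1.trans h2
    refine h3.trans ?_
    rw [← mul_pow, pow_mul, ← mul_pow]
    refine pow_le_pow_left₀ (by positivity) ?_ e
    have hA0 : (0 : ℝ) ≤ A := Nat.cast_nonneg _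
    have hB0 : (0 : ℝ) ≤ B := Nat.cast_nonneg _
    have hi0 : (0 : ℝ) ≤ i := Nat.cast_nonneg _
    calc ((A : ℝ) + i + 1) * ((B : ℝ) + i + 1)
        ≤ (((A : ℝ) + 1) * (i + 1)) * (((B : ℝ) + 1) * (i + 1)) := by
          refine mul_le_mul ?_ ?_ (by positivity) (by positivity)
          · nlinarith
          · nlinarith
      _ = ((A : ℝ) * B + A + B + 1) * ((i : ℝ) + 1) ^ 2 := by ring
      _ = ((A : ℝ) + B + 1) * ((i : ℝ) + 1) ^ 2 := by rw [hABr, zero_add]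
  calc ∑ i ∈ range (l + 1), ∑ s ∈ (shps (e + 1) l).filter (fun s => ∑ j, (s j - q j) - A = i),
        (1 / 2 : ℝ) ^ (∑ j, (s j - q j) - A)
      = ∑ i ∈ range (l + 1),
        (((shps (e + 1) l).filter fun s => ∑ j, (s j - q j) - A = i).card : ℝ) *
          (1 / 2 : ℝ) ^ i := by
        refine sum_congr rfl fun i _ => ?_
        rw [← nsmul_eq_mul, ← sum_const]
        refine sum_congr rfl fun s hs => ?_
        rw [(mem_filter.1 hs).2]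
    _ ≤ ∑ i ∈ range (l + 1), (((A : ℝ) + B + 1) ^ e) * ((i : ℝ) + 1) ^ (2 * e) *
          (1 / 2 : ℝ) ^ i :=
        sum_le_sum fun i hi => mul_le_mul_of_nonneg_right (hcard i hi) (by positivity)
    _ = (((A : ℝ) + B + 1) ^ e) * ∑ i ∈ range (l + 1), ((i : ℝ) + 1) ^ (2 * e) *
          (1 / 2 : ℝ) ^ i := by
        rw [mul_sum]
        exact sum_congr rfl fun i _ => by ring
    _ ≤ (((A : ℝ) + B + 1) ^ e) *
          max 1 (∑' i : ℕ, ((i : ℝ) + 1) ^ (2 * e) * (1 / 2 : ℝ) ^ i) := by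
        refine mul_le_mul_of_nonneg_left ((hsum.sum_le_tsum _ fun i _ => ?_).trans
          (le_max_right _ _)) (by positivity)
        positivity
    _ = _ := by ring

theorem lat_up (e : ℕ) : ∃ C ≥ 1, ∀ (q : Fin (e + 1) → ℕ) (l : ℕ),
    ∑ s ∈ shps (e + 1) l, (1 / 2 : ℝ) ^ (∑ j, (s j - q j)) ≤
      C * ((l - ∑ j, q j : ℕ) + (∑ j, q j - l : ℕ) + 1 : ℝ) ^ e *
        (1 / 2 : ℝ) ^ (l - ∑ j, q j) := by
  obtain ⟨C, hC, H⟩ := P5_core e
  refine ⟨C, hC, fun q l => ?_⟩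
  calc ∑ s ∈ shps (e + 1) l, (1 / 2 : ℝ) ^ (∑ j, (s j - q j))
      = ∑ s ∈ shps (e + 1) l, (1 / 2 : ℝ) ^ (∑ j, (s j - q j) - (l - ∑ j, q j)) *
          (1 / 2 : ℝ) ^ (l - ∑ j, q j) := by
        refine sum_congr rfl fun s hs => ?_
        rw [P5_mem_shps] at hs
        have := P5_balance s q
        rw [← pow_add]
        congr 1
        omega
    _ = (∑ s ∈ shps (e + 1) l, (1 / 2 : ℝ) ^ (∑ j, (s j - q j) - (l - ∑ j, q j))) *
          (1 / 2 : ℝ) ^ (l - ∑ j, q j) := by rw [sum_mul]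
    _ ≤ _ := mul_le_mul_of_nonneg_right (H q l) (by positivity)

theorem lat_down (e : ℕ) : ∃ C ≥ 1, ∀ (q : Fin (e + 1) → ℕ) (l : ℕ),
    ∑ s ∈ shps (e + 1) l, (1 / 2 : ℝ) ^ (∑ j, (q j - s j)) ≤
      C * ((l - ∑ j, q j : ℕ) + (∑ j, q j - l : ℕ) + 1 : ℝ) ^ e *
        (1 / 2 : ℝ) ^ (∑ j, q j - l) := by
  obtain ⟨C, hC, H⟩ := P5_core e
  refine ⟨C, hC, fun q l => ?_⟩
  calc ∑ s ∈ shps (e + 1) l, (1 / 2 : ℝ) ^ (∑ j, (q j - s j))
      = ∑ s ∈ shps (e + 1) l, (1 / 2 : ℝ) ^ (∑ j, (s j - q j) - (l - ∑ j, q j)) *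
          (1 / 2 : ℝ) ^ (∑ j, q j - l) := by
        refine sum_congr rfl fun s hs => ?_
        rw [P5_mem_shps] at hs
        have := P5_balance s q
        rw [← pow_add]
        congr 1
        omega
    _ = (∑ s ∈ shps (e + 1) l, (1 / 2 : ℝ) ^ (∑ j, (s j - q j) - (l - ∑ j, q j))) *
          (1 / 2 : ℝ) ^ (∑ j, q j - l) := by rw [sum_mul]
    _ ≤ _ := mul_le_mul_of_nonneg_right (H q l) (by positivity)

/-! ### P5b -/

private lemma P5_two_sided (g : ℕ → ℝ) (hg : ∀ i, 0 ≤ g i) (hs : Summable g) (N : ℕ)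
    (F : Finset ℕ) : ∑ K ∈ F, g ((N - K) + (K - N)) ≤ 2 * ∑' i, g i := by
  rw [← sum_filter_add_sum_filter_not F (fun K => K < N)]
  have h1 : ∑ K ∈ F.filter (fun K => K < N), g ((N - K) + (K - N)) ≤ ∑' i, g i := by
    have hinj : Set.InjOn (fun K => N - K) (F.filter (fun K => K < N) : Finset ℕ) := by
      intro a ha b hb hab
      rw [mem_coe, mem_filter] at ha hb
      simp only at hab
      omega
    calc ∑ K ∈ F.filter (fun K => K < N), g ((N - K) + (K - N))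
        = ∑ K ∈ F.filter (fun K => K < N), g (N - K) := by
          refine sum_congr rfl fun K hK => ?_
          rw [mem_filter] at hK
          congr 1
          omega
      _ = ∑ i ∈ (F.filter (fun K => K < N)).image (fun K => N - K), g i :=
          (sum_image hinj).symm
      _ ≤ ∑' i, g i := hs.sum_le_tsum _ fun i _ => hg i
  have h2 : ∑ K ∈ F.filter (fun K => ¬ K < N), g ((N - K) + (K - N)) ≤ ∑' i, g i := by
    have hinj : Set.InjOn (fun K => K - N) (F.filter (fun K => ¬ K < N) : Finset ℕ) := by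
      intro a ha b hb hab
      rw [mem_coe, mem_filter] at ha hb
      simp only at hab
      omega
    calc ∑ K ∈ F.filter (fun K => ¬ K < N), g ((N - K) + (K - N))
        = ∑ K ∈ F.filter (fun K => ¬ K < N), g (K - N) := by
          refine sum_congr rfl fun K hK => ?_
          rw [mem_filter] at hK
          congr 1
          omega
      _ = ∑ i ∈ (F.filter (fun K => ¬ K < N)).image (fun K => K - N), g i :=
          (sum_image hinj).symm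
      _ ≤ ∑' i, g i := hs.sum_le_tsum _ fun i _ => hg i
  linarith

private lemma P5_shp_inj (e m : ℕ) : Function.Injective (shp e m) := by
  intro t t' h
  funext j
  have := congrFun h j.castSucc
  rw [shp_castSucc, shp_castSucc] at this
  exact Fin.ext this

/-- the sum over the shapes of the boxes is bounded by the sum over all shapes -/
private lemma P5_B_le (e m : ℕ) (q : Fin (e + 2) → ℕ) :
    ∑ t : Fin (e + 1) → Fin m, (1 / 2 : ℝ) ^ (∑ j, (shp e m t j - q j)) ≤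
      ∑ s ∈ shps (e + 2) ((e + 2) * m), (1 / 2 : ℝ) ^ (∑ j, (s j - q j)) := by
  calc ∑ t : Fin (e + 1) → Fin m, (1 / 2 : ℝ) ^ (∑ j, (shp e m t j - q j))
      = ∑ s ∈ (univ : Finset (Fin (e + 1) → Fin m)).image (shp e m),
          (1 / 2 : ℝ) ^ (∑ j, (s j - q j)) := by
        rw [sum_image (P5_shp_inj e m).injOn]
    _ ≤ _ := by
        refine sum_le_sum_of_subset_of_nonneg ?_ fun _ _ _ => by positivity
        intro s hs
        rw [mem_image] at hs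
        obtain ⟨t, _, rfl⟩ := hs
        rw [P5_mem_shps]
        exact sum_shp t

private lemma P5_B_le' (e m : ℕ) (q : Fin (e + 2) → ℕ) :
    ∑ t : Fin (e + 1) → Fin m, (1 / 2 : ℝ) ^ (∑ j, (shp e m t j - q j)) ≤ (m : ℝ) ^ (e + 1) := by
  calc ∑ t : Fin (e + 1) → Fin m, (1 / 2 : ℝ) ^ (∑ j, (shp e m t j - q j))
      ≤ ∑ _t : Fin (e + 1) → Fin m, (1 : ℝ) :=
        sum_le_sum fun t _ => pow_le_one₀ (by norm_num) (by norm_num)
    _ = (m : ℝ) ^ (e + 1) := by simp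

private lemma P5_min {d : ℕ} (s q : Fin d → ℕ) :
    (1 / 2 : ℝ) ^ (∑ j, q j) * (2 : ℝ) ^ (∑ j, min (s j) (q j)) =
      (1 / 2 : ℝ) ^ (∑ j, (q j - s j)) := by
  have h : ∑ j, q j = ∑ j, (q j - s j) + ∑ j, min (s j) (q j) := by
    rw [← sum_add_distrib]
    exact sum_congr rfl fun j _ => by omega
  rw [h, pow_add, mul_assoc, ← mul_pow]
  norm_num

private lemma P5_rho : Real.exp (1 / 8) < 2 := by
  have h7 : Real.exp (1 / 8) ≤ 1 / (1 - 1 / 8) := by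
    have := Real.one_sub_le_exp_neg (1 / 8 : ℝ)
    rw [Real.exp_neg] at this
    rw [le_div_iff₀ (by norm_num)]
    have hp := Real.exp_pos (1 / 8 : ℝ)
    calc Real.exp (1 / 8) * (1 - 1 / 8) ≤ Real.exp (1 / 8) * (Real.exp (1 / 8))⁻¹ :=
          mul_le_mul_of_nonneg_left this hp.le
      _ = 1 := mul_inv_cancel₀ hp.ne'
  exact lt_of_le_of_lt h7 (by norm_num)

private lemma P5_alg (a CJ ρ i2 i1 hA hB r : ℝ) :
    ((a * i2 * hA) * (ρ * r)) * (CJ * i1 * hB) = (a * CJ * ρ) * (i2 * i1) * (r * (hA * hB)) := by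
  ring

/-- bounds for the sum over the boxes -/
private lemma P5_BB (e m : ℕ) (hm : 1 ≤ m) (C₁ : ℝ) (hC₁ : 1 ≤ C₁)
    (H1 : ∀ (q : Fin (e + 2) → ℕ) (l : ℕ),
      ∑ s ∈ shps (e + 2) l, (1 / 2 : ℝ) ^ (∑ j, (s j - q j)) ≤
        C₁ * ((l - ∑ j, q j : ℕ) + (∑ j, q j - l : ℕ) + 1 : ℝ) ^ (e + 1) *
          (1 / 2 : ℝ) ^ (l - ∑ j, q j))
    (q : Fin (e + 2) → ℕ) (A B : ℕ) (hA : A = (e + 2) * m - ∑ j, q j)
    (hB : B = ∑ j, q j - (e + 2) * m) (i : ℝ) (hi : i = (A : ℝ) + B + 1) :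
    ∑ t : Fin (e + 1) → Fin m, (1 / 2 : ℝ) ^ (∑ j, (shp e m t j - q j)) ≤
        C₁ * i ^ (e + 1) * (1 / 2) ^ A ∧
      ∑ t : Fin (e + 1) → Fin m, (1 / 2 : ℝ) ^ (∑ j, (shp e m t j - q j)) ≤
        C₁ * ((e : ℝ) + 3) ^ e * i * (m : ℝ) ^ e := by
  have hi1 : 1 ≤ i := by
    rw [hi]; linarith [Nat.cast_nonneg (α := ℝ) A, Nat.cast_nonneg (α := ℝ) B]
  have hm' : (1 : ℝ) ≤ m := by exact_mod_cast hm
  have hme : (0 : ℝ) < (m : ℝ) ^ e := by positivity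
  have hNm : (((e + 2) * m : ℕ) : ℝ) + 1 ≤ ((e : ℝ) + 3) * m := by
    push_cast; nlinarith
  have b1 : ∑ t : Fin (e + 1) → Fin m, (1 / 2 : ℝ) ^ (∑ j, (shp e m t j - q j)) ≤
      C₁ * i ^ (e + 1) * (1 / 2) ^ A := by
    refine (P5_B_le e m q).trans ((H1 q ((e + 2) * m)).trans (le_of_eq ?_))
    rw [← hA, ← hB, hi]
  refine ⟨b1, ?_⟩
  have b1' : ∑ t : Fin (e + 1) → Fin m, (1 / 2 : ℝ) ^ (∑ j, (shp e m t j - q j)) ≤
      C₁ * i ^ (e + 1) := by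
    refine b1.trans ?_
    have : (1 / 2 : ℝ) ^ A ≤ 1 := pow_le_one₀ (by norm_num) (by norm_num)
    have h0 : 0 ≤ C₁ * i ^ (e + 1) := by positivity
    nlinarith
  have h3e : (1 : ℝ) ≤ ((e : ℝ) + 3) ^ e := one_le_pow₀ (by linarith [Nat.cast_nonneg (α := ℝ) e])
  rcases le_or_gt i ((((e + 2) * m : ℕ) : ℝ) + 1) with hle | hgt
  · refine b1'.trans ?_
    rw [pow_succ]
    have : i ^ e ≤ (((e : ℝ) + 3) * m) ^ e := pow_le_pow_left₀ (by linarith) (hle.trans hNm) e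
    rw [mul_pow] at this
    calc C₁ * (i ^ e * i) ≤ C₁ * ((((e : ℝ) + 3) ^ e * (m : ℝ) ^ e) * i) := by gcongr
      _ = _ := by ring
  · refine (P5_B_le' e m q).trans ?_
    have hmi : (m : ℝ) ≤ i := by
      refine le_trans ?_ hgt.le
      push_cast
      nlinarith [Nat.cast_nonneg (α := ℝ) e]
    rw [pow_succ]
    have h5 : (1 : ℝ) ≤ C₁ * ((e : ℝ) + 3) ^ e := one_le_mul_of_one_le_of_one_le hC₁ h3e
    have h6 : (m : ℝ) ≤ C₁ * ((e : ℝ) + 3) ^ e * i := by nlinarith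
    calc (m : ℝ) ^ e * m ≤ (m : ℝ) ^ e * (C₁ * ((e : ℝ) + 3) ^ e * i) :=
          mul_le_mul_of_nonneg_left h6 hme.le
      _ = _ := by ring

/-- the sum over the levels -/
private lemma P5_levels (e J N : ℕ) (C₂ : ℝ) (hC₂ : 1 ≤ C₂)
    (H2 : ∀ (q : Fin (e + 2) → ℕ) (l : ℕ),
      ∑ s ∈ shps (e + 2) l, (1 / 2 : ℝ) ^ (∑ j, (q j - s j)) ≤
        C₂ * ((l - ∑ j, q j : ℕ) + (∑ j, q j - l : ℕ) + 1 : ℝ) ^ (e + 1) *
          (1 / 2 : ℝ) ^ (∑ j, q j - l))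
    (q : Fin (e + 2) → ℕ) (A B : ℕ) (hA : A = N - ∑ j, q j)
    (hB : B = ∑ j, q j - N) (i : ℝ) (hi : i = (A : ℝ) + B + 1) :
    (1 / 2 : ℝ) ^ (∑ j, q j) * ∑ l ∈ Finset.Icc (N - J) (N + J),
        ∑ s ∈ shps (e + 2) l, (2 : ℝ) ^ (∑ j, min (s j) (q j)) ≤
      (2 * J + 1) * (C₂ * ((J : ℝ) + 1) ^ (e + 1) * 2 ^ J) * i ^ (e + 1) * (1 / 2) ^ B := by
  have hi1 : 1 ≤ i := by
    rw [hi]; linarith [Nat.cast_nonneg (α := ℝ) A, Nat.cast_nonneg (α := ℝ) B]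
  rw [mul_sum]
  have hl : ∀ l ∈ Finset.Icc (N - J) (N + J),
      (1 / 2 : ℝ) ^ (∑ j, q j) * ∑ s ∈ shps (e + 2) l, (2 : ℝ) ^ (∑ j, min (s j) (q j)) ≤
        C₂ * ((J : ℝ) + 1) ^ (e + 1) * 2 ^ J * (i ^ (e + 1) * (1 / 2) ^ B) := by
    intro l hl
    rw [mem_Icc] at hl
    rw [mul_sum]
    simp_rw [P5_min]
    refine (H2 q l).trans ?_
    have c1 : ((l - ∑ j, q j : ℕ) + (∑ j, q j - l : ℕ) + 1 : ℝ) ≤ ((J : ℝ) + 1) * i := by
      have h1 : (l - ∑ j, q j) + (∑ j, q j - l) + 1 ≤ J + (A + B) + 1 := by omega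
      have h2 : ((l - ∑ j, q j : ℕ) + (∑ j, q j - l : ℕ) + 1 : ℝ) ≤
          (J : ℝ) + ((A : ℝ) + B) + 1 := by exact_mod_cast h1
      refine h2.trans ?_
      rw [hi]
      have := Nat.cast_nonneg (α := ℝ) A
      have := Nat.cast_nonneg (α := ℝ) B
      have := Nat.cast_nonneg (α := ℝ) J
      nlinarith
    have c2 : (1 / 2 : ℝ) ^ (∑ j, q j - l) ≤ 2 ^ J * (1 / 2) ^ B := by
      have h1 : B ≤ (∑ j, q j - l) + J := by omega
      have h2 : (1 / 2 : ℝ) ^ (∑ j, q j - l) = 2 ^ J * (1 / 2) ^ ((∑ j, q j - l) + J) := by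
        rw [pow_add, mul_comm ((1 / 2 : ℝ) ^ _) _, ← mul_assoc, ← mul_pow]
        norm_num
      rw [h2]
      refine mul_le_mul_of_nonneg_left ?_ (by positivity)
      exact pow_le_pow_of_le_one (by norm_num) (by norm_num) h1
    calc C₂ * ((l - ∑ j, q j : ℕ) + (∑ j, q j - l : ℕ) + 1 : ℝ) ^ (e + 1) *
          (1 / 2 : ℝ) ^ (∑ j, q j - l)
        ≤ C₂ * (((J : ℝ) + 1) * i) ^ (e + 1) * (2 ^ J * (1 / 2) ^ B) := by
          refine mul_le_mul ?_ c2 (by positivity) (by positivity)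
          refine mul_le_mul_of_nonneg_left ?_ (by linarith)
          exact pow_le_pow_left₀ (by positivity) c1 _
      _ = _ := by rw [mul_pow]; ring
  refine (sum_le_sum hl).trans ?_
  rw [sum_const, nsmul_eq_mul, Nat.card_Icc]
  have hc : (((N + J + 1 - (N - J) : ℕ)) : ℝ) ≤ 2 * J + 1 := by
    have : N + J + 1 - (N - J) ≤ 2 * J + 1 := by omega
    exact_mod_cast this
  calc (((N + J + 1 - (N - J) : ℕ)) : ℝ) *
        (C₂ * ((J : ℝ) + 1) ^ (e + 1) * 2 ^ J * (i ^ (e + 1) * (1 / 2) ^ B))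
      ≤ (2 * J + 1) * (C₂ * ((J : ℝ) + 1) ^ (e + 1) * 2 ^ J * (i ^ (e + 1) * (1 / 2) ^ B)) :=
        mul_le_mul_of_nonneg_right hc (by positivity)
    _ = _ := by ring

/-- bounds for the discrete majorant -/
private lemma P5_sdis (e m : ℕ) (hm : 1 ≤ m) (C₀ C₁ C₃ U : ℝ) (hC₀ : 0 < C₀) (hC₁ : 1 ≤ C₁)
    (hC₃ : 1 ≤ C₃) (hU : 1 + 16 * C₀ * C₃ ≤ U) (q : Fin (e + 2) → ℕ) (A k : ℕ) (i : ℝ)
    (hi1 : 1 ≤ i) (hi : i = (k : ℝ) + 1)
    (b1 : ∑ t : Fin (e + 1) → Fin m, (1 / 2 : ℝ) ^ (∑ j, (shp e m t j - q j)) ≤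
        C₁ * i ^ (e + 1) * (1 / 2) ^ A)
    (b2 : ∑ t : Fin (e + 1) → Fin m, (1 / 2 : ℝ) ^ (∑ j, (shp e m t j - q j)) ≤
        C₃ * i * (m : ℝ) ^ e) :
    Sdis e m C₀ U q ^ 2 * Real.exp (2 * Sdis e m C₀ U q) ≤
      (C₀ ^ 2 * C₁ ^ 2 / (U ^ 2 * (m : ℝ) ^ e) ^ 2 * i ^ (2 * (e + 1)) * (1 / 2) ^ A) *
        (Real.exp (1 / 8) * Real.exp (1 / 8) ^ k) := by
  have hSd : Sdis e m C₀ U q = C₀ / (U ^ 2 * (m : ℝ) ^ e) *
      ∑ t : Fin (e + 1) → Fin m, (1 / 2 : ℝ) ^ (∑ j, (shp e m t j - q j)) := rfl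
  have hBB0 : 0 ≤ ∑ t : Fin (e + 1) → Fin m, (1 / 2 : ℝ) ^ (∑ j, (shp e m t j - q j)) :=
    sum_nonneg fun _ _ => by positivity
  rw [hSd]
  generalize (∑ t : Fin (e + 1) → Fin m, (1 / 2 : ℝ) ^ (∑ j, (shp e m t j - q j))) = BB at *
  have hC03 : 0 < C₀ * C₃ := by positivity
  have hU1 : 1 ≤ U := by nlinarith
  have hm' : (1 : ℝ) ≤ m := by exact_mod_cast hm
  have hme : (0 : ℝ) < (m : ℝ) ^ e := by positivity
  have hden : 0 < U ^ 2 * (m : ℝ) ^ e := by positivity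
  have b3 : 2 * (C₀ / (U ^ 2 * (m : ℝ) ^ e) * BB) ≤ 1 / 8 * i := by
    have h1 : 2 * (C₀ / (U ^ 2 * (m : ℝ) ^ e) * BB) ≤
        2 * (C₀ / (U ^ 2 * (m : ℝ) ^ e) * (C₃ * i * (m : ℝ) ^ e)) := by gcongr
    have h2 : 2 * (C₀ / (U ^ 2 * (m : ℝ) ^ e) * (C₃ * i * (m : ℝ) ^ e)) =
        2 * C₀ * C₃ / U ^ 2 * i := by field_simp
    have h3 : 2 * C₀ * C₃ / U ^ 2 ≤ 1 / 8 := by
      rw [div_le_iff₀ (by positivity)]
      have : 1 + 16 * C₀ * C₃ ≤ U ^ 2 := by nlinarith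
      nlinarith
    rw [h2] at h1
    exact h1.trans (mul_le_mul_of_nonneg_right h3 (by linarith))
  have b4 : Real.exp (2 * (C₀ / (U ^ 2 * (m : ℝ) ^ e) * BB)) ≤
      Real.exp (1 / 8) * Real.exp (1 / 8) ^ k := by
    have : Real.exp (1 / 8) * Real.exp (1 / 8) ^ k = Real.exp (1 / 8 * i) := by
      rw [← Real.exp_nat_mul, ← Real.exp_add, hi]
      congr 1
      ring
    rw [this]
    exact Real.exp_le_exp.2 b3
  have b5 : (C₀ / (U ^ 2 * (m : ℝ) ^ e) * BB) ^ 2 ≤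
      C₀ ^ 2 * C₁ ^ 2 / (U ^ 2 * (m : ℝ) ^ e) ^ 2 * i ^ (2 * (e + 1)) * (1 / 2) ^ A := by
    rw [mul_pow, div_pow]
    have h1 : BB ^ 2 ≤ (C₁ * i ^ (e + 1) * (1 / 2) ^ A) ^ 2 := pow_le_pow_left₀ hBB0 b1 2
    have h2 : (C₁ * i ^ (e + 1) * (1 / 2) ^ A) ^ 2 ≤ C₁ ^ 2 * i ^ (2 * (e + 1)) * (1 / 2) ^ A := by
      rw [mul_pow, mul_pow, ← pow_mul, ← pow_mul, mul_comm (e + 1) 2, mul_comm A 2]
      refine mul_le_mul_of_nonneg_left ?_ (by positivity)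
      exact pow_le_pow_of_le_one (by norm_num) (by norm_num) (by omega)
    calc C₀ ^ 2 / (U ^ 2 * (m : ℝ) ^ e) ^ 2 * BB ^ 2
        ≤ C₀ ^ 2 / (U ^ 2 * (m : ℝ) ^ e) ^ 2 * (C₁ ^ 2 * i ^ (2 * (e + 1)) * (1 / 2) ^ A) :=
          mul_le_mul_of_nonneg_left (h1.trans h2) (by positivity)
      _ = _ := by ring
  exact mul_le_mul b5 b4 (Real.exp_pos _).le (by positivity)

private lemma P5_term (e m J : ℕ) (hm : 1 ≤ m) (C₀ C₁ C₂ U : ℝ) (hC₀ : 0 < C₀) (hC₁ : 1 ≤ C₁)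
    (hC₂ : 1 ≤ C₂)
    (H1 : ∀ (q : Fin (e + 2) → ℕ) (l : ℕ),
      ∑ s ∈ shps (e + 2) l, (1 / 2 : ℝ) ^ (∑ j, (s j - q j)) ≤
        C₁ * ((l - ∑ j, q j : ℕ) + (∑ j, q j - l : ℕ) + 1 : ℝ) ^ (e + 1) *
          (1 / 2 : ℝ) ^ (l - ∑ j, q j))
    (H2 : ∀ (q : Fin (e + 2) → ℕ) (l : ℕ),
      ∑ s ∈ shps (e + 2) l, (1 / 2 : ℝ) ^ (∑ j, (q j - s j)) ≤
        C₂ * ((l - ∑ j, q j : ℕ) + (∑ j, q j - l : ℕ) + 1 : ℝ) ^ (e + 1) *
          (1 / 2 : ℝ) ^ (∑ j, q j - l))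
    (hU : 1 + 16 * C₀ * (C₁ * ((e : ℝ) + 3) ^ e) ≤ U) (q : Fin (e + 2) → ℕ) (A B : ℕ)
    (hA : A = (e + 2) * m - ∑ j, q j) (hB : B = ∑ j, q j - (e + 2) * m) :
    (1 / 2 : ℝ) ^ (∑ j, q j) * ((Sdis e m C₀ U q) ^ 2 * Real.exp (2 * Sdis e m C₀ U q)) *
        ∑ l ∈ Finset.Icc ((e + 2) * m - J) ((e + 2) * m + J),
          ∑ s ∈ shps (e + 2) l, (2 : ℝ) ^ (∑ j, min (s j) (q j)) ≤
      (C₀ ^ 2 * C₁ ^ 2 / (U ^ 2 * (m : ℝ) ^ e) ^ 2 *
        ((2 * J + 1) * (C₂ * ((J : ℝ) + 1) ^ (e + 1) * 2 ^ J)) * Real.exp (1 / 8)) *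
        ((((A + B : ℕ) : ℝ) + 1) ^ (3 * (e + 1)) * (Real.exp (1 / 8) / 2) ^ (A + B)) := by
  have h3e : (1 : ℝ) ≤ ((e : ℝ) + 3) ^ e := one_le_pow₀ (by linarith [Nat.cast_nonneg (α := ℝ) e])
  have hC₃ : (1 : ℝ) ≤ C₁ * ((e : ℝ) + 3) ^ e := one_le_mul_of_one_le_of_one_le hC₁ h3e
  have hi : (((A + B : ℕ) : ℝ) + 1) = (A : ℝ) + B + 1 := by push_cast; rfl
  have hi1 : (1 : ℝ) ≤ (((A + B : ℕ) : ℝ) + 1) := by linarith [Nat.cast_nonneg (α := ℝ) (A + B)]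
  obtain ⟨b1, b2⟩ := P5_BB e m hm C₁ hC₁ H1 q A B hA hB _ hi
  have b5 := P5_sdis e m hm C₀ C₁ (C₁ * ((e : ℝ) + 3) ^ e) U hC₀ hC₁ hC₃ hU q A (A + B) _ hi1
    rfl b1 b2
  have b6 := P5_levels e J ((e + 2) * m) C₂ hC₂ H2 q A B hA hB _ hi
  have hX0 : 0 ≤ (1 / 2 : ℝ) ^ (∑ j, q j) * ∑ l ∈ Finset.Icc ((e + 2) * m - J) ((e + 2) * m + J),
      ∑ s ∈ shps (e + 2) l, (2 : ℝ) ^ (∑ j, min (s j) (q j)) :=
    mul_nonneg (by positivity) (sum_nonneg fun _ _ => sum_nonneg fun _ _ => by positivity)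
  have hmul := mul_le_mul b5 b6 hX0 (by positivity)
  rw [P5_alg] at hmul
  have e1 : Real.exp (1 / 8) ^ (A + B) * ((1 / 2) ^ A * (1 / 2) ^ B) =
      (Real.exp (1 / 8) / 2) ^ (A + B) := by
    rw [← pow_add, ← mul_pow]; congr 1; ring
  have e2 : (((A + B : ℕ) : ℝ) + 1) ^ (2 * (e + 1)) * (((A + B : ℕ) : ℝ) + 1) ^ (e + 1) =
      (((A + B : ℕ) : ℝ) + 1) ^ (3 * (e + 1)) := by
    rw [← pow_add]; congr 1; ring
  rw [e1, e2] at hmul
  refine le_trans (le_of_eq ?_) (hmul.trans (le_of_eq ?_))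
  · rw [mul_comm ((1 / 2 : ℝ) ^ (∑ j, q j)), mul_assoc]
  · rw [mul_assoc]

theorem kernel_sum (e : ℕ) (C₀ : ℝ) (hC₀ : 0 < C₀) : ∃ U₀ ≥ 1, ∀ J : ℕ, ∃ C > 0,
    ∀ m : ℕ, 1 ≤ m → ∀ U ≥ U₀, ∀ M : ℕ,
      ∑ q ∈ Fintype.piFinset (fun _ : Fin (e + 2) => range (M + 1)),
        (1 / 2 : ℝ) ^ (∑ j, q j) * ((Sdis e m C₀ U q) ^ 2 * Real.exp (2 * Sdis e m C₀ U q)) *
          ∑ l ∈ Finset.Icc ((e + 2) * m - J) ((e + 2) * m + J),
            ∑ s ∈ shps (e + 2) l, (2 : ℝ) ^ (∑ j, min (s j) (q j)) ≤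
      C * (m : ℝ) ^ (e + 1) / (U ^ 2 * (m : ℝ) ^ e) ^ 2 := by
  obtain ⟨C₁, hC₁, H1⟩ := lat_up (e + 1)
  obtain ⟨C₂, hC₂, H2⟩ := lat_down (e + 1)
  have hρ0 : 0 < Real.exp (1 / 8) := Real.exp_pos _
  have hρ1 := P5_rho
  have hsum := P5_summable (4 * (e + 1)) (Real.exp (1 / 8) / 2) (by positivity) (by linarith)
  have hS0 : 0 ≤ ∑' i : ℕ, ((i : ℝ) + 1) ^ (4 * (e + 1)) * (Real.exp (1 / 8) / 2) ^ i :=
    tsum_nonneg fun i => by positivity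
  have htwo := fun (N : ℕ) (F : Finset ℕ) => P5_two_sided
    (fun i : ℕ => ((i : ℝ) + 1) ^ (4 * (e + 1)) * (Real.exp (1 / 8) / 2) ^ i)
    (fun i => by positivity) hsum N F
  generalize (∑' i : ℕ, ((i : ℝ) + 1) ^ (4 * (e + 1)) * (Real.exp (1 / 8) / 2) ^ i) = S at hS0 htwo
  refine ⟨1 + 16 * C₀ * (C₁ * ((e : ℝ) + 3) ^ e), by
    have : 0 ≤ 16 * C₀ * (C₁ * ((e : ℝ) + 3) ^ e) := by positivity
    linarith, fun J => ?_⟩
  refine ⟨C₀ ^ 2 * C₁ ^ 2 * ((2 * J + 1) * (C₂ * ((J : ℝ) + 1) ^ (e + 1) * 2 ^ J)) *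
    Real.exp (1 / 8) * ((e : ℝ) + 3) ^ (e + 1) * (2 * S + 1), by positivity,
    fun m hm U hU M => ?_⟩
  have hterm := fun q => P5_term e m J hm C₀ C₁ C₂ U hC₀ hC₁ hC₂ H1 H2 hU q _ _ rfl rfl
  have hm' : (1 : ℝ) ≤ m := by exact_mod_cast hm
  have hNm : (((e + 2) * m : ℕ) : ℝ) + 1 ≤ ((e : ℝ) + 3) * m := by
    push_cast; nlinarith
  have hU1 : 0 < U := lt_of_lt_of_le (by positivity) hU
  have hKc0 : 0 ≤ C₀ ^ 2 * C₁ ^ 2 / (U ^ 2 * (m : ℝ) ^ e) ^ 2 *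
        ((2 * J + 1) * (C₂ * ((J : ℝ) + 1) ^ (e + 1) * 2 ^ J)) * Real.exp (1 / 8) := by positivity
  have hKeq : C₀ ^ 2 * C₁ ^ 2 * ((2 * J + 1) * (C₂ * ((J : ℝ) + 1) ^ (e + 1) * 2 ^ J)) *
      Real.exp (1 / 8) * ((e : ℝ) + 3) ^ (e + 1) * (2 * S + 1) * (m : ℝ) ^ (e + 1) /
      (U ^ 2 * (m : ℝ) ^ e) ^ 2 =
      ((C₀ ^ 2 * C₁ ^ 2 / (U ^ 2 * (m : ℝ) ^ e) ^ 2 *
        ((2 * J + 1) * (C₂ * ((J : ℝ) + 1) ^ (e + 1) * 2 ^ J)) * Real.exp (1 / 8)) *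
        (((e : ℝ) + 3) ^ (e + 1) * (m : ℝ) ^ (e + 1))) * (2 * S + 1) := by ring
  rw [hKeq]
  generalize C₀ ^ 2 * C₁ ^ 2 / (U ^ 2 * (m : ℝ) ^ e) ^ 2 *
        ((2 * J + 1) * (C₂ * ((J : ℝ) + 1) ^ (e + 1) * 2 ^ J)) * Real.exp (1 / 8) = Kc at *
  -- summation over `q`
  have hmaps : ∀ q ∈ Fintype.piFinset (fun _ : Fin (e + 2) => range (M + 1)),
      (∑ j, q j) ∈ range ((e + 2) * M + 1) := by
    intro q hq
    rw [Fintype.mem_piFinset] at hq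
    rw [mem_range]
    have : ∑ j, q j ≤ ∑ _j : Fin (e + 2), M := sum_le_sum fun j _ => by
      have := hq j
      rw [mem_range] at this
      omega
    simp only [sum_const, card_univ, Fintype.card_fin, smul_eq_mul] at this
    omega
  refine (sum_le_sum fun q _ => hterm q).trans ?_
  rw [← sum_fiberwise_of_maps_to hmaps]
  have hK : ∀ K ∈ range ((e + 2) * M + 1),
      ∑ q ∈ (Fintype.piFinset (fun _ : Fin (e + 2) => range (M + 1))).filter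
          (fun q => ∑ j, q j = K),
        Kc * ((((((e + 2) * m - ∑ j, q j) + (∑ j, q j - (e + 2) * m) : ℕ) : ℝ) + 1) ^ (3 * (e + 1)) *
          (Real.exp (1 / 8) / 2) ^ (((e + 2) * m - ∑ j, q j) + (∑ j, q j - (e + 2) * m))) ≤
      (Kc * (((e : ℝ) + 3) ^ (e + 1) * (m : ℝ) ^ (e + 1))) *
          ((((((e + 2) * m - K) + (K - (e + 2) * m) : ℕ) : ℝ) + 1) ^ (4 * (e + 1)) *
          (Real.exp (1 / 8) / 2) ^ (((e + 2) * m - K) + (K - (e + 2) * m))) := by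
    intro K _
    have e0 : ∑ q ∈ (Fintype.piFinset (fun _ : Fin (e + 2) => range (M + 1))).filter
          (fun q => ∑ j, q j = K),
        Kc * ((((((e + 2) * m - ∑ j, q j) + (∑ j, q j - (e + 2) * m) : ℕ) : ℝ) + 1) ^ (3 * (e + 1)) *
          (Real.exp (1 / 8) / 2) ^ (((e + 2) * m - ∑ j, q j) + (∑ j, q j - (e + 2) * m))) =
        (((Fintype.piFinset (fun _ : Fin (e + 2) => range (M + 1))).filter
          (fun q => ∑ j, q j = K)).card : ℝ) *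
        (Kc * ((((((e + 2) * m - K) + (K - (e + 2) * m) : ℕ) : ℝ) + 1) ^ (3 * (e + 1)) *
          (Real.exp (1 / 8) / 2) ^ (((e + 2) * m - K) + (K - (e + 2) * m)))) := by
      rw [← nsmul_eq_mul, ← sum_const]
      refine sum_congr rfl fun q hq => ?_
      rw [(mem_filter.1 hq).2]
    rw [e0]
    have h1 : (((Fintype.piFinset (fun _ : Fin (e + 2) => range (M + 1))).filter
        (fun q => ∑ j, q j = K)).card : ℝ) ≤ ((K : ℝ) + 1) ^ (e + 1) := by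
      exact_mod_cast card_level (e + 1) M K
    have h2 : (K : ℝ) ≤ (((e + 2) * m : ℕ) : ℝ) +
        ((((e + 2) * m - K) + (K - (e + 2) * m) : ℕ) : ℝ) := by
      have : K ≤ (e + 2) * m + (((e + 2) * m - K) + (K - (e + 2) * m)) := by omega
      exact_mod_cast this
    generalize ((e + 2) * m - K) + (K - (e + 2) * m) = k at *
    have h3 := Nat.cast_nonneg (α := ℝ) k
    have h4 := Nat.cast_nonneg (α := ℝ) ((e + 2) * m)
    have h5 : (K : ℝ) + 1 ≤ (((e : ℝ) + 3) * m) * ((k : ℝ) + 1) := by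
      calc (K : ℝ) + 1 ≤ ((((e + 2) * m : ℕ) : ℝ) + 1) * ((k : ℝ) + 1) := by nlinarith
        _ ≤ _ := mul_le_mul_of_nonneg_right hNm (by linarith)
    have h6 : ((K : ℝ) + 1) ^ (e + 1) ≤
        (((e : ℝ) + 3) ^ (e + 1) * (m : ℝ) ^ (e + 1)) * ((k : ℝ) + 1) ^ (e + 1) := by
      rw [← mul_pow, ← mul_pow]
      exact pow_le_pow_left₀ (by positivity) h5 _
    refine (mul_le_mul_of_nonneg_right (h1.trans h6) (by positivity)).trans (le_of_eq ?_)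
    have e2 : ((k : ℝ) + 1) ^ (4 * (e + 1)) =
        ((k : ℝ) + 1) ^ (e + 1) * ((k : ℝ) + 1) ^ (3 * (e + 1)) := by
      rw [← pow_add]; congr 1; ring
    rw [e2]
    ring
  refine (sum_le_sum hK).trans ?_
  rw [← mul_sum]
  refine mul_le_mul_of_nonneg_left ?_ (by positivity)
  have := htwo ((e + 2) * m) (range ((e + 2) * M + 1))
  linarith

end Pool.Agent.Helper60.SB
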