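import Pool.Agent.Helper21.SB.NBase
import Pool.Agent.Helper21.SB.BaseH

namespace SB

universe u

/-! Statements of modules, used as hypotheses by the dependent modules. -/

def StCls (Γ : Type u) [Group Γ] : Prop :=
  ∀ {p : ℕ}, 0 < p → ∀ {W U : Subgroup Γ} {t : Γ}, IsStep p W U t → ∀ {φ : Γ → ℂ}, Cls W φ →
    Cls U (∑ k ∈ Finset.range p, cj (t ^ k) φ)

def StFin (Γ : Type u) [Group Γ] : Prop :=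
  ∀ {p : ℕ} {W U : Subgroup Γ} {t : Γ}, IsStep p W U t → U.FiniteIndex → W.FiniteIndex

def StInd (Γ : Type u) [Group Γ] : Prop :=
  ∀ {p : ℕ}, 0 < p → ∀ {W U : Subgroup Γ}, U.FiniteIndex → ∀ {t : Γ}, IsStep p W U t →
    ∀ {φ : Γ → ℂ}, Cls W φ → Ind U (∑ k ∈ Finset.range p, cj (t ^ k) φ) = Ind W φ

def StAddit {Γ : Type u} [Group Γ] (D : Sys Γ) : Prop :=
  ∀ {U : Subgroup Γ} (x y : U →* ℤˣ), OpC D U (qc x) → OpC D U (qc y) →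
    (∀ s (h : s ∈ U), s ∈ D.S → ¬ (x ⟨s, h⟩ = -1 ∧ y ⟨s, h⟩ = -1)) →
    Tow 2 ⊥ (BI D) U (ext U 1 + ext U (qc (x * y)) - ext U (qc x) - ext U (qc y))

def StLin {Γ : Type u} [Group Γ] (D : Sys Γ) : Prop :=
  ∀ {U : Subgroup Γ} {φ : Γ → ℂ}, Lin D U φ → φ 1 = 0 → (∀ s ∈ D.S, s ∈ U → φ s = 0) →
    Tow 2 ⊥ (BI D) U φ

def StStable {Γ : Type u} [Group Γ] (D : Sys Γ) : Prop :=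
  ∀ {H U : Subgroup Γ} {t : Γ}, IsStep 2 H U t → ∀ (χ : H →* ℂˣ), OpC D H χ →
    (∀ s (h1 : s ∈ H) (h2 : t⁻¹ * s * t ∈ H), s ∈ D.S → χ ⟨s, h1⟩ = χ ⟨t⁻¹ * s * t, h2⟩) →
    ∃ ψ, Lin D U ψ ∧ Tow 2 ⊥ (BI D) U ((∑ k ∈ Finset.range 2, cj (t ^ k) (ext H χ)) - ψ)

def StDisj {Γ : Type u} [Group Γ] (D : Sys Γ) : Prop :=
  ∀ {H U : Subgroup Γ} {t : Γ}, IsStep 2 H U t → ∀ (x : H →* ℤˣ), OpC D H (qc x) →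
    (∀ s (h1 : s ∈ H) (h2 : t⁻¹ * s * t ∈ H), s ∈ D.S → ¬ (x ⟨s, h1⟩ = -1 ∧ x ⟨t⁻¹ * s * t, h2⟩ = -1)) →
    ∃ ψ, Lin D U ψ ∧ Tow 2 ⊥ (BI D) U ((∑ k ∈ Finset.range 2, cj (t ^ k) (ext H (qc x))) - ψ)

def StStep2 {Γ : Type u} [Group Γ] (D : Sys Γ) : Prop :=
  ∀ {H U : Subgroup Γ} {t : Γ}, IsStep 2 H U t → ∀ (χ : H →* ℂˣ), OpC D H χ →
    ∃ ψ, Lin D U ψ ∧ Tow 2 ⊥ (BI D) U ((∑ k ∈ Finset.range 2, cj (t ^ k) (ext H χ)) - ψ)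

def StSolomon : Prop := ∀ (G : Type u) [Group G] [Finite G], ∃ a : Subgroup G → ℤ,
    (∀ H, a H ≠ 0 → ∃ p : ℕ, p.Prime ∧ Hyp p H) ∧
    ∀ g : G, ∑ᶠ H : Subgroup G, a H * (Nat.card {q : G ⧸ H // g • q = q} : ℤ) = 1

def StSgn : Prop := ∀ (A B : Set ℝ), A.Finite → B.Finite → Disjoint A B →
    ∃ q : Polynomial ℚ, (∀ a ∈ A, Polynomial.aeval a q < 0) ∧ (∀ b ∈ B, 0 < Polynomial.aeval b q)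

def StSqrt : Prop := ∀ (F : IntermediateField ℚ Qb), FiniteDimensional ℚ F → ∀ (κ : Set GQ), κ ⊆ CC →
    (∀ s ∈ κ, s ∈ F.fixingSubgroup) → (∀ s ∈ κ, ∀ u ∈ F.fixingSubgroup, u * s * u⁻¹ ∈ κ) →
    ∃ β : Qb, β ≠ 0 ∧ β ^ 2 ∈ F ∧ ∀ s ∈ CC, s ∈ F.fixingSubgroup → (s β = -β ↔ s ∈ κ)

def StOpen : Prop := ∀ (K : IntermediateField ℚ Qb), FiniteDimensional ℚ K → ∀ (U : Subgroup GQ),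
    K.fixingSubgroup ≤ U →
    ∃ F : IntermediateField ℚ Qb, FiniteDimensional ℚ F ∧ F ≤ K ∧ U = F.fixingSubgroup

def StNAll : Prop :=
  (∀ M ∈ NAll, M.Normal) ∧ (∀ M ∈ NAll, M.FiniteIndex) ∧ (∀ M ∈ NAll, ∀ M' ∈ NAll, M ⊓ M' ∈ NAll) ∧
  (∀ M ∈ NAll, ∀ M' : Subgroup GQ, M'.Normal → M ≤ M' → M' ∈ NAll)

def StCC : Prop :=
  (∀ s ∈ CC, ∀ g : GQ, g * s * g⁻¹ ∈ CC) ∧ (∀ s ∈ CC, ∀ s' ∈ CC, ∃ g : GQ, s' = g * s * g⁻¹) ∧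
  (∀ s ∈ CC, s * s = 1)

def StNtAll : Prop := ∀ M ∈ NAll, ∀ U : Subgroup GQ, M ≤ U → ∀ κ : Set GQ, κ ⊆ CC → (∀ s ∈ κ, s ∈ U) →
    (∀ s ∈ κ, ∀ u ∈ U, u * s * u⁻¹ ∈ κ) →
    ∃ M' ∈ NAll, M' ≤ M ∧ (∀ a ∈ M, a * a ∈ M') ∧ (∀ a ∈ M, ∀ b ∈ M, a * b * a⁻¹ * b⁻¹ ∈ M') ∧
      ∃ x : U →* ℤˣ, (∀ g (h : g ∈ U), g ∈ M' → x ⟨g, h⟩ = 1) ∧
        ∀ s (h : s ∈ U), s ∈ CC → (x ⟨s, h⟩ = -1 ↔ s ∈ κ)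

def StInf : Prop := (∀ M ∈ NSol, ∀ M' ∈ NSol, M ⊓ M' ∈ NSol) ∧ (∀ M ∈ NNil, ∀ M' ∈ NNil, M ⊓ M' ∈ NNil) ∧
  (∀ M ∈ NSol, ∀ M' ∈ NAll, M' ≤ M → (∀ a ∈ M, ∀ b ∈ M, a * b * a⁻¹ * b⁻¹ ∈ M') → M' ∈ NSol)

def StOdd : Prop := ∀ (G : Type) [Group G] [Finite G], Group.IsNilpotent G →
    ∃ O : Subgroup G, O.Normal ∧ Odd (Nat.card O) ∧ (∃ k, ∀ g : G, g ^ (2 ^ k) ∈ O) ∧
      ∀ g ∈ O, ∀ s : G, s * s = 1 → g * s = s * g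

end SB
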