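import Pool.Agent.Helper21.SB.Base

namespace SB

variable {Γ : Type*} [Group Γ]

/-! ### Group A: formalities of induction -/

/-- SB-A1. PROOF of cls_step: support: if g ∉ U then (t^k)⁻¹ g t^k ∉ U ⊇ W. Invariance under u ∈ U: write t^(-k)... : for k < p let u t^k ∈ t^(σ k) W with σ k < p (h.cover applied to u t^k);
σ is a permutation of range p (h.inj, h.norm), and φ((t^k)⁻¹ u⁻¹ g u t^k) = φ(w⁻¹ (t^σk)⁻¹ g t^σk w) = φ((t^σk)⁻¹ g t^σk). -/
theorem cls_step {p : ℕ} (hp : 0 < p) {W U : Subgroup Γ} {t : Γ} (h : IsStep p W U t) {φ : Γ → ℂ} (hφ : Cls W φ) :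
    Cls U (∑ k ∈ Finset.range p, cj (t ^ k) φ) := sorry

/-- SB-A1. The map Γ/U × Fin p → Γ/W, (q,k) ↦ [q.out t^k], is a bijection (see Ind_step). -/
theorem finiteIndex_step {p : ℕ} {W U : Subgroup Γ} {t : Γ} (h : IsStep p W U t) (hU : U.FiniteIndex) :
    W.FiniteIndex := sorry

/-- SB-A1. PROOF: for a W-invariant φ the value φ(x⁻¹ g x) depends only on the coset xW. Γ/U × Fin p → Γ/W, (q,k) ↦ [q.out t^k] is a bijection (surjective: x = q.out u, u ∈ t^k W by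
cover; injective: q is determined, then t^k' ∈ t^k W gives k = k' by inj applied to t^(k'-k)). Both finsums are finite sums over Fintypes; `Fintype.sum_equiv`/`Finset.sum_product`. -/
theorem Ind_step {p : ℕ} (hp : 0 < p) {W U : Subgroup Γ} (hU : U.FiniteIndex) {t : Γ} (h : IsStep p W U t)
    {φ : Γ → ℂ} (hφ : Cls W φ) :
    Ind U (∑ k ∈ Finset.range p, cj (t ^ k) φ) = Ind W φ := sorry

/-- SB-A2. PROOF: induction on h (generalizing; the statement for all U of finite index with P U). First prove `Tow p M (BI D) U φ → Cls U φ` (base: cls_ext, step: cls_step). base: m = 1. zero: m = 0.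
add: Ind is additive (finsum over the finite type Γ/U). neg. step: Ind_step, finiteIndex_step, hP and the induction hypothesis for W. -/
theorem fam_of_tow (D : Sys Γ) {p : ℕ} (hp : 0 < p) {M : Subgroup Γ} (P : Subgroup Γ → Prop)
    (hP : ∀ W U t, IsStep p W U t → P U → P W) {U : Subgroup Γ} (hU : U.FiniteIndex) (hPU : P U) {φ : Γ → ℂ}
    (h : Tow p M (BI D) U φ) : Fam D P (Ind U φ) := sorry

/-- SB-A2. Concatenate the two families (`Fin.append`/`Fin.addCases` or go through a general Fintype index and an equivalence with Fin m). -/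
theorem fam_add (D : Sys Γ) (P : Subgroup Γ → Prop) {v w : Γ → ℂ} (hv : Fam D P v) (hw : Fam D P w) :
    Fam D P (fun g => v g + w g) := sorry

/-- SB-A2 -/
theorem fam_zmul (D : Sys Γ) (P : Subgroup Γ → Prop) {v : Γ → ℂ} (n : ℤ) (hv : Fam D P v) :
    Fam D P (fun g => (n : ℂ) * v g) := sorry

/-- SB-A2 -/
theorem fam_zero (D : Sys Γ) (P : Subgroup Γ → Prop) : Fam D P (fun _ => 0) := sorry

/-! ### Group D: relations between linear characters -/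

/-- SB-D. PROOF: if x * y = 1 then x = y (values ±1), so x = 1 on U ∩ S by hdis, and the expression is 2 (ext 1 - ext (qc x)), twice a base element (`Tow.base`, BI with χ = 1, χ' = qc x).
Otherwise W = {g ∈ U : x g = y g} (as a subgroup of Γ: `Subgroup.map U.subtype (x*y).ker` or defined by hand), pick t ∈ U with x t ≠ y t: IsStep 2 W U t. W contains the intersection M ⊓ M' of
the two members of D.N on which qc x, qc y are trivial. z = restriction of qc x to W. On S ∩ W: x s = y s, so both are 1 by hdis: Sig D W 1 z. So ext W 1 - ext W z ∈ BI D W, and the step gives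
Σ_{k<2} cj (t^k) (ext W 1 - ext W z) ∈ Tow. Pointwise on g ∈ U (W is normal in U; x, y are invariant under conjugation by t): the sum is 2·1_W(g)(1 - x g) = (1 + x g y g)(1 - x g)
= 1 + x y - x - y (as (x g)^2 = 1); outside U both sides vanish. (Mathlib: `Finset.sum_range_succ`, t^0 = 1; `Int.units_eq_one_or`.) -/
theorem addit (D : Sys Γ) {U : Subgroup Γ} (x y : U →* ℤˣ) (hx : OpC D U (qc x)) (hy : OpC D U (qc y))
    (hdis : ∀ s (h : s ∈ U), s ∈ D.S → ¬ (x ⟨s, h⟩ = -1 ∧ y ⟨s, h⟩ = -1)) :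
    Tow 2 ⊥ (BI D) U (ext U 1 + ext U (qc (x * y)) - ext U (qc x) - ext U (qc y)) := sorry

/-- SB-E. PROOF. φ = Σ n_i ext U χ_i. Choose M ∈ D.N, M ≤ U, on which all χ_i are trivial (finite intersection of the members of D.N; if m = 0 then φ = 0). For i let κ_i = {s ∈ S ∩ U : χ_i s = -1} (χ_i s = ±1 as
s² = 1). For P : Finset (Fin m) let κ_P = {s ∈ S ∩ U : ∀ i, s ∈ κ_i ↔ i ∈ P}: stable under U-conjugation and M-saturated, so D.nt gives x_P : U → ℤˣ with x_P s = -1 iff s ∈ κ_P (on S ∩ U).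
Work in the quotient A = (Γ → ℂ) ⧸ towGrp 2 ⊥ (BI D) U (or with congruences). For a finite set 𝒫 of P's: the class of ext U 1 - ext U (qc ∏_{P∈𝒫} x_P) is Σ_{P∈𝒫} μ_P with μ_P = [ext 1 - ext (qc x_P)]
(induction with `addit`: disjointness because the κ_P are disjoint). χ_i and ∏_{P∋i} x_P have the same signature, so [ext U χ_i] = [ext U 1] - Σ_{P∋i} μ_P. Hence
[φ] = (Σ n_i)[ext U 1] - Σ_P (Σ_{i∈P} n_i) μ_P. Σ n_i = φ 1 = 0. If κ_P is empty then μ_P = 0 (same signature as 1). If s ∈ κ_P: 0 = φ s = Σ n_i χ_i s = Σ n_i - 2 Σ_{i∈P} n_i, so Σ_{i∈P} n_i = 0. So [φ] = 0. -/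
theorem lin_zero (D : Sys Γ) {U : Subgroup Γ} {φ : Γ → ℂ} (h : Lin D U φ) (h1 : φ 1 = 0)
    (hS : ∀ s ∈ D.S, s ∈ U → φ s = 0) : Tow 2 ⊥ (BI D) U φ := sorry

/-- SB-F1. PROOF. M ∈ D.N with M ≤ H, χ trivial on M. κ = {s ∈ S ∩ H : χ s = -1}. κ is stable under conjugation by H and, by hst, by t (s ∈ κ iff t⁻¹ s t ∈ κ; note S ∩ U may be larger than S ∩ H but H is normal in U so t⁻¹ s t ∈ H for s ∈ H),
so by U = H ∪ tH; it is M-saturated. D.nt (for M, U, κ) gives y : U → ℤˣ, y s = -1 iff s ∈ κ. So χ and qc y restricted to H have the same signature on H: ext H χ - ext H (qc y|H) ∈ BI D H.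
Step: Σ cj (t^k) (ext H χ) ≡ Σ cj (t^k) (ext H (qc y|H)) = ext U (qc y) + ext U (qc (y * η)), η : U → ℤˣ the character with kernel H (pointwise: on H both give 2 y(g), off H both 0). ψ := this, Lin with m = 2.
Openness of η, y: trivial on members of D.N inside H. -/
theorem step2_stable (D : Sys Γ) {H U : Subgroup Γ} {t : Γ} (h : IsStep 2 H U t) (χ : H →* ℂˣ) (hχ : OpC D H χ)
    (hst : ∀ s (h1 : s ∈ H) (h2 : t⁻¹ * s * t ∈ H), s ∈ D.S → χ ⟨s, h1⟩ = χ ⟨t⁻¹ * s * t, h2⟩) :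
    ∃ ψ, Lin D U ψ ∧ Tow 2 ⊥ (BI D) U ((∑ k ∈ Finset.range 2, cj (t ^ k) (ext H χ)) - ψ) := sorry

/-- SB-F2. PROOF. If x(t⁻¹ g t) = x g for all g ∈ H, use step2_stable. Otherwise let x^t(g) = x(t⁻¹ g t) (a character of H, x^t ≠ x, (x^t)^t = x since t² ∈ H). WLOG x(t²) = -1: if x(t²) = 1, replace t by t h with
h ∈ H, x(h) x^t(h) = -1: (t h)² = t² (t⁻¹ h t) h, x of it is x(t²) x^t(h) x(h) = -1; IsStep 2 H U (t h) still holds, x^{th} = x^t, cj (th) = cj t on functions invariant under H, so the statement is unchanged.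
K₁ = {g ∈ H : x g = x^t g}, W = K₁ ∪ t K₁: a subgroup of U (t normalises K₁, t² ∈ K₁). ψ₀ : W → ℂˣ, ψ₀ k = x k, ψ₀ (t k) = i x k is a homomorphism (ψ₀(t)² = -1 = x(t²); ψ₀(k t) = ψ₀(t (t⁻¹ k t)) = i x^t(k) = i x k). Pick h₀ ∈ H
with x h₀ ≠ x^t h₀. Then IsStep 2 W U h₀ and, pointwise on Γ, ext W ψ₀ + cj h₀ (ext W ψ₀) = ext H x + cj t (ext H x):
 on K₁: 2 x g both; on H \ K₁: 0 and x g + x^t g = 0; on tK₁: ψ₀(tk) + ψ₀(h₀⁻¹ t k h₀) = i x k + i x^t(h₀) x(h₀) x(k) = 0, and 0; elsewhere 0 = 0.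
Signature of ψ₀ on S ∩ W is trivial: s ∈ t K₁ would give ψ₀(s)² = -1 but s² = 1; s ∈ K₁: x s = x^t s, both -1 is excluded by hdis. So ext W ψ₀ - ext W 1 ∈ BI D W, and
Σ cj (t^k) (ext H x) = Σ cj (h₀^k) (ext W ψ₀) ≡ Σ cj (h₀^k) (ext W 1) = ext U 1 + ext U (qc η_W), η_W the sign character of U with kernel W. -/
theorem step2_disj (D : Sys Γ) {H U : Subgroup Γ} {t : Γ} (h : IsStep 2 H U t) (x : H →* ℤˣ) (hx : OpC D H (qc x))
    (hdis : ∀ s (h1 : s ∈ H) (h2 : t⁻¹ * s * t ∈ H), s ∈ D.S → ¬ (x ⟨s, h1⟩ = -1 ∧ x ⟨t⁻¹ * s * t, h2⟩ = -1)) :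
    ∃ ψ, Lin D U ψ ∧ Tow 2 ⊥ (BI D) U ((∑ k ∈ Finset.range 2, cj (t ^ k) (ext H (qc x))) - ψ) := sorry

/-- SB-F. PROOF (from addit, step2_stable, step2_disj). κ = {s ∈ S ∩ H : χ s = -1}, κ₁ = {s ∈ κ : t⁻¹ s t ∈ κ}, κ₂ = κ \ κ₁ (both H-stable and M-saturated: use t² ∈ H and that M, H are normalised by t; κ₁ is t-stable:
for s ∈ κ₁, t⁻¹ s t ∈ κ and t⁻¹(t⁻¹ s t) t = t⁻² s t² ∈ κ as t² ∈ H; for κ₂: s and t⁻¹ s t cannot both be in κ₂). D.nt for H gives x₁, x₂. χ and qc (x₁ * x₂) have the same signature, addit gives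
ext H χ ≡ ext H (qc x₁) + ext H (qc x₂) - ext H 1. Apply Σ cj (t^k) (Tow.step, additive) and step2_stable to qc x₁ and 1, step2_disj to x₂. Lin is closed under sums (concatenate). -/
theorem step2 (D : Sys Γ) {H U : Subgroup Γ} {t : Γ} (h : IsStep 2 H U t) (χ : H →* ℂˣ) (hχ : OpC D H χ) :
    ∃ ψ, Lin D U ψ ∧ Tow 2 ⊥ (BI D) U ((∑ k ∈ Finset.range 2, cj (t ^ k) (ext H χ)) - ψ) := sorry

/-- SB-G1. PROOF. Show by induction on h: ∃ ψ, Lin D U ψ ∧ Tow 2 ⊥ (BI D) U (φ - ψ). base: ψ = φ (M ∈ D.N). zero, add, neg: clear. step: φ ≡ Σ n_i ext W χ_i mod Tow 2 ⊥ (BI D) W, so Σ cj (t^k) φ ≡ Σ n_i Σ_k cj (t^k) (ext W χ_i), use step2.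
Elements of Tow 2 ⊥ (BI D) U vanish at 1 and on S ∩ U (all of S: induction, S is stable under conjugation, ext vanishes off U), so ψ 1 = 0 and ψ s = 0; lin_zero. -/
theorem even_red (D : Sys Γ) {M : Subgroup Γ} (hM : M ∈ D.N) {U : Subgroup Γ} {φ : Γ → ℂ}
    (h : Tow 2 M (BM M) U φ) (h1 : φ 1 = 0) (hS : ∀ s ∈ D.S, s ∈ U → φ s = 0) : Tow 2 ⊥ (BI D) U φ := sorry

/-- SB-G2. PROOF. ε : ⊤ → ℤˣ from D.nt (M, U = ⊤, κ = S): ε s = -1 for all s ∈ S. For W ≤ Γ let 1_W = ext W 1, ε_W = ext W (qc ε|W). Claim by induction on h: for W ≤ U: if Tow p M (BM M) W φ then ∃ a b : ℤ,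
Tow p ⊥ (BI D) W (φ - a 1_W - b ε_W) (and for the step M ≤ W is available). base: φ = ext W χ, χ trivial on M; by hc all s ∈ S ∩ W are congruent mod M so χ s is constant = ±1 on S ∩ W; so χ has the signature of 1 or of ε|W. step W ⊂ U' of index p:
Σ_k cj (t^k) 1_W = Σ_j ext U' (η^j) with η : U' → ℂˣ, η(t^k w) = exp(2πi k/p); η^j(s) = 1 on S (η^j(s)² = 1, η^j(s)^p = 1, p odd) so this is ≡ p 1_{U'}; same for ε_W: Σ_j ext U' (ε η^j) ≡ p ε_{U'}. (Openness: η is trivial on W ≥ M.)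
(Alternatively: direct pointwise identity p 1_W(g) = Σ_j η^j(g).) End: φ ≡ a 1_U + b ε_U; values at 1: a + b = 0. If S ∩ U is nonempty: a - b = 0, so a = b = 0. If S ∩ U is empty: 1_U - ε_U ∈ BI, φ ≡ a (1_U - ε_U) ≡ 0.
Elements of Tow (BI) vanish at 1 and on S. -/
theorem odd_red (D : Sys Γ) {p : ℕ} (hp : p.Prime) (hp2 : p ≠ 2) {M : Subgroup Γ} (hM : M ∈ D.N)
    {U : Subgroup Γ} {φ : Γ → ℂ} (h : Tow p M (BM M) U φ)
    (hc : ∀ s ∈ D.S, ∀ s' ∈ D.S, s ∈ U → s' ∈ U → s⁻¹ * s' ∈ M)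
    (h1 : φ 1 = 0) (hS : ∀ s ∈ D.S, s ∈ U → φ s = 0) : Tow p ⊥ (BI D) U φ := sorry

/-! ### Group H: monomial characters -/

/-- SB-H. See SB-H1..H3 in StubsH.lean. -/
theorem mono {p : ℕ} (hp : p.Prime) {M C U : Subgroup Γ} (hM : M.Normal) (h : AbExt p M C U)
    {V : Type*} [AddCommGroup V] [Module ℂ V] [FiniteDimensional ℂ V] (ρ : U →* (V →ₗ[ℂ] V))
    (hρ : ∀ g (h : g ∈ U), g ∈ M → ρ ⟨g, h⟩ = 1) : Tow p M (BM M) U (trf U ρ) := sorry

/-! ### Group J: Solomon induction -/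

/-- SB-J1. PROOF. R = additive subgroup of functions G → ℤ generated by f_H(g) = #{q ∈ G/H : g q = q}, H p-hyperelementary for some prime p. (1) Subgroups of p-hyperelementary groups are p-hyperelementary; f_H f_K = Σ over G-orbits
of G/H × G/K = Σ f_{stabilizer}, stabilizers are subgroups of conjugates of H (conjugates of Hyp p groups are Hyp p, f depends only on the conjugacy class). So R is closed under multiplication.
(2) For x ∈ G and p prime there is H with Hyp p H and f_H(x) not divisible by p: C = subgroup generated by the p'-part of x (power of x of order prime to p with x^(p^k) in C), N = normalizer of C, x ∈ N, H/C a Sylow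
p-subgroup of N/C containing xC. If x fixes gH, i.e. g⁻¹xg ∈ H, then g⁻¹Cg ≤ H has order prime to p, so it lies in C (H/C is a p-group), so g ∈ N. So f_H(x) = number of fixed points of x on N/H; C acts trivially on N/H,
x acts through a p-element, so f_H(x) ≡ |N/H| mod p (`MulAction.card_modEq_card_fixedPoints`), prime to p.
(3) So for each x the integers f(x), f ∈ R generate ℤ (not in any pℤ): f_x ∈ R with f_x(x) = 1. ∏_x (1 - f_x) = 0 pointwise; expanding, 1 ∈ R. Write 1 = Σ a_H f_H. -/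
theorem solomon (G : Type*) [Group G] [Finite G] : ∃ a : Subgroup G → ℤ,
    (∀ H, a H ≠ 0 → ∃ p : ℕ, p.Prime ∧ Hyp p H) ∧
    ∀ g : G, ∑ᶠ H : Subgroup G, a H * (Nat.card {q : G ⧸ H // g • q = q} : ℤ) = 1 := sorry

/-- SB-J2. PROOF. solomon for G = Γ/M (finite). U_i = comap of H, C_i = comap of the cyclic normal subgroup; Γ/U_i ≃ (Γ/M)/H equivariantly. relIndex C_i U_i = relIndex in G; M.relIndex C_i = card C. Ind U (indicator U v) g =
Σ_{q, q⁻¹ g q ∈ U} v g = v g · #{q : Γ/U fixed by g}. -/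
theorem solomon_pull (M : Subgroup Γ) (hM : M.Normal) (hf : M.FiniteIndex) :
    ∃ (m : ℕ) (a : Fin m → ℤ) (p : Fin m → ℕ) (U C : Fin m → Subgroup Γ),
      (∀ i, (p i).Prime) ∧ (∀ i, AbExt (p i) M (C i) (U i)) ∧
      (∀ i, ∃ z ∈ C i, ∀ c ∈ C i, ∃ k : ℕ, (z ^ k)⁻¹ * c ∈ M) ∧ (∀ i, (M.relIndex (C i)).Coprime (p i)) ∧
      ∀ v : Γ → ℂ, (∀ g x, v (x⁻¹ * g * x) = v g) →
        ∀ g, v g = ∑ i, (a i : ℂ) * Ind (U i) (Set.indicator (U i : Set Γ) v) g := sorry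

/-! ### Group K: assembly -/

/-- SB-K1. PROOF. Let s, s' ∈ S ∩ U. U/C is a p-group (C.relIndex U = p^n) with p odd and s² = 1, so s ∈ C (s^(p^n) ∈ C as C is normal in U of index p^n; p^n odd so s^(p^n) = s). s' = g s g⁻¹ (D.one), so s ∈ M iff s' ∈ M (M normal, D.normal).
If both in M done. Otherwise s ≡ z^a, s' ≡ z^b mod M are elements of order 2 in the cyclic group C/M (finite), which has at most one element of order 2. -/
theorem const_sig (D : Sys Γ) {p : ℕ} (hp : p.Prime) (hp2 : p ≠ 2) {M C U : Subgroup Γ} (hM : M ∈ D.N)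
    (h : AbExt p M C U) (hz : ∃ z ∈ C, ∀ c ∈ C, ∃ k : ℕ, (z ^ k)⁻¹ * c ∈ M) :
    ∀ s ∈ D.S, ∀ s' ∈ D.S, s ∈ U → s' ∈ U → s⁻¹ * s' ∈ M := sorry

/-- SB-K2 (assembly, general): taken by helper21. -/
theorem fam_main (D : Sys Γ) {M : Subgroup Γ} (hM : M ∈ D.N)
    {V₁ : Type*} [AddCommGroup V₁] [Module ℂ V₁] [FiniteDimensional ℂ V₁]
    {V₂ : Type*} [AddCommGroup V₂] [Module ℂ V₂] [FiniteDimensional ℂ V₂]
    (ρ₁ : Γ →* (V₁ →ₗ[ℂ] V₁)) (ρ₂ : Γ →* (V₂ →ₗ[ℂ] V₂))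
    (h₁ : ∀ g ∈ M, ρ₁ g = 1) (h₂ : ∀ g ∈ M, ρ₂ g = 1)
    (hdim : Module.finrank ℂ V₁ = Module.finrank ℂ V₂)
    (htr : ∀ s ∈ D.S, LinearMap.trace ℂ V₁ (ρ₁ s) = LinearMap.trace ℂ V₂ (ρ₂ s)) :
    Fam D (fun _ => True) (fun g => LinearMap.trace ℂ V₁ (ρ₁ g) - LinearMap.trace ℂ V₂ (ρ₂ g)) := sorry

/-- SB-K3 (assembly, abelian normal subgroup of 2-power index): taken by helper21. -/
theorem fam_two (D : Sys Γ) {M C : Subgroup Γ} (hM : M ∈ D.N) (hC : AbExt 2 M C ⊤)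
    (P : Subgroup Γ → Prop) (hP : ∀ W U t, IsStep 2 W U t → P U → P W) (hPt : P ⊤)
    {V₁ : Type*} [AddCommGroup V₁] [Module ℂ V₁] [FiniteDimensional ℂ V₁]
    {V₂ : Type*} [AddCommGroup V₂] [Module ℂ V₂] [FiniteDimensional ℂ V₂]
    (ρ₁ : Γ →* (V₁ →ₗ[ℂ] V₁)) (ρ₂ : Γ →* (V₂ →ₗ[ℂ] V₂))
    (h₁ : ∀ g ∈ M, ρ₁ g = 1) (h₂ : ∀ g ∈ M, ρ₂ g = 1)
    (hdim : Module.finrank ℂ V₁ = Module.finrank ℂ V₂)
    (htr : ∀ s ∈ D.S, LinearMap.trace ℂ V₁ (ρ₁ s) = LinearMap.trace ℂ V₂ (ρ₂ s)) :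
    Fam D P (fun g => LinearMap.trace ℂ V₁ (ρ₁ g) - LinearMap.trace ℂ V₂ (ρ₂ g)) := sorry

end SB
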