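import Pool.Agent.Helper21.SB.BaseH

namespace SB

variable {Γ : Type*} [Group Γ] {V : Type*} [AddCommGroup V] [Module ℂ V]

/-- SB-H1. Trace of an operator preserving N = trace on N + trace on V/N. (Choose a complement / a basis adapted to N; look for `LinearMap.trace_eq_...`,
or use `LinearMap.trace_eq_sum_trace_restrict` with an N-complement: for a projection π onto N along N', tr f = tr (f|N) + tr (f on V/N) because the N' → N block does not contribute.) -/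
theorem trf_split [FiniteDimensional ℂ V] {U : Subgroup Γ} (ρ : U →* (V →ₗ[ℂ] V)) (N : Submodule ℂ V)
    (hN : ∀ u : U, ∀ v ∈ N, ρ u v ∈ N) :
    trf U ρ = trf U (subRep le_rfl ρ N (fun w h v hv => hN ⟨w, h⟩ v hv)) + trf U (quotRep ρ N hN) := sorry

/-- SB-H2. Trace of an induced representation along one step. For g ∈ W every ρ(t^k) N is g-stable (W normal in U) and tr(g | ρ(t^k) N) = tr(t^(-k) g t^k | N)
(`LinearMap.trace_eq_sum_trace_restrict`, `LinearMap.trace_conj`); for g ∈ U \ W, g maps ρ(t^k) N to ρ(t^σ(k)) N with σ k ≠ k, so the trace is 0 (`LinearMap.trace_eq_zero_of_mapsTo_ne`);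
for g ∉ U both sides are 0. -/
theorem trf_ind [FiniteDimensional ℂ V] {p : ℕ} (hp : 0 < p) {W U : Subgroup Γ} {t : Γ} (h : IsStep p W U t)
    (ρ : U →* (V →ₗ[ℂ] V)) (N : Submodule ℂ V) (hN : ∀ w (hw : w ∈ W), ∀ v ∈ N, ρ ⟨w, h.le hw⟩ v ∈ N)
    (hint : DirectSum.IsInternal (fun k : Fin p => N.map (ρ (⟨t, h.mem⟩ ^ (k : ℕ))))) :
    trf U ρ = ∑ k ∈ Finset.range p, cj (t ^ k) (trf W (subRep h.le ρ N hN)) := sorry

/-- SB-H3a. PROOF. If some c ∈ C acts by a non-scalar take A = C (commutators of C lie in M and act trivially). Otherwise let Z = {u ∈ U : ρ u is scalar} ⊇ C, normal in U. If Z = U, every line is stable, so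
irreducibility gives dim V = 1, contradiction. U/Z is a nontrivial quotient of U/C, a finite p-group (C.relIndex U = p^n), so it has a nontrivial centre: a ∈ U \ Z with u a u⁻¹ a⁻¹ ∈ Z for all u ∈ U. A = {a^k z : k ∈ ℤ, z ∈ Z}. -/
theorem exists_A [FiniteDimensional ℂ V] {p : ℕ} (hp : p.Prime) {M C U : Subgroup Γ} (hM : M.Normal) (h : AbExt p M C U)
    (ρ : U →* (V →ₗ[ℂ] V)) (hρ : ∀ g (h : g ∈ U), g ∈ M → ρ ⟨g, h⟩ = 1)
    (hirr : ∀ N : Submodule ℂ V, (∀ u : U, ∀ v ∈ N, ρ u v ∈ N) → N = ⊥ ∨ N = ⊤) (hV : 1 < Module.finrank ℂ V) :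
    ∃ A : Subgroup Γ, C ≤ A ∧ A ≤ U ∧ (∀ u ∈ U, ∀ a ∈ A, u * a * u⁻¹ ∈ A) ∧
      (∀ a b : U, (a : Γ) ∈ A → (b : Γ) ∈ A → ρ a * ρ b = ρ b * ρ a) ∧
      ∃ a : U, (a : Γ) ∈ A ∧ ∀ c : ℂ, ρ a ≠ c • 1 := sorry

/-- SB-H3b. A proper subgroup T ⊇ C of U, U/C a finite p-group, lies in a subgroup W normal of index p in U. (Work in the finite p-group U/C: `IsPGroup`, maximal subgroup containing the image of T: a coatom of the subgroup lattice,
normal by `NormalizerCondition.normal_of_coatom` / nilpotency, index p because the quotient is a p-group without proper subgroups. t = any element of U \ W.) -/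
theorem exists_W {p : ℕ} (hp : p.Prime) {C T U : Subgroup Γ} (hCT : C ≤ T) (hTU : T ≤ U) (hne : T ≠ U)
    (hn : ∀ u ∈ U, ∀ c ∈ C, u * c * u⁻¹ ∈ C) (hidx : ∃ n, C.relIndex U = p ^ n) :
    ∃ (W : Subgroup Γ) (t : Γ), IsStep p W U t ∧ T ≤ W := sorry

/-- SB-H3c. PROOF. For λ : U → ℂ let E λ = {v : ∀ a : U, (a:Γ) ∈ A → ρ a v = λ a • v}. (1) Some E λ ≠ ⊥: a nonzero A-stable subspace of minimal dimension; each ρ a has an eigenvector in it, the eigenspace is A-stable by commutativity,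
so ρ a is scalar on it. (2) ρ u maps E λ onto E (λ^u), λ^u a = λ (u⁻¹ a u). T = {u ∈ U : ρ u E = E} for E = E λ (as Subgroup Γ), A ≤ T. If T = U then E is U-stable, E = ⊤ and all a ∈ A are scalar: contradiction. So T ≠ U.
(3) Given W, t with T ≤ W: N = ⨆_{w ∈ W} ρ w E. Sum of ρ(t^k) N, k < p, is U-stable (cover) and nonzero, so it is ⊤. Independence: the joint eigenspaces for different eigenvalue functions on A are independent
(`Module.End.independent_iInf_maxGenEigenspace_of_forall_mapsTo` and `iSupIndep.mono`, or by hand: apply ∏ (ρ a_i - λ_i)), ρ(t^k) N is the sum of the E(λ^(t^k w)), and the sets {λ^(t^k w) restricted to A : w ∈ W} are disjoint for different k < p: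
λ^(t^k w) = λ^(t^j w') on A gives (t^j w')⁻¹ t^k w ∈ T ≤ W, so t^(k-j) ∈ W, k = j. `DirectSum.isInternal_submodule_iff_iSupIndep_and_iSup_eq_top`. -/
theorem decomp [FiniteDimensional ℂ V] {p : ℕ} (hp : p.Prime) {A U : Subgroup Γ} (hAU : A ≤ U)
    (hn : ∀ u ∈ U, ∀ a ∈ A, u * a * u⁻¹ ∈ A) (ρ : U →* (V →ₗ[ℂ] V))
    (hirr : ∀ N : Submodule ℂ V, (∀ u : U, ∀ v ∈ N, ρ u v ∈ N) → N = ⊥ ∨ N = ⊤) (hV : 1 < Module.finrank ℂ V)
    (hc : ∀ a b : U, (a : Γ) ∈ A → (b : Γ) ∈ A → ρ a * ρ b = ρ b * ρ a)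
    (hs : ∃ a : U, (a : Γ) ∈ A ∧ ∀ c : ℂ, ρ a ≠ c • 1) :
    ∃ T : Subgroup Γ, A ≤ T ∧ T ≤ U ∧ T ≠ U ∧ ∀ (W : Subgroup Γ) (t : Γ) (h : IsStep p W U t), T ≤ W →
      ∃ N : Submodule ℂ V, (∀ w (hw : w ∈ W), ∀ v ∈ N, ρ ⟨w, h.le hw⟩ v ∈ N) ∧
        DirectSum.IsInternal (fun k : Fin p => N.map (ρ (⟨t, h.mem⟩ ^ (k : ℕ)))) := sorry

end SB
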